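import Mathlib
import Pool.Agent.Work.MP_38c61c_al.D5.Defs
import Pool.Agent.Work.MP_38c61c_al.Quad.QGeneric
import Pool.Agent.Work.MP_38c61c_al.Transfer

/-!
Block D5, part X: the context exists over the generic ring `RR 5 V` (localization at 2), and the
bookkeeping from injectivity over this ring to certificates. The items prove
`HG Δ α VP → (earlier statements) → St Δ α VP`.
-/

namespace CSLef.D5

open MvPolynomial Finset

universe u

variable {V : Type} [Fintype V] [DecidableEq V]

/-- a homology 4-sphere with a free involution and a half `VP` of the vertices -/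
structure HG (Δ : Finset (Finset V)) (α : Equiv.Perm V) (VP : Finset V) : Prop where
  hs : IsHomSphere Δ 5
  cs : IsCS Δ α
  vp : ∀ v, v ∈ VP ↔ α v ∉ VP

/-- the generic rows -/
noncomputable def ga (α : Equiv.Perm V) (VP : Finset V) (l : ℕ) (v : V) : RR 5 V :=
  algebraMap (PR 5 V) (RR 5 V) (aP 5 α VP l v)

/-- the generic `μ` -/
noncomputable def gm (V : Type) (l : ℕ) : RR 5 V := algebraMap (PR 5 V) (RR 5 V) (muP l)

/-- the generic `c` -/
noncomputable def gc (v : V) : RR 5 V := algebraMap (PR 5 V) (RR 5 V) (cP v)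

/-- the functional over the residue field -/
noncomputable def gpi (Δ : Finset (Finset V)) (α : Equiv.Perm V) (VP : Finset V) :
    MvPolynomial V (FF 5 V) →ₗ[FF 5 V] FF 5 V :=
  piF Δ 5 (fun l w => toF (pP α VP l w)) (fun l w => FD (DP α VP l w))

/-- a degree functional over the generic ring -/
structure IsDg (Δ : Finset (Finset V)) (α : Equiv.Perm V) (VP : Finset V) (σ : Finset V)
    (dg : MvPolynomial V (RR 5 V) →ₗ[RR 5 V] RR 5 V) : Prop where
  J : ∀ f ∈ Jid Δ (ga α VP) 5, dg f = 0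
  h : ∀ n, n ≠ 5 → ∀ f : MvPolynomial V (RR 5 V), f.IsHomogeneous n → dg f = 0
  t : ∀ f : MvPolynomial V (RR 5 V), f.IsHomogeneous 5 →
    f - C (dg f) * xm (RR 5 V) σ ∈ Jid Δ (ga α VP) 5
  s : dg (xm (RR 5 V) σ) = 1

variable (Δ : Finset (Finset V)) (α : Equiv.Perm V) (VP : Finset V)

/-- Xdg. Proof. `locHyp`, `setupF` (RingR, Generic) give the hypotheses of `top_gen`; that
`xm F σ` is not in the ideal over the residue field is proved inside `cert_generic_q`
(`Quad/QGeneric.lean`: `piF_J`, `piF_facet_ne`). So for `f` homogeneous of degree 5 there is `r` with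
`f - r xm σ ∈ J`. It is unique: if `r xm σ ∈ J`, `r ≠ 0`, then `xm σ ∈ J` by `tors`, and `map_J` gives a
contradiction. Let `dg f` be the `r` of the homogeneous component of degree 5 of `f`: linear by
uniqueness; it kills `J` by `homComp_mem_J`. -/
def StXdg : Prop := ∀ σ ∈ Δ, σ.card = 5 → ∃ dg, IsDg Δ α VP σ dg

/-- Xpi. Link with the functional over the residue field.
Proof. Apply `map_J` to `f - C (dg f) xm σ ∈ J` (homogeneous of degree 5) and `piF_J` (the rows
`rows p` are the reductions of `ga`, see `cert_generic_q` and `inj_generic_q`, `hrows`); nonvanishing is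
`piF_facet_ne`. Last part: `red r = 0` iff `2 ∣ r` (`red_ker`, `red_two`). -/
def StXpi : Prop := ∀ σ ∈ Δ, σ.card = 5 → ∀ dg, IsDg Δ α VP σ dg →
  gpi Δ α VP (xm (FF 5 V) σ) ≠ 0 ∧
  (∀ f : MvPolynomial V (RR 5 V), f.IsHomogeneous 5 →
    gpi Δ α VP (MvPolynomial.map (red 5 V) f) = red 5 V (dg f) * gpi Δ α VP (xm (FF 5 V) σ)) ∧
  (∀ f : MvPolynomial V (RR 5 V), f.IsHomogeneous 5 →
    (gpi Δ α VP (MvPolynomial.map (red 5 V) f) = 0 ↔ (2 : RR 5 V) ∣ dg f))

/-- Xdga. The degree functional is invariant.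
Proof. Let `f = xm σ`, `κ = dg (α f)`. `g ↦ dg (α g)` is linear, kills `J` (`rename_J`), so for `g`
homogeneous of degree 5, `dg (α g) = κ dg g` (apply it to `g - C (dg g) f ∈ J`); `g = α f` gives
`κ^2 = 1`, so `κ = 1` or `κ = -1` (domain). If `κ = -1`: `f + α f` is homogeneous of degree 5 with
`dg = 0`, so it is in `J` (`IsDg.t`); by `star` there is `g` with `f - (g - α g) ∈ J`, and taking the
homogeneous component of degree 5 (`homComp_mem_J`, as in `piF_zero_of_add_rename`) we may assume `g`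
homogeneous of degree 5. Apply `dg`: `1 = dg g - κ dg g = 2 dg g`, impossible, as `2` is not a unit
(`red_two`: `red 1 = 1 ≠ 0`). So `κ = 1`. For other degrees both sides are `0`; sum the homogeneous
components of a general `f` (`sum_homogeneousComponent`). -/
def StXdga : Prop := ∀ σ ∈ Δ, σ.card = 5 → ∀ dg, IsDg Δ α VP σ dg → ∀ f, dg (rename α f) = dg f

/-- XT. The functionals in degree 6.
Proof. Every `f` homogeneous of degree 6 is in `J` (`large_R`), so `f = ∑ Θ_l g_l` modulo `sr`
(`mem_J_iff`), and `dg (g_m)` does not depend on the choice: a relation `∑ Θ_l h_l ∈ sr` has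
`h_l ∈ J` (`syz_J`). Let `T m f = dg (g_m)` for the component of degree 6 of `f`. It is linear, kills
`sr` (the component of degree 6 of an element of `sr` is in `sr`: `mem_sr_iff`), and
`T m (Θ_l f) = [l = m] dg f`: take the component `f_5` of degree 5 of `f`, the component of degree 6 of
`Θ_l f` is `Θ_l f_5` (`homComp_lin_mul` or `mem_J_hom`), and `dg f = dg f_5`. Invariance: apply `α` to
`f = ∑ Θ_l g_l + s`: `α f = ∑ Θ_l (- α g_l) + α s`, and `dg (α g) = dg g`. -/
def StXT : Prop := ∀ σ ∈ Δ, σ.card = 5 → ∀ dg, IsDg Δ α VP σ dg → (∀ f, dg (rename α f) = dg f) →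
  ∃ T : ℕ → MvPolynomial V (RR 5 V) →ₗ[RR 5 V] RR 5 V,
    (∀ m, ∀ f ∈ srIdeal (RR 5 V) Δ, T m f = 0) ∧
    (∀ m < 5, ∀ l < 5, ∀ f, T m (lin (ga α VP l) * f) = if l = m then dg f else 0) ∧
    (∀ m n, n ≠ 6 → ∀ f : MvPolynomial V (RR 5 V), f.IsHomogeneous n → T m f = 0) ∧
    (∀ m < 5, ∀ f, T m (rename α f) = - T m f)

/-- Xnd. Nondegeneracy, and nondegeneracy modulo 2.
Proof. First part: `nondeg_R` (for `g` homogeneous of degree `k`, `g f` is homogeneous of degree 5
with `dg = 0`, so in `J`). Second: `gpi (xm G * map f) = 0` for the faces `G` with `k` vertices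
(`StXpi`), so `map f` is in the ideal over the residue field (`nondeg_pi`), and `lift_J_hom`. -/
def StXnd : Prop := ∀ σ ∈ Δ, σ.card = 5 → ∀ dg, IsDg Δ α VP σ dg →
  (∀ i k, i + k = 5 → ∀ f : MvPolynomial V (RR 5 V), f.IsHomogeneous i →
    (∀ g : MvPolynomial V (RR 5 V), g.IsHomogeneous k → dg (f * g) = 0) → f ∈ Jid Δ (ga α VP) 5) ∧
  (∀ i k, i + k = 5 → ∀ f : MvPolynomial V (RR 5 V), f.IsHomogeneous i →
    (∀ G ∈ Δ, G.card = k → (2 : RR 5 V) ∣ dg (f * xm (RR 5 V) G)) →
    ∃ u : MvPolynomial V (RR 5 V), u.IsHomogeneous i ∧ f - (2 : RR 5 V) • u ∈ Jid Δ (ga α VP) 5)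

/-- Xrelb. The relations modulo 2.
Proof. Follow `inj_Rq` (`Quad/QInjR.lean`) with `d = 5`, `i = 2`, `k = 0`, with the data of
`inj_generic_q`: from `w y ∈ J`, `α y - ε y ∈ J` get `yy u * y^2 ∈ J` (derivations `∂/∂c_u`), then
`piF (map (X v * y^2)) = 0` (`piF_zero_of_add_rename`) and `piF (map (w * X v * y^2)) = 0` (`exact2`).
With `X' = map y`: `derive_m` (for `Con (X v * X'^2)`) gives the hypothesis `hE` of `rel_b1`
(`Quad/QChar2.lean`), and `rel_b1` with `e = 2`, `gs = [p]` gives
`piF (X u * X v * yy p * X') = 0`, i.e. `2 ∣ dg (X u * X v * yy p * y)` by `StXpi`. -/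
def StXrelb : Prop := ∀ σ ∈ Δ, σ.card = 5 → ∀ dg, IsDg Δ α VP σ dg →
  ∀ (ε : RR 5 V) (y : MvPolynomial V (RR 5 V)), ε * ε = 1 → y.IsHomogeneous 2 →
  welA 5 α VP (ga α VP) (gm V) gc * y ∈ Jid Δ (ga α VP) 5 →
  rename α y - ε • y ∈ Jid Δ (ga α VP) 5 →
  ∀ u v p, (2 : RR 5 V) ∣ dg (X u * X v * yy (RR 5 V) α p * y)

/-- Xind. Five distinct columns in `VP` are independent modulo 2; the weights are odd.
Proof. The entries are (for `v ∈ VP`, `l < 5`) the variables `X (Sum.inl (l, Sum.inl v))` of `PR 5 V`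
(`aP`, `pP`), so the determinant `M` is the image of a polynomial `P` of `PR 5 V`, and
`2 ∣ algebraMap P` in `RR 5 V` implies `2 ∣ P` in `PR 5 V` (localization at the prime ideal `(2)`:
`algebraMap` of the complement consists of units). Evaluate the variables at integers: the matrix
entry variables `(l, c' i)` at `1` if `l = i`, else `0` (possible: the `c' i` are distinct): `P` goes to
the determinant of the identity, `1`, not divisible by 2. For the weights: put
`X (Sum.inl (0, inl v)) = 1`, `μ_0 = 1` and all the other variables `0`: the value is `1`. -/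
def StXind : Prop :=
  (∀ c' : Fin 5 → V, Function.Injective c' → (∀ i, c' i ∈ VP) →
    ¬ (2 : RR 5 V) ∣ Matrix.det (fun i l : Fin 5 => ga α VP l (c' i))) ∧
  (∀ v ∈ VP, ¬ (2 : RR 5 V) ∣ ∑ l ∈ range 5, gm V l * ga α VP l v)

/-- Xder. The derivations. Proof. `LD (DP α VP m (Sum.inl v))` and `LD (DcP v)`: the computations are
in the proof of `inj_generic_q` (`Quad/QGeneric.lean`). -/
def StXder : Prop :=
  (∀ m < 5, ∀ v ∈ VP, ∃ δ : Derivation ℤ (RR 5 V) (RR 5 V),
    (∀ l < 5, ∀ u, δ (ga α VP l u) =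
      if m = l then (if u = v then 1 else if u = α v then -1 else 0) else 0) ∧
    (∀ l, δ (gm V l) = 0) ∧ (∀ u, δ (gc u) = 0)) ∧
  (∀ v ∈ VP, ∃ δ : Derivation ℤ (RR 5 V) (RR 5 V), (∀ l u, δ (ga α VP l u) = 0) ∧
    (∀ l, δ (gm V l) = 0) ∧ (∀ u, δ (gc u) = if v = u then 1 else 0))

/-- Xcube. `x^2 + x y + y^2` has only the trivial zero in the residue field.
Proof. Write `x = P/s`, `y = Q/s` with `P, Q, s` in `PR 5 V`, `s` odd (not divisible by 2): then
`2 ∣ P^2 + P Q + Q^2` in `PR 5 V` (as in Xind), so for the reductions `p, q` in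
`MvPolynomial (Om 5 V) (ZMod 2)`: `p^2 + p q + q^2 = 0`. Let `K` be an algebraic closure of `ZMod 2`
and `ω ∈ K` a root of `t^2 + t + 1`; `ω` is not in the image of `ZMod 2`. In the domain
`MvPolynomial _ K`: `(p - ω q)(p - ω^2 q) = p^2 + p q + q^2 = 0` (`ω + ω^2 = -1`, `ω^3 = 1`), so all
coefficients satisfy `p_m = ω q_m` (or all `p_m = ω^2 q_m`), with `p_m, q_m` in the image of `ZMod 2`:
`q_m = 0` and `p_m = 0`. So `p = q = 0`, `2 ∣ P, Q`, `2 ∣ x, y`. -/
def StXcube (V : Type) [Fintype V] [DecidableEq V] : Prop :=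
  ∀ x y : RR 5 V, (2 : RR 5 V) ∣ x ^ 2 + x * y + y ^ 2 →
    (2 : RR 5 V) ∣ x ∧ (2 : RR 5 V) ∣ y

/-- XdualF. Duality over a field, from nondegeneracy on one side. (`F` any field; `I` any ideal,
`e` a linear functional.)
Proof. `M` = the homogeneous polynomials of degree `h`, a finite dimensional space
(`homogeneousSubmodule_fg`). In the dual of `M` let `W` be the subspace of the functionals
`g ↦ e (X * g)`, `X` homogeneous of degree `k`. If `lam` restricted to `M` is not in `W`, there is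
`g ∈ M` annihilated by `W` with `lam g ≠ 0` (finite dimension: `W` is the annihilator of its
coannihilator, `Subspace.dualCoannihilator_dualAnnihilator_eq` or similar). Then `e (X * g) = 0` for
all `X`, so `g ∈ I` by nondegeneracy, so `lam g = 0`: contradiction. -/
def StXdualF : Prop := ∀ {F : Type} [Field F] {V : Type} [Fintype V] [DecidableEq V]
  (I : Ideal (MvPolynomial V F)) (e lam : MvPolynomial V F →ₗ[F] F) (h k : ℕ),
  (∀ g : MvPolynomial V F, g.IsHomogeneous h →
    (∀ f : MvPolynomial V F, f.IsHomogeneous k → e (f * g) = 0) → g ∈ I) →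
  (∀ g ∈ I, g.IsHomogeneous h → lam g = 0) →
  ∃ f : MvPolynomial V F, f.IsHomogeneous k ∧
    ∀ g : MvPolynomial V F, g.IsHomogeneous h → e (f * g) = lam g

/-- Xdual. Duality over the generic ring: every functional killing `J` in degree `h` is
`g ↦ dg (f g)`.
Proof. `F = FF 5 V`. Represent functionals on the homogeneous polynomials of degree `h` by the
functions `cc : Mon V h → R`, `lam_cc g = ∑_(m ∈ Mon V h) cc m * coeff m g` (`R = RR 5 V`; the module
of these functions is finitely generated over the Noetherian ring `R`, for instance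
`(Mon V h → R)` with the finite index type). `M` = those `cc` for which `lam_cc` kills the elements of
`J` homogeneous of degree `h`; `U` = those of the form `cc m = dg (f * monomial m 1)`, `f` homogeneous
of degree `5 - h`. `U ≤ M`; claim `M ≤ U + 2 M`, then `M ≤ U` by Nakayama
(`Submodule.le_of_le_smul_of_le_jacobson_bot`, as in `nak`, `max_eq`). Let `cc ∈ M`, `cb = red ∘ cc`.
`lam_cb` kills the elements of the reduced ideal of degree `h`: such an element lifts to `g`
homogeneous of degree `h`, `g = e + 2 g'`, `e ∈ J` (`lift_J_hom`), `lam_cc g = 2 lam_cc g'`, reduce.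
By `StXdualF` with `e = gpi` (nondegeneracy: `nondeg_pi`) there is `fb` homogeneous of degree `5 - h`
with `gpi (fb * g) = lam_cb g`. Scale by `gpi (xm σ)` (`StXpi`, a nonzero constant) and lift to `f`
homogeneous: `red (dg (f * monomial m 1)) = cb m`, so `cc = (cc - 2 cc'') + 2 cc''` with
`cc - 2 cc'' ∈ U`, and `cc'' ∈ M` because `2 cc'' = cc - u`, `u ∈ U ≤ M`, and `R` is a domain. Finally for
`lam` given take `cc m = lam (monomial m 1)`; for `g` homogeneous of degree `h`,
`lam_cc g = lam g` (`hom_sum_Mon`). -/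
def StXdual : Prop := ∀ σ ∈ Δ, σ.card = 5 → ∀ dg, IsDg Δ α VP σ dg → ∀ h ≤ 5,
  ∀ lam : MvPolynomial V (RR 5 V) →ₗ[RR 5 V] RR 5 V,
  (∀ g ∈ Jid Δ (ga α VP) 5, g.IsHomogeneous h → lam g = 0) →
  ∃ f : MvPolynomial V (RR 5 V), f.IsHomogeneous (5 - h) ∧
    ∀ g : MvPolynomial V (RR 5 V), g.IsHomogeneous h → dg (f * g) = lam g

/-- TateF. Tate cohomology of the quotients by the linear forms, over a field of characteristic 2.
Proof by induction on `j`. Write `W_i = ∑_(v ∈ VP) a_(i v) X_v`, `W_I` the product over `I`; in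
characteristic 2, `Θ_i = W_i + α W_i` (`lin_eq_VP`), `α Θ_i = Θ_i`.
`j = 0`: `f + α f ∈ sr`. For `m ≠ 0` with support a face, `m.mapDomain α ≠ m` (`no_pair`), and the
coefficients of `f` at `m` and `α m` agree (`coeff_rename_inv`); choose one of each pair (see
`star_base`, with a well order on the exponents) to get `g` with
`f - (g + α g) - C (coeff 0 f) ∈ sr` (characteristic 2: signs do not matter).
Step `j → j + 1`: `f + α f = Θ_j h` modulo `J_j` (`J_succ`). Apply `α` and add: `Θ_j (h + α h) ∈ J_j`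
(`rename_J`), so `h + α h ∈ J_j` by `reg_J`. By induction `h = ∑_(I ⊆ range j) β_I W_I + g + α g` modulo
`J_j`. `Θ_j (g + α g) = Θ_j g + α (Θ_j g)`. And modulo `J_j`: `Θ_j W_I = W_j W_I + α (W_j W_I)`, because
`α W_i = W_i + Θ_i`, so `α W_I = W_I` modulo `J_j` and `α (W_j W_I) = (W_j + Θ_j) W_I`. So
`f' = f - Θ_j g - ∑ β_I W_(I ∪ j)` has `f' + α f' ∈ J_j`; by induction
`f' = ∑ β'_I W_I + g' + α g'` modulo `J_j`, and `Θ_j g ∈ J_(j+1)`. -/
def StTateF : Prop := ∀ {V : Type} [Fintype V] [DecidableEq V] {F : Type} [Field F] [CharP F 2]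
  (Δ : Finset (Finset V)) (α : Equiv.Perm V) (VP : Finset V) (a : ℕ → V → F) (d : ℕ),
  IsHomSphere Δ d → IsCS Δ α → (∀ v, v ∈ VP ↔ α v ∉ VP) → (∀ l v, a l (α v) = - a l v) →
  Ind Δ a → ∀ j ≤ d, ∀ f : MvPolynomial V F, f + rename α f ∈ Jid Δ a j →
  ∃ (β : Finset ℕ → F) (g : MvPolynomial V F),
    f - ∑ I ∈ (range j).powerset, C (β I) * ∏ i ∈ I, (∑ v ∈ VP, C (a i v) * X v) -
      (g + rename α g) ∈ Jid Δ a j

/-- Xtate. The Tate property over the generic ring.
Proof. `f` homogeneous of degree `n`, `α f - f ∈ J`: reduce, `fb + α fb` is in the reduced ideal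
(characteristic 2). `StTateF` with `j = 5` (`locHyp.ind`), take the homogeneous component of degree `n`
(`W_I` is homogeneous of degree `|I|`; `homComp_mem_J`; the component of `α g` is `α` of the
component): `fb = ∑_(|I| = n) β_I W_I + gb + α gb` modulo the reduced ideal, `gb` homogeneous. Lift `β`
and `gb` (homogeneous); the difference is homogeneous of degree `n` and reduces into the ideal:
`lift_J_hom` gives `e ∈ J` and `v` homogeneous. -/
def StXtate : Prop := ∀ n, ∀ f : MvPolynomial V (RR 5 V), f.IsHomogeneous n →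
  rename α f - f ∈ Jid Δ (ga α VP) 5 →
  ∃ (β : Finset ℕ → RR 5 V) (g v : MvPolynomial V (RR 5 V)), g.IsHomogeneous n ∧
    v.IsHomogeneous n ∧
    f - ∑ I ∈ (range 5).powersetCard n, C (β I) * ∏ i ∈ I, (∑ v ∈ VP, C (ga α VP i v) * X v) -
      (g + rename α g) - (2 : RR 5 V) • v ∈ Jid Δ (ga α VP) 5

/-- Xall. The context exists. Proof. `exists_facet` for `σ`; put everything together: `dg` from `StXdg`,
`T` from `StXT`, `XH H` for full `H` from `StXdual` with `lam = ph H` (which kills `J`: `ph` does not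
depend on `dg, T, XH`, see `StPh`; here take any datum with the given `Δ, α, VP, a`), extended to all
`g` by homogeneous components (`ph H g = 0` and `dg (XH H * g) = 0` in the other degrees), `0` for the
other sets. `tors`, `syz`: `tors_reg`, `syz_J`; `two`: `2` generates the maximal ideal and is not `0`
(see the proof of `tors`). -/
def StXall : Prop := ∃ D : Dat V (RR 5 V), D.Δ = Δ ∧ D.α = α ∧ D.VP = VP ∧ D.a = ga α VP ∧
  D.μ = gm V ∧ D.c = gc ∧ Ctx D

/-- certificate of injectivity of multiplication by `w ^ k` in degree `i` (as `Cert`, without `c1`) -/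
structure HCert {A : Type*} [CommRing A] (Δ : Finset (Finset V)) (a : ℕ → V → A) (d : ℕ)
    (w : MvPolynomial V A) (i k : ℕ) (g : A) (L : (V →₀ ℕ) → MvPolynomial V A) : Prop where
  hom : ∀ n, (L n).IsHomogeneous i
  c2 : ∀ m ∈ Mon V i, Lam L (i + k) (w ^ k * monomial m 1) - C g * monomial m 1 ∈ Jid Δ a d
  c3 : ∀ l < d, ∀ n', n' + 1 = i + k → ∀ n ∈ Mon V n',
    Lam L (i + k) (lin (a l) * monomial n 1) ∈ Jid Δ a d
  c4 : ∀ n ∈ Mon V (i + k), n.support ∉ Δ → L n ∈ Jid Δ a d

/-- HCmap: specialization, and injectivity from a certificate. Proof. Copy `Cert.map` and `Cert.inj`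
(`Cert.lean`); the latter does not use `c1`, and `i + k ≥ 1` suffices for `hik`. -/
def StHCmap : Prop := ∀ {V : Type} [Fintype V] [DecidableEq V] {A : Type} {B : Type u} [CommRing A] [Field B]
  (ψ : A →+* B) (Δ : Finset (Finset V)), (∀ F ∈ Δ, ∀ G, G ⊆ F → G ∈ Δ) →
  ∀ (a : ℕ → V → A) (d : ℕ) (w : MvPolynomial V A) (i k : ℕ) (g : A)
  (L : (V →₀ ℕ) → MvPolynomial V A), HCert Δ a d w i k g L → 1 ≤ i + k → w.IsHomogeneous 1 →
  ψ g ≠ 0 → ∀ x : MvPolynomial V B, x.IsHomogeneous i →
  (MvPolynomial.map ψ w) ^ k * x ∈ Jid Δ (fun l v => ψ (a l v)) d →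
  x ∈ Jid Δ (fun l v => ψ (a l v)) d

/-- HCex: existence of a certificate of injectivity over the generic ring from injectivity over the
fraction field.
Proof. Over the field `K`: `M_n` = homogeneous polynomials of degree `n`, `J_n` its intersection with
the ideal `JK`, `A_n = M_n / J_n`. Multiplication by `wK^k` is an injective linear map `A_i → A_(i+k)`,
so it has a left inverse `ρ` (`LinearMap.exists_leftInverse_of_injective`); compose with a linear
section `A_i → M_i` and the projection `M_(i+k) → A_(i+k)`: a linear map `λ : M_(i+k) → M_i` which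
kills `J_(i+k)` and satisfies `λ (wK^k m) - m ∈ JK` for `m ∈ M_i`. Put `x n = λ (monomial n 1)` for
`n ∈ Mon V (i + k)`. Then as in `cert_exists` (`Cert.lean`): clear denominators (`den_poly`), the three
families `c2`, `c3`, `c4` hold over `K`, and `descend_finset` gives them over `A` after multiplication
with nonzero elements. -/
def StHCex : Prop := ∀ {V : Type} [Fintype V] [DecidableEq V] {A K : Type} [CommRing A] [IsDomain A]
  [Field K] (φ : A →+* K), Den φ → ∀ (Δ : Finset (Finset V)), (∀ F ∈ Δ, ∀ G, G ⊆ F → G ∈ Δ) →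
  ∀ (a : ℕ → V → A) (d : ℕ) (w : MvPolynomial V A) (i k : ℕ), 1 ≤ i + k → w.IsHomogeneous 1 →
  (∀ x : MvPolynomial V K, x.IsHomogeneous i →
    (MvPolynomial.map φ w) ^ k * x ∈ Jid Δ (fun l v => φ (a l v)) d →
    x ∈ Jid Δ (fun l v => φ (a l v)) d) →
  ∃ g : A, g ≠ 0 ∧ ∃ L : (V →₀ ℕ) → MvPolynomial V A, HCert Δ a d w i k g L

/-- Gen. Generic weak Lefschetz property from injectivity over the generic ring in degree 2, in a form
that specializes to every field.
Proof. As `generic_bij_q` and `cert_generic_q` (`Quad/QGeneric.lean`). (a) `i = 2`, `k = 1`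
(`2 + 1 + 2 = 5`): `cert_exists` (injectivity from the hypothesis by `k_inj`, surjectivity by
`k_surj`) gives a certificate, hence injectivity and surjectivity at `ψ` with `ψ g ≠ 0` (`Cert.inj`,
`Cert.surj`; `w^1 = w`). (b) `i = 0, 1`: over `RR 5 V`, if `w x ∈ J`, `x` homogeneous of degree `i`,
then for `g` homogeneous of degree `2 - i`, `w (g x) ∈ J`, so `g x ∈ J`; hence `g' x ∈ J` for all `g'`
homogeneous of degree `5 - i` (sums of multiples of products of such `g`) and `x ∈ J` by `nondeg_R`.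
`k_inj` moves this to the fraction field, `StHCex` gives a certificate over `PR 5 V`, `StHCmap`
injectivity at `ψ`. (c) everything of degree at least 6 is in the ideal: as in `generic_bij_q`. -/
def StGen : Prop :=
  (∀ x : MvPolynomial V (RR 5 V), x.IsHomogeneous 2 →
    welA 5 α VP (ga α VP) (gm V) gc * x ∈ Jid Δ (ga α VP) 5 → x ∈ Jid Δ (ga α VP) 5) →
  ∃ g : PR 5 V, g ≠ 0 ∧ ∀ {k : Type u} [Field k] (ψ : PR 5 V →+* k), ψ g ≠ 0 →
    (∀ i ≤ 2, ∀ x : MvPolynomial V k, x.IsHomogeneous i →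
      MvPolynomial.map ψ (wP 5 α VP) * x ∈ Jid Δ (fun l v => ψ (aP 5 α VP l v)) 5 →
      x ∈ Jid Δ (fun l v => ψ (aP 5 α VP l v)) 5) ∧
    (∀ y : MvPolynomial V k, y.IsHomogeneous 3 → ∃ x : MvPolynomial V k,
      x.IsHomogeneous 2 ∧ MvPolynomial.map ψ (wP 5 α VP) * x - y ∈
        Jid Δ (fun l v => ψ (aP 5 α VP l v)) 5) ∧
    (∀ n, 5 < n → ∀ f : MvPolynomial V k, f.IsHomogeneous n →
      f ∈ Jid Δ (fun l v => ψ (aP 5 α VP l v)) 5)

/-- Trans. Transfer to generic antisymmetric parameters and the sum of all variables, over a field of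
characteristic 0.
Proof. Copy `transfer` (`Transfer.lean`) with `e = 1` only: `Φ = PsiP VP p g`, the same rescaling
(`scale`, `scale_J_iff`, `two_wP`). Let `J = Jid Δ (rowN A) 5`, `w` the sum of the variables. From the
three facts of `StGen` for `ψ = psiA VP p A` get the same three facts for `J` and `w` (injectivity for
`i ≤ 2`, surjectivity `2 → 3`, everything in degrees `> 5`). Then for `i ≤ 2` the first alternative; for
`i ≥ 2` the map from degree `i` to `i + 1` is surjective by induction: a homogeneous polynomial of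
degree `i + 2` is a sum of `X_v y_v` with `y_v` homogeneous of degree `i + 1` (`hom_split`), and
`y_v = w x_v` modulo `J`. -/
def StTrans : Prop := ∀ {k : Type u} [Field k] [CharZero k], ∀ g : PR 5 V, g ≠ 0 →
  (∀ ψ : PR 5 V →+* k, ψ g ≠ 0 →
    (∀ i ≤ 2, ∀ x : MvPolynomial V k, x.IsHomogeneous i →
      MvPolynomial.map ψ (wP 5 α VP) * x ∈ Jid Δ (fun l v => ψ (aP 5 α VP l v)) 5 →
      x ∈ Jid Δ (fun l v => ψ (aP 5 α VP l v)) 5) ∧
    (∀ y : MvPolynomial V k, y.IsHomogeneous 3 → ∃ x : MvPolynomial V k,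
      x.IsHomogeneous 2 ∧ MvPolynomial.map ψ (wP 5 α VP) * x - y ∈
        Jid Δ (fun l v => ψ (aP 5 α VP l v)) 5) ∧
    (∀ n, 5 < n → ∀ f : MvPolynomial V k, f.IsHomogeneous n →
      f ∈ Jid Δ (fun l v => ψ (aP 5 α VP l v)) 5)) →
  ∃ Φ : MvPolynomial (Fin 5 × V) k,
    (∃ A : Fin 5 → V → k, (∀ l v, A l (α v) = - A l v) ∧ eval (fun q => A q.1 q.2) Φ ≠ 0) ∧
    ∀ A : Fin 5 → V → k, (∀ l v, A l (α v) = - A l v) → eval (fun q => A q.1 q.2) Φ ≠ 0 →
      (∀ i, (∀ x ∈ gr (Jid Δ (rowN A) 5) i,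
          Ideal.Quotient.mk _ (wsum V k) * x = 0 → x = 0) ∨
        (∀ y ∈ gr (Jid Δ (rowN A) 5) (i + 1), ∃ x ∈ gr (Jid Δ (rowN A) 5) i,
          Ideal.Quotient.mk _ (wsum V k) * x = y)) ∧
      (∀ n, 5 < n → ∀ f : MvPolynomial V k, f.IsHomogeneous n → f ∈ Jid Δ (rowN A) 5)

end CSLef.D5
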