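import Mathlib
import Pool.Agent.Work.MP_38c61c_al.D5.StmtsX

/-!
Block D5, item HCex (helper64): existence of a certificate of injectivity.
-/

namespace CSLef.D5

open MvPolynomial Finset

namespace IHCex

/-- a generalized inverse -/
theorem geninv {K E F : Type} [Field K] [AddCommGroup E] [Module K E] [AddCommGroup F]
    [Module K F] (T : E →ₗ[K] F) : ∃ lam : F →ₗ[K] E, ∀ x, T (lam (T x)) = T x := by
  obtain ⟨s, hs⟩ := LinearMap.exists_rightInverse_of_surjective T.rangeRestrict
    T.range_rangeRestrict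
  obtain ⟨lam, hlam⟩ := LinearMap.exists_extend s
  refine ⟨lam, fun x => ?_⟩
  have h1 : lam (T x) = s ⟨T x, LinearMap.mem_range_self T x⟩ :=
    LinearMap.congr_fun hlam ⟨T x, LinearMap.mem_range_self T x⟩
  rw [h1]
  have h2 := LinearMap.congr_fun hs ⟨T x, LinearMap.mem_range_self T x⟩
  exact congrArg Subtype.val h2

theorem exists_lam {V K : Type} [Field K] (J : Ideal (MvPolynomial V K)) (u : MvPolynomial V K)
    (i : ℕ) (hinj : ∀ x : MvPolynomial V K, x.IsHomogeneous i → u * x ∈ J → x ∈ J) :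
    ∃ lam : MvPolynomial V K →ₗ[K] MvPolynomial V K, (∀ f, (lam f).IsHomogeneous i) ∧
      (∀ f ∈ J, lam f = 0) ∧
      ∀ x : MvPolynomial V K, x.IsHomogeneous i → lam (u * x) - x ∈ J := by
  obtain ⟨lam, hlam⟩ := geninv ((J.restrictScalars K).mkQ ∘ₗ (LinearMap.mulLeft K u) ∘ₗ
    (homogeneousSubmodule V K i).subtype)
  refine ⟨(homogeneousSubmodule V K i).subtype ∘ₗ lam ∘ₗ (J.restrictScalars K).mkQ,
    fun f => ?_, fun f hf => ?_, fun x hx => ?_⟩
  · exact (mem_homogeneousSubmodule i _).1 (lam ((J.restrictScalars K).mkQ f)).2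
  · have h1 : (J.restrictScalars K).mkQ f = 0 := by
      rw [Submodule.mkQ_apply, Submodule.Quotient.mk_eq_zero]
      exact hf
    rw [LinearMap.comp_apply, LinearMap.comp_apply, h1, map_zero, map_zero]
  · have h1 := hlam ⟨x, (mem_homogeneousSubmodule i x).2 hx⟩
    have h2 : (J.restrictScalars K).mkQ (u * ((lam ((J.restrictScalars K).mkQ (u * x)) :
        homogeneousSubmodule V K i) : MvPolynomial V K)) =
        (J.restrictScalars K).mkQ (u * x) := h1
    rw [← sub_eq_zero, ← map_sub, ← mul_sub, Submodule.mkQ_apply,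
      Submodule.Quotient.mk_eq_zero] at h2
    refine hinj _ ?_ h2
    exact ((mem_homogeneousSubmodule i _).1 (lam ((J.restrictScalars K).mkQ (u * x))).2).sub hx

theorem Lam_eq {V : Type} [Fintype V] [DecidableEq V] {K : Type} [Field K] (lam : MvPolynomial V K →ₗ[K] MvPolynomial V K) {n : ℕ}
    {f : MvPolynomial V K} (hf : f.IsHomogeneous n) :
    Lam (fun m => lam (monomial m 1)) n f = lam f := by
  conv_rhs => rw [hom_sum_Mon hf]
  unfold Lam
  rw [map_sum]
  refine Finset.sum_congr rfl fun m _ => ?_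
  rw [← smul_eq_C_mul, ← smul_eq_C_mul, map_smul]

end IHCex

theorem pr_HCex : StHCex := by
  intro V _ _ A K _ _ _ φ hφ Δ hdown a d w i k hik hw hinj
  set JK := Jid Δ (fun l v => φ (a l v)) d with hJK
  set wK := MvPolynomial.map φ w with hwK
  obtain ⟨lam, hl1, hl2, hl3⟩ := IHCex.exists_lam JK (wK ^ k) i hinj
  obtain ⟨s0, hs0, hL⟩ := den_poly hφ (Mon V (i + k)) (fun n => lam (monomial n 1))
  have hL' : ∀ n : V →₀ ℕ, ∃ f' : MvPolynomial V A, f'.IsHomogeneous i ∧
      (n ∈ Mon V (i + k) → C (φ s0) * lam (monomial n 1) = MvPolynomial.map φ f') := by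
    intro n
    by_cases hn : n ∈ Mon V (i + k)
    · obtain ⟨f', hf'⟩ := hL n hn
      refine ⟨f', ?_, fun _ => hf'⟩
      apply map_hom_iff hφ
      rw [← hf']
      have := (isHomogeneous_C V (φ s0)).mul (hl1 (monomial n 1))
      rwa [zero_add] at this
    · exact ⟨0, isHomogeneous_zero _ _ _, fun h => absurd h hn⟩
  choose L0 hL0 hL0' using hL'
  -- the value of `Lam L0` over the field
  have hG : ∀ f : MvPolynomial V A, f.IsHomogeneous (i + k) →
      MvPolynomial.map φ (Lam L0 (i + k) f) = C (φ s0) * lam (MvPolynomial.map φ f) := by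
    intro f hf
    rw [← IHCex.Lam_eq lam (hf.map φ), map_Lam]
    unfold Lam
    rw [Finset.mul_sum]
    refine Finset.sum_congr rfl fun m hm => ?_
    show C (coeff m (MvPolynomial.map φ f)) * MvPolynomial.map φ (L0 m) =
      C (φ s0) * (C (coeff m (MvPolynomial.map φ f)) * lam (monomial m 1))
    rw [← hL0' m hm]
    ring
  have hZ : ∀ f : MvPolynomial V A, f.IsHomogeneous (i + k) → MvPolynomial.map φ f ∈ JK →
      MvPolynomial.map φ (Lam L0 (i + k) f) ∈ JK := by
    intro f hf hfJ
    rw [hG f hf, hl2 _ hfJ, mul_zero]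
    exact Ideal.zero_mem _
  obtain ⟨s2, hs2, h2⟩ := descend_finset hφ hdown (a := a) (j := d) (Mon V i)
    (fun m => Lam L0 (i + k) (w ^ k * monomial m 1) - C s0 * monomial m 1) (by
      intro m hm
      have hmh : (w ^ k * monomial m 1 : MvPolynomial V A).IsHomogeneous (i + k) := by
        have := (hw.pow k).mul (monomial_hom hm (1 : A))
        rwa [one_mul, add_comm] at this
      have e1 : MvPolynomial.map φ (w ^ k * monomial m 1) = wK ^ k * monomial m 1 := by
        rw [map_mul, map_pow, map_mon_one]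
      have e2 : MvPolynomial.map φ (C s0 * monomial m 1) = C (φ s0) * monomial m 1 := by
        rw [map_mul, map_C, map_mon_one]
      rw [map_sub, hG _ hmh, e1, e2, ← mul_sub]
      exact Ideal.mul_mem_left _ _ (hl3 _ (monomial_hom hm 1)))
  obtain ⟨s3, hs3, h3⟩ := descend_finset hφ hdown (a := a) (j := d)
    ((range d) ×ˢ (Mon V (i + k - 1)))
    (fun q => Lam L0 (i + k) (lin (a q.1) * monomial q.2 1)) (by
      rintro ⟨l, n⟩ hq
      rw [Finset.mem_product] at hq
      apply hZ
      · have hlin : (lin (a l)).IsHomogeneous 1 := by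
          unfold lin
          apply IsHomogeneous.sum
          intro v _
          rw [show 1 = 0 + 1 from rfl]
          exact (isHomogeneous_C V _).mul (isHomogeneous_X A v)
        have h5 := hlin.mul (monomial_hom hq.2 (1 : A))
        have e : 1 + (i + k - 1) = i + k := by omega
        rw [e] at h5
        exact h5
      · rw [map_mul]
        exact Ideal.mul_mem_right _ _ (map_J φ hdown (lin_mem_J (Finset.mem_range.mp hq.1))))
  obtain ⟨s4, hs4, h4⟩ := descend_finset hφ hdown (a := a) (j := d)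
    ((Mon V (i + k)).filter (fun n => n.support ∉ Δ)) L0 (by
      intro n hn
      rw [Finset.mem_filter] at hn
      have := hZ (monomial n 1) (monomial_hom hn.1 1)
        (map_J φ hdown (sr_le_J d (monomial_mem_sr n 1 hn.2)))
      rwa [Lam_monomial L0 hn.1] at this)
  refine ⟨s2 * s3 * s4 * s0, mul_ne_zero (mul_ne_zero (mul_ne_zero hs2 hs3) hs4) hs0,
    fun n => C (s2 * s3 * s4) * L0 n, ?_⟩
  have hLam : ∀ f : MvPolynomial V A, Lam (fun n => C (s2 * s3 * s4) * L0 n) (i + k) f =
      C (s2 * s3 * s4) * Lam L0 (i + k) f := by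
    intro f
    unfold Lam
    rw [Finset.mul_sum]
    apply Finset.sum_congr rfl
    intro m _
    ring
  constructor
  · intro n
    have := (isHomogeneous_C V (s2 * s3 * s4)).mul (hL0 n)
    rwa [zero_add] at this
  · intro m hm
    have h5 := Ideal.mul_mem_left _ (C (s3 * s4)) (h2 m hm)
    rw [hLam]
    have e : C (s2 * s3 * s4) * Lam L0 (i + k) (w ^ k * monomial m 1) -
        C (s2 * s3 * s4 * s0) * monomial m 1 =
        C (s3 * s4) * (C s2 * (Lam L0 (i + k) (w ^ k * monomial m 1) - C s0 * monomial m 1)) := by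
      simp only [map_mul]
      ring
    rw [e]
    exact h5
  · intro l hl n' hn' n hn
    have hn2 : n ∈ Mon V (i + k - 1) := by
      have : n' = i + k - 1 := by omega
      rwa [← this]
    have h5 := Ideal.mul_mem_left _ (C (s2 * s4))
      (h3 (l, n) (Finset.mem_product.mpr ⟨Finset.mem_range.mpr hl, hn2⟩))
    rw [hLam]
    have e : C (s2 * s3 * s4) * Lam L0 (i + k) (lin (a l) * monomial n 1) =
        C (s2 * s4) * (C s3 * Lam L0 (i + k) (lin (a l) * monomial n 1)) := by
      simp only [map_mul]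
      ring
    rw [e]
    exact h5
  · intro n hn hns
    have h5 := Ideal.mul_mem_left _ (C (s2 * s3)) (h4 n (Finset.mem_filter.mpr ⟨hn, hns⟩))
    have e : C (s2 * s3 * s4) * L0 n = C (s2 * s3) * (C s4 * L0 n) := by
      simp only [map_mul]
      ring
    show C (s2 * s3 * s4) * L0 n ∈ _
    rw [e]
    exact h5

end CSLef.D5
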