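import Mathlib
import Pool.Agent.Work.MP_38c61c_al.D5.StmtsX

namespace CSLef.D5

open MvPolynomial Finset

universe u

namespace IHCmap

variable {V : Type} [Fintype V] [DecidableEq V]

theorem mapH {A B : Type*} [CommRing A] [Field B] (ψ : A →+* B) {Δ : Finset (Finset V)}
    {a : ℕ → V → A} {d : ℕ} {w : MvPolynomial V A} {i k : ℕ} {g : A}
    {L : (V →₀ ℕ) → MvPolynomial V A} (hdown : ∀ F ∈ Δ, ∀ G, G ⊆ F → G ∈ Δ)
    (h : HCert Δ a d w i k g L) :
    HCert Δ (fun l v => ψ (a l v)) d (MvPolynomial.map ψ w) i k (ψ g)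
      (fun m => MvPolynomial.map ψ (L m)) where
  hom := fun n => (h.hom n).map ψ
  c2 := by
    intro m hm
    have := map_J ψ hdown (h.c2 m hm)
    rw [map_sub, map_mul, map_Lam, map_mul, map_pow, map_C, map_mon_one] at this
    exact this
  c3 := by
    intro l hl n' hn' n hn
    have := map_J ψ hdown (h.c3 l hl n' hn' n hn)
    rw [map_Lam, map_mul, map_lin, map_mon_one] at this
    exact this
  c4 := by
    intro n hn hns
    exact map_J ψ hdown (h.c4 n hn hns)

theorem injH {B : Type*} [Field B] {Δ : Finset (Finset V)}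
    {a : ℕ → V → B} {d : ℕ} {w : MvPolynomial V B} {i k : ℕ} {g : B}
    {L : (V →₀ ℕ) → MvPolynomial V B}
    (h : HCert Δ a d w i k g L) (hg : g ≠ 0)
    (hdown : ∀ F ∈ Δ, ∀ G, G ⊆ F → G ∈ Δ) (hik : 1 ≤ i + k)
    (hw : w.IsHomogeneous 1) {x : MvPolynomial V B} (hx : x.IsHomogeneous i)
    (hwx : w ^ k * x ∈ Jid Δ a d) : x ∈ Jid Δ a d := by
  have hkill : ∀ y : MvPolynomial V B, y.IsHomogeneous (i + k) → y ∈ Jid Δ a d →
      Lam L (i + k) y ∈ Jid Δ a d := by
    intro y hy hyJ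
    obtain ⟨n', hn'⟩ : ∃ n', n' + 1 = i + k := ⟨i + k - 1, by omega⟩
    rw [← hn'] at hy
    obtain ⟨G, hG1, hG2⟩ := mem_J_hom hdown hyJ hy
    set h0 := y - ∑ l ∈ range d, lin (a l) * G l with hh0
    have hy2 : y = h0 + ∑ l ∈ range d, lin (a l) * G l := by rw [hh0]; ring
    rw [hy2, Lam_add, Lam_sum]
    apply Ideal.add_mem
    · unfold Lam
      apply Ideal.sum_mem
      intro m hm
      by_cases hc : coeff m h0 = 0
      · rw [hc, map_zero, zero_mul]; exact Ideal.zero_mem _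
      · exact Ideal.mul_mem_left _ _ (h.c4 m hm ((mem_sr_iff hdown _).mp hG2 m hc))
    · apply Ideal.sum_mem
      intro l hl
      rw [hom_sum_Mon (hG1 l), Finset.mul_sum, Lam_sum]
      apply Ideal.sum_mem
      intro m hm
      rw [mul_left_comm, Lam_C_mul]
      exact Ideal.mul_mem_left _ _ (h.c3 l (Finset.mem_range.mp hl) n' hn' m hm)
  have h1 : Lam L (i + k) (w ^ k * x) - C g * x ∈ Jid Δ a d := by
    rw [hom_sum_Mon hx, Finset.mul_sum, Lam_sum, Finset.mul_sum, ← Finset.sum_sub_distrib]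
    apply Ideal.sum_mem
    intro m hm
    rw [mul_left_comm, Lam_C_mul]
    have := Ideal.mul_mem_left _ (C (coeff m x)) (h.c2 m hm)
    convert this using 1
    ring
  have hwxh : (w ^ k * x).IsHomogeneous (i + k) := by
    have := (hw.pow k).mul hx
    rwa [one_mul, add_comm] at this
  have h2 := Ideal.sub_mem _ (hkill _ hwxh hwx) h1
  rw [sub_sub_cancel] at h2
  have h3 := Ideal.mul_mem_left _ (C g⁻¹) h2
  have e2 : (C g⁻¹ * C g : MvPolynomial V B) = 1 := by
    rw [← map_mul, inv_mul_cancel₀ hg, map_one]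
  rw [← mul_assoc, e2, one_mul] at h3
  exact h3

end IHCmap

theorem pr_HCmap : StHCmap.{u} := by
  intro V _ _ A B _ _ ψ Δ hdown a d w i k g L h hik hw hg x hx hwx
  exact IHCmap.injH (IHCmap.mapH ψ hdown h) hg hdown hik (hw.map ψ) hx hwx

end CSLef.D5
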