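import Mathlib
import Pool.Agent.Work.MP_38c61c_al.D5.StmtsX

/-!
Block D5, item TateF: Tate cohomology of the quotients by the linear forms in characteristic 2.
-/

namespace CSLef.D5

open MvPolynomial Finset

namespace ITateF

variable {V : Type} [Fintype V] [DecidableEq V] {F : Type} [Field F] [CharP F 2]
variable {Δ : Finset (Finset V)} {α : Equiv.Perm V} {VP : Finset V} {a : ℕ → V → F} {d : ℕ}

omit [Fintype V] [DecidableEq V] in
theorem poly_two (p : MvPolynomial V F) : p + p = 0 := by
  have h : (2 : MvPolynomial V F) = 0 := by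
    have h1 : ((2 : F)) = 0 := CharTwo.two_eq_zero
    have h2 : (C (2 : F) : MvPolynomial V F) = 2 := map_ofNat C 2
    rw [← h2, h1, map_zero]
  rw [← two_mul, h, zero_mul]

theorem base (hα : IsCS Δ α) (hdown : ∀ F ∈ Δ, ∀ G, G ⊆ F → G ∈ Δ) {f : MvPolynomial V F}
    (hf : f + rename α f ∈ srIdeal F Δ) (h0 : coeff 0 f = 0) :
    ∃ g, f - (g + rename α g) ∈ srIdeal F Δ := by
  classical
  let r : (V →₀ ℕ) → (V →₀ ℕ) → Prop := WellOrderingRel
  have hr : IsWellOrder (V →₀ ℕ) r := WellOrderingRel.isWellOrder
  let g : MvPolynomial V F := ∑ m ∈ f.support, if r m (m.mapDomain α) then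
    monomial m (coeff m f) else 0
  have hg : ∀ m, coeff m g = if r m (m.mapDomain α) then coeff m f else 0 := by
    intro m
    simp only [g, coeff_sum]
    have h1 : ∀ m' ∈ f.support, coeff m (if r m' (m'.mapDomain α) then
        monomial m' (coeff m' f) else 0) =
        if m' = m then (if r m (m.mapDomain α) then coeff m f else 0) else 0 := by
      intro m' _
      by_cases hm : m' = m
      · subst hm
        rw [if_pos rfl]
        split_ifs
        · rw [coeff_monomial, if_pos rfl]
        · rw [coeff_zero]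
      · rw [if_neg hm]
        split_ifs
        · rw [coeff_monomial, if_neg hm]
        · rw [coeff_zero]
    rw [Finset.sum_congr rfl h1, Finset.sum_ite_eq' f.support m]
    split_ifs with h3 h4 h4
    · rfl
    · rfl
    · exact (notMem_support_iff.mp h3).symm
    · rfl
  refine ⟨g, ?_⟩
  rw [mem_sr_iff hdown] at hf ⊢
  intro m hm hmem
  apply hm
  have hinv := hα.invol
  have hmm : (m.mapDomain α).mapDomain α = m := by
    rw [← Finsupp.mapDomain_comp]
    have : (α : V → V) ∘ α = id := by funext v; exact hinv v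
    rw [this, Finsupp.mapDomain_id]
  have h1 : coeff m f + coeff (m.mapDomain α) f = 0 := by
    by_contra hne
    exact hf m (by rw [coeff_add, coeff_rename_inv hinv]; exact hne) hmem
  rw [coeff_sub, coeff_add, coeff_rename_inv hinv, hg, hg, hmm]
  have htri : r m (m.mapDomain α) ∨ m = m.mapDomain α ∨ r (m.mapDomain α) m := by
    by_cases h3 : r m (m.mapDomain α)
    · exact Or.inl h3
    · by_cases h4 : r (m.mapDomain α) m
      · exact Or.inr (Or.inr h4)
      · exact Or.inr (Or.inl (hr.toTrichotomous.trichotomous m _ h3 h4))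
  rcases htri with hlt | heq | hgt
  · have hn : ¬ r (m.mapDomain α) m := fun h => asymm hlt h
    rw [if_pos hlt, if_neg hn]
    ring
  · have hirr : ¬ r m m := irrefl m
    have hm0 : m = 0 := by
      by_contra hne
      obtain ⟨v, hv⟩ := Finsupp.support_nonempty_iff.mpr hne
      refine hα.no_pair m.support hmem v hv ?_
      rw [Finsupp.mem_support_iff] at hv ⊢
      rw [heq, Finsupp.mapDomain_apply α.injective]
      exact hv
    rw [← heq, if_neg hirr, hm0, h0]
    ring
  · have hn : ¬ r m (m.mapDomain α) := fun h => asymm hgt h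
    rw [if_neg hn, if_pos hgt]
    have h2 : coeff (m.mapDomain α) f + coeff (m.mapDomain α) f = 0 := CharTwo.add_self_eq_zero _
    linear_combination h1 - h2

/-- half of a linear form -/
noncomputable def Wf (VP : Finset V) (a : ℕ → V → F) (i : ℕ) : MvPolynomial V F :=
  ∑ v ∈ VP, C (a i v) * X v

omit [CharP F 2] in
theorem rename_Wf (hinv : ∀ v, α (α v) = v) (hvp : ∀ v, v ∈ VP ↔ α v ∉ VP)
    (ha : ∀ l v, a l (α v) = - a l v) (i : ℕ) :
    rename α (Wf VP a i) = Wf VP a i - lin (a i) := by
  rw [lin_eq_VP hinv hvp (ha i)]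
  unfold Wf
  rw [map_sum, ← Finset.sum_sub_distrib]
  refine Finset.sum_congr rfl fun v _ => ?_
  rw [map_mul, rename_C, rename_X]
  ring

theorem rename_prod (hinv : ∀ v, α (α v) = v) (hvp : ∀ v, v ∈ VP ↔ α v ∉ VP)
    (ha : ∀ l v, a l (α v) = - a l v) (j : ℕ) (I : Finset ℕ) (hI : I ⊆ range j) :
    rename α (∏ i ∈ I, Wf VP a i) - ∏ i ∈ I, Wf VP a i ∈ Jid Δ a j := by
  induction I using Finset.induction_on with
  | empty =>
    rw [Finset.prod_empty, map_one, sub_self]
    exact Ideal.zero_mem _
  | insert i I hi ih =>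
    have ih := ih (fun x hx => hI (Finset.mem_insert_of_mem hx))
    have hij : i < j := Finset.mem_range.mp (hI (Finset.mem_insert_self i I))
    rw [Finset.prod_insert hi, map_mul, rename_Wf hinv hvp ha]
    have h1 : (Wf VP a i - lin (a i)) * rename α (∏ i ∈ I, Wf VP a i) -
        Wf VP a i * ∏ i ∈ I, Wf VP a i =
        Wf VP a i * (rename α (∏ i ∈ I, Wf VP a i) - ∏ i ∈ I, Wf VP a i) -
          lin (a i) * rename α (∏ i ∈ I, Wf VP a i) := by ring
    rw [h1]
    exact Ideal.sub_mem _ (Ideal.mul_mem_left _ _ ih) (Ideal.mul_mem_right _ _ (lin_mem_J hij))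

theorem main (hΔ : IsHomSphere Δ d) (hα : IsCS Δ α) (hvp : ∀ v, v ∈ VP ↔ α v ∉ VP)
    (ha : ∀ l v, a l (α v) = - a l v) (hI : Ind Δ a) (j : ℕ) :
    j ≤ d → ∀ f : MvPolynomial V F, f + rename α f ∈ Jid Δ a j →
    ∃ (β : Finset ℕ → F) (g : MvPolynomial V F),
      f - ∑ I ∈ (range j).powerset, C (β I) * ∏ i ∈ I, Wf VP a i -
        (g + rename α g) ∈ Jid Δ a j := by
  induction j with
  | zero =>
    intro _ f hf
    obtain ⟨_, hg⟩ := (mem_J_iff 0 _).mp hf
    rw [Finset.range_zero, Finset.sum_empty, sub_zero] at hg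
    have h1 : (f - C (coeff 0 f)) + rename α (f - C (coeff 0 f)) ∈ srIdeal F Δ := by
      rw [map_sub, rename_C]
      have h2 : f - C (coeff 0 f) + (rename α f - C (coeff 0 f)) =
          f + rename α f - (C (coeff 0 f) + C (coeff 0 f)) := by ring
      rw [h2, poly_two, sub_zero]
      exact hg
    obtain ⟨g, hg'⟩ := base hα hΔ.down h1 (by rw [coeff_sub, coeff_zero_C, sub_self])
    refine ⟨fun _ => coeff 0 f, g, sr_le_J 0 ?_⟩
    rw [Finset.range_zero, Finset.powerset_empty, Finset.sum_singleton, Finset.prod_empty, mul_one]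
    exact hg'
  | succ j ih =>
    intro hj f hf
    have ih := ih (by omega)
    obtain ⟨h, hh⟩ := J_succ.mp hf
    have h1 := rename_J hα ha hh
    rw [map_sub, map_add, rename_rename_inv hα.invol, map_mul, rename_lin_neg hα.invol ha] at h1
    have h2 : lin (a j) * (h + rename α h) ∈ Jid Δ a j := by
      have h3 := Ideal.sub_mem _ h1 hh
      have h4 : rename α f + f - -lin (a j) * rename α h - (f + rename α f - lin (a j) * h) =
          lin (a j) * (h + rename α h) := by ring
      rw [h4] at h3
      exact h3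
    obtain ⟨β, g, hg⟩ := ih h (reg_J hΔ hI (by omega) h2)
    have hsum : ∀ I ∈ (range j).powerset, rename α (∏ i ∈ I, Wf VP a i) - ∏ i ∈ I, Wf VP a i ∈
        Jid Δ a j := fun I hI' =>
      rename_prod hα.invol hvp ha j I (Finset.mem_powerset.mp hI')
    obtain ⟨S, hS⟩ : ∃ S : MvPolynomial V F,
        S = ∑ I ∈ (range j).powerset, C (β I) * ∏ i ∈ I, Wf VP a i := ⟨_, rfl⟩
    rw [← hS] at hg
    have hαS : rename α S - S ∈ Jid Δ a j := by
      rw [hS, map_sum, ← Finset.sum_sub_distrib]
      refine Ideal.sum_mem _ fun I hI' => ?_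
      rw [map_mul, rename_C, ← mul_sub]
      exact Ideal.mul_mem_left _ _ (hsum I hI')
    have hαW := rename_Wf hα.invol hvp ha j
    have h5 : (f - lin (a j) * g - Wf VP a j * S) +
        rename α (f - lin (a j) * g - Wf VP a j * S) ∈ Jid Δ a j := by
      rw [map_sub, map_sub, map_mul, map_mul, hαW, rename_lin_neg hα.invol ha]
      have h6 := Ideal.add_mem _ hh (Ideal.mul_mem_left _ (lin (a j)) hg)
      have h7 := Ideal.mul_mem_left _ (Wf VP a j - lin (a j)) hαS
      have h8 := Ideal.sub_mem _ h6 h7
      have e1 : lin (a j) * rename α g + lin (a j) * rename α g = 0 := poly_two _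
      have e2 : lin (a j) * S + lin (a j) * S = 0 := poly_two _
      have e3 : Wf VP a j * S + Wf VP a j * S = 0 := poly_two _
      have h9 : f - lin (a j) * g - Wf VP a j * S +
          (rename α f - -lin (a j) * rename α g - (Wf VP a j - lin (a j)) * rename α S) =
          f + rename α f - lin (a j) * h + lin (a j) * (h - S - (g + rename α g)) -
            (Wf VP a j - lin (a j)) * (rename α S - S) := by
        linear_combination e1 + e2 - e3
      rw [h9]
      exact h8
    obtain ⟨β', g', hg'⟩ := ih _ h5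
    refine ⟨fun K => if j ∈ K then β (K.erase j) else β' K, g', J_succ.mpr ⟨g, ?_⟩⟩
    have h10 : ∑ I ∈ (range (j + 1)).powerset,
        C (if j ∈ I then β (I.erase j) else β' I) * ∏ i ∈ I, Wf VP a i =
        ∑ I ∈ (range j).powerset, C (β' I) * ∏ i ∈ I, Wf VP a i + Wf VP a j * S := by
      rw [Finset.range_add_one, Finset.sum_powerset_insert (Finset.notMem_range_self), hS,
        Finset.mul_sum]
      congr 1
      · refine Finset.sum_congr rfl fun I hI' => ?_
        have hjI : j ∉ I := fun hx =>
          Finset.notMem_range_self (Finset.mem_powerset.mp hI' hx)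
        rw [if_neg hjI]
      · refine Finset.sum_congr rfl fun I hI' => ?_
        have hjI : j ∉ I := fun hx =>
          Finset.notMem_range_self (Finset.mem_powerset.mp hI' hx)
        rw [if_pos (Finset.mem_insert_self j I), Finset.erase_insert hjI, Finset.prod_insert hjI]
        ring
    rw [h10]
    have h11 : f - (∑ I ∈ (range j).powerset, C (β' I) * ∏ i ∈ I, Wf VP a i + Wf VP a j * S) -
        (g' + rename α g') - lin (a j) * g =
        f - lin (a j) * g - Wf VP a j * S -
          ∑ I ∈ (range j).powerset, C (β' I) * ∏ i ∈ I, Wf VP a i - (g' + rename α g') := by ring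
    rw [h11]
    exact hg'

end ITateF

/-- [TateF] -/
theorem pr_TateF : StTateF := by
  intro V _ _ F _ _ Δ α VP a d hΔ hα hvp ha hI j hj f hf
  exact ITateF.main hΔ hα hvp ha hI j hj f hf

end CSLef.D5
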