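import Mathlib
import Pool.Agent.Work.MP_38c61c_al.D5.StmtsX

/-!
Block D5, item XdualF: duality over a field, from nondegeneracy on one side.
-/

namespace CSLef.D5

open MvPolynomial Finset

theorem pr_XdualF : StXdualF := by
  intro F _ V _ _ I e lam h k hnd hlam
  have hfin : Module.Finite F (homogeneousSubmodule V F k) :=
    Module.Finite.iff_fg.mpr (homogeneousSubmodule_fg V F k)
  let Φ : homogeneousSubmodule V F k →ₗ[F] Module.Dual F (homogeneousSubmodule V F h) :=
    LinearMap.mk₂ F (fun f g => e (f.1 * g.1))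
      (fun f f' g => by
        show e ((f.1 + f'.1) * g.1) = e (f.1 * g.1) + e (f'.1 * g.1)
        rw [add_mul, map_add])
      (fun c f g => by
        show e ((c • f.1) * g.1) = c • e (f.1 * g.1)
        rw [smul_mul_assoc, map_smul])
      (fun f g g' => by
        show e (f.1 * (g.1 + g'.1)) = e (f.1 * g.1) + e (f.1 * g'.1)
        rw [mul_add, map_add])
      (fun c f g => by
        show e (f.1 * (c • g.1)) = c • e (f.1 * g.1)
        rw [mul_smul_comm, map_smul])
  have hΦ : ∀ f g, Φ f g = e (f.1 * g.1) := fun f g => rfl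
  have : FiniteDimensional F (LinearMap.range Φ) := inferInstance
  have hW := Subspace.dualCoannihilator_dualAnnihilator_eq (W := LinearMap.range Φ)
  have hmem : lam.comp (homogeneousSubmodule V F h).subtype ∈ LinearMap.range Φ := by
    rw [← hW, Submodule.mem_dualAnnihilator]
    intro g hg
    rw [Submodule.mem_dualCoannihilator] at hg
    have hgh : g.1.IsHomogeneous h := (mem_homogeneousSubmodule h g.1).mp g.2
    have hgI : g.1 ∈ I := by
      refine hnd g.1 hgh fun f hf => ?_
      have := hg (Φ ⟨f, (mem_homogeneousSubmodule k f).mpr hf⟩) ⟨_, rfl⟩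
      rw [hΦ] at this
      exact this
    exact hlam g.1 hgI hgh
  obtain ⟨f, hf⟩ := hmem
  refine ⟨f.1, (mem_homogeneousSubmodule k f.1).mp f.2, fun g hg => ?_⟩
  have := congrArg (fun φ => φ ⟨g, (mem_homogeneousSubmodule h g).mpr hg⟩) hf
  simpa [hΦ] using this

end CSLef.D5
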