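import Mathlib

/-!
Block D5 (every cs homology 4-sphere has the WLP): the combinatorial part.
-/

namespace CSLef.D5

/-- CL (finite combinatorics, no algebra). Let `𝒢` be a nonempty family of triples which is
intersecting and in which every covered pair is covered at least twice. Then there is a covered
vertex `s` whose link graph lives on at most four vertices, or a vertex `s` whose link graph is
exactly a 5-cycle.

Proof. For a covered vertex `s` let `L(s)` be the graph of the pairs `bc` with `sbc ∈ 𝒢`; every
non-isolated vertex of `L(s)` has degree at least 2 (the pair `sb` is covered twice). For an edge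
`bc` of `L(s)` the pair `bc` is covered by `sbc`, hence by some `bcx ∈ 𝒢`, `x ≠ s`; it meets all
`s e`, `e` an edge of `L(s)`, and `s` is not in it: so (*) for every edge `bc` there is `x` such that
`{b,c,x}` meets all edges of `L(s)`. Fix a covered `s`. If `L = L(s)` has at most 4 non-isolated
vertices take `Q` the set of them. So let `L` have at least 5 (non-isolated) vertices.

Case A: two vertices `p, q` meet all edges. Then all other vertices `b_1, ..., b_m` (`m ≥ 3`) are
adjacent to both `p` and `q` (degree at least 2). Take the vertex `b_1` and `G ∈ 𝒢` with `b_1 ∈ G`,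
`G = {b_1,u,v}`. If `s ∈ G` then `G = {s,b_1,p}` or `{s,b_1,q}`. If `s ∉ G` then `{u,v}` meets
`{p,b_2}, {q,b_2}, {p,b_3}, {q,b_3}`, so `{u,v} = {p,q}` or `{b_2,b_3}` (and the latter only for
`m = 3`). If `{b_1,b_2,b_3} ∈ 𝒢`, the pair `b_1b_2` is covered twice, but all triples with `b_1` are
among `s b_1 p, s b_1 q, b_1 p q, b_1 b_2 b_3`: contradiction. So all triples with `b_1` have the
other two vertices in `{s,p,q}`: `Q = {s,p,q}` for the vertex `b_1`.

Case B: no two vertices meet all edges. Let first `L` have at least 6 vertices. Take an edge `bc`,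
`{b,c,x}` as in (*), `I` = the other vertices: independent, at least 3, each adjacent to at least
two of `b,c,x`. Let `i ∈ I` be adjacent to `t ∈ {b,c,x}` and `{t,i,y}` the cover from (*) for the edge
`ti`. Each `i' ∈ I \ i` has a neighbour in `{b,c,x} \ t`, so (two different such `i'` exist, so
`y ∉ I`) `y ∈ {b,c,x} \ t` and all neighbours of all `i' ∈ I \ i` are in `{t,y}`: `N(i') = {t,y}`. Do
the same for another `i_2 ∈ I \ i` (adjacent to `t`): `N(i') = {t,y_2}` for all `i' ∈ I \ i_2`. With a
third element of `I`: `y = y_2`, and `N(i') = {t,y}` for all `i' ∈ I`. So all edges from `I` go to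
`{t,y}`, and the edges inside `{b,c,x} = {t,y,z}` meet `{t,y}`: case A, contradiction.
Let now `L` have exactly 5 vertices. By (*) the complement of an edge is not a triangle (the other
two vertices besides `b,c,x` are not adjacent). If some vertex `v` has degree 4: `L - v` on
`a,b,c,d` has no isolated vertex and no two opposite edges, so it is a star, say at `a`: `{v,a}` meets
all edges, contradiction. If the maximal degree is 3: `v` adjacent to `a,b,c`, not to `d`; `d` is
adjacent to two of them, say `a,b`; the edge `da` has the complement `v,b,c`, so `bc` is no edge; the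
edge `db` gives `ac` no edge; so `c` is adjacent to `v` and `d`, and the edge `dc` gives `ab` no edge:
`{v,d}` meets all edges, contradiction. If all degrees are 2: the graph is a 5-cycle (`v` with
neighbours `a,b`; `ab` is no edge, otherwise the other two have degree at most 1; `a` is adjacent
to one of the others, `c`; `b` to `d` (if `b` were adjacent to `c` then `d` would be isolated); then
`c,d` are adjacent). QED. (Split it into lemmas as you like.) -/
def StCL : Prop := ∀ {V : Type} [Fintype V] [DecidableEq V] (G0 : Finset (Finset V)), G0.Nonempty →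
  (∀ G ∈ G0, G.card = 3) → (∀ G ∈ G0, ∀ G' ∈ G0, (G ∩ G').Nonempty) →
  (∀ G ∈ G0, ∀ H ⊆ G, H.card = 2 → ∃ G' ∈ G0, G' ≠ G ∧ H ⊆ G') →
  (∃ s, (∃ G ∈ G0, s ∈ G) ∧ ∃ Q : Finset V, Q.card ≤ 4 ∧ s ∉ Q ∧ ∀ G ∈ G0, s ∈ G → G.erase s ⊆ Q) ∨
  (∃ s, ∃ c : Fin 5 → V, Function.Injective c ∧ (∀ i, c i ≠ s) ∧
    ∀ G, (G ∈ G0 ∧ s ∈ G) ↔ ∃ i : Fin 5, G = {s, c i, c (i + 1)})

end CSLef.D5
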