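import Mathlib
import Pool.Agent.Work.MP_38c61c_al.D5.Defs

/-!
Block D5, part 1: statements (functionals, pairs, reduction, main identity). Each statement is about
one datum `D`; the items prove `Ctx D → (the listed earlier statements for D) → St D`.
In the docstrings `deg` is `D.dg`, `α` acts by `rename D.α`, `φ_H = D.ph H`, `ψ_(p,H) = D.ps p H`,
`Θ_l = lin (D.a l)`, `y_v = X_v + X_(αv)`, `z_v = X_v - X_(αv)`, `sr = srIdeal R D.Δ`.
-/

namespace CSLef.D5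

open MvPolynomial Finset

variable {V : Type} [Fintype V] [DecidableEq V] {R : Type} [CommRing R] [IsDomain R]

/-- PhX. Values of `φ_H` on multiples of a variable.
Proof. For `H ⊆ VP` and `T ⊆ H` the set `flip H T` contains exactly one of `p, αp` for every `p ∈ H`
(`αp` if `p ∈ T`, else `p`) and no other vertices (`αp ∉ VP` by `vp`). The coefficient of `ex S` in
`X u * f` is `0` for `u ∉ S`, and the coefficient of `ex (S.erase u)` in `f` for `u ∈ S`. For `v ∈ H`: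
in `φ_H (X v * f)` only the `T` with `v ∉ T` contribute, `flip H T` without `v` is
`flip (H.erase v) T`, and `T` runs over the subsets of `H.erase v`. In `φ_H (X (αv) * f)` only the
`T ∋ v` contribute, `flip H T` without `αv` is `flip (H.erase v) (T.erase v)`. For `v ∉ H` nothing
contributes. Last part: `flip H' T ⊆ flip H T` for `T ⊆ H' ⊆ H`. -/
def StPhX (D : Dat V R) : Prop :=
  (∀ H ⊆ D.VP, ∀ v ∈ D.VP, ∀ f : MvPolynomial V R,
    (v ∈ H → D.ph H (X v * f) = D.ph (H.erase v) f ∧ D.ph H (X (D.α v) * f) = D.ph (H.erase v) f) ∧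
    (v ∉ H → D.ph H (X v * f) = 0 ∧ D.ph H (X (D.α v) * f) = 0)) ∧
  (∀ H, D.Full H → ∀ H' ⊆ H, D.Full H')

/-- Ph. `φ_H` kills `sr`, all `z_v g`, and the ideal `J`.
Proof. `sr`: by `mem_sr_iff` the coefficients of `f ∈ sr` at exponents whose support is a face vanish,
and the support of `ex (flip H T)` is `flip H T`, a face. `z_v f`: for `v ∈ VP` by `StPhX` the two
parts are equal; for `v ∉ VP`, `αv ∈ VP` and `z_v = - z_(αv)`. `J`: `mem_J_iff` and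
`lin (a l) = ∑_(v ∈ VP) C (a l v) * (X v - X (αv))` (`lin_eq_VP`). -/
def StPh (D : Dat V R) : Prop := ∀ H, D.Full H →
  (∀ f ∈ srIdeal R D.Δ, D.ph H f = 0) ∧ (∀ v, ∀ f : MvPolynomial V R, D.ph H (D.z v * f) = 0) ∧
  (∀ f ∈ D.J, D.ph H f = 0)

/-- PhA. Invariance, homogeneity, derivations and values of `φ_H`.
Proof. (a) `coeff_rename_inv` and: the image under `α` of `flip H T` is `flip H (H \ T)`; substitute
`T ↦ H \ T` in the sum. (b) the degree of `ex (flip H T)` is `|flip H T| = |H|`. (c) `coeff_dmap`.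
(d), (e) `xm R S = monomial (ex S) 1`, and `T ↦ flip H T` is injective on subsets of `H ⊆ VP`; `ex` is
injective. (f) all flips of `H` are faces of `card` at most 5 and have `card = |H|`. -/
def StPhA (D : Dat V R) : Prop := ∀ H, D.Full H →
  (∀ f, D.ph H (rename D.α f) = D.ph H f) ∧
  (∀ n, n ≠ H.card → ∀ f : MvPolynomial V R, f.IsHomogeneous n → D.ph H f = 0) ∧
  (∀ (δ : Derivation ℤ R R) (f : MvPolynomial V R), D.ph H (dmap δ f) = δ (D.ph H f)) ∧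
  (∀ T ⊆ H, D.ph H (xm R (flip D.α H T)) = 1) ∧
  (∀ S : Finset V, (∀ T ⊆ H, S ≠ flip D.α H T) → D.ph H (xm R S) = 0) ∧
  H.card ≤ 5

/-- Ps. The functionals `ψ_(p,H)`.
Proof. `sr`: as in `StPh` (the exponents have support `flip H T`). `z_v f`, `v ∈ VP`, `v ≠ p`,
`v ∈ H`: for `v ∉ T` only `X v * f` contributes, with the coefficient of
`ex (flip H T) + single (p^T) - single v` in `f`; for `v ∈ T` only `- X (αv) * f`, with the same
exponent for `T` and `T.erase v` and the same sign (the sign depends on `p ∈ T` only): cancellation.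
`v ∉ H`: nothing contributes. `v = p`: for `p ∉ T` the coefficient of `ex (flip H T) + single p 1` in
`X p * f` is the coefficient of `ex (flip H T)` in `f`, and `X (αp) * f` contributes nothing; for
`p ∈ T` only `- X (αp) * f` contributes, minus the coefficient of `ex (flip H T)` in `f`, with the sign
`-1` of `T`: plus. Third part: `lin_eq_VP` and the second part. -/
def StPs (D : Dat V R) : Prop := ∀ H, D.Full H → ∀ p ∈ H,
  (∀ f ∈ srIdeal R D.Δ, D.ps p H f = 0) ∧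
  (∀ v ∈ D.VP, ∀ f : MvPolynomial V R, D.ps p H (D.z v * f) = if v = p then D.ph H f else 0) ∧
  (∀ l, ∀ f : MvPolynomial V R, D.ps p H (lin (D.a l) * f) = D.a l p * D.ph H f)

/-- Ev. The Euler derivation at `v ∈ VP`.
Proof. `E v` multiplies every monomial by the number (exponent of `v`) + (exponent of `αv`): prove
this for monomials, it gives (a), (d) and (c) (each exponent `ex (flip H T)` has the number 1 if
`v ∈ H`, else 0) and (e) (`σ` is a face, so it does not contain both `v, αv`). (b) from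
`lin = ∑ C (a l u) * X u`: only `u = v, αv` contribute, `a l (αv) = - a l v`, and `αv ≠ v`. -/
def StEv (D : Dat V R) : Prop := ∀ v ∈ D.VP,
  (∀ f ∈ srIdeal R D.Δ, D.E v f ∈ srIdeal R D.Δ) ∧
  (∀ l, D.E v (lin (D.a l)) = C (D.a l v) * D.z v) ∧
  (∀ H, D.Full H → ∀ f, D.ph H (D.E v f) = if v ∈ H then D.ph H f else 0) ∧
  (∀ n, ∀ f : MvPolynomial V R, f.IsHomogeneous n → (D.E v f).IsHomogeneous n) ∧
  D.E v (xm R D.σ) = (if v ∈ D.σ ∨ D.α v ∈ D.σ then xm R D.σ else 0)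

/-- P1. The duals `X_G`.
Proof. All by `nd` (or `tors` etc. not needed): `deg (z_v X_G g) = φ_G (z_v g) = 0` for all `g`
(`xh_dg`, `StPh`), and `z_v X_G` is homogeneous of degree `6 - |G|`, `|G| ≥ 1`; so `z_v X_G ∈ J`.
For `v ∈ VP \ G`: `deg (X_v X_G g) = φ_G (X_v g) = 0` (`StPhX`). For `v ∈ G`:
`deg (X_v X_G g) = φ_G (X_v g) = φ_(G - v) g = deg (X_(G-v) g)`, the difference is homogeneous of
degree `6 - |G|`. For the last: `deg (α X_G * g) = deg (X_G * α g) = φ_G (α g) = φ_G g` (`dga`,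
`rename α` is a ring homomorphism with square the identity, `StPhA`). -/
def StP1 (D : Dat V R) : Prop := ∀ G, D.Full G → G.Nonempty →
  (∀ v, D.z v * D.XH G ∈ D.J) ∧
  (∀ v ∈ D.VP, v ∉ G → X v * D.XH G ∈ D.J ∧ X (D.α v) * D.XH G ∈ D.J) ∧
  (∀ v ∈ G, X v * D.XH G - D.XH (G.erase v) ∈ D.J) ∧
  rename D.α (D.XH G) - D.XH G ∈ D.J

/-- Tx. Values of `T m` from expansions; products of two elements of `J`.
Proof. `f = ∑ Θ_l g_l + s`, `s ∈ sr`: `T m (f h) = ∑_l T m (Θ_l g_l h) + T m (s h)`, and `s h ∈ sr`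
(`Tlin`, `Tsr`). Second part: `mem_J_iff` for `f`, then `deg (g_m h) = 0` as `h ∈ J` (`dgJ`). -/
def StTx (D : Dat V R) : Prop :=
  (∀ (f : MvPolynomial V R) (g : ℕ → MvPolynomial V R),
    f - ∑ l ∈ range 5, lin (D.a l) * g l ∈ srIdeal R D.Δ →
    ∀ m < 5, ∀ h, D.T m (f * h) = D.dg (g m * h)) ∧
  (∀ f ∈ D.J, ∀ h ∈ D.J, ∀ m < 5, D.T m (f * h) = 0)

/-- F3. Proof. Let `p ∈ H` (the case `p ∈ G` is the same with `G, H` exchanged). `z_v X_G ∈ J` (`StP1`),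
write `z_v X_G = ∑ Θ_l g_l` modulo `sr`. By `StTx`, `T m (z_v X_G X_H) = deg (g_m X_H) = φ_H (g_m)`.
Apply `ψ_(p,H)`: `ψ (z_v X_G) = [v = p] φ_H (X_G) = [v = p] deg (X_H X_G)` and
`ψ (∑ Θ_l g_l) = ∑_l a_(l p) φ_H (g_l)` (`StPs`). -/
def StF3 (D : Dat V R) : Prop := ∀ G H, D.Full G → D.Full H → G.Nonempty → H.Nonempty →
  G.card + H.card = 5 → ∀ p ∈ G ∪ H, ∀ v ∈ D.VP,
  ∑ m ∈ range 5, D.a m p * D.T m (D.z v * D.XH G * D.XH H) =
    if v = p then D.dg (D.XH G * D.XH H) else 0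

/-- Eul. Proof. Let `L f = ∑_m a_(m v) T_m (z_v f) - deg (E_v f)`, linear. (1) `L` vanishes on
homogeneous elements of `J` of degree 5, indeed on all of `J`: for `f ∈ sr` by `Tsr` and `StEv`,
`dgJ`; for `f = Θ_l g`: `∑_m a_(m v) T_m (z_v Θ_l g) = a_(l v) deg (z_v g)` and
`deg (E_v (Θ_l g)) = deg (a_(l v) z_v g) + deg (Θ_l E_v g) = a_(l v) deg (z_v g)` (`mem_J_iff` gives the
general element). (2) So `L f = deg f * L (xm σ)` for `f` homogeneous of degree 5 (`dgt`), and we need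
`L (xm σ) = 0`. If neither `v` nor `αv` is in `σ`: `z_v xm σ ∈ sr` (six vertices, `card_le`), and
`E_v (xm σ) = 0`. For `u ∈ σ` put `B m u = T_m (X_u xm σ)`. Modulo `sr`,
`Θ_l xm σ = ∑_(u ∈ σ) a_(l u) X_u xm σ` (the other products have six vertices), so
`∑_(u ∈ σ) a_(l u) B m u = [l = m]` (`Tlin`, `dgs`). Square matrices (`|σ| = 5`): hence also
`∑_m a_(m u) B m u = 1` for `u ∈ σ`. If `v ∈ σ`: `X_(αv) xm σ ∈ sr` (`no_pair`), so
`L (xm σ) = ∑ a_(m v) B m v - 1 = 0`. If `αv ∈ σ`: `z_v xm σ = - X_(αv) xm σ` modulo `sr` and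
`a_(m v) = - a_(m, αv)`: `L (xm σ) = ∑ a_(m, αv) B m (αv) - 1 = 0`. -/
def StEul (D : Dat V R) : Prop := ∀ v ∈ D.VP, ∀ f : MvPolynomial V R, f.IsHomogeneous 5 →
  ∑ m ∈ range 5, D.a m v * D.T m (D.z v * f) = D.dg (D.E v f)

/-- Non. Duals of meeting full sets are orthogonal.
Proof. Let `v ∈ G ∩ H`, `l = deg (X_G X_H)`. `StF3` with `p = v`: `∑_m a_(m v) T_m (z_v X_G X_H) = l`.
`StEul` for `f = X_G X_H` (homogeneous of degree 5): the same sum is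
`deg (E_v (X_G) X_H) + deg (X_G E_v (X_H)) = φ_H (E_v X_G) + φ_G (E_v X_H) = φ_H (X_G) + φ_G (X_H) = 2 l`
(`StEv`, `xh_dg`). So `l = 2 l`, `l = 0`. -/
def StNon (D : Dat V R) : Prop := ∀ G H, D.Full G → D.Full H → G.card + H.card = 5 →
  (G ∩ H).Nonempty → D.dg (D.XH G * D.XH H) = 0

/-- Der. Proof. `L f = deg (dmap δ f) - δ (deg f) - T_m (z_v f)` is additive and `R`-linear in `f`:
`dmap δ (r f) = δ(r) f + r dmap δ f`. It vanishes on `sr` (`dmap_sr`) and on `Θ_l g`: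
`dmap δ (Θ_l) = [l = m] z_v`, so `deg (dmap δ (Θ_l g)) = [l = m] deg (z_v g) + 0`, `deg (Θ_l g) = 0`, and
`T_m (z_v Θ_l g) = [l = m] deg (z_v g)`. So it vanishes on `J`, and for `f` homogeneous of degree 5,
`L f = deg f * L (xm σ)` by `dgt`; `dmap δ (xm σ) = 0` (`dmap_prod_zero`) and `δ 1 = 0`, so
`L (xm σ) = - T_m (z_v xm σ)`. -/
def StDer (D : Dat V R) : Prop := ∀ m < 5, ∀ v ∈ D.VP, ∀ δ : Derivation ℤ R R,
  (∀ l < 5, ∀ u, δ (D.a l u) =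
    if m = l then (if u = v then 1 else if u = D.α v then -1 else 0) else 0) →
  ∀ f : MvPolynomial V R, f.IsHomogeneous 5 →
  D.dg (dmap δ f) = δ (D.dg f) + D.T m (D.z v * f) - D.T m (D.z v * xm R D.σ) * D.dg f

/-- NonT. Proof. `δ` from `der`. `f = X_G X_H`, `deg f = 0` by `StNon`. `StDer`:
`T_m (z_v X_G X_H) = deg (dmap δ X_G * X_H) + deg (X_G * dmap δ X_H) =
φ_H (dmap δ X_G) + φ_G (dmap δ X_H) = δ (φ_H X_G) + δ (φ_G X_H) = 2 δ (deg (X_G X_H)) = 0`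
(`xh_dg`, `StPhA` (c), `dmap_mul`). -/
def StNonT (D : Dat V R) : Prop := ∀ G H, D.Full G → D.Full H → G.card + H.card = 5 →
  (G ∩ H).Nonempty → ∀ v ∈ D.VP, ∀ m < 5, D.T m (D.z v * D.XH G * D.XH H) = 0

/-- DisT. Proof. Put `t_m = T_m (z_v X_G X_H)`. By `StF3`, `∑_m a_(m p) t_m = 0` for the five elements
`p` of `G ∪ H` (`v ∉ G ∪ H`). With `c'` an enumeration of `G ∪ H`, the matrix `(a_(l, c' i))` has
nonzero determinant (`ind5`: it is not even divisible by 2), so `t = 0`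
(`Matrix.eq_zero_of_mulVec_eq_zero`). -/
def StDisT (D : Dat V R) : Prop := ∀ G H, D.Full G → D.Full H → G.Nonempty → H.Nonempty →
  G.card + H.card = 5 → Disjoint G H → ∀ v ∈ D.VP, v ∉ G ∪ H → ∀ m < 5,
  D.T m (D.z v * D.XH G * D.XH H) = 0

/-- Ex1. Proof. For `v ∈ VP` take `δ` from `derc`: `dmap δ w = y_v`. `dmap_J` for `w y ∈ J`:
`y_v y + w dmap δ y ∈ J`, times `y`: `y_v y^2 ∈ J` (for `v ∉ VP` use `y_v = y_(αv)`). So
`deg (X_v y^2) + deg (X_(αv) y^2) = 0`. And `deg (X_(αv) y^2) = deg (α (X_v (α y)^2)) =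
deg (X_v (α y)^2) = deg (X_v y^2)`, as `(α y)^2 - y^2 = (α y - ε y)(α y + ε y) ∈ J`. So twice the value
is 0. -/
def StEx1 (D : Dat V R) : Prop := ∀ (ε : R) (y : MvPolynomial V R), ε * ε = 1 →
  y.IsHomogeneous 2 → D.w * y ∈ D.J → rename D.α y - ε • y ∈ D.J → ∀ v, D.dg (X v * y ^ 2) = 0

/-- Ex2. Exactness of second order (compare `exact2` in `Quad/QInjR.lean`, `k = 0`).
Proof. `w y = ∑ Θ_l g_l` modulo `sr` (`mem_J_iff`). `T_m (X_v w y^2) = T_m (w y * (X_v y)) =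
deg (X_v g_m y)` (`StTx`). (1) For `v ∈ VP` apply `dmap δ`, `δ = ∂/∂a_(m,v)` (`der`), to
`w y - ∑ Θ_l g_l ∈ sr`: `dmap δ w = C (μ_m) X_v`, `dmap δ Θ_l = [l = m] z_v`; so
`μ_m X_v y + w dmap δ y - z_v g_m - ∑ Θ_l dmap δ g_l ∈ sr`; times `y`: `μ_m X_v y^2 - z_v g_m y ∈ J`,
hence `deg (z_v g_m y) = μ_m deg (X_v y^2) = 0` (`StEx1`), i.e.
`deg (X_v g_m y) = deg (X_(αv) g_m y)` (also for `v ∉ VP`, exchange `v, αv`). (2) Apply `α` to the same
relation: `α w = w - ∑ μ_l Θ_l` (`rename_welA_eq`), `α Θ_l = - Θ_l`, `α y = ε y + ∑ Θ_l q_l` modulo `sr`;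
comparing the coefficients of `Θ_l` with `syz`: `α g_l + ε g_l - ε μ_l y + w q_l ∈ J`. Then
`deg (X_v g_m y) = deg (X_(αv) α(g_m) α(y))` (`dga`) `= deg (X_(αv) (- ε g_m + ε μ_m y - w q_m) ε y) =
- deg (X_(αv) g_m y) + μ_m deg (X_(αv) y^2) - 0 = - deg (X_(αv) g_m y)`. So twice the value is 0. -/
def StEx2 (D : Dat V R) : Prop := ∀ (ε : R) (y : MvPolynomial V R), ε * ε = 1 →
  y.IsHomogeneous 2 → D.w * y ∈ D.J → rename D.α y - ε • y ∈ D.J →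
  ∀ v, ∀ m < 5, D.T m (X v * D.w * y ^ 2) = 0

/-- Red. Every `y` in question is a combination of the `X_G` modulo 2.
Proof. `x G = deg (y * xm G)` if `G ∈ FS 3` and this is odd, otherwise `0`. By `nd2` (`i = 2, k = 3`) it
suffices that `deg ((y - K) xm G')` is even for every face `G'` with 3 elements. Let
`G = {v ∈ VP : v ∈ G' or αv ∈ G'}`, `T = {v ∈ G : αv ∈ G'}`; then `G' = flip G T` (`no_pair`). By `relb`
(`y_p = X_p + X_(αp)`) exchanging one `X_p` by `X_(αp)` does not change `deg (xm (flip G T) y)` modulo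
2: so all the `8` values `deg (xm (flip G T') y)` agree modulo 2. If `G` is not full one of the flips
is not a face, its monomial is in `sr`, so all values are even; and
`deg (K xm G') = ∑ x(G'') φ_(G'') (xm G') = 0` (`StPhA` (e): `G' = flip G'' T''` implies `G'' = G`). If `G`
is full, `deg (K xm G') = x(G)` by `StPhA` (d), (e), which agrees with `deg (y xm G)` modulo 2. -/
def StRed (D : Dat V R) : Prop := ∀ (ε : R) (y : MvPolynomial V R), ε * ε = 1 →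
  y.IsHomogeneous 2 → D.w * y ∈ D.J → rename D.α y - ε • y ∈ D.J →
  ∃ x : Finset V → R, (∀ G, x G ≠ 0 → G ∈ D.FS 3 ∧ ¬ (2 : R) ∣ x G) ∧
    ∃ u : MvPolynomial V R, u.IsHomogeneous 2 ∧ y - D.KK x - (2 : R) • u ∈ D.J

/-- Four. Proof. `y = K + 2 u` satisfies the hypotheses of `StEx1`, `StEx2`: `K` is homogeneous of
degree 2 (`xh_hom`). `X_v (K + 2u)^2 = X_v K^2 + 4 X_v (u K + u^2)`, the same with `X_v w`. -/
def StFour (D : Dat V R) : Prop := ∀ (ε : R) (x : Finset V → R) (u : MvPolynomial V R), ε * ε = 1 →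
  u.IsHomogeneous 2 → D.w * (D.KK x + (2 : R) • u) ∈ D.J →
  rename D.α (D.KK x + (2 : R) • u) - ε • (D.KK x + (2 : R) • u) ∈ D.J →
  (∀ v, (4 : R) ∣ D.dg (X v * D.KK x ^ 2)) ∧
  (∀ v, ∀ m < 5, (4 : R) ∣ D.T m (X v * D.w * D.KK x ^ 2))

/-- XK. Proof. `X_r X_G ∈ J` for `r ∉ G`, `X_r X_G - X_(G - r) ∈ J` for `r ∈ G` (`StP1`), and
`G ↦ G - r` is a bijection from `{G ∈ FS 3 : r ∈ G}` onto `{H ∈ FS 2 : r ∉ H, insert r H ∈ FS 3}`; the
other `H` have `x (insert r H) = 0`. Same for `X_(αr)`, because `z_r X_G ∈ J`. -/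
def StXK (D : Dat V R) : Prop := ∀ x : Finset V → R, (∀ G, x G ≠ 0 → G ∈ D.FS 3) → ∀ r ∈ D.VP,
  X r * D.KK x - ∑ H ∈ (D.FS 2).filter (fun H => r ∉ H), C (x (insert r H)) * D.XH H ∈ D.J ∧
  X (D.α r) * D.KK x - ∑ H ∈ (D.FS 2).filter (fun H => r ∉ H), C (x (insert r H)) * D.XH H ∈ D.J

/-- WK. Proof. `wo K = ∑_r wt_r (X_r + X_(αr)) K`, so by `StXK` it is
`2 ∑_r wt_r ∑_(H ∌ r) x(H ∪ r) X_H`: exchange the sums. Second: `2 w = wo + ∑ μ_l Θ_l` exactly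
(`2 W_l = ∑ a_(l v) y_v + Θ_l`), so `2 w K` and `wo K` agree modulo `J`; use `tors`. -/
def StWK (D : Dat V R) : Prop := ∀ x : Finset V → R, (∀ G, x G ≠ 0 → G ∈ D.FS 3) →
  D.wo * D.KK x - (2 : R) • ∑ H ∈ D.FS 2, C (∑ r ∈ D.VP \ H, D.wt r * x (insert r H)) * D.XH H ∈ D.J ∧
  D.w * D.KK x - ∑ H ∈ D.FS 2, C (∑ r ∈ D.VP \ H, D.wt r * x (insert r H)) * D.XH H ∈ D.J ∧
  (2 : R) • D.w = D.wo + ∑ l ∈ range 5, C (D.μ l) * lin (D.a l)

/-- Rm. Proof. If `H` is not full all `x (insert r H) = 0` (subsets of full sets are full). Let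
`H ∈ FS 2`. `0 = deg (w (K + 2u) xm H)`, so `deg (w K xm H)` is even. By `StWK` it is
`∑_(H') (∑_r wt_r x(H' ∪ r)) deg (X_(H') xm H) = ∑_r wt_r x(H ∪ r)` (`xh_dg`, `StPhA` (d), (e) with
`T = ∅`, `flip H ∅ = H`). -/
def StRm (D : Dat V R) : Prop := ∀ (x : Finset V → R) (u : MvPolynomial V R),
  (∀ G, x G ≠ 0 → G ∈ D.FS 3) → D.w * (D.KK x + (2 : R) • u) ∈ D.J →
  ∀ H ⊆ D.VP, H.card = 2 → (2 : R) ∣ ∑ r ∈ D.VP \ H, D.wt r * x (insert r H)

/-- the part of `x` on the triples containing `s` -/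
def xs (s : V) (x : Finset V → R) : Finset V → R := fun G => if s ∈ G then x G else 0

/-- the part of `x` on the sets not containing `s` -/
def xr (s : V) (x : Finset V → R) : Finset V → R := fun G => if s ∈ G then 0 else x G

/-- MI0. Setup of the main identity: `ν(H)` is half of minus the weighted sum.
Proof. (a) and (b) `StWK`: the coefficients are `-2 ν(H)`, resp. `-4 ν(H)`. (c) apply `StWK` to
`xs s x`: for `s ∈ H` the coefficient is the full sum `-2 ν(H)`, for `s ∉ H` only `r = s` contributes: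
`wt_s x(H ∪ s)`; and `X_s K_s = ∑_(H ∌ s) x(H ∪ s) X_H` modulo `J` by `StXK`. (d) is (b) minus (c) as
`K = K_s + K_r`, `N = N_s + N_r`. (e) `StP1`, `StXK`. -/
def StMI0 (D : Dat V R) : Prop := ∀ x ν : Finset V → R, (∀ G, x G ≠ 0 → G ∈ D.FS 3) →
  (∀ H ∈ D.FS 2, 2 * ν H = - ∑ r ∈ D.VP \ H, D.wt r * x (insert r H)) →
  D.w * D.KK x + (2 : R) • D.NN ν ∈ D.J ∧
  D.wo * D.KK x + (4 : R) • D.NN ν ∈ D.J ∧
  (∀ s ∈ D.VP, D.KK x = D.KK (xs s x) + D.KK (xr s x) ∧ D.NN ν = D.NN (xs s ν) + D.NN (xr s ν) ∧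
    D.wo * D.KK (xs s x) + (4 : R) • D.NN (xs s ν) - C (2 * D.wt s) * X s * D.KK (xs s x) ∈ D.J ∧
    D.wo * D.KK (xr s x) + (4 : R) • D.NN (xr s ν) + C (2 * D.wt s) * X s * D.KK (xs s x) ∈ D.J ∧
    X s * D.KK (xr s x) ∈ D.J ∧ (∀ v, D.z v * D.KK x ∈ D.J) ∧
    D.z s * D.KK (xs s x) ∈ D.J ∧ D.z s * D.KK (xr s x) ∈ D.J)

/-- MI2. `b` is the expansion of `αK - K`.
Proof. `2 w = wo + ∑ μ_l Θ_l`: `2 T_m (X_s w K^2) = T_m (X_s wo K^2) + μ_m deg (X_s K^2)`. By `Ta`,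
`T_m (X_s wo K^2) = - T_m (X_(αs) wo (αK)^2)` (`α wo = wo`), and `αK = K + ∑ Θ_l b_l` modulo `sr`, so
`T_m (X_(αs) wo (αK)^2) = T_m (X_(αs) wo K^2) + 2 deg (X_(αs) wo K b_m)` (the quadratic term
contributes `deg (X_(αs) wo b_m ∑ Θ_l b_l) = 0`). Hence
`2 T_m (X_s wo K^2) = T_m (z_s wo K^2) - 2 deg (X_(αs) wo K b_m)`. Now `wo K = - 4 N` modulo `J` (MI0):
`deg (X_(αs) wo K b_m) = - 4 deg (X_(αs) N b_m) = - 4 ∑_H ν(H) φ_H (X_(αs) b_m) =
- 4 ∑_(q) ν(sq) φ_q (b_m)` over the `H = {s,q} ∈ FS 2` (`StPhX`). And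
`T_m (z_s wo K^2) = T_m (z_s K * wo K) = - 4 T_m (z_s K N)`, as `z_s K ∈ J` and `wo K + 4 N ∈ J`
(`StTx`, second part). Divide by 2 (domain). -/
def StMI2 (D : Dat V R) : Prop := ∀ x ν : Finset V → R, (∀ G, x G ≠ 0 → G ∈ D.FS 3) →
  (∀ H ∈ D.FS 2, 2 * ν H = - ∑ r ∈ D.VP \ H, D.wt r * x (insert r H)) →
  ∀ b : ℕ → MvPolynomial V R,
  rename D.α (D.KK x) - D.KK x - ∑ l ∈ range 5, lin (D.a l) * b l ∈ srIdeal R D.Δ →
  ∀ s ∈ D.VP, ∀ m < 5, 2 * D.T m (X s * D.w * D.KK x ^ 2) =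
    - (2 * D.T m (D.z s * D.NN ν * D.KK x)) +
    4 * ∑ q ∈ (D.VP.erase s).filter (fun q => ({s, q} : Finset V) ∈ D.FS 2),
      ν {s, q} * D.ph {q} (b m) +
    D.μ m * D.dg (X s * D.KK x ^ 2)

/-- MI3. Proof. Compute `t = T_m (z_s wo K_s K_r)` in two ways with MI0 and `StTx` (products of two
elements of `J` have `T_m = 0`). `z_s K_r ∈ J` and `wo K_s + 4 N_s - 2 wt_s X_s K_s ∈ J`:
`t = - 4 T_m (z_s K_r N_s) + 2 wt_s T_m (z_s K_r X_s K_s)`, and the last value is `0`, as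
`X_s K_r ∈ J` and `z_s K_s ∈ J`. `z_s K_s ∈ J` and `wo K_r + 4 N_r + 2 wt_s X_s K_s ∈ J`:
`t = - 4 T_m (z_s K_s N_r) - 2 wt_s T_m (z_s X_s K_s^2)`. Compare and divide by 2. -/
def StMI3 (D : Dat V R) : Prop := ∀ x ν : Finset V → R, (∀ G, x G ≠ 0 → G ∈ D.FS 3) →
  (∀ H ∈ D.FS 2, 2 * ν H = - ∑ r ∈ D.VP \ H, D.wt r * x (insert r H)) →
  ∀ s ∈ D.VP, ∀ m < 5,
  2 * (D.T m (D.z s * D.NN (xs s ν) * D.KK (xr s x)) -
    D.T m (D.z s * D.NN (xr s ν) * D.KK (xs s x))) =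
    D.wt s * D.T m (D.z s * X s * D.KK (xs s x) ^ 2)

/-- MI4. Proof. Let `H = {s,q} ∈ FS 2`. `X_s K_r ∈ J`: `X_s K_r = ∑ Θ_l h_l` modulo `sr`, so
`T_m (X_s K_r X_H) = deg (h_m X_H) = φ_H (h_m)` (`StTx`). Apply `α` (`α Θ_l = - Θ_l`):
`X_(αs) αK_r = - ∑ Θ_l α h_l`, and `αK_r = K_r + ∑ Θ_l b_l`, so
`X_(αs) K_r = - ∑ Θ_l (α h_l + X_(αs) b_l)` modulo `sr` and
`T_m (X_(αs) K_r X_H) = - φ_H (α h_m) - φ_H (X_(αs) b_m) = - φ_H (h_m) - φ_q (b_m)` (`StPhA`, `StPhX`).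
Hence `T_m (z_s X_H K_r) = 2 φ_H (h_m) + φ_q (b_m)`; sum with `ν(H)` over the `H ∋ s`. -/
def StMI4 (D : Dat V R) : Prop := ∀ x ν : Finset V → R, (∀ G, x G ≠ 0 → G ∈ D.FS 3) →
  ∀ s ∈ D.VP, ∀ b : ℕ → MvPolynomial V R,
  rename D.α (D.KK (xr s x)) - D.KK (xr s x) - ∑ l ∈ range 5, lin (D.a l) * b l ∈ srIdeal R D.Δ →
  ∀ m < 5, ∃ ρ : R, D.T m (D.z s * D.NN (xs s ν) * D.KK (xr s x)) =
    ∑ q ∈ (D.VP.erase s).filter (fun q => ({s, q} : Finset V) ∈ D.FS 2),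
      ν {s, q} * D.ph {q} (b m) + 2 * ρ

/-- MI5. Proof. Expand in the pairs `G ∈ FS 3`, `H ∈ FS 2`. `N_s K_s`: `s ∈ G ∩ H`, so `StNonT`. `N_r K_r`:
`s ∉ G ∪ H`; if `G, H` meet `StNonT`, otherwise `StDisT` (with `v = s`). -/
def StMI5 (D : Dat V R) : Prop := ∀ x ν : Finset V → R, ∀ s ∈ D.VP, ∀ m < 5,
  D.T m (D.z s * D.NN (xs s ν) * D.KK (xs s x)) = 0 ∧
  D.T m (D.z s * D.NN (xr s ν) * D.KK (xr s x)) = 0

/-- Star. The main congruence.
Proof. `αK_r - K_r ∈ J` (`StP1`), so there is `br` with `αK_r - K_r - ∑ Θ_l br_l ∈ sr`; `b = bs + br` is an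
expansion of `αK - K`. Multiply out `T_m (z_s N K)` (MI0: `N = N_s + N_r`, `K = K_s + K_r`) with MI5:
`T_m (z_s N K) = A + B`, `A = T_m (z_s N_s K_r)`, `B = T_m (z_s N_r K_s)`, and `2 (A - B) =
wt_s T_m (z_s X_s K_s^2)` (MI3), so `2 T_m (z_s N K) = 4 A - wt_s T_m (z_s X_s K_s^2)`; by MI4
`A = ∑_q ν(sq) φ_q (br_m) + 2 ρ`. Put this into MI2: the left side `2 T_m (X_s w K^2)` is divisible by
8 by hypothesis, the right side is `- 4 ∑ ν(sq) φ_q (br_m) - 8 ρ + wt_s T_m (z_s X_s K_s^2) +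
4 ∑ ν(sq) φ_q (bs_m + br_m) + μ_m deg (X_s K^2)`, and `deg (X_s K^2) = deg (X_s K_s^2)` as
`X_s K_r ∈ J`. -/
def StStar (D : Dat V R) : Prop := ∀ x ν : Finset V → R, (∀ G, x G ≠ 0 → G ∈ D.FS 3) →
  (∀ H ∈ D.FS 2, 2 * ν H = - ∑ r ∈ D.VP \ H, D.wt r * x (insert r H)) →
  (∀ v, ∀ m < 5, (4 : R) ∣ D.T m (X v * D.w * D.KK x ^ 2)) →
  ∀ s ∈ D.VP, ∀ b : ℕ → MvPolynomial V R,
  rename D.α (D.KK (xs s x)) - D.KK (xs s x) - ∑ l ∈ range 5, lin (D.a l) * b l ∈ srIdeal R D.Δ →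
  ∀ m < 5, (8 : R) ∣ D.wt s * D.T m (D.z s * X s * D.KK (xs s x) ^ 2) +
    D.μ m * D.dg (X s * D.KK (xs s x) ^ 2) +
    4 * ∑ q ∈ (D.VP.erase s).filter (fun q => ({s, q} : Finset V) ∈ D.FS 2),
      ν {s, q} * D.ph {q} (b m)

end CSLef.D5
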