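import Mathlib
import Pool.Agent.Work.MP_38c61c_al.D5.Stmts
import Pool.Agent.Work.MP_38c61c_al.D5.CLStmt

/-!
Block D5, part 2: Tate classes, the congruence modulo 4, the final argument. As in part 1, the
statements are about one datum `D` and the items prove `Ctx D → (earlier statements for D) → St D`.
Notation as in `Stmts.lean`; `W_I` is the product of the `D.W i`, `i ∈ I`; `ω = D.om`; even means
divisible by `2` in `R`, and `2` is prime.
-/

namespace CSLef.D5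

open MvPolynomial Finset

variable {V : Type} [Fintype V] [DecidableEq V] {R : Type} [CommRing R] [IsDomain R]

/-- Wa. Proof. `lin (a l) = ∑_(v ∈ VP) C (a l v) (X v - X (αv))` (`lin_eq_VP`), so
`α W_l = ∑ C (a l v) X (αv) = W_l - Θ_l`. For products: induction on `I`, `Θ_i ∈ J`. -/
def StWa (D : Dat V R) : Prop :=
  (∀ l, rename D.α (D.W l) = D.W l - lin (D.a l)) ∧
  (∀ I : Finset ℕ, (∏ i ∈ I, D.W i).IsHomogeneous I.card) ∧
  (∀ I ⊆ range 5, rename D.α (∏ i ∈ I, D.W i) - ∏ i ∈ I, D.W i ∈ D.J)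

/-- Sym. Proof. `deg (αg M) - deg (αg αM) = 0` as `αM - M ∈ J`, and `deg (αg αM) = deg (g M)` (`dga`). -/
def StSym (D : Dat V R) : Prop := ∀ M : MvPolynomial V R, rename D.α M - M ∈ D.J → ∀ g,
  D.dg ((g + rename D.α g) * M) = 2 * D.dg (g * M)

/-- WW. Proof. Let `i ∈ I ∩ K` and `M = W_(I - i) W_(K - i)`, so that `W_I W_K = W_i^2 M`; `αM - M ∈ J`
(`StWa` and products). `W_i^2 - W_i αW_i = W_i Θ_i ∈ J`, and
`W_i αW_i = ∑_(p,q ∈ VP) a_p a_q X_p X_(αq)` with `a_p = D.a i p`. The terms `p = q` are in `sr`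
(`{p, αp}` is not a face by `no_pair`, `X p * X (αp)` is the product over `{p, αp}`). For `p ≠ q` let
`t(p,q) = a_p a_q deg (X_p X_(αq) M)`: `t(p,q) = t(q,p)`, because `deg (X_p X_(αq) M) =
deg (α(...)) = deg (X_(αp) X_q αM) = deg (X_q X_(αp) M)`. The sum over the pairs `p ≠ q` of a symmetric
function is even (for instance by induction on the finite set, or with a linear order on `V`). -/
def StWW (D : Dat V R) : Prop := ∀ I ⊆ range 5, ∀ K ⊆ range 5, (I ∩ K).Nonempty →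
  (2 : R) ∣ D.dg ((∏ i ∈ I, D.W i) * ∏ i ∈ K, D.W i)

/-- Om. Proof. `f = xm σ`: `αf - f ∈ J`, because `αf` is homogeneous of degree 5 with `deg = 1` (`dga`,
`dgt`). `tate` for `n = 5`: the only `I` is `range 5`; apply `deg`: `1 = β ω + deg (g + αg) + 2 deg v` and
`deg (g + αg) = 2 deg g`. If `ω` were even, `1` would be even, but the prime `2` is no unit. -/
def StOm (D : Dat V R) : Prop := ¬ (2 : R) ∣ D.om

/-- the sum over the ordered pairs of `I` of `a l r * a i q` -/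
noncomputable def p2 (D : Dat V R) (q r : V) (I : Finset ℕ) : R :=
  ∑ l ∈ I, ∑ i ∈ I.erase l, D.a l r * D.a i q

/-- PhW. Proof. (a) `StPhX`, first part, for `W l = ∑_(v ∈ VP) C (a l v) X v`: only `v ∈ H` contributes.
(b) `ex ∅ = 0`. (c)-(e) by repeated use of (a) (`W i = W i * 1`, `{q}.erase q = ∅` and so on). -/
def StPhW (D : Dat V R) : Prop :=
  (∀ H ⊆ D.VP, ∀ l, ∀ f : MvPolynomial V R,
    D.ph H (D.W l * f) = ∑ p ∈ H, D.a l p * D.ph (H.erase p) f) ∧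
  D.ph ∅ 1 = 1 ∧
  (∀ q ∈ D.VP, ∀ i, D.ph {q} (D.W i) = D.a i q) ∧
  (∀ q ∈ D.VP, ∀ r ∈ D.VP, q ≠ r → ∀ I : Finset ℕ, I.card = 2 →
    D.ph {q, r} (∏ i ∈ I, D.W i) = p2 D q r I) ∧
  (∀ g1 ∈ D.VP, ∀ g2 ∈ D.VP, ∀ g3 ∈ D.VP, g1 ≠ g2 → g1 ≠ g3 → g2 ≠ g3 → ∀ i j k,
    D.ph {g1, g2, g3} (D.W i * D.W j * D.W k) =
      D.a i g1 * D.a j g2 * D.a k g3 + D.a i g1 * D.a j g3 * D.a k g2 +
      D.a i g2 * D.a j g1 * D.a k g3 + D.a i g2 * D.a j g3 * D.a k g1 +
      D.a i g3 * D.a j g1 * D.a k g2 + D.a i g3 * D.a j g2 * D.a k g1)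

/-- the permanent of the rows `i, j, k` in the columns `g1, g2, g3` -/
def pm3 (a : ℕ → V → R) (g1 g2 g3 : V) (i j k : ℕ) : R :=
  a i g1 * a j g2 * a k g3 + a i g1 * a j g3 * a k g2 +
  a i g2 * a j g1 * a k g3 + a i g2 * a j g3 * a k g1 +
  a i g3 * a j g1 * a k g2 + a i g3 * a j g2 * a k g1

/-- the permanent of the rows `i, j` in the columns `q, r` -/
def pm2 (a : ℕ → V → R) (q r : V) (i j : ℕ) : R := a i q * a j r + a i r * a j q

/-- Lap. Laplace expansion modulo 2.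
Proof. The sum is the permanent of the 5 x 5 matrix with columns `g1, g2, g3, q, r`; the determinant is
the same sum of 120 products with signs, and `-1 = 1` modulo 2. (For instance map to the quotient
`R ⧸ (2)`, where `-1 = 1`, expand the determinant with `Matrix.det_succ_row_zero`, `Fin.sum_univ_succ`
and compare by `ring` after replacing minus by plus; or expand both and give the quotient
explicitly.) -/
def StLap : Prop := ∀ {V : Type} {R : Type} [CommRing R] (a : ℕ → V → R) (g1 g2 g3 q r : V),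
  (2 : R) ∣ (pm3 a g1 g2 g3 2 3 4 * pm2 a q r 0 1 + pm3 a g1 g2 g3 1 3 4 * pm2 a q r 0 2 +
    pm3 a g1 g2 g3 1 2 4 * pm2 a q r 0 3 + pm3 a g1 g2 g3 1 2 3 * pm2 a q r 0 4 +
    pm3 a g1 g2 g3 0 3 4 * pm2 a q r 1 2 + pm3 a g1 g2 g3 0 2 4 * pm2 a q r 1 3 +
    pm3 a g1 g2 g3 0 2 3 * pm2 a q r 1 4 + pm3 a g1 g2 g3 0 1 4 * pm2 a q r 2 3 +
    pm3 a g1 g2 g3 0 1 3 * pm2 a q r 2 4 + pm3 a g1 g2 g3 0 1 2 * pm2 a q r 3 4) -
    Matrix.det (fun i l : Fin 5 => a l ((![g1, g2, g3, q, r] : Fin 5 → V) i))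

/-- SumW. Proof. Write `(range 5).powersetCard 2` as the explicit set of the ten pairs (`decide`), the
complements are explicit triples; `StPhW` (last part) gives `pm3`, `p2 D q r {i,j} = pm2 (D.a) q r i j`
up to the order of the sum; then `StLap`. -/
def StSumW (D : Dat V R) : Prop := ∀ g1 ∈ D.VP, ∀ g2 ∈ D.VP, ∀ g3 ∈ D.VP, g1 ≠ g2 → g1 ≠ g3 →
  g2 ≠ g3 → ∀ q r, (2 : R) ∣ ∑ I ∈ (range 5).powersetCard 2,
    D.ph {g1, g2, g3} (∏ i ∈ range 5 \ I, D.W i) * p2 D q r I - D.dt ![g1, g2, g3, q, r]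

/-- Beta. The Tate class of `X_G`, `|G| = 3`.
Proof. `tate` for `f = X_G`, `n = 2` (`StP1`, last part). Multiply the relation by `W_K`,
`K = range 5 \ I`, and apply `deg`: `deg (X_G W_K) = φ_G (W_K)` (`xh_dg`);
`∑_(I') β_(I') deg (W_(I') W_K)`: for `I' = I` it is `β_I ω`, for `I' ≠ I` the sets `I', K` meet and the
value is even (`StWW`); `deg ((g + αg) W_K)` is even (`StSym`, `StWa`). -/
def StBeta (D : Dat V R) : Prop := ∀ G ∈ D.FS 3, ∃ (β : Finset ℕ → R) (g v : MvPolynomial V R),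
  D.XH G - ∑ I ∈ (range 5).powersetCard 2, C (β I) * ∏ i ∈ I, D.W i -
    (g + rename D.α g) - (2 : R) • v ∈ D.J ∧
  ∀ I ∈ (range 5).powersetCard 2, (2 : R) ∣ D.om * β I - D.ph G (∏ i ∈ range 5 \ I, D.W i)

/-- TA1. Proof. With `β` from `StBeta`, `H = {q,r}`: `deg (X_G X_H) = φ_H (X_G) =
∑_I β_I φ_H (W_I) + 2 φ_H g + 2 φ_H v` (`StPh`: `φ_H` kills `J`; `StPhA`: `φ_H (αg) = φ_H g`).
`φ_H (W_I) = p2 D q r I` (`StPhW`). Times `ω`: `∑_I φ_G (W_(range 5 - I)) p2 D q r I` modulo 2, which is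
`dt` by `StSumW`. -/
def StTA1 (D : Dat V R) : Prop := ∀ g1 g2 g3 q r, g1 ≠ g2 → g1 ≠ g3 → g2 ≠ g3 → q ≠ r →
  ({g1, g2, g3} : Finset V) ∈ D.FS 3 → ({q, r} : Finset V) ∈ D.FS 2 →
  (2 : R) ∣ D.om * D.dg (D.XH {g1, g2, g3} * D.XH {q, r}) - D.dt ![g1, g2, g3, q, r]

/-- TA2. Proof. Take `β, g, v` from `StBeta` and write the relation as
`X_G = ∑_I β_I W_I + g + αg + 2 v + ∑_l Θ_l k_l` modulo `sr` (`mem_J_iff`). Apply `α` and subtract:
`αX_G - X_G = ∑_I β_I (αW_I - W_I) - ∑ Θ_l (αk_l + k_l) + 2 (αv - v)` modulo `sr`. For `I = {i,j}`,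
`αW_I - W_I = (W_i - Θ_i)(W_j - Θ_j) - W_i W_j = - Θ_i W_j - Θ_j W_i + Θ_i Θ_j`. All the other terms
are in `J`, so `2 (αv - v) ∈ J`, `αv - v ∈ J` (`tors`), `αv - v = ∑ Θ_l e_l` modulo `sr`. Comparing with
`∑ Θ_l b_l` by `syz`: `b_l = - ∑_(i ≠ l) β_(l i) W_i - (αk_l + k_l) + 2 e_l` modulo `J` (the terms
`Θ_i Θ_j` contribute elements of `J`). Apply `φ_q` (it kills `J`, `φ_q (αk) = φ_q k`,
`φ_q (W_i) = a_(i q)`): `φ_q (b_l) = ∑_(i ≠ l) β_(l i) a_(i q)` modulo 2. So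
`∑_l a_(l r) φ_q (b_l) = ∑_I β_I p2 D q r I` modulo 2. Multiply by `ω`, use `StBeta` and `StSumW`. -/
def StTA2 (D : Dat V R) : Prop := ∀ g1 g2 g3, g1 ≠ g2 → g1 ≠ g3 → g2 ≠ g3 →
  ({g1, g2, g3} : Finset V) ∈ D.FS 3 → ∀ b : ℕ → MvPolynomial V R,
  rename D.α (D.XH {g1, g2, g3}) - D.XH {g1, g2, g3} - ∑ l ∈ range 5, lin (D.a l) * b l ∈
    srIdeal R D.Δ → ∀ q, D.Full {q} → ∀ r,
  (2 : R) ∣ D.om * ∑ m ∈ range 5, D.a m r * D.ph {q} (b m) - D.dt ![g1, g2, g3, q, r]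

/-- Int. Full triples meet. Proof. Suppose `G, G'` disjoint, `h ∈ G'`, `H = G'.erase h`.
`X_H - X_h X_(G') ∈ J` and `X_h X_G ∈ J` (`StP1`, `h ∉ G`), so `deg (X_G X_H) = deg (X_G X_h X_(G')) = 0`.
`StTA1` with enumerations of `G`, `H`: `dt` is even, but the five columns are distinct elements of `VP`:
contradiction to `ind5`. -/
def StInt (D : Dat V R) : Prop := ∀ G ∈ D.FS 3, ∀ G' ∈ D.FS 3, (G ∩ G').Nonempty

/-- the coefficient functions in question -/
structure Gd (D : Dat V R) (x : Finset V → R) : Prop where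
  supp : ∀ G, x G ≠ 0 → G ∈ D.FS 3 ∧ ¬ (2 : R) ∣ x G
  four : ∀ v, (4 : R) ∣ D.dg (X v * D.KK x ^ 2)
  fourT : ∀ v, ∀ m < 5, (4 : R) ∣ D.T m (X v * D.w * D.KK x ^ 2)
  rm : ∀ H ⊆ D.VP, H.card = 2 → (2 : R) ∣ ∑ r ∈ D.VP \ H, D.wt r * x (insert r H)

/-- Clo. Proof. `G = insert r0 H`. If no other triple of the support contains `H`, the sum in `rm` for
`H` is `wt r0 * x G`, a product of two odd elements (`wt r0 = 2 c + ∑ μ a`, `wt_odd`): not even, as `2`
is prime. -/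
def StClo (D : Dat V R) : Prop := ∀ x, Gd D x → ∀ G, x G ≠ 0 → ∀ H ⊆ G, H.card = 2 →
  ∃ G', x G' ≠ 0 ∧ G' ≠ G ∧ H ⊆ G'

/-- `s` and four other vertices that contain the link of `s` -/
structure HQ (D : Dat V R) (x : Finset V → R) (s : V) (q : Fin 4 → V) : Prop where
  s_mem : s ∈ D.VP
  q_mem : ∀ i, q i ∈ D.VP
  q_inj : Function.Injective q
  q_ne : ∀ i, q i ≠ s
  link : ∀ G, x G ≠ 0 → s ∈ G → ∃ i j, i ≠ j ∧ G = {s, q i, q j}

/-- the value `x` at `{s, q i, q j}` -/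
def xq (x : Finset V → R) (s : V) (q : Fin 4 → V) (i j : Fin 4) : R := x {s, q i, q j}

/-- `deg (X_s X_(s i j) X_(s k l))` -/
noncomputable def lam (D : Dat V R) (s : V) (q : Fin 4 → V) (i j k l : Fin 4) : R :=
  D.dg (X s * D.XH {s, q i, q j} * D.XH {s, q k, q l})

/-- half of `deg (X_s K_s^2)` -/
noncomputable def E4 (D : Dat V R) (x : Finset V → R) (s : V) (q : Fin 4 → V) : R :=
  xq x s q 0 1 * xq x s q 2 3 * lam D s q 0 1 2 3 +
  xq x s q 0 2 * xq x s q 1 3 * lam D s q 0 2 1 3 +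
  xq x s q 0 3 * xq x s q 1 2 * lam D s q 0 3 1 2

/-- the sum over the three perfect matchings -/
def P4 (x : Finset V → R) (s : V) (q : Fin 4 → V) : R :=
  xq x s q 0 1 * xq x s q 2 3 + xq x s q 0 2 * xq x s q 1 3 + xq x s q 0 3 * xq x s q 1 2

/-- the weighted vertex sum at `q k` -/
noncomputable def S4 (D : Dat V R) (x : Finset V → R) (s : V) (q : Fin 4 → V) (k : Fin 4) : R :=
  ∑ l ∈ Finset.univ.erase k, D.wt (q l) * xq x s q k l

/-- the quadratic expression for the triangle `0, 1, 2` -/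
noncomputable def C4 (D : Dat V R) (x : Finset V → R) (s : V) (q : Fin 4 → V) : R :=
  D.wt (q 0) * xq x s q 0 1 * xq x s q 0 2 + D.wt (q 1) * xq x s q 0 1 * xq x s q 1 2 +
  D.wt (q 2) * xq x s q 0 2 * xq x s q 1 2

/-- Pe. Proof. `Matrix.det_permute`, and equal rows for a repeated column. -/
def StPe (D : Dat V R) : Prop :=
  (∀ (c' : Fin 5 → V) (p : Equiv.Perm (Fin 5)),
    D.dt (c' ∘ p) = D.dt c' ∨ D.dt (c' ∘ p) = - D.dt c') ∧
  (∀ c' : Fin 5 → V, ¬ Function.Injective c' → D.dt c' = 0)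

/-- Ve. Proof. In the sum over `r ∈ VP \ {s, q i}` of `wt r * x {r, s, q i}` only the `r` with
`x (insert r {s, q i}) ≠ 0` matter; by `HQ.link` that triple is `{s, q j, q l}`, so `r = q j` with
`j ≠ i` (compare elements, `q` injective, `r ∉ {s, q i}`). If some `x {s, q i, q j} ≠ 0` then
`{s, q i, q j}` is full, so `{s, q i}` and `{q i}` are full (`StPhX`, last part). For an element
`q' ∈ VP` which is not a `q i`, all `x (insert r {s, q'})` vanish. -/
def StVe (D : Dat V R) : Prop := ∀ x s q, Gd D x → HQ D x s q →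
  (∀ i, ∑ r ∈ D.VP \ {s, q i}, D.wt r * x (insert r {s, q i}) = S4 D x s q i) ∧
  (∀ i, (2 : R) ∣ S4 D x s q i) ∧
  (∀ i, S4 D x s q i ≠ 0 → ({s, q i} : Finset V) ∈ D.FS 2 ∧ D.Full {q i}) ∧
  (∀ q' ∈ D.VP, (∀ i, q' ≠ q i) → ∑ r ∈ D.VP \ {s, q'}, D.wt r * x (insert r {s, q'}) = 0)

/-- Es. The square of `K_s` times `X_s`: only the pairs of triples with intersection `{s}` contribute.
Proof. `deg (X_s X_G X_(G')) = deg (X_G X_(G' - s))` (`StP1`: `X_s X_(G') - X_(G' - s) ∈ J`), and it is `0`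
by `StNon` if `G` meets `G' - s`. Expand the square, and use bilinearity. -/
def StEs (D : Dat V R) : Prop := ∀ x : Finset V → R, (∀ G, x G ≠ 0 → G ∈ D.FS 3) → ∀ s ∈ D.VP,
  (∀ G ∈ D.FS 3, ∀ G' ∈ D.FS 3, s ∈ G → s ∈ G' →
    D.dg (X s * D.XH G * D.XH G') = D.dg (D.XH G * D.XH (G'.erase s)) ∧
    (G ∩ G' ≠ {s} → D.dg (X s * D.XH G * D.XH G') = 0)) ∧
  D.dg (X s * D.KK (xs s x) ^ 2) =
    ∑ G ∈ (D.FS 3).filter (fun G => s ∈ G), ∑ G' ∈ (D.FS 3).filter (fun G' => s ∈ G' ∧ G ∩ G' = {s}),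
      x G * x G' * D.dg (X s * D.XH G * D.XH G') ∧
  D.dg (X s * D.KK x ^ 2) = D.dg (X s * D.KK (xs s x) ^ 2)

/-- E4. Proof. `StEs`: the triples of the support at `s` are `{s, q i, q j}`; two of them meet exactly in
`s` iff the pairs `ij`, `kl` are complementary: six ordered pairs, the value is symmetric. Then
`4 ∣ deg (X_s K^2) = deg (X_s K_s^2) = 2 E4` gives `2 ∣ E4`. -/
def StE4 (D : Dat V R) : Prop := ∀ x s q, Gd D x → HQ D x s q →
  D.dg (X s * D.KK (xs s x) ^ 2) = 2 * E4 D x s q ∧ (2 : R) ∣ E4 D x s q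

/-- T4. Proof. Expand: `T_m (z_s X_s K_s^2) = ∑ x(G) x(G') T_m (z_s X_G * X_s X_(G'))`, and
`X_s X_(G')` may be replaced by `X_(G' - s)`: the difference is in `J` and `z_s X_G ∈ J`
(`StTx`, second part). If `G` meets `G' - s` the value is `0` (`StNonT`). Otherwise `G ∪ (G' - s)` is
`{s, q 0, q 1, q 2, q 3}`, so `p = q r` is in it and `StF3` with `v = s ≠ p` gives `0`. -/
def StT4 (D : Dat V R) : Prop := ∀ x s q, Gd D x → HQ D x s q → ∀ r : Fin 4,
  ∑ m ∈ range 5, D.a m (q r) * D.T m (D.z s * X s * D.KK (xs s x) ^ 2) = 0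

/-- Dag1. The main congruence contracted with the column `q 3`.
Proof. Choose `ν` by `Gd.rm` (`2 ν(H) = - ∑_r wt_r x(H ∪ r)`, for `H ∈ FS 2`), and for every
`G ∈ FS 3` an expansion `bG` of `αX_G - X_G` (`StP1`, `mem_J_iff`); `b m = ∑_G C (xs s x G) * bG G m` is an
expansion of `αK_s - K_s`. Put `Y i j k = ∑_m a_(m, q 3) φ_(q k) (bG {s, q i, q j} m)`. (1) is `StTA2`.
(2): multiply the congruences of `StStar` by `a_(m, q 3)` and add: `StT4` kills the first term, the second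
is `(∑_m μ_m a_(m, q 3)) * 2 E4` (`StE4`), the third is
`4 ∑_(q') ν(s q') ∑_G xs(G) (∑_m a_(m, q 3) φ_(q') (bG G m))`. By `StVe`, `ν(s q') = 0` unless `q'` is some
`q k`, and `2 ν(s q_k) = - S4 k` (if `{s, q k}` is not in `FS 2`, `S4 k = 0`). So
`8 ∣ 2 (∑ μ a) E4 - 2 ∑_k S4 k ∑_(i<j) x_ij Y i j k`; divide by 2. -/
def StDag1 (D : Dat V R) : Prop := ∀ x s q, Gd D x → HQ D x s q →
  ∃ Y : Fin 4 → Fin 4 → Fin 4 → R,
  (∀ i j k, i ≠ j → xq x s q i j ≠ 0 → D.Full {q k} →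
    (2 : R) ∣ D.om * Y i j k - D.dt ![s, q i, q j, q k, q 3]) ∧
  (4 : R) ∣ (∑ m ∈ range 5, D.μ m * D.a m (q 3)) * E4 D x s q -
    ∑ k, S4 D x s q k * ∑ i, ∑ j ∈ Finset.univ.filter (fun j => i < j), xq x s q i j * Y i j k

/-- Dag2. Proof. Multiply (2) of `StDag1` by `ω`. For each `k` and `i < j`:
`S4 k * x_ij * (ω Y i j k - dt ![s, q i, q j, q k, q 3])` is divisible by 4: `S4 k` is even, it is `0` or
`{q k}` is full (`StVe`), and `x_ij = 0` or (1) applies. `dt ![s, q i, q j, q k, q 3] = 0` unless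
`{i,j,k} = {0,1,2}` (`StPe`), and then it is `± dt ![s, q 0, q 1, q 2, q 3]`; the sign does not matter
modulo 4 after multiplication with the even `S4 k`. The three remaining terms give
`dt0 (S4 0 x_12 + S4 1 x_02 + S4 2 x_01)`, and with `xq` symmetric this bracket is
`wt(q 3) P4 + 2 C4`. Finally `ω (∑ μ a) E4 = ω wt(q 3) E4 - 2 c ω E4` and `E4` is even. -/
def StDag2 (D : Dat V R) : Prop := ∀ x s q, Gd D x → HQ D x s q →
  (4 : R) ∣ D.om * D.wt (q 3) * E4 D x s q -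
    D.dt ![s, q 0, q 1, q 2, q 3] * (D.wt (q 3) * P4 x s q + 2 * C4 D x s q)

/-- Leq. Proof. If all three products `x_ij x_kl` of complementary pairs vanish, `P4 = 0` and
`E4 = 0`, take `L = 0`. Otherwise say `x_ij x_kl ≠ 0`: `{s,i,j}, {s,k,l}` are in the support. By `StClo`
the pair `ij` is in another triple `{i,j,t}` of the support, `t ≠ s`; it meets `{s,k,l}` (`StInt`), so
`t = k` or `t = l`: a full triple `T = {q i', q j', q k'}` omitting one index `m`. Put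
`L = deg (X_T X_(s, q m))`. For every complementary pair with `x ≠ 0`, say `{m, j}`, `{k, l}` (`m` is in
one of them, `lam` is symmetric): `lam = deg (X_(s m j) X_(k l))` (`StEs`), `X_(k l) - X_j X_(j k l) ∈ J`
with `{j,k,l} = T`, and `X_j X_(s m j) - X_(s m) ∈ J` (`StP1`), so `lam = deg (X_(s m) X_T) = L`. Hence
`E4 = P4 * L`. And `2 ∣ ω L - dt(T, s, q m)` by `StTA1`, where `dt(T, s, q m) = ± dt0` (`StPe`), and the
sign does not matter modulo 2. (`{s, q m} ∈ FS 2` as a subset of a full triple.) -/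
def StLeq (D : Dat V R) : Prop := ∀ x s q, Gd D x → HQ D x s q →
  ∃ L : R, E4 D x s q = P4 x s q * L ∧
    (P4 x s q = 0 ∨ (2 : R) ∣ D.om * L - D.dt ![s, q 0, q 1, q 2, q 3])

/-- C4. Proof. `L` from `StLeq`, `dt0 = dt ![s, q 0, ...]` is odd (`ind5`). `P4` is even: if `P4 ≠ 0`,
`ω E4 = P4 (ω L)`, so `P4 dt0` is even (`E4` is even). So
`4 ∣ wt(q 3) P4 (ω L - dt0) = ω wt(q 3) E4 - dt0 wt(q 3) P4`, and with `StDag2`: `4 ∣ 2 dt0 C4`,
`2 ∣ C4`. -/
def StC4 (D : Dat V R) : Prop := ∀ x s q, Gd D x → HQ D x s q → (2 : R) ∣ C4 D x s q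

/-- K4 (pure algebra). Proof. Put `a = w0 w1 x01`, `b = w0 w2 x02`, `c = w1 w2 x12`. Multiplying the
vertex sums by `w0`, `w1`, `w2`: modulo 2, `w0 w3 x03 = a + b`, `w1 w3 x13 = a + c`, `w2 w3 x23 = b + c`.
Multiply the four quadratic conditions by `w_i w_j w_k`: `a b + a c + b c`, `a^2 + b c`, `b^2 + a c`,
`c^2 + a b` are even. So `(a + b + c)^2` is even, `a + b + c` is even, and
`a^2 + a b + b^2 = a^2 + b (a + b)` is `a^2 + b c` modulo 2, even. By `hnc`, `a, b` are even, then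
`c, a + b, ...` are even; the `w_i` are odd and `2` is prime. -/
def StK4 : Prop := ∀ {R : Type} [CommRing R] [IsDomain R], Prime (2 : R) →
  (∀ x y : R, (2 : R) ∣ x ^ 2 + x * y + y ^ 2 → (2 : R) ∣ x ∧ (2 : R) ∣ y) →
  ∀ w0 w1 w2 w3 x01 x02 x03 x12 x13 x23 : R,
  ¬ (2 : R) ∣ w0 → ¬ (2 : R) ∣ w1 → ¬ (2 : R) ∣ w2 → ¬ (2 : R) ∣ w3 →
  (2 : R) ∣ w1 * x01 + w2 * x02 + w3 * x03 → (2 : R) ∣ w0 * x01 + w2 * x12 + w3 * x13 →
  (2 : R) ∣ w0 * x02 + w1 * x12 + w3 * x23 → (2 : R) ∣ w0 * x03 + w1 * x13 + w2 * x23 →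
  (2 : R) ∣ w0 * x01 * x02 + w1 * x01 * x12 + w2 * x02 * x12 →
  (2 : R) ∣ w0 * x01 * x03 + w1 * x01 * x13 + w3 * x03 * x13 →
  (2 : R) ∣ w0 * x02 * x03 + w2 * x02 * x23 + w3 * x03 * x23 →
  (2 : R) ∣ w1 * x12 * x13 + w2 * x12 * x23 + w3 * x13 * x23 →
  (2 : R) ∣ x01 ∧ (2 : R) ∣ x02 ∧ (2 : R) ∣ x03 ∧ (2 : R) ∣ x12 ∧ (2 : R) ∣ x13 ∧ (2 : R) ∣ x23

/-- L4. No vertex of the support has its link on four vertices.
Proof. `HQ` holds for every reordering of `q` (compose with a permutation of `Fin 4`), so `StC4` gives the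
four quadratic conditions (omitting the index 3, 2, 1, 0; `xq` is symmetric), `StVe` the four vertex
sums; `StK4` (with `nocube`, `wt` odd) gives that all `x {s, q i, q j}` are even, so they are `0`
(`Gd.supp`). By `HQ.link` no triple of the support contains `s`. -/
def StL4 (D : Dat V R) : Prop := ∀ x s q, Gd D x → HQ D x s q → ∀ G, s ∈ G → x G = 0

/-- Cr. Six columns in dimension five, modulo 2.
Proof. The vectors `a_(., s), a_(., c 0), ..., a_(., c 4)` and Cramer's rule: for instance the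
6 x 6 determinant with columns `(a_(0 p), ..., a_(4 p), ∑_m μ_m a_(m p))` for the six `p` vanishes (the
last entry is a combination of the others); expand along the last row. Signs do not matter modulo 2
(the columns `c (k+1), ..., c (k+4)` are the others in cyclic order; a permutation changes the
determinant by a sign). -/
def StCr : Prop := ∀ {V : Type} {R : Type} [CommRing R] (a : ℕ → V → R) (μ : ℕ → R) (s : V)
  (c : Fin 5 → V),
  (2 : R) ∣ ∑ k : Fin 5, (∑ m ∈ range 5, μ m * a m (c k)) *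
    Matrix.det (fun i l : Fin 5 => a l ((![s, c (k + 1), c (k + 2), c (k + 3), c (k + 4)] :
      Fin 5 → V) i)) -
    (∑ m ∈ range 5, μ m * a m s) * Matrix.det (fun i l : Fin 5 => a l (c i))

/-- L5. No vertex of the support has a 5-cycle as link.
Proof. Put `x_i = x {s, c i, c (i+1)}` (nonzero, odd), `w_i = wt (c i)`. The vertex sum at `c i`
(`Gd.rm` for `{s, c i}`) has only the two terms with `c (i-1)`, `c (i+1)`; times `w_i`:
`ξ_(i-1) + ξ_i` is even for `ξ_i = w_i w_(i+1) x_i`, so all `ξ_i` agree modulo 2, and they are odd.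
`StEs`: two triples at `s` meet exactly in `s` iff they are `{s, c (k+1), c (k+2)}` and
`{s, c (k+3), c (k+4)}` for some `k` (five unordered pairs), so `4 ∣ deg (X_s K^2) = 2 E'`,
`E' = ∑_k x_(k+1) x_(k+3) deg (X_s X X')` with
`deg (X_s X X') = deg (X_(s, c(k+1), c(k+2)) X_(c(k+3), c(k+4)))`; times `ω`, by `StTA1`:
`∑_k x_(k+1) x_(k+3) dt ![s, c(k+1), ..., c(k+4)]` is even. Multiply by `w_0 w_1 w_2 w_3 w_4`: it becomes
`∑_k w_k ξ_(k+1) ξ_(k+3) dt_k`, modulo 2 `ξ_0^2 ∑_k w_k dt_k`. So `∑_k w_k dt_k` is even, and as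
`w_k = ∑ μ_m a_(m, c k)` modulo 2, `StCr` gives that `(∑ μ_m a_(m s)) dt c` is even: contradiction to
`wt_odd` and `ind5`. (The `c i` are in `VP` because the triples are full.) -/
def StL5 (D : Dat V R) : Prop := ∀ x, Gd D x → ∀ s, ∀ c : Fin 5 → V, Function.Injective c →
  (∀ i, c i ≠ s) → (∀ G, (x G ≠ 0 ∧ s ∈ G) ↔ ∃ i : Fin 5, G = {s, c i, c (i + 1)}) → False

/-- VP5. Proof. The map `v ↦ v` or `αv`, whichever is in `VP`, is injective on the facet `σ`
(`no_pair`). -/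
def StVP5 (D : Dat V R) : Prop := 5 ≤ D.VP.card

/-- Fin. Proof. Let `G0` be the set of the `G` with `x G ≠ 0` (a subset of `FS 3`), suppose it is not
empty. `StCL` applies (`StInt`, `StClo`). First case: `s` is covered, `G.erase s ⊆ Q`, `|Q| ≤ 4`, `s ∉ Q`, for
all `G ∋ s` of the support; `s ∈ VP`. Replace `Q` by `Q ∩ VP` and enlarge it to a set with exactly 4
elements inside `VP.erase s` (at least 4 elements by `StVP5`); enumerate it by `q : Fin 4 → V`: `HQ` holds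
(a triple `G ∋ s` of the support is `s` and two elements of `Q`). `StL4` contradicts that `s` is covered.
Second case: `StL5`. -/
def StFin (D : Dat V R) : Prop := ∀ x, Gd D x → ∀ G, x G = 0

/-- Core. Proof. `StRed`: `y = K + 2u` modulo `J`. Then `w (K + 2u) ∈ J` and
`α(K + 2u) - ε (K + 2u) ∈ J` (`rename_J`), so `StFour`, `StRm` give `Gd D x`; `StFin`: `x = 0`,
`K = 0`. -/
def StCore (D : Dat V R) : Prop := ∀ (ε : R) (y : MvPolynomial V R), ε * ε = 1 →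
  y.IsHomogeneous 2 → D.w * y ∈ D.J → rename D.α y - ε • y ∈ D.J →
  ∃ u : MvPolynomial V R, u.IsHomogeneous 2 ∧ y - (2 : R) • u ∈ D.J

/-- Inj. Injectivity of the multiplication by the Lefschetz element in degree 2, over the local ring.
Proof. Follow the end of `inj_Rq` (`Quad/QInjR.lean`): for `ε = ±1` the submodule `U` of the
homogeneous `x` of degree 2 with `w x ∈ J`, `αx - ε x ∈ J` is contained in `J`, by `nak`: for `y ∈ U`,
`StCore` gives `y = e + 2 u`, `e = y - 2u ∈ J`, and `u ∈ U` by `tors`. Then split `x` into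
`(x + αx) + (x - αx)`: `w αx ∈ J` because `αw - w ∈ J` (`rename_welA`), and `2 x ∈ J` implies `x ∈ J`. -/
def StInj (D : Dat V R) [IsLocalRing R] [IsNoetherianRing R] : Prop :=
  IsLocalRing.maximalIdeal R = Ideal.span {(2 : R)} →
  ∀ x : MvPolynomial V R, x.IsHomogeneous 2 → D.w * x ∈ D.J → x ∈ D.J

end CSLef.D5
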