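import Pool.Agent.Work.MP_38c61c_al.D5.CLStmt

/-!
Block D5, item CL, first part: graphs with five vertices (finite check).
-/

set_option autoImplicit false

namespace CSLef.D5

namespace ICL

/-! ### Graphs with five vertices -/

/-- the graph with the given edges -/
def mk (a01 a02 a03 a04 a12 a13 a14 a23 a24 a34 : Bool) (i j : Fin 5) : Bool :=
  (![![false, a01, a02, a03, a04], ![a01, false, a12, a13, a14], ![a02, a12, false, a23, a24],
    ![a03, a13, a23, false, a34], ![a04, a14, a24, a34, false]] : Fin 5 → Fin 5 → Bool) i j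

/-- the twelve 5-cycles -/
def cyc : Fin 12 → Fin 5 → Fin 5 :=
  ![![0, 1, 2, 3, 4], ![0, 1, 2, 4, 3], ![0, 1, 3, 2, 4], ![0, 1, 3, 4, 2], ![0, 1, 4, 2, 3],
    ![0, 1, 4, 3, 2], ![0, 2, 1, 3, 4], ![0, 2, 1, 4, 3], ![0, 2, 3, 1, 4], ![0, 2, 4, 1, 3],
    ![0, 3, 1, 2, 4], ![0, 3, 2, 1, 4]]

theorem cyc_inj : ∀ k : Fin 12, ∀ i j : Fin 5, cyc k i = cyc k j → i = j := by decide +kernel

/-- all degrees are at least two -/
def P1 (A : Fin 5 → Fin 5 → Bool) : Prop :=
  ∀ i, ∃ j k, j ≠ k ∧ A i j = true ∧ A i k = true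

/-- the cover with the vertices `i`, `j`, `x` -/
def Cov (A : Fin 5 → Fin 5 → Bool) (i j x : Fin 5) : Prop :=
  ∀ u v, A u v = true → u = i ∨ u = j ∨ u = x ∨ v = i ∨ v = j ∨ v = x

/-- each edge is part of a cover with three vertices -/
def P2 (A : Fin 5 → Fin 5 → Bool) : Prop := ∀ i j, A i j = true → ∃ x, Cov A i j x

/-- two vertices meet all edges -/
def P3 (A : Fin 5 → Fin 5 → Bool) : Prop := ∃ p q, Cov A p q q

/-- a 5-cycle -/
def P4 (A : Fin 5 → Fin 5 → Bool) : Prop := ∃ k : Fin 12, ∀ u v, A u v = true ↔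
    ∃ i : Fin 5, (u = cyc k i ∧ v = cyc k (i + 1)) ∨ (u = cyc k (i + 1) ∧ v = cyc k i)

instance (A : Fin 5 → Fin 5 → Bool) : Decidable (P1 A) := by
  unfold P1
  infer_instance

instance (A : Fin 5 → Fin 5 → Bool) (i j x : Fin 5) : Decidable (Cov A i j x) := by
  unfold Cov
  infer_instance

instance (A : Fin 5 → Fin 5 → Bool) : Decidable (P2 A) := by
  unfold P2
  infer_instance

instance (A : Fin 5 → Fin 5 → Bool) : Decidable (P3 A) := by
  unfold P3
  infer_instance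

instance (A : Fin 5 → Fin 5 → Bool) : Decidable (P4 A) := by
  unfold P4
  infer_instance

theorem five : ∀ a01 a02 a03 a04 a12 a13 a14 a23 a24 a34 : Bool,
    P1 (mk a01 a02 a03 a04 a12 a13 a14 a23 a24 a34) →
    P2 (mk a01 a02 a03 a04 a12 a13 a14 a23 a24 a34) →
    P3 (mk a01 a02 a03 a04 a12 a13 a14 a23 a24 a34) ∨
    P4 (mk a01 a02 a03 a04 a12 a13 a14 a23 a24 a34) := by
  decide +kernel

end ICL

end CSLef.D5
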