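import Pool.Agent.Work.MP_38c61c_al.D5.CLStmt
import Pool.Agent.Work.MP_38c61c_al.D5.CLFive

/-!
Block D5, item CL: intersecting families of triples in which every covered pair is covered twice.
-/

set_option autoImplicit false

namespace CSLef.D5

namespace ICL

theorem mk_eq (A : Fin 5 → Fin 5 → Bool) (hs : ∀ i j, A i j = A j i) (hi : ∀ i, A i i = false) :
    A = mk (A 0 1) (A 0 2) (A 0 3) (A 0 4) (A 1 2) (A 1 3) (A 1 4) (A 2 3) (A 2 4) (A 3 4) := by
  funext i j
  fin_cases i <;> fin_cases j <;> first | exact hi _ | rfl | exact hs _ _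

theorem five' (A : Fin 5 → Fin 5 → Bool) (hs : ∀ i j, A i j = A j i) (hi : ∀ i, A i i = false)
    (h1 : P1 A) (h2 : P2 A) : P3 A ∨ P4 A := by
  have h := five (A 0 1) (A 0 2) (A 0 3) (A 0 4) (A 1 2) (A 1 3) (A 1 4) (A 2 3) (A 2 4) (A 3 4)
  rw [← mk_eq A hs hi] at h
  exact h h1 h2

section graph

variable {V : Type} [Fintype V] [DecidableEq V] (E : V → V → Prop)

/-- three vertices meet all edges -/
def Cv (p q r : V) : Prop := ∀ u v, E u v → u = p ∨ u = q ∨ u = r ∨ v = p ∨ v = q ∨ v = r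

/-- the graph is a 5-cycle -/
def Cy : Prop := ∃ c : Fin 5 → V, Function.Injective c ∧ ∀ u v, E u v ↔
  ∃ i : Fin 5, (u = c i ∧ v = c (i + 1)) ∨ (u = c (i + 1) ∧ v = c i)

variable {E}

/-- exactly five vertices -/
theorem graph5 (hs : ∀ u v, E u v → E v u) (hi : ∀ u, ¬ E u u)
    (h1 : ∀ u v, E u v → ∃ w, w ≠ v ∧ E u w) (h2 : ∀ u v, E u v → ∃ x, Cv E u v x)
    (N : Finset V) (hN : ∀ u, u ∈ N ↔ ∃ v, E u v) (hc : N.card = 5) :
    (∃ p q, Cv E p q q) ∨ Cy E := by
  classical
  let e : Fin 5 ≃ N := (finCongr hc.symm).trans N.equivFin.symm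
  have he : ∀ u, u ∈ N → ∃ i, (e i : V) = u := fun u hu => ⟨e.symm ⟨u, hu⟩, by simp⟩
  have hinj : ∀ i j, (e i : V) = e j → i = j := fun i j h => e.injective (Subtype.ext h)
  have hEN : ∀ u v, E u v → u ∈ N := fun u v h => (hN u).2 ⟨v, h⟩
  set A : Fin 5 → Fin 5 → Bool := fun i j => decide (E (e i) (e j)) with hA
  have hAt : ∀ i j, A i j = true ↔ E (e i) (e j) := fun i j => by simp [hA]
  have hAs : ∀ i j, A i j = A j i := by
    intro i j
    rw [Bool.eq_iff_iff, hAt, hAt]
    exact ⟨hs _ _, hs _ _⟩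
  have hAi : ∀ i, A i i = false := by
    intro i
    rw [← Bool.not_eq_true, hAt]
    exact hi _
  have hP1 : P1 A := by
    intro i
    obtain ⟨v, hv⟩ := (hN (e i)).1 (e i).2
    obtain ⟨w, hw, hw'⟩ := h1 _ _ hv
    obtain ⟨j, rfl⟩ := he v (hEN _ _ (hs _ _ hv))
    obtain ⟨k, rfl⟩ := he w (hEN _ _ (hs _ _ hw'))
    exact ⟨j, k, fun h => hw (by rw [h]), (hAt _ _).2 hv, (hAt _ _).2 hw'⟩
  have hcov : ∀ i j x, Cv E (e i) (e j) (e x) → Cov A i j x := by
    intro i j x h u v huv
    rcases h _ _ ((hAt _ _).1 huv) with h | h | h | h | h | h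
    · exact Or.inl (hinj _ _ h)
    · exact Or.inr (Or.inl (hinj _ _ h))
    · exact Or.inr (Or.inr (Or.inl (hinj _ _ h)))
    · exact Or.inr (Or.inr (Or.inr (Or.inl (hinj _ _ h))))
    · exact Or.inr (Or.inr (Or.inr (Or.inr (Or.inl (hinj _ _ h)))))
    · exact Or.inr (Or.inr (Or.inr (Or.inr (Or.inr (hinj _ _ h)))))
  have hP2 : P2 A := by
    intro i j hij
    obtain ⟨x, hx⟩ := h2 _ _ ((hAt _ _).1 hij)
    by_cases hxN : x ∈ N
    · obtain ⟨k, rfl⟩ := he x hxN
      exact ⟨k, hcov _ _ _ hx⟩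
    · refine ⟨j, hcov _ _ _ ?_⟩
      intro u v huv
      rcases hx u v huv with h | h | h | h | h | h
      · exact Or.inl h
      · exact Or.inr (Or.inl h)
      · exact absurd (h ▸ hEN _ _ huv) hxN
      · exact Or.inr (Or.inr (Or.inr (Or.inl h)))
      · exact Or.inr (Or.inr (Or.inr (Or.inr (Or.inl h))))
      · exact absurd (h ▸ hEN _ _ (hs _ _ huv)) hxN
  rcases five' A hAs hAi hP1 hP2 with ⟨p, q, h⟩ | ⟨k, h⟩
  · left
    refine ⟨e p, e q, ?_⟩
    intro u v huv
    obtain ⟨i, rfl⟩ := he u (hEN _ _ huv)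
    obtain ⟨j, rfl⟩ := he v (hEN _ _ (hs _ _ huv))
    rcases h i j ((hAt _ _).2 huv) with h | h | h | h | h | h <;> subst h <;> simp
  · right
    refine ⟨fun i => e (cyc k i), ?_, ?_⟩
    · intro i j hij
      exact cyc_inj k i j (hinj _ _ hij)
    · intro u v
      constructor
      · intro huv
        obtain ⟨i, rfl⟩ := he u (hEN _ _ huv)
        obtain ⟨j, rfl⟩ := he v (hEN _ _ (hs _ _ huv))
        obtain ⟨l, hl⟩ := (h i j).1 ((hAt _ _).2 huv)
        refine ⟨l, ?_⟩
        rcases hl with ⟨rfl, rfl⟩ | ⟨rfl, rfl⟩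
        · exact Or.inl ⟨rfl, rfl⟩
        · exact Or.inr ⟨rfl, rfl⟩
      · rintro ⟨l, ⟨rfl, rfl⟩ | ⟨rfl, rfl⟩⟩
        · exact (hAt _ _).1 ((h _ _).2 ⟨l, Or.inl ⟨rfl, rfl⟩⟩)
        · exact (hAt _ _).1 ((h _ _).2 ⟨l, Or.inr ⟨rfl, rfl⟩⟩)

/-- at least six vertices -/
theorem graph6 (hs : ∀ u v, E u v → E v u)
    (h1 : ∀ u v, E u v → ∃ w, w ≠ v ∧ E u w) (h2 : ∀ u v, E u v → ∃ x, Cv E u v x)
    (N : Finset V) (hN : ∀ u, u ∈ N ↔ ∃ v, E u v) (hc : 6 ≤ N.card) :
    ∃ p q, Cv E p q q := by
  have hne : N.Nonempty := Finset.card_pos.1 (by omega)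
  obtain ⟨b, hb⟩ := hne
  obtain ⟨c, hbc⟩ := (hN b).1 hb
  obtain ⟨x, hx⟩ := h2 b c hbc
  -- the other vertices
  set T : Finset V := {b, c, x} with hT
  have hTmem : ∀ u, u ∈ T ↔ u = b ∨ u = c ∨ u = x := fun u => by simp [hT]
  have hTc : T.card ≤ 3 := Finset.card_le_three
  have hI : 2 < (N \ T).card := by
    have := Finset.le_card_sdiff T N
    omega
  have hcov : ∀ u v, E u v → u ∈ T ∨ v ∈ T := by
    intro u v huv
    rw [hTmem, hTmem]
    rcases hx u v huv with h | h | h | h | h | h <;> simp [h]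
  obtain ⟨i1, m1, i2, m2, i3, m3, n12, n13, n23⟩ := Finset.two_lt_card.1 hI
  rw [Finset.mem_sdiff] at m1 m2 m3
  -- neighbours of the other vertices are in `T`
  have hnb : ∀ i, i ∉ T → ∀ t, E i t → t ∈ T := fun i hi t h => (hcov i t h).resolve_left hi
  -- the main step
  have step : ∀ i t, i ∉ T → t ∈ T → E i t → ∀ j k, j ∈ N → j ∉ T → k ∈ N → k ∉ T → j ≠ i →
      k ≠ i → j ≠ k → ∃ y ∈ T, y ≠ t ∧ Cv E t i y ∧ (∀ l, l ∈ N → l ∉ T → l ≠ i →
        (∀ r, E l r → r = t ∨ r = y) ∧ E l t ∧ E l y) := by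
    intro i t hi ht hit j k hj hj' hk hk' hji hki hjk
    obtain ⟨y, hy⟩ := h2 t i (hs _ _ hit)
    -- a neighbour different from `t`
    have hnt : ∀ l, l ∈ N → ∃ r, E l r ∧ r ≠ t := by
      intro l hl
      obtain ⟨r, hr⟩ := (hN l).1 hl
      by_cases h : r = t
      · obtain ⟨w, hw, hw'⟩ := h1 l r hr
        exact ⟨w, hw', fun h' => hw (h'.trans h.symm)⟩
      · exact ⟨r, hr, h⟩
    have hyy : ∀ l, l ∉ T → l ≠ i → ∀ r, E l r → r ≠ t → y = l ∨ y = r := by
      intro l hl hli r hr hrt
      have hrT : r ∈ T := hnb l hl r hr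
      rcases hy l r hr with h | h | h | h | h | h
      · exact absurd (h ▸ ht) hl
      · exact absurd h hli
      · exact Or.inl h.symm
      · exact absurd h hrt
      · exact absurd (h ▸ hrT) hi
      · exact Or.inr h.symm
    have hyT : y ∈ T := by
      obtain ⟨r, hr, hrt⟩ := hnt j hj
      obtain ⟨q, hq, hqt⟩ := hnt k hk
      rcases hyy j hj' hji r hr hrt with h | h
      · rcases hyy k hk' hki q hq hqt with h' | h'
        · exact absurd (h.symm.trans h') hjk
        · rw [h']
          exact hnb k hk' q hq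
      · rw [h]
        exact hnb j hj' r hr
    have hall : ∀ l, l ∉ T → l ≠ i → ∀ r, E l r → r = t ∨ r = y := by
      intro l hl hli r hr
      by_cases hrt : r = t
      · exact Or.inl hrt
      · rcases hyy l hl hli r hr hrt with h | h
        · exact absurd (h ▸ hyT) hl
        · exact Or.inr h.symm
    have hyt : y ≠ t := by
      intro h
      obtain ⟨r, hr, hrt⟩ := hnt j hj
      rcases hall j hj' hji r hr with h' | h'
      · exact hrt h'
      · exact hrt (h'.trans h)
    refine ⟨y, hyT, hyt, hy, fun l hl hl' hli => ⟨hall l hl' hli, ?_, ?_⟩⟩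
    · obtain ⟨r, hr, hrt⟩ := hnt l hl
      have hry : r = y := (hall l hl' hli r hr).resolve_left hrt
      obtain ⟨w, hw, hw'⟩ := h1 l r hr
      rcases hall l hl' hli w hw' with h | h
      · exact h ▸ hw'
      · exact absurd (h.trans hry.symm) hw
    · obtain ⟨r, hr, hrt⟩ := hnt l hl
      exact ((hall l hl' hli r hr).resolve_left hrt) ▸ hr
  obtain ⟨t, hit⟩ := (hN i1).1 m1.1
  have htT : t ∈ T := hnb i1 m1.2 t hit
  obtain ⟨y, hyT, hyt, hy, hyall⟩ := step i1 t m1.2 htT hit i2 i3 m2.1 m2.2 m3.1 m3.2 n12.symm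
    n13.symm n23
  obtain ⟨hr2, h2t, h2y⟩ := hyall i2 m2.1 m2.2 n12.symm
  obtain ⟨hr3, h3t, h3y⟩ := hyall i3 m3.1 m3.2 n13.symm
  obtain ⟨y', hyT', hyt', hy', hyall'⟩ := step i2 t m2.2 htT h2t i1 i3 m1.1 m1.2 m3.1 m3.2 n12
    n23.symm n13
  have hyy' : y' = y := by
    obtain ⟨-, -, h3y'⟩ := hyall' i3 m3.1 m3.2 n23.symm
    exact (hr3 y' h3y').resolve_left hyt'
  subst hyy'
  -- all edges from the other vertices go to `t`, `y`
  have hfin : ∀ l, l ∉ T → ∀ r, E l r → r = t ∨ r = y' := by
    intro l hl r hr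
    have hlN : l ∈ N := (hN l).2 ⟨r, hr⟩
    by_cases hli : l = i1
    · have : l ≠ i2 := fun h => n12 (hli.symm.trans h)
      exact (hyall' l hlN hl this).1 r hr
    · exact (hyall l hlN hl hli).1 r hr
  refine ⟨t, y', ?_⟩
  intro u v huv
  by_cases hu : u ∈ T
  · by_cases hv : v ∈ T
    · -- both in `T`: use the cover of `t`, `i1` and `y'`
      rcases hy u v huv with h | h | h | h | h | h
      · exact Or.inl h
      · exact absurd (h ▸ hu) m1.2
      · exact Or.inr (Or.inl h)
      · exact Or.inr (Or.inr (Or.inr (Or.inl h)))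
      · exact absurd (h ▸ hv) m1.2
      · exact Or.inr (Or.inr (Or.inr (Or.inr (Or.inl h))))
    · rcases hfin v hv u (hs _ _ huv) with h | h
      · exact Or.inl h
      · exact Or.inr (Or.inl h)
  · rcases hfin u hu v huv with h | h
    · exact Or.inr (Or.inr (Or.inr (Or.inl h)))
    · exact Or.inr (Or.inr (Or.inr (Or.inr (Or.inl h))))

end graph

section triples

variable {V : Type} [DecidableEq V]

theorem ex2 {G : Finset V} (hG : G.card = 3) {s : V} (hs : s ∈ G) :
    ∃ u v, u ≠ s ∧ v ≠ s ∧ u ≠ v ∧ G = {s, u, v} := by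
  have h : (G.erase s).card = 2 := by
    rw [Finset.card_erase_of_mem hs, hG]
  obtain ⟨u, v, huv, h⟩ := Finset.card_eq_two.1 h
  have hu : u ∈ G.erase s := by
    rw [h]
    simp
  have hv : v ∈ G.erase s := by
    rw [h]
    simp
  refine ⟨u, v, (Finset.mem_erase.1 hu).1, (Finset.mem_erase.1 hv).1, huv, ?_⟩
  rw [← Finset.insert_erase hs, h]

theorem ex1 {G : Finset V} (hG : G.card = 3) {a b : V} (ha : a ∈ G) (hb : b ∈ G) (hab : a ≠ b) :
    ∃ x, x ≠ a ∧ x ≠ b ∧ G = {a, b, x} := by
  obtain ⟨u, v, hu, hv, huv, h⟩ := ex2 hG ha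
  rw [h, Finset.mem_insert, Finset.mem_insert, Finset.mem_singleton] at hb
  rcases hb with hb | hb | hb
  · exact absurd hb.symm hab
  · exact ⟨v, hv, fun h' => huv (hb.symm.trans h'.symm), by rw [h, hb]⟩
  · refine ⟨u, hu, fun h' => huv (h'.trans hb), ?_⟩
    rw [h, hb, Finset.pair_comm]

end triples

end ICL

open ICL in
theorem pr_CL : StCL := by
  intro V _ _ G0 hne h3 hint hcov
  classical
  obtain ⟨G1, hG1⟩ := hne
  have hG1c := h3 G1 hG1
  obtain ⟨s, hs⟩ : G1.Nonempty := Finset.card_pos.1 (by omega)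
  obtain ⟨E, hE⟩ : ∃ E : V → V → Prop, ∀ u v, E u v ↔ u ≠ s ∧ v ≠ s ∧ u ≠ v ∧
      ({s, u, v} : Finset V) ∈ G0 := ⟨_, fun _ _ => Iff.rfl⟩
  have hsym : ∀ u v, E u v → E v u := by
    intro u v h
    rw [hE] at h ⊢
    refine ⟨h.2.1, h.1, h.2.2.1.symm, ?_⟩
    rw [Finset.pair_comm]
    exact h.2.2.2
  have hirr : ∀ u, ¬ E u u := fun u h => ((hE u u).1 h).2.2.1 rfl
  have h1 : ∀ u v, E u v → ∃ w, w ≠ v ∧ E u w := by
    intro u v h
    obtain ⟨a1, a2, a3, a4⟩ := (hE u v).1 h
    obtain ⟨G', hG', hne', hsub⟩ := hcov _ a4 {s, u} (by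
      intro x hx
      simp only [Finset.mem_insert, Finset.mem_singleton] at hx ⊢
      tauto) (Finset.card_pair a1.symm)
    obtain ⟨w, hw1, hw2, hw3⟩ := ex1 (h3 G' hG') (hsub (by simp)) (hsub (by simp)) a1.symm
    refine ⟨w, ?_, (hE u w).2 ⟨a1, hw1, hw2.symm, hw3 ▸ hG'⟩⟩
    rintro rfl
    exact hne' hw3
  have h2 : ∀ u v, E u v → ∃ x, Cv E u v x := by
    intro b c h
    obtain ⟨a1, a2, a3, a4⟩ := (hE b c).1 h
    obtain ⟨G', hG', hne', hsub⟩ := hcov _ a4 {b, c} (by
      intro x hx
      simp only [Finset.mem_insert, Finset.mem_singleton] at hx ⊢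
      tauto) (Finset.card_pair a3)
    obtain ⟨x, hx1, hx2, hx3⟩ := ex1 (h3 G' hG') (hsub (by simp)) (hsub (by simp)) a3
    have hsG : s ∉ G' := by
      intro hsG
      rw [hx3, Finset.mem_insert, Finset.mem_insert, Finset.mem_singleton] at hsG
      rcases hsG with h' | h' | h'
      · exact a1 h'.symm
      · exact a2 h'.symm
      · apply hne'
        rw [hx3, ← h']
        ext y
        simp only [Finset.mem_insert, Finset.mem_singleton]
        tauto
    refine ⟨x, fun u v huv => ?_⟩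
    obtain ⟨b1, b2, b3, b4⟩ := (hE u v).1 huv
    obtain ⟨z, hz⟩ := hint _ b4 _ hG'
    rw [Finset.mem_inter] at hz
    obtain ⟨hz1, hz2⟩ := hz
    rw [Finset.mem_insert, Finset.mem_insert, Finset.mem_singleton] at hz1
    rcases hz1 with h' | h' | h'
    · exact absurd (h' ▸ hz2) hsG
    · rw [h', hx3, Finset.mem_insert, Finset.mem_insert, Finset.mem_singleton] at hz2
      tauto
    · rw [h', hx3, Finset.mem_insert, Finset.mem_insert, Finset.mem_singleton] at hz2
      tauto
  set N : Finset V := Finset.univ.filter (fun u => ∃ v, E u v) with hNdef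
  have hN : ∀ u, u ∈ N ↔ ∃ v, E u v := fun u => by simp [hNdef]
  by_cases hc4 : N.card ≤ 4
  · left
    refine ⟨s, ⟨G1, hG1, hs⟩, N, hc4, ?_, ?_⟩
    · intro h
      obtain ⟨v, hv⟩ := (hN s).1 h
      exact ((hE s v).1 hv).1 rfl
    · intro G hG hsG
      obtain ⟨u, v, hu, hv, huv, h⟩ := ex2 (h3 G hG) hsG
      have he : E u v := (hE u v).2 ⟨hu, hv, huv, h ▸ hG⟩
      intro x hx
      rw [Finset.mem_erase, h, Finset.mem_insert, Finset.mem_insert, Finset.mem_singleton] at hx
      rcases hx with ⟨hx, hx' | hx' | hx'⟩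
      · exact absurd hx' hx
      · exact (hN x).2 ⟨v, hx' ▸ he⟩
      · exact (hN x).2 ⟨u, hx' ▸ hsym _ _ he⟩
  · have hmain : (∃ p q, Cv E p q q) ∨ Cy E := by
      by_cases hc5 : N.card = 5
      · exact graph5 hsym hirr h1 h2 N hN hc5
      · exact Or.inl (graph6 hsym h1 h2 N hN (by omega))
    rcases hmain with ⟨p, q, hpq⟩ | ⟨c, hc, hcE⟩
    · left
      have hI : 2 < (N \ {p, q}).card := by
        have hle := Finset.le_card_sdiff ({p, q} : Finset V) N
        have hle2 : ({p, q} : Finset V).card ≤ 2 := Finset.card_le_two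
        omega
      obtain ⟨b1, m1, b2, m2, b3, m3, n12, n13, n23⟩ := Finset.two_lt_card.1 hI
      rw [Finset.mem_sdiff, Finset.mem_insert, Finset.mem_singleton, not_or] at m1 m2 m3
      have hnb : ∀ b, (b ∈ N ∧ b ≠ p ∧ b ≠ q) → (∀ r, E b r → r = p ∨ r = q) ∧ E b p ∧ E b q ∧
          p ≠ q := by
        rintro b ⟨hb, hbp, hbq⟩
        have hr : ∀ r, E b r → r = p ∨ r = q := by
          intro r hr
          rcases hpq b r hr with h | h | h | h | h | h
          · exact absurd h hbp
          · exact absurd h hbq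
          · exact absurd h hbq
          · exact Or.inl h
          · exact Or.inr h
          · exact Or.inr h
        refine ⟨hr, ?_⟩
        obtain ⟨r, her⟩ := (hN b).1 hb
        obtain ⟨w, hwr, hew⟩ := h1 b r her
        rcases hr r her with rfl | rfl <;> rcases hr w hew with rfl | rfl
        · exact absurd rfl hwr
        · exact ⟨her, hew, hwr.symm⟩
        · exact ⟨hew, her, hwr⟩
        · exact absurd rfl hwr
      obtain ⟨e1, e1p, e1q, hpq'⟩ := hnb b1 m1
      obtain ⟨e2, e2p, e2q, -⟩ := hnb b2 m2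
      obtain ⟨e3, e3p, e3q, -⟩ := hnb b3 m3
      have hmeet : ∀ b r, E b r → ∀ G ∈ G0, s ∉ G → b ∈ G ∨ r ∈ G := by
        intro b r hbr G hG hsG
        obtain ⟨z, hz⟩ := hint _ ((hE b r).1 hbr).2.2.2 _ hG
        rw [Finset.mem_inter, Finset.mem_insert, Finset.mem_insert, Finset.mem_singleton] at hz
        rcases hz with ⟨h' | h' | h', hz⟩
        · exact absurd (h' ▸ hz) hsG
        · exact Or.inl (h' ▸ hz)
        · exact Or.inr (h' ▸ hz)
      have hK : ∀ G ∈ G0, s ∉ G → (p ∈ G ∧ q ∈ G) ∨ (b2 ∈ G ∧ b3 ∈ G) := by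
        intro G hG hsG
        have k1 := hmeet _ _ e2p G hG hsG
        have k2 := hmeet _ _ e3p G hG hsG
        have k3 := hmeet _ _ e2q G hG hsG
        have k4 := hmeet _ _ e3q G hG hsG
        tauto
      have hb1s : b1 ≠ s := ((hE _ _).1 e1p).1
      have hps : p ≠ s := ((hE _ _).1 e1p).2.1
      have hqs : q ≠ s := ((hE _ _).1 e1q).2.1
      refine ⟨b1, ⟨{s, b1, p}, ((hE _ _).1 e1p).2.2.2, by simp⟩, {s, p, q},
        Finset.card_le_three.trans (by norm_num), ?_, ?_⟩
      · simp only [Finset.mem_insert, Finset.mem_singleton, not_or]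
        exact ⟨hb1s, m1.2.1, m1.2.2⟩
      · intro G hG hbG
        by_cases hsG : s ∈ G
        · obtain ⟨w, hw1, hw2, hw3⟩ := ex1 (h3 G hG) hsG hbG hb1s.symm
          have hew : E b1 w := (hE _ _).2 ⟨hb1s, hw1, hw2.symm, hw3 ▸ hG⟩
          have hwpq := e1 w hew
          intro x hx
          rw [Finset.mem_erase, hw3, Finset.mem_insert, Finset.mem_insert,
            Finset.mem_singleton] at hx
          rw [Finset.mem_insert, Finset.mem_insert, Finset.mem_singleton]
          rcases hx with ⟨hx, hx' | hx' | hx'⟩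
          · exact Or.inl hx'
          · exact absurd hx' hx
          · rcases hwpq with h | h
            · exact Or.inr (Or.inl (hx'.trans h))
            · exact Or.inr (Or.inr (hx'.trans h))
        · rcases hK G hG hsG with ⟨hp, hq⟩ | ⟨hb2, hb3⟩
          · obtain ⟨y, hy1, hy2, hy3⟩ := ex1 (h3 G hG) hbG hp m1.2.1
            have hyq : q = y := by
              rw [hy3, Finset.mem_insert, Finset.mem_insert, Finset.mem_singleton] at hq
              rcases hq with h | h | h
              · exact absurd h.symm m1.2.2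
              · exact absurd h.symm hpq'
              · exact h
            intro x hx
            rw [Finset.mem_erase, hy3, Finset.mem_insert, Finset.mem_insert,
              Finset.mem_singleton] at hx
            rw [Finset.mem_insert, Finset.mem_insert, Finset.mem_singleton]
            rcases hx with ⟨hx, hx' | hx' | hx'⟩
            · exact absurd hx' hx
            · exact Or.inr (Or.inl hx')
            · exact Or.inr (Or.inr (hx'.trans hyq.symm))
          · exfalso
            obtain ⟨y, hy1, hy2, hy3⟩ := ex1 (h3 G hG) hbG hb2 n12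
            have hyb : b3 = y := by
              rw [hy3, Finset.mem_insert, Finset.mem_insert, Finset.mem_singleton] at hb3
              rcases hb3 with h | h | h
              · exact absurd h.symm n13
              · exact absurd h.symm n23
              · exact h
            obtain ⟨G', hG', hne', hsub⟩ := hcov G hG {b1, b2} (by
              intro x hx
              rw [Finset.mem_insert, Finset.mem_singleton] at hx
              rcases hx with hx | hx
              · exact hx ▸ hbG
              · exact hx ▸ hb2) (Finset.card_pair n12)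
            have hb1' : b1 ∈ G' := hsub (by simp)
            have hb2' : b2 ∈ G' := hsub (by simp)
            by_cases hsG' : s ∈ G'
            · obtain ⟨w, hw1, hw2, hw3⟩ := ex1 (h3 G' hG') hsG' hb1' hb1s.symm
              have hew : E b1 w := (hE _ _).2 ⟨hb1s, hw1, hw2.symm, hw3 ▸ hG'⟩
              have hb2w : b2 = w := by
                rw [hw3, Finset.mem_insert, Finset.mem_insert, Finset.mem_singleton] at hb2'
                rcases hb2' with h | h | h
                · exact absurd h ((hE _ _).1 e2p).1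
                · exact absurd h.symm n12
                · exact h
              rcases e1 w hew with h | h
              · exact m2.2.1 (hb2w.trans h)
              · exact m2.2.2 (hb2w.trans h)
            · obtain ⟨x, hx1, hx2, hx3⟩ := ex1 (h3 G' hG') hb1' hb2' n12
              rcases hK G' hG' hsG' with ⟨hp, hq⟩ | ⟨-, hb3'⟩
              · rw [hx3, Finset.mem_insert, Finset.mem_insert, Finset.mem_singleton] at hp hq
                have hpx : p = x := by
                  rcases hp with h | h | h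
                  · exact absurd h.symm m1.2.1
                  · exact absurd h.symm m2.2.1
                  · exact h
                have hqx : q = x := by
                  rcases hq with h | h | h
                  · exact absurd h.symm m1.2.2
                  · exact absurd h.symm m2.2.2
                  · exact h
                exact hpq' (hpx.trans hqx.symm)
              · have hbx : b3 = x := by
                  rw [hx3, Finset.mem_insert, Finset.mem_insert, Finset.mem_singleton] at hb3'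
                  rcases hb3' with h | h | h
                  · exact absurd h.symm n13
                  · exact absurd h.symm n23
                  · exact h
                apply hne'
                rw [hx3, hy3, ← hbx, ← hyb]
    · right
      have hci : ∀ i, E (c i) (c (i + 1)) := fun i => (hcE _ _).2 ⟨i, Or.inl ⟨rfl, rfl⟩⟩
      refine ⟨s, c, hc, fun i => ((hE _ _).1 (hci i)).1, fun G => ⟨?_, ?_⟩⟩
      · rintro ⟨hG, hsG⟩
        obtain ⟨u, v, hu, hv, huv, h⟩ := ex2 (h3 G hG) hsG
        have he : E u v := (hE u v).2 ⟨hu, hv, huv, h ▸ hG⟩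
        obtain ⟨i, hi⟩ := (hcE u v).1 he
        refine ⟨i, ?_⟩
        rcases hi with ⟨h', h''⟩ | ⟨h', h''⟩
        · rw [h, h', h'']
        · rw [h, h', h'', Finset.pair_comm]
      · rintro ⟨i, rfl⟩
        exact ⟨((hE _ _).1 (hci i)).2.2.2, by simp⟩

end CSLef.D5
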