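import Mathlib
import Pool.Agent.Work.MP_38c61c_al.D5.Stmts2

namespace CSLef.D5

open MvPolynomial Finset

namespace IK4

lemma dvd_of_three {R : Type} [CommRing R] [IsDomain R] (h2 : Prime (2 : R)) {u v x : R}
    (hu : ¬ (2 : R) ∣ u) (hv : ¬ (2 : R) ∣ v) (h : (2 : R) ∣ u * v * x) : (2 : R) ∣ x := by
  rcases h2.dvd_or_dvd h with h | h
  · rcases h2.dvd_or_dvd h with h | h
    · exact absurd h hu
    · exact absurd h hv
  · exact h

end IK4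

theorem pr_K4 : StK4 := by
  intro R _ _ h2 hnc w0 w1 w2 w3 x01 x02 x03 x12 x13 x23 h0 h1 hw2 h3 s0 s1 s2 _ q3 q2 q1 q0
  obtain ⟨k0, hk0⟩ := s0
  obtain ⟨k1, hk1⟩ := s1
  obtain ⟨k2, hk2⟩ := s2
  obtain ⟨m3, hm3⟩ := q3
  obtain ⟨m2, hm2⟩ := q2
  obtain ⟨m1, hm1⟩ := q1
  obtain ⟨m0, hm0⟩ := q0
  obtain ⟨a, ha⟩ : ∃ a, a = w0 * w1 * x01 := ⟨_, rfl⟩
  obtain ⟨b, hb⟩ : ∃ b, b = w0 * w2 * x02 := ⟨_, rfl⟩
  obtain ⟨c, hc⟩ : ∃ c, c = w1 * w2 * x12 := ⟨_, rfl⟩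
  obtain ⟨d, hd⟩ : ∃ d, d = w0 * w3 * x03 := ⟨_, rfl⟩
  obtain ⟨e, he⟩ : ∃ e, e = w1 * w3 * x13 := ⟨_, rfl⟩
  obtain ⟨f, hf⟩ : ∃ f, f = w2 * w3 * x23 := ⟨_, rfl⟩
  have e0 : d = 2 * (w0 * k0) - a - b := by
    rw [ha, hb, hd]; linear_combination w0 * hk0
  have e1 : e = 2 * (w1 * k1) - a - c := by
    rw [ha, hc, he]; linear_combination w1 * hk1
  have e2 : f = 2 * (w2 * k2) - b - c := by
    rw [hb, hc, hf]; linear_combination w2 * hk2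
  have Q3 : a * b + a * c + b * c = 2 * (w0 * w1 * w2 * m3) := by
    rw [ha, hb, hc]; linear_combination w0 * w1 * w2 * hm3
  have Q2 : a * d + a * e + d * e = 2 * (w0 * w1 * w3 * m2) := by
    rw [ha, hd, he]; linear_combination w0 * w1 * w3 * hm2
  have Q1 : b * d + b * f + d * f = 2 * (w0 * w2 * w3 * m1) := by
    rw [hb, hd, hf]; linear_combination w0 * w2 * w3 * hm1
  have Q0 : c * e + c * f + e * f = 2 * (w1 * w2 * w3 * m0) := by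
    rw [hc, he, hf]; linear_combination w1 * w2 * w3 * hm0
  have A2 : (2 : R) ∣ a ^ 2 + b * c := by
    rw [e0, e1] at Q2
    have : (2 : R) ∣ (a * (2 * (w0 * k0) - a - b) + a * (2 * (w1 * k1) - a - c) +
        (2 * (w0 * k0) - a - b) * (2 * (w1 * k1) - a - c)) := ⟨_, Q2⟩
    have h' : a ^ 2 + b * c = -(a * (2 * (w0 * k0) - a - b) + a * (2 * (w1 * k1) - a - c) +
        (2 * (w0 * k0) - a - b) * (2 * (w1 * k1) - a - c)) +
        2 * (b * c + (w0 * k0) * (2 * (w1 * k1) - c) - (w1 * k1) * b) := by ring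
    rw [h']
    exact dvd_add (dvd_neg.2 this) (dvd_mul_right _ _)
  have B2 : (2 : R) ∣ b ^ 2 + a * c := by
    rw [e0, e2] at Q1
    have : (2 : R) ∣ (b * (2 * (w0 * k0) - a - b) + b * (2 * (w2 * k2) - b - c) +
        (2 * (w0 * k0) - a - b) * (2 * (w2 * k2) - b - c)) := ⟨_, Q1⟩
    have h' : b ^ 2 + a * c = -(b * (2 * (w0 * k0) - a - b) + b * (2 * (w2 * k2) - b - c) +
        (2 * (w0 * k0) - a - b) * (2 * (w2 * k2) - b - c)) +
        2 * (a * c + (w0 * k0) * (2 * (w2 * k2) - c) - (w2 * k2) * a) := by ring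
    rw [h']
    exact dvd_add (dvd_neg.2 this) (dvd_mul_right _ _)
  have C2 : (2 : R) ∣ c ^ 2 + a * b := by
    rw [e1, e2] at Q0
    have : (2 : R) ∣ (c * (2 * (w1 * k1) - a - c) + c * (2 * (w2 * k2) - b - c) +
        (2 * (w1 * k1) - a - c) * (2 * (w2 * k2) - b - c)) := ⟨_, Q0⟩
    have h' : c ^ 2 + a * b = -(c * (2 * (w1 * k1) - a - c) + c * (2 * (w2 * k2) - b - c) +
        (2 * (w1 * k1) - a - c) * (2 * (w2 * k2) - b - c)) +
        2 * (a * b + (w1 * k1) * (2 * (w2 * k2) - b) - (w2 * k2) * a) := by ring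
    rw [h']
    exact dvd_add (dvd_neg.2 this) (dvd_mul_right _ _)
  have Q3' : (2 : R) ∣ a * b + a * c + b * c := ⟨_, Q3⟩
  have hs : (2 : R) ∣ a + b + c := by
    have : (2 : R) ∣ (a + b + c) ^ 2 := by
      have h' : (a + b + c) ^ 2 = (a ^ 2 + b * c) + (b ^ 2 + a * c) + (c ^ 2 + a * b) +
          (a * b + a * c + b * c) := by ring
      rw [h']
      exact dvd_add (dvd_add (dvd_add A2 B2) C2) Q3'
    exact h2.dvd_of_dvd_pow this
  have hab : (2 : R) ∣ a ^ 2 + a * b + b ^ 2 := by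
    have h' : a ^ 2 + a * b + b ^ 2 = (a ^ 2 + b * c) + b * (a + b + c) + 2 * (-(b * c)) := by ring
    rw [h']
    exact dvd_add (dvd_add A2 (Dvd.dvd.mul_left hs b)) (dvd_mul_right _ _)
  obtain ⟨Ha, Hb⟩ := hnc a b hab
  have Hc : (2 : R) ∣ c := by
    have h' : c = (a + b + c) - a - b := by ring
    rw [h']; exact dvd_sub (dvd_sub hs Ha) Hb
  have Hd : (2 : R) ∣ d := by
    rw [e0]; exact dvd_sub (dvd_sub (dvd_mul_right _ _) Ha) Hb
  have He : (2 : R) ∣ e := by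
    rw [e1]; exact dvd_sub (dvd_sub (dvd_mul_right _ _) Ha) Hc
  have Hf : (2 : R) ∣ f := by
    rw [e2]; exact dvd_sub (dvd_sub (dvd_mul_right _ _) Hb) Hc
  rw [ha] at Ha
  rw [hb] at Hb
  rw [hc] at Hc
  rw [hd] at Hd
  rw [he] at He
  rw [hf] at Hf
  exact ⟨IK4.dvd_of_three h2 h0 h1 Ha, IK4.dvd_of_three h2 h0 hw2 Hb, IK4.dvd_of_three h2 h0 h3 Hd,
    IK4.dvd_of_three h2 h1 hw2 Hc, IK4.dvd_of_three h2 h1 h3 He, IK4.dvd_of_three h2 hw2 h3 Hf⟩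

end CSLef.D5
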