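import Mathlib
import Pool.Agent.Work.MP_38c61c_al.D5.Stmts2

/-!
Block D5, item C4: the quadratic condition.
-/

namespace CSLef.D5

open MvPolynomial Finset

namespace IC4

variable {V : Type} [Fintype V] [DecidableEq V] {R : Type} [CommRing R] [IsDomain R]

theorem inj (D : Dat V R) (x : Finset V → R) (s : V) (q : Fin 4 → V) (h : HQ D x s q) :
    Function.Injective (![s, q 0, q 1, q 2, q 3] : Fin 5 → V) := by
  have e : (![s, q 0, q 1, q 2, q 3] : Fin 5 → V) = Fin.cons s q := by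
    funext i
    refine Fin.cases rfl (fun j => ?_) i
    fin_cases j <;> rfl
  rw [e, Fin.cons_injective_iff]
  refine ⟨?_, h.q_inj⟩
  rintro ⟨i, hi⟩
  exact h.q_ne i hi

theorem mem (D : Dat V R) (x : Finset V → R) (s : V) (q : Fin 4 → V) (h : HQ D x s q) :
    ∀ i, (![s, q 0, q 1, q 2, q 3] : Fin 5 → V) i ∈ D.VP := by
  intro i
  refine Fin.cases ?_ (fun j => ?_) i
  · exact h.s_mem
  · fin_cases j
    · exact h.q_mem 0
    · exact h.q_mem 1
    · exact h.q_mem 2
    · exact h.q_mem 3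

/-- the arithmetic -/
theorem alg (h2 : Prime (2 : R)) (om w E P L d c : R) (hd : ¬ (2 : R) ∣ d) (hE : (2 : R) ∣ E)
    (h4 : (4 : R) ∣ om * w * E - d * (w * P + 2 * c)) (hL : E = P * L)
    (h : P = 0 ∨ (2 : R) ∣ om * L - d) : (2 : R) ∣ c := by
  have h0 : (2 : R) ≠ 0 := h2.ne_zero
  have key : (4 : R) ∣ om * E - d * P := by
    rcases h with h | h
    · rw [hL, h]
      exact ⟨0, by ring⟩
    · have hP : (2 : R) ∣ P := by
        rw [hL] at hE
        rcases h2.dvd_or_dvd hE with h5 | h5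
        · exact h5
        · exfalso
          apply hd
          have h6 : (2 : R) ∣ om * L := h5.mul_left om
          have h7 := dvd_sub h6 h
          rwa [sub_sub_cancel] at h7
      obtain ⟨a, ha⟩ := hP
      obtain ⟨b, hb⟩ := h
      refine ⟨a * b, ?_⟩
      rw [hL]
      linear_combination (om * L - d) * ha + 2 * a * hb
  obtain ⟨a, ha⟩ := h4
  obtain ⟨b, hb⟩ := key
  have h5 : d * c = 2 * (w * b - a) := by
    apply mul_left_cancel₀ h0
    linear_combination w * hb - ha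
  rcases h2.dvd_or_dvd (⟨w * b - a, h5⟩ : (2 : R) ∣ d * c) with h6 | h6
  · exact absurd h6 hd
  · exact h6

end IC4

theorem pr_C4 {V : Type} [Fintype V] [DecidableEq V] {R : Type} [CommRing R] [IsDomain R]
    (D : Dat V R) (hC : Ctx D) (h1 : StE4 D) (h2 : StDag2 D) (h3 : StLeq D) : StC4 D := by
  intro x s q hx hq
  obtain ⟨L, hL, hL2⟩ := h3 x s q hx hq
  exact IC4.alg hC.two D.om (D.wt (q 3)) (E4 D x s q) (P4 x s q) L
    (D.dt ![s, q 0, q 1, q 2, q 3]) (C4 D x s q)
    (hC.ind5 _ (IC4.inj D x s q hq) (IC4.mem D x s q hq)) (h1 x s q hx hq).2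
    (h2 x s q hx hq) hL hL2

end CSLef.D5
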