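import Mathlib
import Pool.Agent.Work.MP_38c61c_al.D5.Stmts2

namespace CSLef.D5

open MvPolynomial Finset

namespace ICr

/-- Cramer's rule, with the columns in cyclic order -/
theorem key {V : Type} {R : Type} [CommRing R] (a : ℕ → V → R) (s : V) (c : Fin 5 → V)
    (m : Fin 5) :
    ∑ k : Fin 5, a m (c k) *
      Matrix.det (fun i l : Fin 5 => a l ((![s, c (k + 1), c (k + 2), c (k + 3), c (k + 4)] :
        Fin 5 → V) i)) =
    a m s * Matrix.det (fun i l : Fin 5 => a l (c i)) := by
  set A : Matrix (Fin 5) (Fin 5) R := fun l i => a l (c i) with hA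
  set b : Fin 5 → R := fun l => a l s with hb
  have h := congrFun (Matrix.mulVec_cramer A b) m
  have hdet : Matrix.det (fun i l : Fin 5 => a l (c i)) = A.det := by
    rw [← Matrix.det_transpose]
    rfl
  have hcol : ∀ k : Fin 5,
      Matrix.det (fun i l : Fin 5 => a l ((![s, c (k + 1), c (k + 2), c (k + 3), c (k + 4)] :
        Fin 5 → V) i)) = A.cramer b k := by
    intro k
    rw [Matrix.cramer_apply, ← Matrix.det_transpose (A.updateCol k b)]
    have hs : Equiv.Perm.sign (Equiv.addLeft k) = 1 := by
      revert k; decide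
    have hp := Matrix.det_permute (Equiv.addLeft k) (A.updateCol k b).transpose
    rw [hs] at hp
    simp only [Units.val_one, Int.cast_one, one_mul] at hp
    rw [← hp]
    congr 1
    funext i l
    fin_cases k <;> fin_cases i <;> rfl
  rw [hdet, mul_comm (a m s)]
  simp only [hcol]
  have h2 : (A.mulVec (A.cramer b)) m = ∑ k, A m k * A.cramer b k := rfl
  rw [h2] at h
  rw [h]
  simp [hb]

end ICr

theorem pr_Cr : StCr := by
  intro V R _ a μ s c
  have h : ∑ k : Fin 5, (∑ m ∈ range 5, μ m * a m (c k)) *
      Matrix.det (fun i l : Fin 5 => a l ((![s, c (k + 1), c (k + 2), c (k + 3), c (k + 4)] :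
        Fin 5 → V) i)) =
      (∑ m ∈ range 5, μ m * a m s) * Matrix.det (fun i l : Fin 5 => a l (c i)) := by
    simp only [Finset.sum_range]
    simp only [Finset.sum_mul]
    rw [Finset.sum_comm]
    refine Finset.sum_congr rfl fun m _ => ?_
    rw [mul_assoc, ← ICr.key a s c m, Finset.mul_sum]
    refine Finset.sum_congr rfl fun k _ => ?_
    ring
  rw [h, sub_self]
  exact dvd_zero _

end CSLef.D5
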