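import Mathlib
import Pool.Agent.Work.MP_38c61c_al.D5.Stmts2

namespace CSLef.D5

open MvPolynomial Finset

namespace IDag1

/-- the sum over the triples at `s` -/
theorem sum_link {V : Type} [DecidableEq V] {R : Type} [CommRing R]
    (FS3 : Finset (Finset V)) (x : Finset V → R) (s : V) (q : Fin 4 → V)
    (hsupp : ∀ G, x G ≠ 0 → G ∈ FS3) (hinj : Function.Injective q) (hne : ∀ i, q i ≠ s)
    (hlink : ∀ G, x G ≠ 0 → s ∈ G → ∃ i j, i ≠ j ∧ G = {s, q i, q j}) (F : Finset V → R) :
    ∑ G ∈ FS3, (if s ∈ G then x G else 0) * F G =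
      ∑ i, ∑ j ∈ Finset.univ.filter (fun j => i < j), x {s, q i, q j} * F {s, q i, q j} := by
  classical
  set P : Finset (Fin 4 × Fin 4) := Finset.univ.filter (fun p => p.1 < p.2) with hP
  set φ : Fin 4 × Fin 4 → Finset V := fun p => {s, q p.1, q p.2} with hφ
  set g : Finset V → R := fun G => (if s ∈ G then x G else 0) * F G with hg
  have h1 : ∑ G ∈ FS3, g G = ∑ G ∈ P.image φ, g G := by
    rw [← Finset.sum_filter_ne_zero FS3, ← Finset.sum_filter_ne_zero (P.image φ)]
    refine Finset.sum_congr ?_ fun _ _ => rfl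
    ext G
    rw [Finset.mem_filter, Finset.mem_filter]
    refine and_congr_left fun hG => ?_
    have hs : s ∈ G := by
      by_contra hs
      exact hG (by rw [hg]; simp [hs])
    have hx : x G ≠ 0 := by
      intro hx
      exact hG (by rw [hg]; simp [hx])
    refine ⟨fun _ => ?_, fun _ => hsupp G hx⟩
    obtain ⟨i, j, hij, hG'⟩ := hlink G hx hs
    rw [Finset.mem_image]
    rcases lt_or_gt_of_ne hij with h | h
    · exact ⟨(i, j), by rw [hP, Finset.mem_filter]; exact ⟨Finset.mem_univ _, h⟩, hG'.symm⟩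
    · refine ⟨(j, i), by rw [hP, Finset.mem_filter]; exact ⟨Finset.mem_univ _, h⟩, ?_⟩
      show ({s, q j, q i} : Finset V) = G
      rw [hG', Finset.pair_comm (q j) (q i)]
  have h2 : ∑ G ∈ P.image φ, g G = ∑ p ∈ P, g (φ p) := by
    refine Finset.sum_image ?_
    rintro ⟨i, j⟩ hp ⟨i', j'⟩ hp' he
    have hij : i < j := by
      have := hp
      rw [hP, Finset.mem_coe, Finset.mem_filter] at this
      exact this.2
    have hij' : i' < j' := by
      have := hp'
      rw [hP, Finset.mem_coe, Finset.mem_filter] at this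
      exact this.2
    have he' : ({s, q i, q j} : Finset V) = {s, q i', q j'} := he
    have mem : ∀ k, q k ∈ ({s, q i, q j} : Finset V) ↔ k = i ∨ k = j := by
      intro k
      rw [Finset.mem_insert, Finset.mem_insert, Finset.mem_singleton, hinj.eq_iff, hinj.eq_iff]
      exact ⟨fun h => h.resolve_left (hne k), fun h => Or.inr h⟩
    have mem' : ∀ k, q k ∈ ({s, q i', q j'} : Finset V) ↔ k = i' ∨ k = j' := by
      intro k
      rw [Finset.mem_insert, Finset.mem_insert, Finset.mem_singleton, hinj.eq_iff, hinj.eq_iff]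
      exact ⟨fun h => h.resolve_left (hne k), fun h => Or.inr h⟩
    have k1 := (mem' i).1 (he' ▸ (mem i).2 (Or.inl rfl))
    have k2 := (mem' j).1 (he' ▸ (mem j).2 (Or.inr rfl))
    have k3 := (mem i').1 (he'.symm ▸ (mem' i').2 (Or.inl rfl))
    have k4 := (mem j').1 (he'.symm ▸ (mem' j').2 (Or.inr rfl))
    rw [Prod.mk.injEq]
    constructor
    · rcases k1 with h | h
      · exact h
      · rcases k2 with h' | h' <;> rcases k3 with h'' | h'' <;> omega
    · rcases k2 with h | h
      · rcases k1 with h' | h' <;> rcases k4 with h'' | h'' <;> omega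
      · exact h
  have h3 : ∑ p ∈ P, g (φ p) = ∑ i, ∑ j ∈ Finset.univ.filter (fun j => i < j),
      x {s, q i, q j} * F {s, q i, q j} := by
    rw [hP, Finset.sum_filter, Fintype.sum_prod_type]
    refine Finset.sum_congr rfl fun i _ => ?_
    rw [Finset.sum_filter]
    refine Finset.sum_congr rfl fun j _ => ?_
    simp [hg, hφ]
  rw [h1, h2, h3]

end IDag1

theorem pr_Dag1 {V : Type} [Fintype V] [DecidableEq V] {R : Type} [CommRing R] [IsDomain R]
    (D : Dat V R) (hC : Ctx D) (h1 : StP1 D) (h2 : StStar D) (h3 : StTA2 D) (h4 : StVe D)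
    (h5 : StE4 D) (h6 : StT4 D) : StDag1 D := by
  classical
  intro x s q hG hQ
  have h20 : (2 : R) ≠ 0 := hC.two.ne_zero
  have hsupp : ∀ G, x G ≠ 0 → G ∈ D.FS 3 := fun G h => (hG.supp G h).1
  have hs : s ∈ D.VP := hQ.s_mem
  have memFS : ∀ k H, H ∈ D.FS k → H ⊆ D.VP ∧ H.card = k ∧ D.Full H := by
    intro k H hH
    rw [Dat.FS, Finset.mem_filter, Finset.mem_powersetCard] at hH
    exact ⟨hH.1.1, hH.1.2, hH.2⟩
  -- the function `ν`
  have hν : ∃ ν : Finset V → R, ∀ H ⊆ D.VP, H.card = 2 →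
      2 * ν H = - ∑ r ∈ D.VP \ H, D.wt r * x (insert r H) := by
    have h : ∀ H : Finset V, ∃ c : R, H ⊆ D.VP → H.card = 2 →
        2 * c = - ∑ r ∈ D.VP \ H, D.wt r * x (insert r H) := by
      intro H
      by_cases hH : H ⊆ D.VP ∧ H.card = 2
      · obtain ⟨c, hc⟩ := hG.rm H hH.1 hH.2
        exact ⟨-c, fun _ _ => by rw [hc]; ring⟩
      · exact ⟨0, fun a b => absurd ⟨a, b⟩ hH⟩
    choose ν hν using h
    exact ⟨ν, hν⟩
  obtain ⟨ν, hν⟩ := hν
  -- the expansions
  have hb : ∃ bG : Finset V → ℕ → MvPolynomial V R, ∀ G ∈ D.FS 3,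
      rename D.α (D.XH G) - D.XH G - ∑ l ∈ range 5, lin (D.a l) * bG G l ∈ srIdeal R D.Δ := by
    have h : ∀ G : Finset V, ∃ b : ℕ → MvPolynomial V R, G ∈ D.FS 3 →
        rename D.α (D.XH G) - D.XH G - ∑ l ∈ range 5, lin (D.a l) * b l ∈ srIdeal R D.Δ := by
      intro G
      by_cases hGm : G ∈ D.FS 3
      · obtain ⟨_, hc, hF⟩ := memFS 3 G hGm
        have hne : G.Nonempty := by
          rw [← Finset.card_pos]
          omega
        have hJ : rename D.α (D.XH G) - D.XH G ∈ D.J := (h1 G hF hne).2.2.2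
        obtain ⟨b, hb⟩ := (mem_J_iff (Δ := D.Δ) (a := D.a) 5 _).1 hJ
        exact ⟨b, fun _ => hb⟩
      · exact ⟨0, fun a => absurd a hGm⟩
    choose bG hbG using h
    exact ⟨bG, hbG⟩
  obtain ⟨bG, hbG⟩ := hb
  set b : ℕ → MvPolynomial V R := fun m => ∑ G ∈ D.FS 3, C (xs s x G) * bG G m with hbdef
  have hbs : rename D.α (D.KK (xs s x)) - D.KK (xs s x) - ∑ l ∈ range 5, lin (D.a l) * b l ∈
      srIdeal R D.Δ := by
    have e : rename D.α (D.KK (xs s x)) - D.KK (xs s x) - ∑ l ∈ range 5, lin (D.a l) * b l =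
        ∑ G ∈ D.FS 3, C (xs s x G) *
          (rename D.α (D.XH G) - D.XH G - ∑ l ∈ range 5, lin (D.a l) * bG G l) := by
      have e1 : ∑ l ∈ range 5, lin (D.a l) * b l =
          ∑ G ∈ D.FS 3, C (xs s x G) * ∑ l ∈ range 5, lin (D.a l) * bG G l := by
        rw [hbdef]
        simp only [Finset.mul_sum]
        rw [Finset.sum_comm]
        refine Finset.sum_congr rfl fun G _ => Finset.sum_congr rfl fun l _ => ?_
        ring
      rw [e1, Dat.KK, map_sum, ← Finset.sum_sub_distrib, ← Finset.sum_sub_distrib]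
      refine Finset.sum_congr rfl fun G _ => ?_
      rw [map_mul, rename_C]
      ring
    rw [e]
    exact Ideal.sum_mem _ fun G hGm => Ideal.mul_mem_left _ _ (hbG G hGm)
  -- the values
  set Yt : Finset V → V → R := fun G p => ∑ m ∈ range 5, D.a m (q 3) * D.ph {p} (bG G m) with hYt
  refine ⟨fun i j k => Yt {s, q i, q j} (q k), ?_, ?_⟩
  · intro i j k hij hx hF
    have hGm : ({s, q i, q j} : Finset V) ∈ D.FS 3 := hsupp _ hx
    exact h3 s (q i) (q j) (hQ.q_ne i).symm (hQ.q_ne j).symm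
      (fun h => hij (hQ.q_inj h)) hGm (bG {s, q i, q j}) (hbG _ hGm) (q k) hF (q 3)
  · -- the congruence
    obtain ⟨v1, v2, v3, v4⟩ := h4 x s q hG hQ
    obtain ⟨e1, e2⟩ := h5 x s q hG hQ
    have e3 := h6 x s q hG hQ 3
    set Z : V → R := fun p => ∑ m ∈ range 5, D.a m (q 3) * D.ph {p} (b m) with hZ
    have hZ1 : ∀ p, Z p = ∑ i, ∑ j ∈ Finset.univ.filter (fun j => i < j),
        xq x s q i j * Yt {s, q i, q j} p := by
      intro p
      have e4 : Z p = ∑ G ∈ D.FS 3, (if s ∈ G then x G else 0) * Yt G p := by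
        rw [hZ, hYt, hbdef]
        simp only [map_sum, Finset.mul_sum]
        rw [Finset.sum_comm]
        refine Finset.sum_congr rfl fun G _ => Finset.sum_congr rfl fun m _ => ?_
        rw [← MvPolynomial.smul_eq_C_mul, map_smul, smul_eq_mul]
        show D.a m (q 3) * (xs s x G * _) = _
        rw [xs]
        ring
      rw [e4]
      exact IDag1.sum_link (D.FS 3) x s q hsupp hQ.q_inj hQ.q_ne hQ.link (fun G => Yt G p)
    set Fq : Finset V := (D.VP.erase s).filter (fun q' => ({s, q'} : Finset V) ∈ D.FS 2) with hFq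
    have hst := h2 x ν hsupp (fun H hH => hν H (memFS 2 H hH).1 (memFS 2 H hH).2.1) hG.fourT s hs b hbs
    -- the sum of the five congruences
    have hsum : (8 : R) ∣ ∑ m ∈ range 5, D.a m (q 3) *
        (D.wt s * D.T m (D.z s * X s * D.KK (xs s x) ^ 2) +
          D.μ m * D.dg (X s * D.KK (xs s x) ^ 2) +
          4 * ∑ q' ∈ Fq, ν {s, q'} * D.ph {q'} (b m)) := by
      refine Finset.dvd_sum fun m hm => Dvd.dvd.mul_left ?_ _
      exact hst m (Finset.mem_range.1 hm)
    have e5 : ∑ m ∈ range 5, D.a m (q 3) *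
        (D.wt s * D.T m (D.z s * X s * D.KK (xs s x) ^ 2) +
          D.μ m * D.dg (X s * D.KK (xs s x) ^ 2) +
          4 * ∑ q' ∈ Fq, ν {s, q'} * D.ph {q'} (b m)) =
        D.wt s * ∑ m ∈ range 5, D.a m (q 3) * D.T m (D.z s * X s * D.KK (xs s x) ^ 2) +
        (∑ m ∈ range 5, D.μ m * D.a m (q 3)) * D.dg (X s * D.KK (xs s x) ^ 2) +
        4 * ∑ q' ∈ Fq, ν {s, q'} * Z q' := by
      have e6 : ∑ q' ∈ Fq, ν {s, q'} * Z q' =
          ∑ m ∈ range 5, D.a m (q 3) * ∑ q' ∈ Fq, ν {s, q'} * D.ph {q'} (b m) := by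
        rw [hZ]
        simp only [Finset.mul_sum]
        rw [Finset.sum_comm]
        refine Finset.sum_congr rfl fun m _ => Finset.sum_congr rfl fun p _ => ?_
        ring
      rw [e6, Finset.mul_sum, Finset.mul_sum, Finset.sum_mul, ← Finset.sum_add_distrib,
        ← Finset.sum_add_distrib]
      refine Finset.sum_congr rfl fun m _ => ?_
      ring
    -- twice the sum with `ν`
    have e7 : 2 * ∑ q' ∈ Fq, ν {s, q'} * Z q' = - ∑ k, S4 D x s q k * Z (q k) := by
      have hcard : ∀ p, p ≠ s → ({s, p} : Finset V).card = 2 := fun p hp =>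
        Finset.card_pair hp.symm
      have hsub : ∀ p ∈ D.VP, ({s, p} : Finset V) ⊆ D.VP := by
        intro p hp y hy
        rw [Finset.mem_insert, Finset.mem_singleton] at hy
        rcases hy with rfl | rfl
        · exact hs
        · exact hp
      have hval : ∀ i, 2 * ν {s, q i} = - S4 D x s q i := by
        intro i
        rw [hν _ (hsub _ (hQ.q_mem i)) (hcard _ (hQ.q_ne i)), v1 i]
      rw [Finset.mul_sum, ← Finset.sum_neg_distrib]
      have e8 : ∑ q' ∈ Fq, 2 * (ν {s, q'} * Z q') =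
          ∑ p ∈ (Finset.univ : Finset (Fin 4)).image q,
            (if p ∈ Fq then 2 * (ν {s, p} * Z p) else 0) := by
        rw [Finset.sum_ite_mem, ← Finset.sum_filter_ne_zero Fq,
          ← Finset.sum_filter_ne_zero (_ ∩ Fq)]
        refine Finset.sum_congr ?_ fun _ _ => rfl
        ext p
        rw [Finset.mem_filter (s := Fq), Finset.mem_filter (s := _ ∩ Fq), Finset.mem_inter]
        refine and_congr_left fun hp0 => ⟨fun hp => ⟨?_, hp⟩, fun hp => hp.2⟩
        by_contra hni
        apply hp0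
        have hpF := hp
        rw [hFq, Finset.mem_filter, Finset.mem_erase] at hpF
        have hz : ∀ i, p ≠ q i := by
          intro i hi
          exact hni (Finset.mem_image.2 ⟨i, Finset.mem_univ _, hi.symm⟩)
        have h0 := hν {s, p} (hsub p hpF.1.2) (hcard p hpF.1.1)
        rw [v4 p hpF.1.2 hz, neg_zero] at h0
        rw [← mul_assoc, h0, zero_mul]
      rw [e8, Finset.sum_image (fun a _ b _ h => hQ.q_inj h)]
      refine Finset.sum_congr rfl fun k _ => ?_
      split_ifs with hk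
      · rw [← mul_assoc, hval k]
        ring
      · have h0 : S4 D x s q k = 0 := by
          by_contra h0
          apply hk
          rw [hFq, Finset.mem_filter, Finset.mem_erase]
          exact ⟨⟨hQ.q_ne k, hQ.q_mem k⟩, (v3 k h0).1⟩
        rw [h0]
        ring
    rw [e5, e3, e1, mul_zero, zero_add] at hsum
    have e9 : (∑ m ∈ range 5, D.μ m * D.a m (q 3)) * (2 * E4 D x s q) +
        4 * ∑ q' ∈ Fq, ν {s, q'} * Z q' =
        2 * ((∑ m ∈ range 5, D.μ m * D.a m (q 3)) * E4 D x s q -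
          ∑ k, S4 D x s q k * Z (q k)) := by
      linear_combination 2 * e7
    rw [e9] at hsum
    have h8 : (8 : R) = 2 * 4 := by norm_num
    rw [h8] at hsum
    have hfin := (mul_dvd_mul_iff_left h20).1 hsum
    have e10 : ∑ k, S4 D x s q k * Z (q k) =
        ∑ k, S4 D x s q k * ∑ i, ∑ j ∈ Finset.univ.filter (fun j => i < j),
          xq x s q i j * Yt {s, q i, q j} (q k) := by
      refine Finset.sum_congr rfl fun k _ => ?_
      rw [hZ1 (q k)]
    rw [e10] at hfin
    exact hfin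

end CSLef.D5
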