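import Mathlib
import Pool.Agent.Work.MP_38c61c_al.D5.Stmts2

/-!
Block D5, item E4: half of `deg (X_s K_s^2)`.
-/

namespace CSLef.D5

open MvPolynomial Finset

namespace IE4

variable {V : Type} [Fintype V] [DecidableEq V] {R : Type} [CommRing R]

/-- the ordered pairs of indices -/
def P : Finset (Fin 4 × Fin 4) := univ.filter (fun p : Fin 4 × Fin 4 => p.1 < p.2)

theorem P_eq : P = {(0, 1), (0, 2), (0, 3), (1, 2), (1, 3), (2, 3)} := by decide

/-- the triple -/
def T (s : V) (q : Fin 4 → V) (p : Fin 4 × Fin 4) : Finset V := {s, q p.1, q p.2}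

theorem mem_T (s : V) (q : Fin 4 → V) (p : Fin 4 × Fin 4) (u : V) :
    u ∈ T s q p ↔ u = s ∨ u = q p.1 ∨ u = q p.2 := by
  simp only [T, mem_insert, mem_singleton]

theorem q_mem_T {s : V} {q : Fin 4 → V} (hq : Function.Injective q) (hs : ∀ i, q i ≠ s)
    (p : Fin 4 × Fin 4) (i : Fin 4) : q i ∈ T s q p ↔ i = p.1 ∨ i = p.2 := by
  rw [mem_T]
  constructor
  · rintro (h | h | h)
    · exact absurd h (hs i)
    · exact Or.inl (hq h)
    · exact Or.inr (hq h)
  · rintro (h | h)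
    · exact Or.inr (Or.inl (by rw [h]))
    · exact Or.inr (Or.inr (by rw [h]))

theorem T_inj {s : V} {q : Fin 4 → V} (hq : Function.Injective q) (hs : ∀ i, q i ≠ s)
    (p p' : Fin 4 × Fin 4) (hp : p ∈ P) (hp' : p' ∈ P) (h : T s q p = T s q p') : p = p' := by
  have h0 : ∀ i, (i = p.1 ∨ i = p.2) ↔ (i = p'.1 ∨ i = p'.2) := by
    intro i
    rw [← q_mem_T hq hs p i, ← q_mem_T hq hs p' i, h]
  revert h0 hp hp'
  clear h
  revert p p'
  decide

theorem T_inter {s : V} {q : Fin 4 → V} (hq : Function.Injective q) (hs : ∀ i, q i ≠ s)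
    (p p' : Fin 4 × Fin 4) : T s q p ∩ T s q p' = {s} ↔
      ((p.1 ≠ p'.1 ∧ p.1 ≠ p'.2) ∧ (p.2 ≠ p'.1 ∧ p.2 ≠ p'.2)) := by
  constructor
  · intro h
    have key : ∀ i, (i = p.1 ∨ i = p.2) → (i = p'.1 ∨ i = p'.2) → False := by
      intro i h1 h2
      have h3 : q i ∈ T s q p ∩ T s q p' :=
        mem_inter.2 ⟨(q_mem_T hq hs p i).2 h1, (q_mem_T hq hs p' i).2 h2⟩
      rw [h, mem_singleton] at h3
      exact hs i h3
    exact ⟨⟨fun h1 => key p.1 (Or.inl rfl) (Or.inl h1), fun h1 => key p.1 (Or.inl rfl) (Or.inr h1)⟩,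
      ⟨fun h1 => key p.2 (Or.inr rfl) (Or.inl h1), fun h1 => key p.2 (Or.inr rfl) (Or.inr h1)⟩⟩
  · rintro ⟨⟨h1, h2⟩, ⟨h3, h4⟩⟩
    ext u
    rw [mem_inter, mem_T, mem_T, mem_singleton]
    constructor
    · rintro ⟨(h | h | h), (h' | h' | h')⟩
      · exact h
      · exact h
      · exact h
      · exact h'
      · exact absurd (hq (h.symm.trans h')) h1
      · exact absurd (hq (h.symm.trans h')) h2
      · exact h'
      · exact absurd (hq (h.symm.trans h')) h3
      · exact absurd (hq (h.symm.trans h')) h4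
    · intro h
      exact ⟨Or.inl h, Or.inl h⟩

/-- the sum over the triples at `s` is the sum over the pairs of indices -/
theorem sum_T [IsDomain R] {D : Dat V R} {x : Finset V → R} {s : V} {q : Fin 4 → V}
    (hG : ∀ G, x G ≠ 0 → G ∈ D.FS 3) (hQ : HQ D x s q) (f : Finset V → R)
    (hf : ∀ G, x G = 0 → f G = 0) :
    ∑ G ∈ (D.FS 3).filter (fun G => s ∈ G), f G = ∑ p ∈ P, f (T s q p) := by
  have h1 : ∑ G ∈ (D.FS 3).filter (fun G => s ∈ G), f G =
      ∑ G ∈ (D.FS 3).filter (fun G => s ∈ G) ∪ P.image (T s q), f G := by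
    refine sum_subset subset_union_left ?_
    intro G _ hG2
    by_contra hne
    have hx : x G ≠ 0 := fun h => hne (hf G h)
    have hs : s ∈ G := by
      rcases mem_union.1 ‹G ∈ _› with h | h
      · exact (mem_filter.1 h).2
      · obtain ⟨p, -, hp⟩ := mem_image.1 h
        rw [← hp, mem_T]
        exact Or.inl rfl
    exact hG2 (mem_filter.2 ⟨hG G hx, hs⟩)
  have h2 : ∑ G ∈ P.image (T s q), f G =
      ∑ G ∈ (D.FS 3).filter (fun G => s ∈ G) ∪ P.image (T s q), f G := by
    refine sum_subset subset_union_right ?_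
    intro G hG1 hG2
    by_contra hne
    have hx : x G ≠ 0 := fun h => hne (hf G h)
    have hs : s ∈ G := by
      rcases mem_union.1 hG1 with h | h
      · exact (mem_filter.1 h).2
      · exact absurd h hG2
    obtain ⟨i, j, hij, hG3⟩ := hQ.link G hx hs
    apply hG2
    rcases lt_or_gt_of_ne hij with h | h
    · exact mem_image.2 ⟨(i, j), mem_filter.2 ⟨mem_univ _, h⟩, hG3.symm⟩
    · refine mem_image.2 ⟨(j, i), mem_filter.2 ⟨mem_univ _, h⟩, ?_⟩
      rw [hG3]
      ext u
      rw [mem_T, mem_insert, mem_insert, mem_singleton]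
      tauto
  rw [h1, ← h2, sum_image]
  intro p hp p' hp' h
  exact T_inj hQ.q_inj hQ.q_ne p p' hp hp' h

theorem sum_P (g : Fin 4 × Fin 4 → R) : ∑ p ∈ P, g p =
    g (0, 1) + g (0, 2) + g (0, 3) + g (1, 2) + g (1, 3) + g (2, 3) := by
  rw [P_eq]
  rw [sum_insert (by decide), sum_insert (by decide), sum_insert (by decide),
    sum_insert (by decide), sum_insert (by decide), sum_singleton]
  ring

end IE4

open IE4

theorem pr_E4 {V : Type} [Fintype V] [DecidableEq V] {R : Type} [CommRing R] [IsDomain R]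
    (D : Dat V R) (hC : Ctx D) (h1 : StEs D) : StE4 D := by
  intro x s q hx hQ
  obtain ⟨-, hA, hB⟩ := h1 x (fun G hG => (hx.supp G hG).1) s hQ.s_mem
  have hval : D.dg (X s * D.KK (xs s x) ^ 2) = 2 * E4 D x s q := by
    rw [hA]
    have e1 : ∀ G : Finset V, ∑ G' ∈ (D.FS 3).filter (fun G' => s ∈ G' ∧ G ∩ G' = {s}),
        x G * x G' * D.dg (X s * D.XH G * D.XH G') =
        ∑ G' ∈ (D.FS 3).filter (fun G' => s ∈ G'), if G ∩ G' = {s} then
          x G * x G' * D.dg (X s * D.XH G * D.XH G') else 0 := by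
      intro G
      rw [← sum_filter, filter_filter]
    simp only [e1]
    rw [sum_T (D := D) (x := x) (s := s) (q := q) (fun G hG => (hx.supp G hG).1) hQ
      (fun G => ∑ G' ∈ (D.FS 3).filter (fun G' => s ∈ G'), if G ∩ G' = {s} then
          x G * x G' * D.dg (X s * D.XH G * D.XH G') else 0)
      (by
        intro G hG
        refine sum_eq_zero fun G' _ => ?_
        rw [hG]
        simp)]
    have e2 : ∀ p : Fin 4 × Fin 4, (∑ G' ∈ (D.FS 3).filter (fun G' => s ∈ G'),
        if T s q p ∩ G' = {s} then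
          x (T s q p) * x G' * D.dg (X s * D.XH (T s q p) * D.XH G') else 0) =
        ∑ p' ∈ P, if ((p.1 ≠ p'.1 ∧ p.1 ≠ p'.2) ∧ (p.2 ≠ p'.1 ∧ p.2 ≠ p'.2)) then
          x (T s q p) * x (T s q p') * D.dg (X s * D.XH (T s q p) * D.XH (T s q p')) else 0 := by
      intro p
      rw [sum_T (D := D) (x := x) (s := s) (q := q) (fun G hG => (hx.supp G hG).1) hQ
        (fun G' => if T s q p ∩ G' = {s} then
          x (T s q p) * x G' * D.dg (X s * D.XH (T s q p) * D.XH G') else 0)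
        (by
          intro G hG
          rw [hG]
          simp)]
      refine sum_congr rfl fun p' _ => ?_
      rw [if_congr (T_inter hQ.q_inj hQ.q_ne p p') rfl rfl]
    simp only [e2]
    rw [sum_P]
    simp only [sum_P]
    have sym : ∀ A B : MvPolynomial V R, D.dg (X s * A * B) = D.dg (X s * B * A) := by
      intro A B
      rw [mul_assoc, mul_comm A B, ← mul_assoc]
    simp only [E4, xq, lam, T]
    rw [sym (D.XH {s, q 1, q 2}) (D.XH {s, q 0, q 3}), sym (D.XH {s, q 1, q 3}) (D.XH {s, q 0, q 2}),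
      sym (D.XH {s, q 2, q 3}) (D.XH {s, q 0, q 1})]
    simp
    ring
  refine ⟨hval, ?_⟩
  have h4 := hx.four s
  rw [hB, hval] at h4
  obtain ⟨k, hk⟩ := h4
  refine ⟨k, ?_⟩
  have h2 : (2 : R) ≠ 0 := hC.two.ne_zero
  apply mul_left_cancel₀ h2
  rw [hk]
  ring

end CSLef.D5
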