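import Mathlib
import Pool.Agent.Work.MP_38c61c_al.D5.Stmts2

/-!
Block D5, item Es: the square of `K_s` times `X_s`.
-/

set_option autoImplicit false

namespace CSLef.D5

open MvPolynomial Finset

namespace IEs

variable {V : Type} [Fintype V] [DecidableEq V] {R : Type} [CommRing R]

theorem mem_FS (D : Dat V R) {k : ℕ} {G : Finset V} (h : G ∈ D.FS k) : D.Full G ∧ G.card = k := by
  unfold Dat.FS at h
  rw [Finset.mem_filter, Finset.mem_powersetCard] at h
  exact ⟨h.2, h.1.2⟩

theorem expd (D : Dat V R) (x : Finset V → R) (s : V) :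
    D.dg (X s * D.KK x ^ 2) =
      ∑ G ∈ D.FS 3, ∑ G' ∈ D.FS 3, x G * x G' * D.dg (X s * D.XH G * D.XH G') := by
  have h1 : X s * D.KK x ^ 2 =
      ∑ G ∈ D.FS 3, ∑ G' ∈ D.FS 3, (x G * x G') • (X s * D.XH G * D.XH G') := by
    unfold Dat.KK
    rw [pow_two, Finset.sum_mul_sum, Finset.mul_sum]
    refine Finset.sum_congr rfl fun G _ => ?_
    rw [Finset.mul_sum]
    refine Finset.sum_congr rfl fun G' _ => ?_
    rw [MvPolynomial.smul_eq_C_mul, map_mul]
    ring
  rw [h1, map_sum]
  refine Finset.sum_congr rfl fun G _ => ?_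
  rw [map_sum]
  refine Finset.sum_congr rfl fun G' _ => ?_
  rw [map_smul, smul_eq_mul]

theorem KK_split (D : Dat V R) (x : Finset V → R) (s : V) :
    D.KK x = D.KK (xs s x) + D.KK (xr s x) := by
  unfold Dat.KK
  rw [← Finset.sum_add_distrib]
  refine Finset.sum_congr rfl fun G _ => ?_
  unfold xs xr
  by_cases h : s ∈ G
  · rw [if_pos h, if_pos h, map_zero, zero_mul, add_zero]
  · rw [if_neg h, if_neg h, map_zero, zero_mul, zero_add]

end IEs

open IEs

/-- item Es -/
theorem pr_Es {V : Type} [Fintype V] [DecidableEq V] {R : Type} [CommRing R] [IsDomain R]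
    (D : Dat V R) (hC : Ctx D) (h1 : StP1 D) (h2 : StPhX D) (h3 : StNon D) : StEs D := by
  intro x _hx s hs
  have hne : ∀ G ∈ D.FS 3, G.Nonempty := fun G hG =>
    Finset.card_pos.1 (by rw [(mem_FS D hG).2]; norm_num)
  have hA : ∀ G ∈ D.FS 3, ∀ G' ∈ D.FS 3, s ∈ G → s ∈ G' →
      D.dg (X s * D.XH G * D.XH G') = D.dg (D.XH G * D.XH (G'.erase s)) ∧
      (G ∩ G' ≠ {s} → D.dg (X s * D.XH G * D.XH G') = 0) := by
    intro G hG G' hG' hsG hsG'
    have e1 : D.dg (X s * D.XH G * D.XH G') = D.dg (D.XH G * D.XH (G'.erase s)) := by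
      have e2 := hC.dgJ _ (Ideal.mul_mem_left D.J (D.XH G)
        ((h1 G' (mem_FS D hG').1 (hne G' hG')).2.2.1 s hsG'))
      have e3 : X s * D.XH G * D.XH G' = D.XH G * (X s * D.XH G' - D.XH (G'.erase s)) +
        D.XH G * D.XH (G'.erase s) := by ring
      rw [e3, map_add, e2, zero_add]
    refine ⟨e1, fun hn => ?_⟩
    rw [e1]
    refine h3 G (G'.erase s) (mem_FS D hG).1
      (h2.2 G' (mem_FS D hG').1 _ (Finset.erase_subset _ _)) ?_ ?_
    · rw [Finset.card_erase_of_mem hsG', (mem_FS D hG).2, (mem_FS D hG').2]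
    · by_contra hem
      rw [Finset.not_nonempty_iff_eq_empty] at hem
      apply hn
      ext t
      rw [Finset.mem_singleton, Finset.mem_inter]
      constructor
      · rintro ⟨ht, ht'⟩
        by_contra hts
        have : t ∈ G ∩ G'.erase s := Finset.mem_inter.2 ⟨ht, Finset.mem_erase.2 ⟨hts, ht'⟩⟩
        rw [hem] at this
        exact absurd this (Finset.notMem_empty t)
      · rintro rfl
        exact ⟨hsG, hsG'⟩
  refine ⟨hA, ?_, ?_⟩
  · rw [expd]
    rw [Finset.sum_filter]
    refine Finset.sum_congr rfl fun G hG => ?_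
    by_cases hsG : s ∈ G
    · rw [if_pos hsG, Finset.sum_filter]
      refine Finset.sum_congr rfl fun G' hG' => ?_
      unfold xs
      rw [if_pos hsG]
      by_cases hsG' : s ∈ G'
      · rw [if_pos hsG']
        by_cases hi : G ∩ G' = {s}
        · rw [if_pos ⟨hsG', hi⟩]
        · rw [if_neg (fun h => hi h.2), (hA G hG G' hG' hsG hsG').2 hi, mul_zero]
      · rw [if_neg hsG', if_neg (fun h => hsG' h.1), mul_zero, zero_mul]
    · rw [if_neg hsG]
      refine Finset.sum_eq_zero fun G' _ => ?_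
      unfold xs
      rw [if_neg hsG, zero_mul, zero_mul]
  · have hXr : X s * D.KK (xr s x) ∈ D.J := by
      unfold Dat.KK
      rw [Finset.mul_sum]
      refine Submodule.sum_mem _ fun G hG => ?_
      unfold xr
      by_cases hsG : s ∈ G
      · rw [if_pos hsG, map_zero, zero_mul, mul_zero]
        exact Submodule.zero_mem _
      · rw [if_neg hsG]
        have e := Ideal.mul_mem_left D.J (C (x G))
          ((h1 G (mem_FS D hG).1 (hne G hG)).2.1 s hs hsG).1
        rw [mul_left_comm]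
        exact e
    rw [KK_split D x s, show X s * (D.KK (xs s x) + D.KK (xr s x)) ^ 2 = X s * D.KK (xs s x) ^ 2 +
      X s * D.KK (xr s x) * (2 * D.KK (xs s x) + D.KK (xr s x)) by ring, map_add,
      hC.dgJ _ (Ideal.mul_mem_right _ _ hXr), add_zero]

end CSLef.D5
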