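import Mathlib
import Pool.Agent.Work.MP_38c61c_al.D5.Stmts

/-!
Block D5, item Eul: the Euler relation.
-/

namespace CSLef.D5

open MvPolynomial Finset

namespace IEul

variable {V : Type} [Fintype V] [DecidableEq V] {R : Type} [CommRing R]

/-- a variable times a squarefree monomial -/
theorem X_mul_xm_mem {Δ : Finset (Finset V)} {S : Finset V} {u : V} (hu : u ∉ S)
    (h : insert u S ∉ Δ) : X u * xm R S ∈ srIdeal R Δ := by
  have h1 : X u * xm R S = xm R (insert u S) := by
    unfold xm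
    rw [Finset.prod_insert hu]
  rw [h1]
  exact xm_mem_sr h

/-- the relation holds on the ideal -/
theorem eul_J [IsDomain R] (D : Dat V R) (hC : Ctx D) (h1 : StEv D) (v : V) (hv : v ∈ D.VP)
    (f : MvPolynomial V R) (hf : f ∈ D.J) :
    ∑ m ∈ range 5, D.a m v * D.T m (D.z v * f) = D.dg (D.E v f) := by
  obtain ⟨e1, e2, -, -, -⟩ := h1 v hv
  obtain ⟨g, hg⟩ := (mem_J_iff 5 f).mp hf
  have hf' : f = (f - ∑ l ∈ range 5, lin (D.a l) * g l) + ∑ l ∈ range 5, lin (D.a l) * g l := by
    ring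
  have hT : ∀ m ∈ range 5, D.a m v * D.T m (D.z v * f) = D.a m v * D.dg (D.z v * g m) := by
    intro m hm
    congr 1
    have h2 : D.z v * f = D.z v * (f - ∑ l ∈ range 5, lin (D.a l) * g l) +
        ∑ l ∈ range 5, lin (D.a l) * (D.z v * g l) := by
      conv_lhs => rw [hf']
      rw [mul_add, Finset.mul_sum]
      congr 1
      apply Finset.sum_congr rfl
      intro l _
      ring
    rw [h2, map_add, hC.Tsr m _ (Ideal.mul_mem_left _ _ hg), zero_add, map_sum]
    have h3 : ∀ l ∈ range 5, D.T m (lin (D.a l) * (D.z v * g l)) =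
        if l = m then D.dg (D.z v * g l) else 0 := by
      intro l hl
      exact hC.Tlin m (Finset.mem_range.mp hm) l (Finset.mem_range.mp hl) _
    rw [Finset.sum_congr rfl h3, Finset.sum_ite_eq' (range 5) m, if_pos hm]
  rw [Finset.sum_congr rfl hT]
  have h4 : D.E v f = D.E v (f - ∑ l ∈ range 5, lin (D.a l) * g l) +
      ∑ l ∈ range 5, D.E v (lin (D.a l) * g l) := by
    conv_lhs => rw [hf']
    rw [map_add, map_sum]
  rw [h4, map_add, hC.dgJ _ (sr_le_J 5 (e1 _ hg)), zero_add, map_sum]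
  apply Finset.sum_congr rfl
  intro l hl
  have h5 : D.E v (lin (D.a l) * g l) =
      D.a l v • (D.z v * g l) + lin (D.a l) * D.E v (g l) := by
    rw [Derivation.leibniz, e2 l, smul_eq_mul, smul_eq_mul, ← C_mul']
    ring
  rw [h5, map_add, map_smul, smul_eq_mul,
    hC.dgJ _ (Ideal.mul_mem_right _ _ (lin_mem_J (Finset.mem_range.mp hl))), add_zero]

/-- a variable outside the facet kills its monomial -/
theorem out_mem [IsDomain R] (D : Dat V R) (hC : Ctx D) (u : V) (hu : u ∉ D.σ) :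
    X u * xm R D.σ ∈ srIdeal R D.Δ := by
  apply X_mul_xm_mem hu
  intro hmem
  have h1 := hC.hs.card_le _ hmem
  rw [Finset.card_insert_of_notMem hu, hC.sgc] at h1
  omega

/-- the values at the multiples of the facet monomial are dual to the coefficients -/
theorem dual_sum [IsDomain R] (D : Dat V R) (hC : Ctx D) (u : V) (hu : u ∈ D.σ) :
    ∑ m ∈ range 5, D.a m u * D.T m (X u * xm R D.σ) = 1 := by
  have key : ∀ l < 5, ∀ m < 5, ∑ u ∈ D.σ, D.a l u * D.T m (X u * xm R D.σ) =
      if l = m then 1 else 0 := by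
    intro l hl m hm
    have h1 := hC.Tlin m hm l hl (xm R D.σ)
    rw [hC.dgs] at h1
    rw [← h1]
    have h2 : lin (D.a l) * xm R D.σ = ∑ u, D.a l u • (X u * xm R D.σ) := by
      unfold lin
      rw [Finset.sum_mul]
      apply Finset.sum_congr rfl
      intro u _
      rw [← C_mul', mul_assoc]
    rw [h2, map_sum, ← Finset.sum_subset (Finset.subset_univ D.σ)]
    · apply Finset.sum_congr rfl
      intro u _
      rw [map_smul, smul_eq_mul]
    · intro u _ hu
      rw [map_smul, hC.Tsr m _ (out_mem D hC u hu), smul_zero]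
  obtain ⟨e⟩ : Nonempty (Fin 5 ≃ D.σ) := ⟨(D.σ.equivFinOfCardEq hC.sgc).symm⟩
  have hPQ : (Matrix.of fun l i : Fin 5 => D.a l (e i : V)) *
      (Matrix.of fun i m : Fin 5 => D.T m (X (e i : V) * xm R D.σ)) = 1 := by
    ext l m
    rw [Matrix.mul_apply, Matrix.one_apply]
    simp only [Matrix.of_apply]
    have h1 := key l l.2 m m.2
    rw [← Finset.sum_coe_sort D.σ (fun u => D.a l u * D.T m (X u * xm R D.σ)),
      ← Equiv.sum_comp e] at h1
    rw [h1]
    simp only [Fin.ext_iff]
  have hQP := mul_eq_one_comm.mp hPQ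
  obtain ⟨i, hi⟩ := e.surjective ⟨u, hu⟩
  have h3 := congrFun (congrFun hQP i) i
  rw [Matrix.mul_apply, Matrix.one_apply_eq] at h3
  simp only [Matrix.of_apply, hi] at h3
  rw [Finset.sum_range (fun m => D.a m u * D.T m (X u * xm R D.σ)), ← h3]
  apply Finset.sum_congr rfl
  intro m _
  ring

/-- the relation holds for the facet monomial -/
theorem eul_xm [IsDomain R] (D : Dat V R) (hC : Ctx D) (h1 : StEv D) (v : V) (hv : v ∈ D.VP) :
    ∑ m ∈ range 5, D.a m v * D.T m (D.z v * xm R D.σ) = D.dg (D.E v (xm R D.σ)) := by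
  obtain ⟨-, -, -, -, e5⟩ := h1 v hv
  have hz : ∀ m, D.T m (D.z v * xm R D.σ) =
      D.T m (X v * xm R D.σ) - D.T m (X (D.α v) * xm R D.σ) := by
    intro m
    unfold Dat.z
    rw [sub_mul, map_sub]
  rw [e5]
  by_cases h2 : v ∈ D.σ
  · have h3 : D.α v ∉ D.σ := hC.cs.no_pair _ hC.sg v h2
    rw [if_pos (Or.inl h2), hC.dgs, ← dual_sum D hC v h2]
    apply Finset.sum_congr rfl
    intro m _
    rw [hz, hC.Tsr m _ (out_mem D hC _ h3), sub_zero]
  · by_cases h3 : D.α v ∈ D.σ
    · rw [if_pos (Or.inr h3), hC.dgs, ← dual_sum D hC _ h3]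
      apply Finset.sum_congr rfl
      intro m _
      rw [hz, hC.Tsr m _ (out_mem D hC _ h2), zero_sub, hC.anti m v]
      ring
    · rw [if_neg (by tauto), map_zero]
      apply Finset.sum_eq_zero
      intro m _
      rw [hz, hC.Tsr m _ (out_mem D hC _ h2), hC.Tsr m _ (out_mem D hC _ h3), sub_zero, mul_zero]

end IEul

theorem pr_Eul {V : Type} [Fintype V] [DecidableEq V] {R : Type} [CommRing R] [IsDomain R]
    (D : Dat V R) (hC : Ctx D) (h1 : StEv D) : StEul D := by
  intro v hv f hf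
  have h2 := IEul.eul_J D hC h1 v hv _ (hC.dgt f hf)
  have h3 := IEul.eul_xm D hC h1 v hv
  have h4 : f = (f - C (D.dg f) * xm R D.σ) + D.dg f • xm R D.σ := by
    rw [← C_mul']
    ring
  have h5 : ∀ m, D.T m (D.z v * f) = D.T m (D.z v * (f - C (D.dg f) * xm R D.σ)) +
      D.dg f * D.T m (D.z v * xm R D.σ) := by
    intro m
    have h6 : D.z v * f = D.z v * (f - C (D.dg f) * xm R D.σ) +
        D.dg f • (D.z v * xm R D.σ) := by
      rw [← C_mul']
      ring
    conv_lhs => rw [h6]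
    rw [map_add, map_smul, smul_eq_mul]
  have h7 : D.E v f = D.E v (f - C (D.dg f) * xm R D.σ) + D.dg f • D.E v (xm R D.σ) := by
    conv_lhs => rw [h4]
    rw [map_add, Derivation.map_smul]
  rw [h7, map_add, map_smul, smul_eq_mul, ← h2, ← h3, Finset.mul_sum, ← Finset.sum_add_distrib]
  apply Finset.sum_congr rfl
  intro m _
  rw [h5]
  ring

end CSLef.D5
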