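import Mathlib
import Pool.Agent.Work.MP_38c61c_al.D5.Stmts

/-! Block D5, item Ex1: vanishing of `deg (X_v y^2)`. -/

namespace CSLef.D5

open MvPolynomial Finset

namespace IEx1

variable {V : Type} [Fintype V] [DecidableEq V] {R : Type} [CommRing R]

omit [Fintype V] in
/-- the derivative of the Lefschetz element in the direction of `c_u` -/
theorem dmap_welA (α : Equiv.Perm V) (VP : Finset V) (a : ℕ → V → R) (μ : ℕ → R) (c : V → R)
    (δ : Derivation ℤ R R) (u : V) (hu : u ∈ VP) (δa : ∀ l v, δ (a l v) = 0)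
    (δμ : ∀ l, δ (μ l) = 0) (δc : ∀ v, δ (c v) = if u = v then 1 else 0) :
    dmap δ (welA 5 α VP a μ c) = yy R α u := by
  unfold welA
  rw [dmap_add, dmap_sum, dmap_sum]
  have h3 : ∀ l ∈ range 5, dmap δ (C (μ l) *
      (∑ v ∈ VP, C (a l v) * X v : MvPolynomial V R)) = 0 := by
    intro l _
    rw [dmap_mul, dmap_C, δμ, dmap_sum, map_zero, zero_mul, zero_add]
    rw [Finset.sum_eq_zero, mul_zero]
    intro v _
    rw [dmap_mul, dmap_C, δa, dmap_X, map_zero, zero_mul, mul_zero, add_zero]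
  rw [Finset.sum_eq_zero h3, zero_add]
  have h4 : ∀ v ∈ VP, dmap δ (C (c v) * yy R α v : MvPolynomial V R) =
      if u = v then yy R α v else 0 := by
    intro v _
    have h5 : dmap δ (yy R α v) = 0 := by
      unfold yy
      rw [dmap_add, dmap_X, dmap_X, add_zero]
    rw [dmap_mul, dmap_C, δc, h5, mul_zero, add_zero]
    split_ifs
    · rw [C_1, one_mul]
    · rw [C_0, zero_mul]
  rw [Finset.sum_congr rfl h4, Finset.sum_ite_eq VP u, if_pos hu]

/-- `y_v y^2 ∈ J` -/
theorem yysq [IsDomain R] (D : Dat V R) (hC : Ctx D) (y : MvPolynomial V R)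
    (hw : D.w * y ∈ D.J) (v : V) : yy R D.α v * y ^ 2 ∈ D.J := by
  have key : ∀ u ∈ D.VP, yy R D.α u * y ^ 2 ∈ D.J := by
    intro u hu
    obtain ⟨δ, δa, δμ, δc⟩ := hC.derc u hu
    have h1 : dmap δ (D.w * y) ∈ D.J := dmap_J hC.hs.down δ δa hw
    have h0 : dmap δ D.w = yy R D.α u := dmap_welA D.α D.VP D.a D.μ D.c δ u hu δa δμ δc
    rw [dmap_mul, h0] at h1
    have h2 := Ideal.mul_mem_left D.J y h1
    have h4 := Ideal.sub_mem D.J h2 (Ideal.mul_mem_right (dmap δ y) D.J hw)
    have h5 : y * (yy R D.α u * y + D.w * dmap δ y) - D.w * y * dmap δ y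
        = yy R D.α u * y ^ 2 := by ring
    rwa [h5] at h4
  by_cases hv : v ∈ D.VP
  · exact key v hv
  · have h1 : D.α v ∈ D.VP := by
      by_contra h'
      exact hv ((hC.vp v).mpr h')
    have h2 := key _ h1
    have h3 : yy R D.α (D.α v) = yy R D.α v := by
      unfold yy
      rw [hC.cs.invol]
      ring
    rwa [h3] at h2

end IEx1

theorem pr_Ex1 {V : Type} [Fintype V] [DecidableEq V] {R : Type} [CommRing R] [IsDomain R]
    (D : Dat V R) (hC : Ctx D) : StEx1 D := by
  intro ε y hε _ hw hα v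
  have h1 := hC.dgJ _ (IEx1.yysq D hC y hw v)
  have h2 : yy R D.α v * y ^ 2 = X v * y ^ 2 + X (D.α v) * y ^ 2 := by
    unfold yy
    ring
  rw [h2, map_add] at h1
  -- the second value equals the first
  have h3 : D.dg (X (D.α v) * y ^ 2) = D.dg (X v * (rename D.α y) ^ 2) := by
    have h4 : rename D.α (X v * (rename D.α y) ^ 2) = X (D.α v) * y ^ 2 := by
      rw [map_mul, rename_X, map_pow, rename_rename_inv hC.cs.invol]
    rw [← h4, hC.dga]
  have h5 : D.dg (X v * (rename D.α y) ^ 2) = D.dg (X v * y ^ 2) := by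
    have h6 : X v * (rename D.α y) ^ 2 - X v * y ^ 2
        = (X v * (rename D.α y + C ε * y)) * (rename D.α y - ε • y) := by
      rw [smul_eq_C_mul]
      have h7 : (C ε : MvPolynomial V R) * C ε = 1 := by rw [← C_mul, hε, C_1]
      linear_combination (X v * y ^ 2) * h7
    have h8 : X v * (rename D.α y) ^ 2 - X v * y ^ 2 ∈ D.J := by
      rw [h6]
      exact Ideal.mul_mem_left _ _ hα
    have h9 := hC.dgJ _ h8
    rw [map_sub] at h9
    exact sub_eq_zero.mp h9
  rw [h3, h5, ← two_mul] at h1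
  exact (mul_eq_zero.mp h1).resolve_left hC.two.ne_zero

end CSLef.D5
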