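import Mathlib
import Pool.Agent.Work.MP_38c61c_al.D5.Stmts

/-!
Block D5, item Ex2: exactness of second order.
-/

namespace CSLef.D5

open MvPolynomial Finset

namespace IEx2

variable {V : Type} [Fintype V] [DecidableEq V] {R : Type} [CommRing R]

omit [Fintype V] [DecidableEq V] in
theorem dmap_sub (δ : Derivation ℤ R R) (f g : MvPolynomial V R) :
    dmap δ (f - g) = dmap δ f - dmap δ g := by
  ext m
  simp only [coeff_dmap, coeff_sub, map_sub]

variable [IsDomain R]

/-- derivative of the Lefschetz element -/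
theorem dw (D : Dat V R) (hC : Ctx D) {m : ℕ} (hm : m < 5) {v : V} (hv : v ∈ D.VP)
    (δ : Derivation ℤ R R) (δa : ∀ l < 5, ∀ u, δ (D.a l u) =
      if m = l then (if u = v then 1 else if u = D.α v then -1 else 0) else 0)
    (δμ : ∀ l, δ (D.μ l) = 0) (δc : ∀ u, δ (D.c u) = 0) :
    dmap δ D.w = C (D.μ m) * X v := by
  have hvpα : ∀ v ∈ D.VP, D.α v ∉ D.VP := fun v hv => (hC.vp v).mp hv
  unfold Dat.w welA
  rw [dmap_add, dmap_sum, dmap_sum]
  have h4 : ∀ u ∈ D.VP, dmap δ (C (D.c u) * yy R D.α u : MvPolynomial V R) = 0 := by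
    intro u _
    have h5 : dmap δ (yy R D.α u) = 0 := by
      unfold yy
      rw [dmap_add, dmap_X, dmap_X, add_zero]
    rw [dmap_mul, dmap_C, δc, h5, mul_zero, add_zero, map_zero, zero_mul]
  rw [Finset.sum_eq_zero h4, add_zero]
  have h3 : ∀ l' ∈ range 5, dmap δ (C (D.μ l') *
      (∑ u ∈ D.VP, C (D.a l' u) * X u : MvPolynomial V R)) =
      if m = l' then C (D.μ m) * X v else 0 := by
    intro l' hl'
    rw [dmap_mul, dmap_C, δμ, dmap_sum, map_zero, zero_mul, zero_add]
    have h6 : ∀ u ∈ D.VP, dmap δ (C (D.a l' u) * X u : MvPolynomial V R) =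
        if u = v then (if m = l' then X v else 0) else 0 := by
      intro u hu
      rw [dmap_mul, dmap_C, dmap_X, mul_zero, add_zero, δa l' (Finset.mem_range.mp hl')]
      have hne : u ≠ D.α v := fun h => hvpα v hv (h ▸ hu)
      by_cases hll : m = l'
      · by_cases huv : u = v
        · subst huv
          rw [if_pos hll, if_pos rfl, if_pos rfl, if_pos hll, map_one, one_mul]
        · rw [if_pos hll, if_neg huv, if_neg hne, if_neg huv, map_zero, zero_mul]
      · by_cases huv : u = v
        · rw [if_neg hll, if_pos huv, if_neg hll, map_zero, zero_mul]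
        · rw [if_neg hll, if_neg huv, map_zero, zero_mul]
    rw [Finset.sum_congr rfl h6, Finset.sum_ite_eq' D.VP v, if_pos hv]
    by_cases hll : m = l'
    · subst hll
      rw [if_pos rfl, if_pos rfl]
    · rw [if_neg hll, if_neg hll, mul_zero]
  rw [Finset.sum_congr rfl h3, Finset.sum_ite_eq (range 5) m, if_pos (Finset.mem_range.mpr hm)]

/-- derivative of the linear forms -/
theorem dlin (D : Dat V R) (hC : Ctx D) {m : ℕ} {v : V}
    (δ : Derivation ℤ R R) (δa : ∀ l < 5, ∀ u, δ (D.a l u) =
      if m = l then (if u = v then 1 else if u = D.α v then -1 else 0) else 0)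
    {l' : ℕ} (hl' : l' < 5) :
    dmap δ (lin (D.a l')) = if m = l' then X v - X (D.α v) else 0 := by
  unfold lin
  rw [dmap_sum]
  have h6 : ∀ u ∈ Finset.univ, dmap δ (C (D.a l' u) * X u : MvPolynomial V R) =
      (if u = v then (if m = l' then X v else 0) else 0) -
      (if u = D.α v then (if m = l' then X (D.α v) else 0) else 0) := by
    intro u _
    rw [dmap_mul, dmap_C, dmap_X, mul_zero, add_zero, δa l' hl']
    have hne : D.α v ≠ v := hC.cs.fpf v
    by_cases hll : m = l'
    · by_cases huv : u = v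
      · subst huv
        rw [if_pos hll, if_pos rfl, if_pos rfl, if_pos hll, if_neg (Ne.symm hne), map_one,
          one_mul, sub_zero]
      · by_cases huv' : u = D.α v
        · subst huv'
          rw [if_pos hll, if_neg huv, if_pos rfl, if_neg huv, if_pos rfl, if_pos hll, map_neg,
            map_one]
          ring
        · rw [if_pos hll, if_neg huv, if_neg huv', if_neg huv, if_neg huv', map_zero, zero_mul,
            sub_zero]
    · rw [if_neg hll, if_neg hll, if_neg hll, map_zero, zero_mul]
      simp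
  rw [Finset.sum_congr rfl h6, Finset.sum_sub_distrib, Finset.sum_ite_eq', Finset.sum_ite_eq',
    if_pos (Finset.mem_univ _), if_pos (Finset.mem_univ _)]
  by_cases hll : m = l'
  · rw [if_pos hll, if_pos hll, if_pos hll]
  · rw [if_neg hll, if_neg hll, if_neg hll, sub_zero]

end IEx2

open IEx2 in
theorem pr_Ex2 {V : Type} [Fintype V] [DecidableEq V] {R : Type} [CommRing R] [IsDomain R]
    (D : Dat V R) (hC : Ctx D) (h1 : StTx D) (h2 : StEx1 D) : StEx2 D := by
  intro ε y hε hy hwy hαy v m hm
  have hΘJ : ∀ l < 5, lin (D.a l) ∈ D.J := fun l hl => lin_mem_J hl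
  have hsrJ : ∀ f ∈ srIdeal R D.Δ, f ∈ D.J := fun f hf => sr_le_J 5 hf
  have hy2 : ∀ u, D.dg (X u * y ^ 2) = 0 := h2 ε y hε hy hwy hαy
  obtain ⟨g, hg⟩ := (mem_J_iff 5 _).mp hwy
  -- consequence of the derivations
  have hz : ∀ u ∈ D.VP, (X u - X (D.α u)) * g m * y - C (D.μ m) * X u * y ^ 2 ∈ D.J := by
    intro u hu
    obtain ⟨δ, δa, δμ, δc⟩ := hC.der m hm u hu
    have k1 := hsrJ _ (dmap_sr hC.hs.down δ hg)
    have k2 : dmap δ (D.w * y - ∑ l ∈ range 5, lin (D.a l) * g l) =
        C (D.μ m) * X u * y + D.w * dmap δ y -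
          ((X u - X (D.α u)) * g m + ∑ l ∈ range 5, lin (D.a l) * dmap δ (g l)) := by
      rw [dmap_sub, dmap_mul, dw D hC hm hu δ δa δμ δc, dmap_sum]
      congr 1
      have h6 : ∀ l' ∈ range 5, dmap δ (lin (D.a l') * g l') =
          (if m = l' then (X u - X (D.α u)) * g l' else 0) + lin (D.a l') * dmap δ (g l') := by
        intro l' hl'
        rw [dmap_mul, dlin D hC δ δa (Finset.mem_range.mp hl')]
        by_cases hll : m = l'
        · rw [if_pos hll, if_pos hll]
        · rw [if_neg hll, if_neg hll, zero_mul]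
      rw [Finset.sum_congr rfl h6, Finset.sum_add_distrib, Finset.sum_ite_eq (range 5) m,
        if_pos (Finset.mem_range.mpr hm)]
    rw [k2] at k1
    have k3 := Ideal.mul_mem_left _ y k1
    have k4 : ∑ l ∈ range 5, lin (D.a l) * dmap δ (g l) ∈ D.J :=
      Ideal.sum_mem _ (fun l' hl' => Ideal.mul_mem_right _ _ (hΘJ l' (Finset.mem_range.mp hl')))
    have k5 := Ideal.mul_mem_left D.J (dmap δ y) hwy
    have k6 := Ideal.sub_mem _ k5 (Ideal.add_mem _ k3 (Ideal.mul_mem_left _ y k4))
    have e : (X u - X (D.α u)) * g m * y - C (D.μ m) * X u * y ^ 2 =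
        dmap δ y * (D.w * y) - (y * (C (D.μ m) * X u * y + D.w * dmap δ y -
          ((X u - X (D.α u)) * g m + ∑ l ∈ range 5, lin (D.a l) * dmap δ (g l))) +
          y * ∑ l ∈ range 5, lin (D.a l) * dmap δ (g l)) := by
      ring
    rw [e]
    exact k6
  -- consequence of the involution
  obtain ⟨q, hq⟩ := (mem_J_iff 5 _).mp hαy
  have hinv : rename D.α (g m) + C ε * g m - C ε * C (D.μ m) * y + D.w * q m ∈ D.J := by
    have hαw : rename D.α D.w = D.w + - ∑ l ∈ range 5, C (D.μ l) * lin (D.a l) :=
      rename_welA_eq hC.cs.invol hC.vp hC.anti D.μ D.c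
    have k1 := rename_sr hC.cs hg
    have k2 : ∑ l ∈ range 5, rename D.α (lin (D.a l) * g l) =
        - ∑ l ∈ range 5, lin (D.a l) * rename D.α (g l) := by
      rw [← Finset.sum_neg_distrib]
      apply Finset.sum_congr rfl
      intro l _
      rw [map_mul, rename_lin_neg hC.cs.invol hC.anti]
      ring
    rw [map_sub, map_mul, map_sum, hαw, k2] at k1
    have k3 := Ideal.sub_mem _ (Ideal.sub_mem _ k1 (Ideal.mul_mem_left _ (C ε) hg))
      (Ideal.mul_mem_left _ D.w hq)
    have k4 : ∑ l ∈ range 5, lin (D.a l) * ((rename D.α (g l) + C ε * g l -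
        C ε * C (D.μ l) * y + D.w * q l) - C (D.μ l) * (rename D.α y - ε • y)) ∈
        srIdeal R D.Δ := by
      have e : ∑ l ∈ range 5, lin (D.a l) * ((rename D.α (g l) + C ε * g l -
          C ε * C (D.μ l) * y + D.w * q l) - C (D.μ l) * (rename D.α y - ε • y)) =
          (D.w + - ∑ l ∈ range 5, C (D.μ l) * lin (D.a l)) * rename D.α y -
            - ∑ l ∈ range 5, lin (D.a l) * rename D.α (g l) -
          C ε * (D.w * y - ∑ l ∈ range 5, lin (D.a l) * g l) -
          D.w * (rename D.α y - ε • y - ∑ l ∈ range 5, lin (D.a l) * q l) := by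
        have e1 : ∑ l ∈ range 5, lin (D.a l) * ((rename D.α (g l) + C ε * g l -
            C ε * C (D.μ l) * y + D.w * q l) - C (D.μ l) * (rename D.α y - ε • y)) =
            ∑ l ∈ range 5, lin (D.a l) * rename D.α (g l) +
            C ε * ∑ l ∈ range 5, lin (D.a l) * g l -
            (∑ l ∈ range 5, C (D.μ l) * lin (D.a l)) * (C ε * y) +
            D.w * ∑ l ∈ range 5, lin (D.a l) * q l -
            (∑ l ∈ range 5, C (D.μ l) * lin (D.a l)) * (rename D.α y - ε • y) := by
          simp only [Finset.mul_sum, Finset.sum_mul]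
          rw [← Finset.sum_add_distrib, ← Finset.sum_sub_distrib, ← Finset.sum_add_distrib,
            ← Finset.sum_sub_distrib]
          apply Finset.sum_congr rfl
          intro l _
          ring
        rw [e1, smul_eq_C_mul]
        ring
      rw [e]
      exact k3
    have k5 := hC.syz _ k4 m hm
    have k6 := Ideal.add_mem _ k5 (Ideal.mul_mem_left D.J (C (D.μ m)) hαy)
    rwa [sub_add_cancel] at k6
  -- the two relations for the values
  have hA1 : ∀ u ∈ D.VP, D.dg (X u * g m * y) = D.dg (X (D.α u) * g m * y) := by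
    intro u hu
    have k1 := hC.dgJ _ (hz u hu)
    have e : (X u - X (D.α u)) * g m * y - C (D.μ m) * X u * y ^ 2 =
        X u * g m * y - X (D.α u) * g m * y - D.μ m • (X u * y ^ 2) := by
      rw [smul_eq_C_mul]
      ring
    rw [e, map_sub, map_sub, map_smul, hy2, smul_zero, sub_zero, sub_eq_zero] at k1
    exact k1
  have hA : ∀ u, D.dg (X u * g m * y) = D.dg (X (D.α u) * g m * y) := by
    intro u
    by_cases hu : u ∈ D.VP
    · exact hA1 u hu
    · have hu' : D.α u ∈ D.VP := by
        by_contra h'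
        exact hu ((hC.vp u).mpr h')
      have k1 := hA1 (D.α u) hu'
      rw [hC.cs.invol] at k1
      exact k1.symm
  have hB : ∀ u, D.dg (X u * g m * y) = - D.dg (X (D.α u) * g m * y) := by
    intro u
    have k1 : X (D.α u) * rename D.α (g m) * rename D.α y + X (D.α u) * g m * y -
        C (D.μ m) * (X (D.α u) * y ^ 2) ∈ D.J := by
      have e2 : (1 - C ε * C ε : MvPolynomial V R) = 0 := by
        rw [← map_mul, hε, map_one, sub_self]
      have e1 : X (D.α u) * rename D.α (g m) * rename D.α y + X (D.α u) * g m * y -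
          C (D.μ m) * (X (D.α u) * y ^ 2) =
          X (D.α u) * C ε * y * (rename D.α (g m) + C ε * g m - C ε * C (D.μ m) * y +
            D.w * q m) + X (D.α u) * rename D.α (g m) * (rename D.α y - ε • y) -
          X (D.α u) * C ε * q m * (D.w * y) +
          (1 - C ε * C ε) * (X (D.α u) * g m * y - C (D.μ m) * (X (D.α u) * y ^ 2)) := by
        rw [smul_eq_C_mul]
        ring
      rw [e1, e2, zero_mul, add_zero]
      exact Ideal.sub_mem _ (Ideal.add_mem _ (Ideal.mul_mem_left _ _ hinv)
        (Ideal.mul_mem_left _ _ hαy)) (Ideal.mul_mem_left _ _ hwy)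
    have k2 := hC.dgJ _ k1
    have k3 := hC.dga (X u * g m * y)
    have k4 : rename D.α (X u * g m * y) =
        X (D.α u) * rename D.α (g m) * rename D.α y := by
      rw [map_mul, map_mul, rename_X]
    rw [k4] at k3
    rw [← smul_eq_C_mul, map_sub, map_add, map_smul, hy2, smul_zero, sub_zero, k3] at k2
    exact eq_neg_of_add_eq_zero_left k2
  have hzero : D.dg (X v * g m * y) = 0 := by
    have k1 : D.dg (X v * g m * y) = - D.dg (X v * g m * y) := by
      have := hB v
      rw [← hA v] at this
      exact this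
    have k2 : (2 : R) * D.dg (X v * g m * y) = 0 := by
      rw [two_mul]
      nth_rewrite 1 [k1]
      exact neg_add_cancel _
    rcases mul_eq_zero.1 k2 with h | h
    · exact absurd h hC.two.ne_zero
    · exact h
  have hfin := h1.1 (D.w * y) g hg m hm (X v * y)
  have e1 : X v * D.w * y ^ 2 = D.w * y * (X v * y) := by ring
  have e2 : g m * (X v * y) = X v * g m * y := by ring
  rw [e1, hfin, e2]
  exact hzero

end CSLef.D5
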