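import Mathlib
import Pool.Agent.Work.MP_38c61c_al.D5.Stmts2

/-!
Block D5, item Fin: good coefficient functions vanish.
-/

namespace CSLef.D5

open MvPolynomial Finset

namespace IFin

/-- a set of four elements is enumerated by an injective function on `Fin 4` -/
theorem enum4 {V : Type} [DecidableEq V] (Q : Finset V) (h : Q.card = 4) :
    ∃ q : Fin 4 → V, Function.Injective q ∧ (∀ i, q i ∈ Q) ∧ ∀ v ∈ Q, ∃ i, q i = v := by
  let e := Q.equivFinOfCardEq h
  refine ⟨fun i => (e.symm i : V), ?_, ?_, ?_⟩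
  · intro i j hij
    exact e.symm.injective (Subtype.ext hij)
  · intro i
    exact (e.symm i).2
  · intro v hv
    refine ⟨e ⟨v, hv⟩, ?_⟩
    simp

end IFin

theorem pr_Fin {V : Type} [Fintype V] [DecidableEq V] {R : Type} [CommRing R] [IsDomain R]
    (D : Dat V R) (h1 : StInt D) (h2 : StClo D) (h3 : StL4 D) (h4 : StL5 D) (h5 : StVP5 D)
    (h6 : StCL) : StFin D := by
  classical
  intro x hx G
  by_contra hG
  let G0 : Finset (Finset V) := (D.FS 3).filter (fun G => x G ≠ 0)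
  have hm : ∀ G, G ∈ G0 ↔ x G ≠ 0 := by
    intro G
    simp only [G0, mem_filter]
    exact ⟨fun h => h.2, fun h => ⟨(hx.supp G h).1, h⟩⟩
  have hF : ∀ G, x G ≠ 0 → G ⊆ D.VP ∧ G.card = 3 := by
    intro G h
    have h' := (hx.supp G h).1
    simp only [Dat.FS, mem_filter, mem_powersetCard] at h'
    exact h'.1
  have hcl := h6 G0 ⟨G, (hm G).2 hG⟩ (fun G h => (hF G ((hm G).1 h)).2)
    (fun G h G' h' => h1 G (mem_filter.1 h).1 G' (mem_filter.1 h').1)
    (fun G h H hH hc => by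
      obtain ⟨G', a, b, c⟩ := h2 x hx G ((hm G).1 h) H hH hc
      exact ⟨G', (hm G').2 a, b, c⟩)
  rcases hcl with ⟨s, ⟨G1, hG1, hs1⟩, Q, hQc, hsQ, hQ⟩ | ⟨s, c, hc, hcs, hlink⟩
  · have hsV : s ∈ D.VP := (hF G1 ((hm G1).1 hG1)).1 hs1
    have hsub : Q ∩ D.VP ⊆ D.VP.erase s := by
      intro v hv
      rw [mem_inter] at hv
      rw [mem_erase]
      exact ⟨fun h => hsQ (h ▸ hv.1), hv.2⟩
    have hle : (Q ∩ D.VP).card ≤ 4 := (card_le_card inter_subset_left).trans hQc
    have hge : 4 ≤ (D.VP.erase s).card := by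
      rw [card_erase_of_mem hsV]
      have h5' : 5 ≤ D.VP.card := h5
      omega
    obtain ⟨Q', hQ1, hQ2, hQ3⟩ := exists_subsuperset_card_eq hsub hle hge
    obtain ⟨q, hqi, hqm, hqs⟩ := IFin.enum4 Q' hQ3
    have hHQ : HQ D x s q := by
      refine ⟨hsV, ?_, hqi, ?_, ?_⟩
      · intro i
        exact (mem_erase.1 (hQ2 (hqm i))).2
      · intro i
        exact (mem_erase.1 (hQ2 (hqm i))).1
      · intro G2 hG2 hsG2
        have hc2 : (G2.erase s).card = 2 := by
          rw [card_erase_of_mem hsG2, (hF G2 hG2).2]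
        obtain ⟨u, v, huv, he⟩ := card_eq_two.1 hc2
        have hu : u ∈ G2.erase s := by rw [he]; simp
        have hv : v ∈ G2.erase s := by rw [he]; simp
        have hin : ∀ t ∈ G2.erase s, t ∈ Q' := by
          intro t ht
          apply hQ1
          rw [mem_inter]
          exact ⟨hQ G2 ((hm G2).2 hG2) hsG2 ht, (hF G2 hG2).1 (mem_erase.1 ht).2⟩
        obtain ⟨i, hi⟩ := hqs u (hin u hu)
        obtain ⟨j, hj⟩ := hqs v (hin v hv)
        refine ⟨i, j, ?_, ?_⟩
        · rintro rfl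
          exact huv (hi.symm.trans hj)
        · rw [hi, hj, ← he, insert_erase hsG2]
    exact (hm G1).1 hG1 (h3 x s q hx hHQ G1 hs1)
  · refine h4 x hx s c hc hcs ?_
    intro G2
    rw [← hlink G2, hm]

end CSLef.D5
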