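import Mathlib
import Pool.Agent.Work.MP_38c61c_al.D5.StmtsX

/-!
Block D5, item Gen: generic weak Lefschetz property from injectivity over the generic ring in
degree 2, in a form that specializes to every field.
-/

namespace CSLef.D5

open MvPolynomial Finset

universe u

namespace IGen

variable {V : Type} [Fintype V] [DecidableEq V] {Δ : Finset (Finset V)} {α : Equiv.Perm V}
  {VP : Finset V}

/-- injectivity over the generic ring in the degrees at most 2 -/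
theorem injR (hG : HG Δ α VP)
    (hinj : ∀ x : MvPolynomial V (RR 5 V), x.IsHomogeneous 2 →
      welA 5 α VP (ga α VP) (gm V) gc * x ∈ Jid Δ (ga α VP) 5 → x ∈ Jid Δ (ga α VP) 5)
    {i : ℕ} (hi : i ≤ 2) {x : MvPolynomial V (RR 5 V)} (hx : x.IsHomogeneous i)
    (hw : welA 5 α VP (ga α VP) (gm V) gc * x ∈ Jid Δ (ga α VP) 5) :
    x ∈ Jid Δ (ga α VP) 5 := by
  have H := locHyp hG.hs hG.cs hG.vp
  have key : ∀ m : ℕ, ∀ g : MvPolynomial V (RR 5 V), g.IsHomogeneous (2 - i + m) →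
      g * x ∈ Jid Δ (ga α VP) 5 := by
    intro m
    induction m with
    | zero =>
      intro g hg
      apply hinj
      · have h1 := hg.mul hx
        have h2 : 2 - i + 0 + i = 2 := by omega
        rwa [h2] at h1
      · rw [mul_left_comm]
        exact Ideal.mul_mem_left _ _ hw
    | succ m ih =>
      intro g hg
      obtain ⟨g', hg'1, hg'2⟩ := hom_split (show g.IsHomogeneous (2 - i + m + 1) from hg)
      rw [hg'2, Finset.sum_mul]
      apply Ideal.sum_mem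
      intro v _
      rw [mul_assoc]
      exact Ideal.mul_mem_left _ _ (ih _ (hg'1 v))
  apply nondeg_R (red 5 V) H (i := i) (k := 2 - i + 3) (by omega) hx
  intro g hg
  exact key 3 g hg

theorem hwKmap : MvPolynomial.map (phiP 5 V) (wP 5 α VP) =
    MvPolynomial.map (algebraMap (RR 5 V) (KK 5 V)) (welA 5 α VP (ga α VP) (gm V) gc) := by
  rw [map_welA]
  unfold wP
  rw [map_welA]
  rfl

theorem injK (hG : HG Δ α VP)
    (hinj : ∀ x : MvPolynomial V (RR 5 V), x.IsHomogeneous 2 →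
      welA 5 α VP (ga α VP) (gm V) gc * x ∈ Jid Δ (ga α VP) 5 → x ∈ Jid Δ (ga α VP) 5)
    {i : ℕ} (hi : i ≤ 2) {x : MvPolynomial V (KK 5 V)} (hx : x.IsHomogeneous i)
    (hw : (MvPolynomial.map (phiP 5 V) (wP 5 α VP)) ^ 1 * x ∈
      Jid Δ (fun l v => phiP 5 V (aP 5 α VP l v)) 5) :
    x ∈ Jid Δ (fun l v => phiP 5 V (aP 5 α VP l v)) 5 := by
  have H := locHyp hG.hs hG.cs hG.vp
  have htors : ∀ s : RR 5 V, s ≠ 0 → ∀ f : MvPolynomial V (RR 5 V), s • f ∈ Jid Δ (ga α VP) 5 →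
      f ∈ Jid Δ (ga α VP) 5 := fun s hs f hf => tors (red 5 V) H hs hf
  rw [hwKmap] at hw
  exact k_inj (den_R 5 V) hG.hs.down htors
    (fun x hx hw => injR hG hinj hi hx (by rwa [pow_one] at hw)) hx hw

theorem certS (hG : HG Δ α VP)
    (hinj : ∀ x : MvPolynomial V (RR 5 V), x.IsHomogeneous 2 →
      welA 5 α VP (ga α VP) (gm V) gc * x ∈ Jid Δ (ga α VP) 5 → x ∈ Jid Δ (ga α VP) 5) :
    ∃ g : PR 5 V, g ≠ 0 ∧ ∃ L : (V →₀ ℕ) → MvPolynomial V (PR 5 V),
      Cert Δ (aP 5 α VP) 5 (wP 5 α VP) 2 1 g L := by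
  have H := locHyp hG.hs hG.cs hG.vp
  have S := setupF hG.hs hG.cs hG.vp
  have htors : ∀ s : RR 5 V, s ≠ 0 → ∀ f : MvPolynomial V (RR 5 V), s • f ∈ Jid Δ (ga α VP) 5 →
      f ∈ Jid Δ (ga α VP) 5 := fun s hs f hf => tors (red 5 V) H hs hf
  obtain ⟨σ, hσ, _, hσd⟩ := exists_facet hG.hs ∅ hG.hs.empty_mem
  have htopR : ∀ f : MvPolynomial V (RR 5 V), f.IsHomogeneous 5 →
      ∃ r : RR 5 V, f - r • xm (RR 5 V) σ ∈ Jid Δ (ga α VP) 5 := by
    intro f hf
    apply top_gen (red 5 V) H hσd _ hf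
    intro hmem
    have hxσ : (xm (FF 5 V) σ).IsHomogeneous 5 := hσd ▸ xm_hom σ
    exact piF_facet_ne S.cols S.cs hσ hσd (piF_J S (by norm_num) hmem hxσ)
  have hinjK : ∀ x : MvPolynomial V (KK 5 V), x.IsHomogeneous 2 →
      (MvPolynomial.map (phiP 5 V) (wP 5 α VP)) ^ 1 * x ∈
        Jid Δ (fun l v => phiP 5 V (aP 5 α VP l v)) 5 →
      x ∈ Jid Δ (fun l v => phiP 5 V (aP 5 α VP l v)) 5 :=
    fun x hx hw => injK hG hinj le_rfl hx hw
  apply cert_exists (den_P 5 V) hG.hs.down (welA_hom _ _ _ _) hinjK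
  apply k_surj (show 2 + 1 + 2 = 5 from rfl)
    ((welA_hom (d := 5) (α := α) VP (aP 5 α VP) muP cP).map (phiP 5 V)) hinjK
  · intro y hy h0
    exact k_nondeg (den_R 5 V) hG.hs.down htors
      (fun f hf hg => nondeg_R (red 5 V) H (show 2 + 1 + 2 = 5 from rfl) hf hg) hy h0
  · exact k_top (den_R 5 V) hG.hs.down htopR

end IGen

open IGen

theorem pr_Gen {V : Type} [Fintype V] [DecidableEq V] (Δ : Finset (Finset V)) (α : Equiv.Perm V)
    (VP : Finset V) (hG : HG Δ α VP) (h1 : StHCmap.{u}) (h2 : StHCex) :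
    StGen.{u} Δ α VP := by
  classical
  intro hinj
  obtain ⟨gS, hgS, LS, hLS⟩ := certS hG hinj
  have hcert : ∀ i, ∃ g : PR 5 V, g ≠ 0 ∧ (i ≤ 2 →
      ∃ L : (V →₀ ℕ) → MvPolynomial V (PR 5 V),
        HCert Δ (aP 5 α VP) 5 (wP 5 α VP) i 1 g L) := by
    intro i
    by_cases h : i ≤ 2
    · obtain ⟨g, hg, L, hL⟩ := h2 (phiP 5 V) (den_P 5 V) Δ hG.hs.down (aP 5 α VP) 5
        (wP 5 α VP) i 1 (by omega) (welA_hom _ _ _ _) (fun x hx hw => injK hG hinj h hx hw)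
      exact ⟨g, hg, fun _ => ⟨L, hL⟩⟩
    · exact ⟨1, one_ne_zero, fun h' => absurd h' h⟩
  choose g hg hL using hcert
  obtain ⟨s, hs, hlarge⟩ := descend_finset (den_P 5 V) hG.hs.down (a := aP 5 α VP) (j := 5)
    (Mon V (5 + 1)) (fun n => monomial n 1) (by
      intro n hn
      apply k_large (den_R 5 V) hG.hs.down (a := fun l v =>
        algebraMap (PR 5 V) (RR 5 V) (aP 5 α VP l v)) (n := 5 + 1)
      · intro f hf
        exact large_R (red 5 V) (locHyp hG.hs hG.cs hG.vp) (Nat.lt_succ_self 5) hf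
      · exact (monomial_hom hn 1).map _)
  refine ⟨(∏ i ∈ range 3, g i) * s * gS, mul_ne_zero
    (mul_ne_zero (Finset.prod_ne_zero_iff.mpr (fun i _ => hg i)) hs) hgS, ?_⟩
  intro k _ ψ hψ
  rw [map_mul, map_mul, map_prod] at hψ
  have hψS : ψ gS ≠ 0 := right_ne_zero_of_mul hψ
  have hψs : ψ s ≠ 0 := right_ne_zero_of_mul (left_ne_zero_of_mul hψ)
  have hψg : ∀ i ∈ range 3, ψ (g i) ≠ 0 :=
    Finset.prod_ne_zero_iff.mp (left_ne_zero_of_mul (left_ne_zero_of_mul hψ))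
  refine ⟨?_, ?_, ?_⟩
  · intro i hi x hx hw
    obtain ⟨L, hLc⟩ := hL i hi
    exact h1 ψ Δ hG.hs.down (aP 5 α VP) 5 (wP 5 α VP) i 1 (g i) L hLc (by omega)
      (welA_hom _ _ _ _) (hψg i (Finset.mem_range.mpr (by omega))) x hx (by rwa [pow_one])
  · intro y hy
    have hc := hLS.map ψ hG.hs.down
    obtain ⟨x, hx1, hx2⟩ := hc.surj hψS y hy
    refine ⟨x, hx1, ?_⟩
    rwa [pow_one] at hx2
  · have hbase : ∀ f : MvPolynomial V k, f.IsHomogeneous (5 + 1) →
        f ∈ Jid Δ (fun l v => ψ (aP 5 α VP l v)) 5 := by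
      intro f hf
      rw [hom_sum_Mon hf]
      apply Ideal.sum_mem
      intro m hm
      apply Ideal.mul_mem_left
      have h1 := map_J ψ hG.hs.down (hlarge m hm)
      rw [map_mul, map_C, map_mon_one] at h1
      have h2 := Ideal.mul_mem_left _ (C (ψ s)⁻¹) h1
      rw [← mul_assoc, ← map_mul, inv_mul_cancel₀ hψs, map_one, one_mul] at h2
      exact h2
    intro n hn
    obtain ⟨m, rfl⟩ : ∃ m, n = 5 + 1 + m := ⟨n - (5 + 1), by omega⟩
    clear hn
    induction m with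
    | zero => intro f hf; exact hbase f hf
    | succ m ih =>
      intro f hf
      obtain ⟨f', hf'1, hf'2⟩ := hom_split (show f.IsHomogeneous (5 + 1 + m + 1) from hf)
      rw [hf'2]
      apply Ideal.sum_mem
      intro v _
      exact Ideal.mul_mem_left _ _ (ih _ (hf'1 v))

end CSLef.D5
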