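import Mathlib
import Pool.Agent.Work.MP_38c61c_al.D5.Stmts2

/-! Block D5, item Int: full triples meet. -/

namespace CSLef.D5

open MvPolynomial Finset

namespace IInt

theorem inj5 {V : Type} {a b c d e : V} (hab : a ≠ b) (hac : a ≠ c) (had : a ≠ d) (hae : a ≠ e)
    (hbc : b ≠ c) (hbd : b ≠ d) (hbe : b ≠ e) (hcd : c ≠ d) (hce : c ≠ e) (hde : d ≠ e) :
    Function.Injective (![a, b, c, d, e] : Fin 5 → V) := by
  intro i j h
  fin_cases i <;> fin_cases j <;>
    first
      | rfl
      | (exfalso; first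
          | exact hab h | exact hac h | exact had h | exact hae h
          | exact hbc h | exact hbd h | exact hbe h | exact hcd h | exact hce h | exact hde h
          | exact hab h.symm | exact hac h.symm | exact had h.symm | exact hae h.symm
          | exact hbc h.symm | exact hbd h.symm | exact hbe h.symm | exact hcd h.symm
          | exact hce h.symm | exact hde h.symm)

end IInt

theorem pr_Int {V : Type} [Fintype V] [DecidableEq V] {R : Type} [CommRing R] [IsDomain R]
    (D : Dat V R) (hC : Ctx D) (h1 : StP1 D) (h2 : StPhX D) (h3 : StTA1 D) : StInt D := by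
  intro G hG G' hG'
  by_contra hne
  rw [Finset.not_nonempty_iff_eq_empty] at hne
  obtain ⟨hG1, hGF⟩ := Finset.mem_filter.mp hG
  obtain ⟨hG'1, hGF'⟩ := Finset.mem_filter.mp hG'
  obtain ⟨hGs, hGc⟩ := Finset.mem_powersetCard.mp hG1
  obtain ⟨hGs', hGc'⟩ := Finset.mem_powersetCard.mp hG'1
  have hdis : ∀ u, u ∈ G → u ∈ G' → False := by
    intro u hu hu'
    have : u ∈ G ∩ G' := Finset.mem_inter.mpr ⟨hu, hu'⟩
    rw [hne] at this
    exact Finset.notMem_empty _ this
  have hGn : G.Nonempty := Finset.card_pos.mp (by omega)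
  have hGn' : G'.Nonempty := Finset.card_pos.mp (by omega)
  obtain ⟨h, hh⟩ := hGn'
  have hhG : h ∉ G := fun hu => hdis h hu hh
  have hHc : (G'.erase h).card = 2 := by
    rw [Finset.card_erase_of_mem hh]
    omega
  have hHF : D.Full (G'.erase h) := h2.2 G' hGF' _ (Finset.erase_subset _ _)
  -- the degree vanishes
  have hz : D.dg (D.XH G * D.XH (G'.erase h)) = 0 := by
    have e1 := (h1 G' hGF' ⟨h, hh⟩).2.2.1 h hh
    have e2 := ((h1 G hGF hGn).2.1 h (hGs' hh) hhG).1
    have e3 : D.XH G * D.XH (G'.erase h) ∈ D.J := by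
      have e4 := Ideal.sub_mem D.J (Ideal.mul_mem_right (D.XH G') D.J e2)
        (Ideal.mul_mem_left D.J (D.XH G) e1)
      have e5 : X h * D.XH G * D.XH G' - D.XH G * (X h * D.XH G' - D.XH (G'.erase h))
          = D.XH G * D.XH (G'.erase h) := by ring
      rwa [e5] at e4
    exact hC.dgJ _ e3
  obtain ⟨g1, g2, g3, h12, h13, h23, hGe⟩ := Finset.card_eq_three.mp hGc
  obtain ⟨q, r, hqr, hHe⟩ := Finset.card_eq_two.mp hHc
  have hHm : ({q, r} : Finset V) ∈ D.FS 2 := by
    rw [← hHe]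
    exact Finset.mem_filter.mpr ⟨Finset.mem_powersetCard.mpr
      ⟨(Finset.erase_subset _ _).trans hGs', hHc⟩, hHF⟩
  have hGm : ({g1, g2, g3} : Finset V) ∈ D.FS 3 := by
    rw [← hGe]
    exact hG
  have hta := h3 g1 g2 g3 q r h12 h13 h23 hqr hGm hHm
  rw [← hGe, ← hHe, hz, mul_zero, zero_sub, dvd_neg] at hta
  have m1 : g1 ∈ G := by rw [hGe]; simp
  have m2 : g2 ∈ G := by rw [hGe]; simp
  have m3 : g3 ∈ G := by rw [hGe]; simp
  have mq : q ∈ G' := by
    have : q ∈ G'.erase h := by rw [hHe]; simp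
    exact Finset.mem_of_mem_erase this
  have mr : r ∈ G' := by
    have : r ∈ G'.erase h := by rw [hHe]; simp
    exact Finset.mem_of_mem_erase this
  have hne' : ∀ u w, u ∈ G → w ∈ G' → u ≠ w := by
    intro u w hu hw huw
    rw [huw] at hu
    exact hdis w hu hw
  refine hC.ind5 ![g1, g2, g3, q, r]
    (IInt.inj5 h12 h13 (hne' _ _ m1 mq) (hne' _ _ m1 mr) h23 (hne' _ _ m2 mq) (hne' _ _ m2 mr)
      (hne' _ _ m3 mq) (hne' _ _ m3 mr) hqr) ?_ hta
  intro i
  fin_cases i
  · exact hGs m1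
  · exact hGs m2
  · exact hGs m3
  · exact hGs' mq
  · exact hGs' mr

end CSLef.D5
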