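import Mathlib
import Pool.Agent.Work.MP_38c61c_al.D5.Stmts2

/-!
Block D5, item L4: no vertex of the support has its link on four vertices.
-/

namespace CSLef.D5

open MvPolynomial Finset

namespace IL4

section
variable {V : Type} [Fintype V] [DecidableEq V] {R : Type} [CommRing R]

theorem xq_symm (x : Finset V → R) (s : V) (q : Fin 4 → V) (i j : Fin 4) :
    xq x s q i j = xq x s q j i := by
  unfold xq
  rw [Finset.pair_comm (q i) (q j)]

end

section
variable {V : Type} [Fintype V] [DecidableEq V] {R : Type} [CommRing R] [IsDomain R]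

theorem hq_perm (D : Dat V R) (x : Finset V → R) (s : V) (q : Fin 4 → V) (h : HQ D x s q)
    (π : Equiv.Perm (Fin 4)) : HQ D x s (q ∘ π) where
  s_mem := h.s_mem
  q_mem := fun i => h.q_mem (π i)
  q_inj := h.q_inj.comp π.injective
  q_ne := fun i => h.q_ne (π i)
  link := fun G hx hs => by
    obtain ⟨i, j, hij, hG⟩ := h.link G hx hs
    exact ⟨π.symm i, π.symm j, fun e => hij (π.symm.injective e), by simp [hG]⟩

theorem wt_not (D : Dat V R) (hC : Ctx D) (p : V) (hp : p ∈ D.VP) : ¬ (2 : R) ∣ D.wt p := by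
  intro h
  refine hC.wt_odd p hp ?_
  unfold Dat.wt at h
  exact (dvd_add_right (dvd_mul_right _ _)).1 h

theorem s4 (D : Dat V R) (x : Finset V → R) (s : V) (q : Fin 4 → V) :
    S4 D x s q 0 = D.wt (q 1) * xq x s q 0 1 + D.wt (q 2) * xq x s q 0 2 +
      D.wt (q 3) * xq x s q 0 3 ∧
    S4 D x s q 1 = D.wt (q 0) * xq x s q 0 1 + D.wt (q 2) * xq x s q 1 2 +
      D.wt (q 3) * xq x s q 1 3 ∧
    S4 D x s q 2 = D.wt (q 0) * xq x s q 0 2 + D.wt (q 1) * xq x s q 1 2 +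
      D.wt (q 3) * xq x s q 2 3 ∧
    S4 D x s q 3 = D.wt (q 0) * xq x s q 0 3 + D.wt (q 1) * xq x s q 1 3 +
      D.wt (q 2) * xq x s q 2 3 := by
  have e0 : (Finset.univ.erase (0 : Fin 4)) = {1, 2, 3} := by decide
  have e1 : (Finset.univ.erase (1 : Fin 4)) = {0, 2, 3} := by decide
  have e2 : (Finset.univ.erase (2 : Fin 4)) = {0, 1, 3} := by decide
  have e3 : (Finset.univ.erase (3 : Fin 4)) = {0, 1, 2} := by decide
  refine ⟨?_, ?_, ?_, ?_⟩
  · rw [S4, e0, Finset.sum_insert (by decide), Finset.sum_insert (by decide),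
      Finset.sum_singleton]
    ring
  · rw [S4, e1, Finset.sum_insert (by decide), Finset.sum_insert (by decide),
      Finset.sum_singleton, xq_symm x s q 1 0]
    ring
  · rw [S4, e2, Finset.sum_insert (by decide), Finset.sum_insert (by decide),
      Finset.sum_singleton, xq_symm x s q 2 0, xq_symm x s q 2 1]
    ring
  · rw [S4, e3, Finset.sum_insert (by decide), Finset.sum_insert (by decide),
      Finset.sum_singleton, xq_symm x s q 3 0, xq_symm x s q 3 1, xq_symm x s q 3 2]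
    ring

end

end IL4

open IL4 in
/-- L4: no vertex of the support has its link on four vertices. -/
theorem pr_L4 {V : Type} [Fintype V] [DecidableEq V] {R : Type} [CommRing R] [IsDomain R]
    (D : Dat V R) (hC : Ctx D) (h1 : StVe D) (h2 : StC4 D) (h3 : StK4) : StL4 D := by
  intro x s q hG hQ G hsG
  obtain ⟨-, hS, -, -⟩ := h1 x s q hG hQ
  obtain ⟨a0, a1, a2, a3⟩ := s4 D x s q
  have w : ∀ i, ¬ (2 : R) ∣ D.wt (q i) := fun i => wt_not D hC _ (hQ.q_mem i)
  have c0 : (2 : R) ∣ D.wt (q 0) * xq x s q 0 1 * xq x s q 0 2 +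
      D.wt (q 1) * xq x s q 0 1 * xq x s q 1 2 +
      D.wt (q 2) * xq x s q 0 2 * xq x s q 1 2 := h2 x s q hG hQ
  have c1 : (2 : R) ∣ D.wt (q 0) * xq x s q 0 1 * xq x s q 0 3 +
      D.wt (q 1) * xq x s q 0 1 * xq x s q 1 3 +
      D.wt (q 3) * xq x s q 0 3 * xq x s q 1 3 :=
    h2 x s _ hG (hq_perm D x s q hQ ⟨![0, 1, 3, 2], ![0, 1, 3, 2], by decide, by decide⟩)
  have c2 : (2 : R) ∣ D.wt (q 0) * xq x s q 0 2 * xq x s q 0 3 +
      D.wt (q 2) * xq x s q 0 2 * xq x s q 2 3 +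
      D.wt (q 3) * xq x s q 0 3 * xq x s q 2 3 :=
    h2 x s _ hG (hq_perm D x s q hQ ⟨![0, 2, 3, 1], ![0, 3, 1, 2], by decide, by decide⟩)
  have c3 : (2 : R) ∣ D.wt (q 1) * xq x s q 1 2 * xq x s q 1 3 +
      D.wt (q 2) * xq x s q 1 2 * xq x s q 2 3 +
      D.wt (q 3) * xq x s q 1 3 * xq x s q 2 3 :=
    h2 x s _ hG (hq_perm D x s q hQ ⟨![1, 2, 3, 0], ![3, 0, 1, 2], by decide, by decide⟩)
  have k := h3 hC.two hC.nocube (D.wt (q 0)) (D.wt (q 1)) (D.wt (q 2)) (D.wt (q 3))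
    (xq x s q 0 1) (xq x s q 0 2) (xq x s q 0 3) (xq x s q 1 2) (xq x s q 1 3) (xq x s q 2 3)
    (w 0) (w 1) (w 2) (w 3) (a0 ▸ hS 0) (a1 ▸ hS 1) (a2 ▸ hS 2) (a3 ▸ hS 3) c0 c1 c2 c3
  obtain ⟨k01, k02, k03, k12, k13, k23⟩ := k
  by_contra hx
  obtain ⟨i, j, hij, hGe⟩ := hQ.link G hx hsG
  have hodd := (hG.supp G hx).2
  rw [hGe] at hodd
  refine hodd ?_
  show (2 : R) ∣ xq x s q i j
  fin_cases i <;> fin_cases j <;>
    first
      | exact absurd rfl hij
      | assumption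
      | (rw [xq_symm]; assumption)

end CSLef.D5
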