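import Mathlib
import Pool.Agent.Work.MP_38c61c_al.D5.Stmts2

/-!
Block D5, item Lap (helper64): Laplace expansion modulo 2.
-/

namespace CSLef.D5

open MvPolynomial Finset

namespace ILap

/-- the determinant of a 3 x 3 minor, rows `1, 2, 3`, columns `i, j, k` -/
def m3 {R : Type} [CommRing R] (N : Matrix (Fin 4) (Fin 4) R) (i j k : Fin 4) : R :=
  N 1 i * N 2 j * N 3 k - N 1 i * N 2 k * N 3 j - N 1 j * N 2 i * N 3 k +
    N 1 j * N 2 k * N 3 i + N 1 k * N 2 i * N 3 j - N 1 k * N 2 j * N 3 i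

theorem det4 {R : Type} [CommRing R] (N : Matrix (Fin 4) (Fin 4) R) : N.det =
    N 0 0 * m3 N 1 2 3 - N 0 1 * m3 N 0 2 3 + N 0 2 * m3 N 0 1 3 - N 0 3 * m3 N 0 1 2 := by
  rw [Matrix.det_succ_row_zero, Fin.sum_univ_four]
  rw [Matrix.det_fin_three, Matrix.det_fin_three, Matrix.det_fin_three, Matrix.det_fin_three]
  simp only [Matrix.submatrix_apply]
  have e00 : (Fin.succAbove (0 : Fin 4) (0 : Fin 3)) = 1 := rfl
  have e01 : (Fin.succAbove (0 : Fin 4) (1 : Fin 3)) = 2 := rfl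
  have e02 : (Fin.succAbove (0 : Fin 4) (2 : Fin 3)) = 3 := rfl
  have e10 : (Fin.succAbove (1 : Fin 4) (0 : Fin 3)) = 0 := rfl
  have e11 : (Fin.succAbove (1 : Fin 4) (1 : Fin 3)) = 2 := rfl
  have e12 : (Fin.succAbove (1 : Fin 4) (2 : Fin 3)) = 3 := rfl
  have e20 : (Fin.succAbove (2 : Fin 4) (0 : Fin 3)) = 0 := rfl
  have e21 : (Fin.succAbove (2 : Fin 4) (1 : Fin 3)) = 1 := rfl
  have e22 : (Fin.succAbove (2 : Fin 4) (2 : Fin 3)) = 3 := rfl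
  have e30 : (Fin.succAbove (3 : Fin 4) (0 : Fin 3)) = 0 := rfl
  have e31 : (Fin.succAbove (3 : Fin 4) (1 : Fin 3)) = 1 := rfl
  have e32 : (Fin.succAbove (3 : Fin 4) (2 : Fin 3)) = 2 := rfl
  have s0 : Fin.succ (0 : Fin 3) = 1 := rfl
  have s1 : Fin.succ (1 : Fin 3) = 2 := rfl
  have s2 : Fin.succ (2 : Fin 3) = 3 := rfl
  have v0 : ((0 : Fin 4) : ℕ) = 0 := rfl
  have v1 : ((1 : Fin 4) : ℕ) = 1 := rfl
  have v2 : ((2 : Fin 4) : ℕ) = 2 := rfl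
  have v3 : ((3 : Fin 4) : ℕ) = 3 := rfl
  rw [e00, e01, e02, e10, e11, e12, e20, e21, e22, e30, e31, e32, s0, s1, s2, v0, v1, v2, v3]
  unfold m3
  ring

/-- the determinant of the 4 x 4 minor, rows `1, .., 4`, columns `c 0, .., c 3` -/
def m4 {R : Type} [CommRing R] (N : Matrix (Fin 5) (Fin 5) R) (i j k l : Fin 5) : R :=
  N 1 i * (N 2 j * N 3 k * N 4 l - N 2 j * N 3 l * N 4 k - N 2 k * N 3 j * N 4 l +
    N 2 k * N 3 l * N 4 j + N 2 l * N 3 j * N 4 k - N 2 l * N 3 k * N 4 j) -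
  N 1 j * (N 2 i * N 3 k * N 4 l - N 2 i * N 3 l * N 4 k - N 2 k * N 3 i * N 4 l +
    N 2 k * N 3 l * N 4 i + N 2 l * N 3 i * N 4 k - N 2 l * N 3 k * N 4 i) +
  N 1 k * (N 2 i * N 3 j * N 4 l - N 2 i * N 3 l * N 4 j - N 2 j * N 3 i * N 4 l +
    N 2 j * N 3 l * N 4 i + N 2 l * N 3 i * N 4 j - N 2 l * N 3 j * N 4 i) -
  N 1 l * (N 2 i * N 3 j * N 4 k - N 2 i * N 3 k * N 4 j - N 2 j * N 3 i * N 4 k +
    N 2 j * N 3 k * N 4 i + N 2 k * N 3 i * N 4 j - N 2 k * N 3 j * N 4 i)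

theorem det5 {R : Type} [CommRing R] (N : Matrix (Fin 5) (Fin 5) R) : N.det =
    N 0 0 * m4 N 1 2 3 4 - N 0 1 * m4 N 0 2 3 4 + N 0 2 * m4 N 0 1 3 4 -
      N 0 3 * m4 N 0 1 2 4 + N 0 4 * m4 N 0 1 2 3 := by
  rw [Matrix.det_succ_row_zero, Fin.sum_univ_five]
  rw [det4, det4, det4, det4, det4]
  simp only [m3, Matrix.submatrix_apply]
  have e00 : (Fin.succAbove (0 : Fin 5) (0 : Fin 4)) = 1 := rfl
  have e01 : (Fin.succAbove (0 : Fin 5) (1 : Fin 4)) = 2 := rfl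
  have e02 : (Fin.succAbove (0 : Fin 5) (2 : Fin 4)) = 3 := rfl
  have e03 : (Fin.succAbove (0 : Fin 5) (3 : Fin 4)) = 4 := rfl
  have e10 : (Fin.succAbove (1 : Fin 5) (0 : Fin 4)) = 0 := rfl
  have e11 : (Fin.succAbove (1 : Fin 5) (1 : Fin 4)) = 2 := rfl
  have e12 : (Fin.succAbove (1 : Fin 5) (2 : Fin 4)) = 3 := rfl
  have e13 : (Fin.succAbove (1 : Fin 5) (3 : Fin 4)) = 4 := rfl
  have e20 : (Fin.succAbove (2 : Fin 5) (0 : Fin 4)) = 0 := rfl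
  have e21 : (Fin.succAbove (2 : Fin 5) (1 : Fin 4)) = 1 := rfl
  have e22 : (Fin.succAbove (2 : Fin 5) (2 : Fin 4)) = 3 := rfl
  have e23 : (Fin.succAbove (2 : Fin 5) (3 : Fin 4)) = 4 := rfl
  have e30 : (Fin.succAbove (3 : Fin 5) (0 : Fin 4)) = 0 := rfl
  have e31 : (Fin.succAbove (3 : Fin 5) (1 : Fin 4)) = 1 := rfl
  have e32 : (Fin.succAbove (3 : Fin 5) (2 : Fin 4)) = 2 := rfl
  have e33 : (Fin.succAbove (3 : Fin 5) (3 : Fin 4)) = 4 := rfl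
  have e40 : (Fin.succAbove (4 : Fin 5) (0 : Fin 4)) = 0 := rfl
  have e41 : (Fin.succAbove (4 : Fin 5) (1 : Fin 4)) = 1 := rfl
  have e42 : (Fin.succAbove (4 : Fin 5) (2 : Fin 4)) = 2 := rfl
  have e43 : (Fin.succAbove (4 : Fin 5) (3 : Fin 4)) = 3 := rfl
  have s0 : Fin.succ (0 : Fin 4) = 1 := rfl
  have s1 : Fin.succ (1 : Fin 4) = 2 := rfl
  have s2 : Fin.succ (2 : Fin 4) = 3 := rfl
  have s3 : Fin.succ (3 : Fin 4) = 4 := rfl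
  have v0 : ((0 : Fin 5) : ℕ) = 0 := rfl
  have v1 : ((1 : Fin 5) : ℕ) = 1 := rfl
  have v2 : ((2 : Fin 5) : ℕ) = 2 := rfl
  have v3 : ((3 : Fin 5) : ℕ) = 3 := rfl
  have v4 : ((4 : Fin 5) : ℕ) = 4 := rfl
  rw [e00, e01, e02, e03, e10, e11, e12, e13, e20, e21, e22, e23, e30, e31, e32, e33, e40, e41, e42, e43, s0, s1, s2, s3, v0, v1, v2, v3, v4]
  unfold m4
  ring

variable {V : Type} {R : Type} [CommRing R]

/-- the even part of the permanent -/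
def e3 (a : ℕ → V → R) (g1 g2 g3 : V) (i j k : ℕ) : R :=
  a i g1 * a j g2 * a k g3 + a i g2 * a j g3 * a k g1 + a i g3 * a j g1 * a k g2

/-- the odd part of the permanent -/
def o3 (a : ℕ → V → R) (g1 g2 g3 : V) (i j k : ℕ) : R :=
  a i g1 * a j g3 * a k g2 + a i g2 * a j g1 * a k g3 + a i g3 * a j g2 * a k g1

/-- half of the difference for a pair with sign plus -/
def hp (a : ℕ → V → R) (g1 g2 g3 q r : V) (i j k l m : ℕ) : R :=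
  e3 a g1 g2 g3 i j k * (a l r * a m q) + o3 a g1 g2 g3 i j k * (a l q * a m r)

/-- half of the difference for a pair with sign minus -/
def hm (a : ℕ → V → R) (g1 g2 g3 q r : V) (i j k l m : ℕ) : R :=
  e3 a g1 g2 g3 i j k * (a l q * a m r) + o3 a g1 g2 g3 i j k * (a l r * a m q)

end ILap

theorem pr_Lap : StLap := by
  intro V R _ a g1 g2 g3 q r
  refine ⟨ILap.hp a g1 g2 g3 q r 2 3 4 0 1 +
    ILap.hm a g1 g2 g3 q r 1 3 4 0 2 +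
    ILap.hp a g1 g2 g3 q r 1 2 4 0 3 +
    ILap.hm a g1 g2 g3 q r 1 2 3 0 4 +
    ILap.hp a g1 g2 g3 q r 0 3 4 1 2 +
    ILap.hm a g1 g2 g3 q r 0 2 4 1 3 +
    ILap.hp a g1 g2 g3 q r 0 2 3 1 4 +
    ILap.hp a g1 g2 g3 q r 0 1 4 2 3 +
    ILap.hm a g1 g2 g3 q r 0 1 3 2 4 +
    ILap.hp a g1 g2 g3 q r 0 1 2 3 4, ?_⟩
  rw [ILap.det5]
  have r0 : (![g1, g2, g3, q, r] : Fin 5 → V) 0 = g1 := rfl
  have r1 : (![g1, g2, g3, q, r] : Fin 5 → V) 1 = g2 := rfl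
  have r2 : (![g1, g2, g3, q, r] : Fin 5 → V) 2 = g3 := rfl
  have r3 : (![g1, g2, g3, q, r] : Fin 5 → V) 3 = q := rfl
  have r4 : (![g1, g2, g3, q, r] : Fin 5 → V) 4 = r := rfl
  have c0 : ((0 : Fin 5) : ℕ) = 0 := rfl
  have c1 : ((1 : Fin 5) : ℕ) = 1 := rfl
  have c2 : ((2 : Fin 5) : ℕ) = 2 := rfl
  have c3 : ((3 : Fin 5) : ℕ) = 3 := rfl
  have c4 : ((4 : Fin 5) : ℕ) = 4 := rfl
  simp only [ILap.m4, r0, r1, r2, r3, r4, c0, c1, c2, c3, c4, pm3, pm2, ILap.hp, ILap.hm, ILap.e3,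
    ILap.o3]
  ring

end CSLef.D5
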