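import Mathlib
import Pool.Agent.Work.MP_38c61c_al.D5.Stmts

/-!
Block D5, item MI4: the value of `T m` on `z_s N_s K_r`.
-/

namespace CSLef.D5

open MvPolynomial Finset

namespace IMI4

variable {V : Type} [Fintype V] [DecidableEq V] {R : Type} [CommRing R] [IsDomain R]

/-- the two values for one pair -/
theorem pair (D : Dat V R) (hC : Ctx D) (h1 : StPhX D) (h2 : StPhA D) (h4 : StTx D)
    (K : MvPolynomial V R) (s : V) (h b : ℕ → MvPolynomial V R)
    (hh : X s * K - ∑ l ∈ range 5, lin (D.a l) * h l ∈ srIdeal R D.Δ)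
    (hb : rename D.α K - K - ∑ l ∈ range 5, lin (D.a l) * b l ∈ srIdeal R D.Δ)
    (m : ℕ) (hm : m < 5) (H : Finset V) (hH : D.Full H) (hs : s ∈ H) :
    D.T m (D.z s * D.XH H * K) = D.ph (H.erase s) (b m) + 2 * D.ph H (h m) := by
  have hsVP : s ∈ D.VP := hH.1 hs
  have e1 : D.T m (X s * K * D.XH H) = D.ph H (h m) := by
    rw [h4.1 _ h hh m hm, mul_comm, hC.xh_dg H hH]
  have r1 := rename_sr hC.cs hh
  rw [map_sub, map_mul, rename_X, map_sum] at r1
  have r2 : ∑ l ∈ range 5, rename D.α (lin (D.a l) * h l) =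
      - ∑ l ∈ range 5, lin (D.a l) * rename D.α (h l) := by
    rw [← Finset.sum_neg_distrib]
    refine Finset.sum_congr rfl fun l _ => ?_
    rw [map_mul, rename_lin_neg hC.cs.invol hC.anti]
    ring
  rw [r2] at r1
  have r3 : X (D.α s) * K - ∑ l ∈ range 5, lin (D.a l) *
      (- rename D.α (h l) - X (D.α s) * b l) ∈ srIdeal R D.Δ := by
    have r4 := Ideal.sub_mem _ r1 (Ideal.mul_mem_left _ (X (D.α s)) hb)
    have r5 : X (D.α s) * (rename D.α K) - -∑ l ∈ range 5, lin (D.a l) * rename D.α (h l) -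
        X (D.α s) * (rename D.α K - K - ∑ l ∈ range 5, lin (D.a l) * b l) =
        X (D.α s) * K - ∑ l ∈ range 5, lin (D.a l) *
          (- rename D.α (h l) - X (D.α s) * b l) := by
      have r6 : ∑ l ∈ range 5, lin (D.a l) * (- rename D.α (h l) - X (D.α s) * b l) =
          -(∑ l ∈ range 5, lin (D.a l) * rename D.α (h l)) -
            X (D.α s) * ∑ l ∈ range 5, lin (D.a l) * b l := by
        rw [Finset.mul_sum, ← Finset.sum_neg_distrib, ← Finset.sum_sub_distrib]
        refine Finset.sum_congr rfl fun l _ => ?_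
        ring
      rw [r6]
      ring
    rw [← r5]
    exact r4
  have e2 : D.T m (X (D.α s) * K * D.XH H) = - D.ph H (h m) - D.ph (H.erase s) (b m) := by
    rw [h4.1 _ (fun l => - rename D.α (h l) - X (D.α s) * b l) r3 m hm, mul_comm,
      hC.xh_dg H hH, map_sub, map_neg, (h2 H hH).1,
      ((h1.1 H hH.1 s hsVP (b m)).1 hs).2]
  have e3 : D.z s * D.XH H * K = X s * K * D.XH H - X (D.α s) * K * D.XH H := by
    unfold Dat.z
    ring
  rw [e3, map_sub, e1, e2]
  ring

end IMI4

open IMI4 in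
theorem pr_MI4 {V : Type} [Fintype V] [DecidableEq V] {R : Type} [CommRing R] [IsDomain R]
    (D : Dat V R) (hC : Ctx D) (h1 : StPhX D) (h2 : StPhA D) (h3 : StP1 D) (h4 : StTx D) :
    StMI4 D := by
  intro x ν hx s hs b hb m hm
  -- `X s * K` is in the ideal
  have hXK : X s * D.KK (xr s x) ∈ D.J := by
    unfold Dat.KK
    rw [Finset.mul_sum]
    refine Ideal.sum_mem _ fun G hG => ?_
    unfold xr
    by_cases hsG : s ∈ G
    · rw [if_pos hsG, C_0, zero_mul, mul_zero]
      exact Ideal.zero_mem _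
    · have hG' := Finset.mem_filter.1 hG
      have hcard := (Finset.mem_powersetCard.1 hG'.1).2
      have hne : G.Nonempty := Finset.card_pos.1 (by omega)
      have h5 := ((h3 G hG'.2 hne).2.1 s hs hsG).1
      have h6 : X s * (C (if s ∈ G then 0 else x G) * D.XH G) =
          C (if s ∈ G then 0 else x G) * (X s * D.XH G) := by ring
      rw [h6]
      exact Ideal.mul_mem_left _ _ h5
  obtain ⟨h, hh⟩ := (mem_J_iff 5 _).1 hXK
  refine ⟨∑ H ∈ D.FS 2, xs s ν H * D.ph H (h m), ?_⟩
  have e1 : D.T m (D.z s * D.NN (xs s ν) * D.KK (xr s x)) =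
      ∑ H ∈ D.FS 2, xs s ν H * (D.ph (H.erase s) (b m) + 2 * D.ph H (h m)) := by
    have e2 : D.z s * D.NN (xs s ν) * D.KK (xr s x) =
        ∑ H ∈ D.FS 2, xs s ν H • (D.z s * D.XH H * D.KK (xr s x)) := by
      unfold Dat.NN
      rw [Finset.mul_sum, Finset.sum_mul]
      refine Finset.sum_congr rfl fun H _ => ?_
      rw [smul_eq_C_mul]
      ring
    rw [e2, map_sum]
    refine Finset.sum_congr rfl fun H hH => ?_
    rw [map_smul, smul_eq_mul]
    by_cases hsH : s ∈ H
    · rw [pair D hC h1 h2 h4 (D.KK (xr s x)) s h b hh hb m hm H (Finset.mem_filter.1 hH).2 hsH]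
    · unfold xs
      rw [if_neg hsH, zero_mul, zero_mul]
  have e3 : ∑ H ∈ D.FS 2, xs s ν H * D.ph (H.erase s) (b m) =
      ∑ q ∈ (D.VP.erase s).filter (fun q => ({s, q} : Finset V) ∈ D.FS 2),
        ν {s, q} * D.ph {q} (b m) := by
    symm
    have e4 : ∑ H ∈ D.FS 2, xs s ν H * D.ph (H.erase s) (b m) =
        ∑ H ∈ (D.FS 2).filter (fun H => s ∈ H), ν H * D.ph (H.erase s) (b m) := by
      rw [Finset.sum_filter]
      refine Finset.sum_congr rfl fun H _ => ?_
      unfold xs
      by_cases hsH : s ∈ H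
      · rw [if_pos hsH, if_pos hsH]
      · rw [if_neg hsH, if_neg hsH, zero_mul]
    rw [e4]
    refine Finset.sum_bij (fun q _ => ({s, q} : Finset V)) ?_ ?_ ?_ ?_
    · intro q hq
      rw [Finset.mem_filter] at hq
      rw [Finset.mem_filter]
      exact ⟨hq.2, Finset.mem_insert_self _ _⟩
    · intro q hq q' hq' hqq
      have hq1 := (Finset.mem_erase.1 (Finset.mem_filter.1 hq).1).1
      have h7 : q ∈ ({s, q'} : Finset V) := hqq ▸ (Finset.mem_insert_of_mem (Finset.mem_singleton_self q))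
      rcases Finset.mem_insert.1 h7 with h8 | h8
      · exact absurd h8 hq1
      · exact Finset.mem_singleton.1 h8
    · intro H hH
      rw [Finset.mem_filter] at hH
      obtain ⟨hH, hsH⟩ := hH
      have hH' := Finset.mem_filter.1 hH
      obtain ⟨hsub, hcard⟩ := Finset.mem_powersetCard.1 hH'.1
      have h8 : (H.erase s).card = 1 := by
        rw [Finset.card_erase_of_mem hsH, hcard]
      obtain ⟨q, hq⟩ := Finset.card_eq_one.1 h8
      have h9 : ({s, q} : Finset V) = H := by
        rw [← Finset.insert_erase hsH, hq]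
      have h10 : q ∈ H.erase s := by rw [hq]; exact Finset.mem_singleton_self q
      refine ⟨q, ?_, h9⟩
      rw [Finset.mem_filter, Finset.mem_erase]
      refine ⟨⟨Finset.ne_of_mem_erase h10, hsub (Finset.mem_of_mem_erase h10)⟩, ?_⟩
      rw [h9]
      exact hH
    · intro q hq
      have hq1 := (Finset.mem_erase.1 (Finset.mem_filter.1 hq).1).1
      have h11 : ({s, q} : Finset V).erase s = {q} := by
        rw [Finset.erase_insert]
        rw [Finset.mem_singleton]
        exact fun h => hq1 h.symm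
      rw [h11]
  rw [e1, ← e3, Finset.mul_sum, ← Finset.sum_add_distrib]
  refine Finset.sum_congr rfl fun H _ => ?_
  ring

end CSLef.D5
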