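import Mathlib
import Pool.Agent.Work.MP_38c61c_al.D5.Stmts

/-!
Block D5, item MI5.
-/

set_option autoImplicit false

namespace CSLef.D5

open MvPolynomial Finset

namespace IMI5

variable {V : Type} [Fintype V] [DecidableEq V] {R : Type} [CommRing R]

theorem expd (D : Dat V R) (x ν : Finset V → R) (s : V) (m : ℕ) :
    D.T m (D.z s * D.NN ν * D.KK x) =
      ∑ G ∈ D.FS 3, ∑ H ∈ D.FS 2, x G * ν H * D.T m (D.z s * D.XH G * D.XH H) := by
  unfold Dat.KK Dat.NN
  rw [Finset.mul_sum, map_sum]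
  refine Finset.sum_congr rfl fun G _ => ?_
  have h1 : D.z s * (∑ H ∈ D.FS 2, C (ν H) * D.XH H) * (C (x G) * D.XH G) =
      ∑ H ∈ D.FS 2, (x G * ν H) • (D.z s * D.XH G * D.XH H) := by
    rw [Finset.mul_sum, Finset.sum_mul]
    refine Finset.sum_congr rfl fun H _ => ?_
    rw [MvPolynomial.smul_eq_C_mul, map_mul]
    ring
  rw [h1, map_sum]
  refine Finset.sum_congr rfl fun H _ => ?_
  rw [map_smul, smul_eq_mul]

theorem mem_FS (D : Dat V R) {k : ℕ} {G : Finset V} (h : G ∈ D.FS k) : D.Full G ∧ G.card = k := by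
  unfold Dat.FS at h
  rw [Finset.mem_filter, Finset.mem_powersetCard] at h
  exact ⟨h.2, h.1.2⟩

end IMI5

open IMI5

/-- item MI5 -/
theorem pr_MI5 {V : Type} [Fintype V] [DecidableEq V] {R : Type} [CommRing R] [IsDomain R]
    (D : Dat V R) (_hC : Ctx D) (h1 : StNonT D) (h2 : StDisT D) : StMI5 D := by
  intro x ν s hs m hm
  constructor
  · rw [expd]
    refine Finset.sum_eq_zero fun G hG => Finset.sum_eq_zero fun H hH => ?_
    obtain ⟨hG1, hG2⟩ := mem_FS D hG
    obtain ⟨hH1, hH2⟩ := mem_FS D hH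
    unfold xs
    by_cases hsG : s ∈ G
    · by_cases hsH : s ∈ H
      · rw [h1 G H hG1 hH1 (by omega) ⟨s, Finset.mem_inter.2 ⟨hsG, hsH⟩⟩ s hs m hm, mul_zero]
      · rw [if_neg hsH, mul_zero, zero_mul]
    · rw [if_neg hsG, zero_mul, zero_mul]
  · rw [expd]
    refine Finset.sum_eq_zero fun G hG => Finset.sum_eq_zero fun H hH => ?_
    obtain ⟨hG1, hG2⟩ := mem_FS D hG
    obtain ⟨hH1, hH2⟩ := mem_FS D hH
    unfold xr
    by_cases hsG : s ∈ G
    · rw [if_pos hsG, zero_mul, zero_mul]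
    · by_cases hsH : s ∈ H
      · rw [if_pos hsH, mul_zero, zero_mul]
      · have h3 : D.T m (D.z s * D.XH G * D.XH H) = 0 := by
          by_cases hd : Disjoint G H
          · refine h2 G H hG1 hH1 (Finset.card_pos.1 (by omega)) (Finset.card_pos.1 (by omega))
              (by omega) hd s hs ?_ m hm
            rw [Finset.mem_union]
            rintro (h | h)
            · exact hsG h
            · exact hsH h
          · exact h1 G H hG1 hH1 (by omega) (Finset.not_disjoint_iff_nonempty_inter.1 hd) s hs m hm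
        rw [h3, mul_zero]

end CSLef.D5
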