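import Mathlib
import Pool.Agent.Work.MP_38c61c_al.D5.Stmts

/-!
Block D5, item NonT: the derived values of the duals of meeting full sets vanish.
-/

namespace CSLef.D5

open MvPolynomial Finset

theorem pr_NonT {V : Type} [Fintype V] [DecidableEq V] {R : Type} [CommRing R] [IsDomain R]
    (D : Dat V R) (hC : Ctx D) (h1 : StPhA D) (h2 : StNon D) (h3 : StDer D) : StNonT D := by
  intro G H hG hH hcard hne v hv m hm
  obtain ⟨δ, hδ, _, _⟩ := hC.der m hm v hv
  have h0 : D.dg (D.XH G * D.XH H) = 0 := h2 G H hG hH hcard hne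
  have h0' : D.dg (D.XH H * D.XH G) = 0 := by
    rw [mul_comm]
    exact h0
  have hhom : (D.XH G * D.XH H).IsHomogeneous 5 := by
    have := (hC.xh_hom G hG).mul (hC.xh_hom H hH)
    have e : 5 - G.card + (5 - H.card) = 5 := by omega
    rwa [e] at this
  have hd := h3 m hm v hv δ hδ (D.XH G * D.XH H) hhom
  have hL : D.dg (dmap δ (D.XH G * D.XH H)) = 0 := by
    rw [dmap_mul, map_add]
    have e1 : D.dg (dmap δ (D.XH G) * D.XH H) = 0 := by
      rw [mul_comm, hC.xh_dg H hH, (h1 H hH).2.2.1 δ, ← hC.xh_dg H hH, h0', map_zero]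
    have e2 : D.dg (D.XH G * dmap δ (D.XH H)) = 0 := by
      rw [hC.xh_dg G hG, (h1 G hG).2.2.1 δ, ← hC.xh_dg G hG, h0, map_zero]
    rw [e1, e2, add_zero]
  rw [hL, h0, map_zero, mul_zero, sub_zero, zero_add] at hd
  rw [mul_assoc]
  exact hd.symm

end CSLef.D5
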