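import Mathlib
import Pool.Agent.Work.MP_38c61c_al.D5.Stmts2

/-! Item Pe of block D5: permutations and repetitions of the columns. -/

namespace CSLef.D5

open MvPolynomial Finset

theorem pr_Pe {V : Type} [Fintype V] [DecidableEq V] {R : Type} [CommRing R] [IsDomain R]
    (D : Dat V R) : StPe D := by
  refine ⟨fun c' p => ?_, fun c' hc => ?_⟩
  · have h : D.dt (c' ∘ p) = ((Equiv.Perm.sign p : ℤˣ) : ℤ) * D.dt c' := by
      unfold Dat.dt
      exact Matrix.det_permute p (fun i l : Fin 5 => D.a l (c' i))
    rcases Int.units_eq_one_or (Equiv.Perm.sign p) with h1 | h1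
    · left; rw [h, h1]; simp
    · right; rw [h, h1]; simp
  · unfold Function.Injective at hc
    push Not at hc
    obtain ⟨i, j, hij, hne⟩ := hc
    unfold Dat.dt
    exact Matrix.det_zero_of_row_eq hne (by funext l; simp only [hij])

end CSLef.D5
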