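import Mathlib
import Pool.Agent.Work.MP_38c61c_al.D5.Stmts

/-!
Block D5, item Ph: the functional `φ_H` kills the Stanley-Reisner ideal, the multiples of `z_v` and
the ideal `J`.
-/

set_option autoImplicit false

namespace CSLef.D5

open MvPolynomial Finset

namespace IPh

variable {V : Type} [Fintype V] [DecidableEq V] {R : Type} [CommRing R]

omit [Fintype V] in
theorem ex_apply (S : Finset V) (v : V) : ex S v = if v ∈ S then 1 else 0 := by
  unfold ex
  rw [Finsupp.finsetSum_apply]
  simp only [Finsupp.single_apply]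
  exact Finset.sum_ite_eq' S v fun _ => 1

omit [Fintype V] in
theorem ex_support (S : Finset V) : (ex S).support = S := by
  ext v
  rw [Finsupp.mem_support_iff, ex_apply]
  by_cases h : v ∈ S <;> simp [h]

theorem ph_apply (D : Dat V R) (H : Finset V) (f : MvPolynomial V R) :
    D.ph H f = ∑ T ∈ H.powerset, coeff (ex (flip D.α H T)) f := by
  unfold Dat.ph
  rw [LinearMap.sum_apply]
  rfl

theorem ph_sr {D : Dat V R} (hdown : ∀ F ∈ D.Δ, ∀ G, G ⊆ F → G ∈ D.Δ) {H : Finset V}
    (hH : D.Full H) {f : MvPolynomial V R} (hf : f ∈ srIdeal R D.Δ) : D.ph H f = 0 := by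
  rw [ph_apply]
  refine Finset.sum_eq_zero fun T hT => ?_
  by_contra hne
  refine (mem_sr_iff hdown f).1 hf _ hne ?_
  rw [ex_support]
  exact hH.2 T hT

end IPh

open IPh in
/-- Ph. -/
theorem pr_Ph {V : Type} [Fintype V] [DecidableEq V] {R : Type} [CommRing R] [IsDomain R]
    (D : Dat V R) (hC : Ctx D) (h1 : StPhX D) : StPh D := by
  intro H hH
  have hz1 : ∀ v ∈ D.VP, ∀ f : MvPolynomial V R, D.ph H (D.z v * f) = 0 := by
    intro v hv f
    obtain ⟨h2, h3⟩ := h1.1 H hH.1 v hv f
    have e : D.z v * f = X v * f - X (D.α v) * f := by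
      unfold Dat.z
      ring
    rw [e, map_sub]
    by_cases hvH : v ∈ H
    · rw [(h2 hvH).1, (h2 hvH).2, sub_self]
    · rw [(h3 hvH).1, (h3 hvH).2, sub_self]
  have hz : ∀ v, ∀ f : MvPolynomial V R, D.ph H (D.z v * f) = 0 := by
    intro v f
    by_cases hv : v ∈ D.VP
    · exact hz1 v hv f
    · have h4 : D.α v ∈ D.VP := by
        rw [hC.vp (D.α v), hC.cs.invol]
        exact hv
      have e : D.z v * f = -(D.z (D.α v) * f) := by
        unfold Dat.z
        rw [hC.cs.invol]
        ring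
      rw [e, map_neg, hz1 _ h4, neg_zero]
  refine ⟨fun f hf => ph_sr hC.hs.down hH hf, hz, ?_⟩
  intro f hf
  obtain ⟨g, hg⟩ := (mem_J_iff 5 f).1 hf
  have e1 : f = (f - ∑ l ∈ range 5, lin (D.a l) * g l) + ∑ l ∈ range 5, lin (D.a l) * g l := by
    ring
  rw [e1, map_add, ph_sr hC.hs.down hH hg, zero_add, map_sum]
  refine Finset.sum_eq_zero fun l _ => ?_
  rw [lin_eq_VP hC.cs.invol hC.vp (hC.anti l), Finset.sum_mul, map_sum]
  refine Finset.sum_eq_zero fun v _ => ?_
  have e2 : C (D.a l v) * (X v - X (D.α v)) * g l = D.z v * (C (D.a l v) * g l) := by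
    unfold Dat.z
    ring
  rw [e2]
  exact hz v _

end CSLef.D5
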