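import Mathlib
import Pool.Agent.Work.MP_38c61c_al.D5.Stmts2

/-!
Block D5, item PhW: values of `φ_H` on products of the `W_l`.
-/

namespace CSLef.D5

open MvPolynomial Finset

namespace IPhW

variable {V : Type} [Fintype V] [DecidableEq V] {R : Type} [CommRing R]

theorem mulW (D : Dat V R) (h1 : StPhX D) (H : Finset V) (hH : H ⊆ D.VP) (l : ℕ)
    (f : MvPolynomial V R) :
    D.ph H (D.W l * f) = ∑ p ∈ H, D.a l p * D.ph (H.erase p) f := by
  have e1 : D.W l * f = ∑ v ∈ D.VP, D.a l v • (X v * f) := by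
    unfold Dat.W
    rw [Finset.sum_mul]
    refine Finset.sum_congr rfl fun v _ => ?_
    rw [smul_eq_C_mul, mul_assoc]
  rw [e1, map_sum]
  have e2 : ∑ v ∈ D.VP, D.ph H (D.a l v • (X v * f)) =
      ∑ v ∈ H, D.ph H (D.a l v • (X v * f)) := by
    symm
    refine Finset.sum_subset hH fun v hv hvH => ?_
    rw [map_smul, ((h1.1 H hH v hv f).2 hvH).1, smul_zero]
  rw [e2]
  refine Finset.sum_congr rfl fun v hv => ?_
  rw [map_smul, ((h1.1 H hH v (hH hv) f).1 hv).1, smul_eq_mul]

theorem ph_empty (D : Dat V R) : D.ph ∅ (1 : MvPolynomial V R) = 1 := by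
  unfold Dat.ph
  rw [Finset.powerset_empty, Finset.sum_singleton]
  have e1 : flip D.α (∅ : Finset V) ∅ = ∅ := by
    unfold flip
    simp
  rw [e1]
  unfold ex
  rw [Finset.sum_empty, lcoeff_apply, coeff_zero_one]

theorem one (D : Dat V R) (h1 : StPhX D) (q : V) (hq : q ∈ D.VP) (i : ℕ) :
    D.ph {q} (D.W i) = D.a i q := by
  have h := mulW D h1 {q} (Finset.singleton_subset_iff.2 hq) i 1
  rw [mul_one] at h
  rw [h, Finset.sum_singleton]
  have e1 : ({q} : Finset V).erase q = ∅ := by simp
  rw [e1, ph_empty, mul_one]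

theorem two (D : Dat V R) (h1 : StPhX D) (q r : V) (hq : q ∈ D.VP) (hr : r ∈ D.VP)
    (hqr : q ≠ r) (j k : ℕ) :
    D.ph {q, r} (D.W j * D.W k) = D.a j q * D.a k r + D.a j r * D.a k q := by
  rw [mulW D h1 {q, r} (Finset.insert_subset hq (Finset.singleton_subset_iff.2 hr)) j (D.W k),
    Finset.sum_pair hqr]
  have e1 : ({q, r} : Finset V).erase q = {r} := by
    rw [Finset.erase_insert]
    rwa [Finset.mem_singleton]
  have e2 : ({q, r} : Finset V).erase r = {q} := by
    rw [Finset.pair_comm, Finset.erase_insert]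
    rw [Finset.mem_singleton]
    exact hqr.symm
  rw [e1, e2, one D h1 r hr k, one D h1 q hq k]

end IPhW

open IPhW in
theorem pr_PhW {V : Type} [Fintype V] [DecidableEq V] {R : Type} [CommRing R] [IsDomain R]
    (D : Dat V R) (h1 : StPhX D) : StPhW D := by
  refine ⟨fun H hH l f => mulW D h1 H hH l f, ph_empty D, fun q hq i => one D h1 q hq i, ?_, ?_⟩
  · intro q hq r hr hqr I hI
    obtain ⟨i, j, hij, rfl⟩ := Finset.card_eq_two.1 hI
    rw [Finset.prod_pair hij, two D h1 q r hq hr hqr i j]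
    unfold p2
    rw [Finset.sum_pair hij]
    have e1 : ({i, j} : Finset ℕ).erase i = {j} := by
      rw [Finset.erase_insert]
      rwa [Finset.mem_singleton]
    have e2 : ({i, j} : Finset ℕ).erase j = {i} := by
      rw [Finset.pair_comm, Finset.erase_insert]
      rw [Finset.mem_singleton]
      exact hij.symm
    rw [e1, e2, Finset.sum_singleton, Finset.sum_singleton]
    ring
  · intro g1 hg1 g2 hg2 g3 hg3 h12 h13 h23 i j k
    have hsub : ({g1, g2, g3} : Finset V) ⊆ D.VP :=
      Finset.insert_subset hg1 (Finset.insert_subset hg2 (Finset.singleton_subset_iff.2 hg3))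
    rw [mul_assoc, mulW D h1 {g1, g2, g3} hsub i (D.W j * D.W k)]
    have n1 : g1 ∉ ({g2, g3} : Finset V) := by
      simp [h12, h13]
    have e1 : ({g1, g2, g3} : Finset V).erase g1 = {g2, g3} := Finset.erase_insert n1
    have e2 : ({g1, g2, g3} : Finset V).erase g2 = {g1, g3} := by
      rw [Finset.insert_comm, Finset.erase_insert]
      simp [h12.symm, h23]
    have e3 : ({g1, g2, g3} : Finset V).erase g3 = {g1, g2} := by
      have : ({g1, g2, g3} : Finset V) = {g3, g1, g2} := by
        rw [Finset.pair_comm g2 g3, Finset.insert_comm]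
      rw [this, Finset.erase_insert]
      simp [h13.symm, h23.symm]
    rw [Finset.sum_insert n1, Finset.sum_pair h23, e1, e2, e3,
      two D h1 g2 g3 hg2 hg3 h23 j k, two D h1 g1 g3 hg1 hg3 h13 j k,
      two D h1 g1 g2 hg1 hg2 h12 j k]
    ring

end CSLef.D5
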