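import Mathlib
import Pool.Agent.Work.MP_38c61c_al.D5.Stmts

/-!
Block D5, item Star: the main congruence.
-/

set_option autoImplicit false

namespace CSLef.D5

open MvPolynomial Finset

variable {V : Type} [Fintype V] [DecidableEq V] {R : Type} [CommRing R] [IsDomain R]

namespace IStar

theorem ren_K {D : Dat V R} (h0 : StP1 D) (x : Finset V → R) :
    rename D.α (D.KK x) - D.KK x ∈ D.J := by
  have e : rename D.α (D.KK x) - D.KK x =
      ∑ G ∈ D.FS 3, C (x G) * (rename D.α (D.XH G) - D.XH G) := by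
    unfold Dat.KK
    rw [map_sum, ← Finset.sum_sub_distrib]
    refine Finset.sum_congr rfl fun G _ => ?_
    rw [map_mul, rename_C, mul_sub]
  rw [e]
  refine Submodule.sum_mem _ fun G hG => Ideal.mul_mem_left _ _ ?_
  obtain ⟨h1, h2⟩ := Finset.mem_filter.1 hG
  have hne : G.Nonempty := by
    rw [← Finset.card_pos, (Finset.mem_powersetCard.1 h1).2]
    norm_num
  exact (h0 G h2 hne).2.2.2

end IStar

theorem pr_Star {V : Type} [Fintype V] [DecidableEq V] {R : Type} [CommRing R] [IsDomain R]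
    (D : Dat V R) (hC : Ctx D) (h0 : StP1 D) (h1 : StMI0 D) (h2 : StMI2 D) (h3 : StMI3 D)
    (h4 : StMI4 D) (h5 : StMI5 D) : StStar D := by
  intro x ν hx hν hdiv s hs b hb m hm
  obtain ⟨-, -, hs3⟩ := h1 x ν hx hν
  obtain ⟨hK, hN, -, -, hXr, -, -, -⟩ := hs3 s hs
  obtain ⟨br, hbr⟩ := (mem_J_iff 5 _).1 (IStar.ren_K h0 (xr s x))
  obtain ⟨ρ, hρ⟩ := h4 x ν hx s hs br hbr m hm
  obtain ⟨g1, g2⟩ := h5 x ν s hs m hm
  have g3 := h3 x ν hx hν s hs m hm
  have hb' : rename D.α (D.KK x) - D.KK x -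
      ∑ l ∈ range 5, lin (D.a l) * (b l + br l) ∈ srIdeal R D.Δ := by
    have e : rename D.α (D.KK x) - D.KK x - ∑ l ∈ range 5, lin (D.a l) * (b l + br l) =
        (rename D.α (D.KK (xs s x)) - D.KK (xs s x) - ∑ l ∈ range 5, lin (D.a l) * b l) +
        (rename D.α (D.KK (xr s x)) - D.KK (xr s x) - ∑ l ∈ range 5, lin (D.a l) * br l) := by
      rw [hK, map_add]
      simp only [mul_add, Finset.sum_add_distrib]
      ring
    rw [e]
    exact Ideal.add_mem _ hb hbr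
  have g4 := h2 x ν hx hν (fun l => b l + br l) hb' s hs m hm
  obtain ⟨c, hc⟩ := hdiv s m hm
  have g5 : D.T m (D.z s * D.NN ν * D.KK x) = D.T m (D.z s * D.NN (xs s ν) * D.KK (xr s x)) +
      D.T m (D.z s * D.NN (xr s ν) * D.KK (xs s x)) := by
    rw [hK, hN, show D.z s * (D.NN (xs s ν) + D.NN (xr s ν)) * (D.KK (xs s x) + D.KK (xr s x)) =
      D.z s * D.NN (xs s ν) * D.KK (xs s x) + D.z s * D.NN (xs s ν) * D.KK (xr s x) +
      (D.z s * D.NN (xr s ν) * D.KK (xs s x) + D.z s * D.NN (xr s ν) * D.KK (xr s x)) by ring,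
      map_add, map_add, map_add, g1, g2]
    ring
  have g6 : D.dg (X s * D.KK x ^ 2) = D.dg (X s * D.KK (xs s x) ^ 2) := by
    rw [hK, show X s * (D.KK (xs s x) + D.KK (xr s x)) ^ 2 = X s * D.KK (xs s x) ^ 2 +
      X s * D.KK (xr s x) * (2 * D.KK (xs s x) + D.KK (xr s x)) by ring, map_add,
      hC.dgJ _ (Ideal.mul_mem_right _ _ hXr), add_zero]
  have g7 : ∑ q ∈ (D.VP.erase s).filter (fun q => ({s, q} : Finset V) ∈ D.FS 2),
      ν {s, q} * D.ph {q} (b m + br m) =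
      ∑ q ∈ (D.VP.erase s).filter (fun q => ({s, q} : Finset V) ∈ D.FS 2),
      ν {s, q} * D.ph {q} (b m) +
      ∑ q ∈ (D.VP.erase s).filter (fun q => ({s, q} : Finset V) ∈ D.FS 2),
      ν {s, q} * D.ph {q} (br m) := by
    rw [← Finset.sum_add_distrib]
    refine Finset.sum_congr rfl fun q _ => ?_
    rw [map_add, mul_add]
  rw [g5, g6, hc] at g4
  have g4' : 2 * (4 * c) =
      -(2 * (D.T m (D.z s * D.NN (xs s ν) * D.KK (xr s x)) +
        D.T m (D.z s * D.NN (xr s ν) * D.KK (xs s x)))) +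
      4 * (∑ q ∈ (D.VP.erase s).filter (fun q => ({s, q} : Finset V) ∈ D.FS 2),
        ν {s, q} * D.ph {q} (b m) +
        ∑ q ∈ (D.VP.erase s).filter (fun q => ({s, q} : Finset V) ∈ D.FS 2),
        ν {s, q} * D.ph {q} (br m)) +
      D.μ m * D.dg (X s * D.KK (xs s x) ^ 2) := by
    rw [← g7]
    exact g4
  refine ⟨c + ρ, ?_⟩
  linear_combination (-1 : R) * g4' - g3 + 4 * hρ

end CSLef.D5
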