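import Mathlib
import Pool.Agent.Work.MP_38c61c_al.D5.Stmts2

/-!
Block D5, item SumW: the sum over the pairs of rows is the determinant modulo 2.
-/

namespace CSLef.D5

open MvPolynomial Finset

namespace ISumW

variable {V : Type} [Fintype V] [DecidableEq V] {R : Type} [CommRing R] [IsDomain R]

lemma p2_pair (D : Dat V R) (q r : V) {i j : ℕ} (h : i ≠ j) :
    p2 D q r {i, j} = pm2 D.a q r i j := by
  have h1 : ({i, j} : Finset ℕ).erase i = {j} := by
    ext x
    simp only [Finset.mem_erase, Finset.mem_insert, Finset.mem_singleton]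
    constructor
    · rintro ⟨hx, hx'⟩
      exact hx'.resolve_left hx
    · rintro rfl
      exact ⟨h.symm, Or.inr rfl⟩
  have h2 : ({i, j} : Finset ℕ).erase j = {i} := by
    ext x
    simp only [Finset.mem_erase, Finset.mem_insert, Finset.mem_singleton]
    constructor
    · rintro ⟨hx, hx'⟩
      exact hx'.resolve_right hx
    · rintro rfl
      exact ⟨h, Or.inl rfl⟩
  unfold p2 pm2
  rw [Finset.sum_pair h, h1, h2, Finset.sum_singleton, Finset.sum_singleton]
  ring

lemma term (D : Dat V R) (h1 : StPhW D) {g1 g2 g3 : V} (hg1 : g1 ∈ D.VP) (hg2 : g2 ∈ D.VP)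
    (hg3 : g3 ∈ D.VP) (h12 : g1 ≠ g2) (h13 : g1 ≠ g3) (h23 : g2 ≠ g3) {i j k : ℕ} {T : Finset ℕ}
    (hT : T = {i, j, k}) (hij : i ≠ j) (hik : i ≠ k) (hjk : j ≠ k) :
    D.ph {g1, g2, g3} (∏ l ∈ T, D.W l) = pm3 D.a g1 g2 g3 i j k := by
  have e : ∏ l ∈ T, D.W l = D.W i * D.W j * D.W k := by
    rw [hT, Finset.prod_insert (by simp [hij, hik]), Finset.prod_pair hjk]
    ring
  rw [e]
  exact h1.2.2.2.2 g1 hg1 g2 hg2 g3 hg3 h12 h13 h23 i j k

lemma pairs : (range 5).powersetCard 2 =
    ({{0, 1}, {0, 2}, {0, 3}, {0, 4}, {1, 2}, {1, 3}, {1, 4}, {2, 3}, {2, 4}, {3, 4}} :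
      Finset (Finset ℕ)) := by
  decide

lemma sum_pairs (f : Finset ℕ → R) : ∑ I ∈ (range 5).powersetCard 2, f I =
    f {0, 1} + f {0, 2} + f {0, 3} + f {0, 4} + f {1, 2} + f {1, 3} + f {1, 4} + f {2, 3} +
      f {2, 4} + f {3, 4} := by
  rw [pairs, Finset.sum_insert (by decide), Finset.sum_insert (by decide),
    Finset.sum_insert (by decide), Finset.sum_insert (by decide), Finset.sum_insert (by decide),
    Finset.sum_insert (by decide), Finset.sum_insert (by decide), Finset.sum_insert (by decide),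
    Finset.sum_insert (by decide), Finset.sum_singleton]
  ring

end ISumW

theorem pr_SumW {V : Type} [Fintype V] [DecidableEq V] {R : Type} [CommRing R] [IsDomain R]
    (D : Dat V R) (h1 : StPhW D) (h2 : StLap) : StSumW D := by
  intro g1 hg1 g2 hg2 g3 hg3 h12 h13 h23 q r
  have key := h2 D.a g1 g2 g3 q r
  have t := fun {i j k : ℕ} {T : Finset ℕ} (hT : T = {i, j, k}) (hij : i ≠ j) (hik : i ≠ k)
    (hjk : j ≠ k) => ISumW.term D h1 hg1 hg2 hg3 h12 h13 h23 hT hij hik hjk
  rw [ISumW.sum_pairs]
  rw [t (i := 2) (j := 3) (k := 4) (T := range 5 \ {0, 1}) (by decide) (by decide) (by decide)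
      (by decide),
    t (i := 1) (j := 3) (k := 4) (T := range 5 \ {0, 2}) (by decide) (by decide) (by decide)
      (by decide),
    t (i := 1) (j := 2) (k := 4) (T := range 5 \ {0, 3}) (by decide) (by decide) (by decide)
      (by decide),
    t (i := 1) (j := 2) (k := 3) (T := range 5 \ {0, 4}) (by decide) (by decide) (by decide)
      (by decide),
    t (i := 0) (j := 3) (k := 4) (T := range 5 \ {1, 2}) (by decide) (by decide) (by decide)
      (by decide),
    t (i := 0) (j := 2) (k := 4) (T := range 5 \ {1, 3}) (by decide) (by decide) (by decide)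
      (by decide),
    t (i := 0) (j := 2) (k := 3) (T := range 5 \ {1, 4}) (by decide) (by decide) (by decide)
      (by decide),
    t (i := 0) (j := 1) (k := 4) (T := range 5 \ {2, 3}) (by decide) (by decide) (by decide)
      (by decide),
    t (i := 0) (j := 1) (k := 3) (T := range 5 \ {2, 4}) (by decide) (by decide) (by decide)
      (by decide),
    t (i := 0) (j := 1) (k := 2) (T := range 5 \ {3, 4}) (by decide) (by decide) (by decide)
      (by decide),
    ISumW.p2_pair D q r (i := 0) (j := 1) (by decide),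
    ISumW.p2_pair D q r (i := 0) (j := 2) (by decide),
    ISumW.p2_pair D q r (i := 0) (j := 3) (by decide),
    ISumW.p2_pair D q r (i := 0) (j := 4) (by decide),
    ISumW.p2_pair D q r (i := 1) (j := 2) (by decide),
    ISumW.p2_pair D q r (i := 1) (j := 3) (by decide),
    ISumW.p2_pair D q r (i := 1) (j := 4) (by decide),
    ISumW.p2_pair D q r (i := 2) (j := 3) (by decide),
    ISumW.p2_pair D q r (i := 2) (j := 4) (by decide),
    ISumW.p2_pair D q r (i := 3) (j := 4) (by decide)]
  exact key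

end CSLef.D5
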