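import Mathlib
import Pool.Agent.Work.MP_38c61c_al.D5.Stmts2

/-!
Block D5, item TA2: the determinants from the expansions of the anti-invariant parts.
-/

namespace CSLef.D5

open MvPolynomial Finset

namespace ITA2

variable {V : Type} [Fintype V] [DecidableEq V] {R : Type} [CommRing R]

/-- the value of `p2` on a pair -/
theorem p2_pair (D : Dat V R) (q r : V) {i j : ℕ} (hij : i ≠ j) :
    p2 D q r {i, j} = D.a i r * D.a j q + D.a j r * D.a i q := by
  unfold p2
  have e1 : ({i, j} : Finset ℕ).erase i = {j} := by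
    rw [Finset.erase_insert]
    simpa using hij
  have e2 : ({i, j} : Finset ℕ).erase j = {i} := by
    rw [Finset.pair_comm, Finset.erase_insert]
    simpa using hij.symm
  rw [Finset.sum_pair hij, e1, e2, Finset.sum_singleton, Finset.sum_singleton]

variable [IsDomain R]

omit [IsDomain R] in
/-- the expansion of `αW_I - W_I` for a pair `I` -/
theorem pair_exp (D : Dat V R) (h1 : StPh D) (h3 : StPhW D) (h4 : StWa D) {q : V}
    (hq : D.Full {q}) (r : V) {I : Finset ℕ} (hI : I ∈ (range 5).powersetCard 2) :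
    ∃ c : ℕ → MvPolynomial V R,
      rename D.α (∏ i ∈ I, D.W i) - ∏ i ∈ I, D.W i = ∑ l ∈ range 5, lin (D.a l) * c l ∧
      ∑ l ∈ range 5, D.a l r * D.ph {q} (c l) = - p2 D q r I := by
  obtain ⟨hI5, hcard⟩ := Finset.mem_powersetCard.mp hI
  obtain ⟨i, j, hij, rfl⟩ := Finset.card_eq_two.mp hcard
  have hi : i ∈ range 5 := hI5 (by simp)
  have hj : j ∈ range 5 := hI5 (by simp)
  have hqV : q ∈ D.VP := hq.1 (Finset.mem_singleton_self q)
  refine ⟨fun l => (if l = i then - D.W j else 0) +
    (if l = j then - D.W i + lin (D.a i) else 0), ?_, ?_⟩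
  · rw [Finset.prod_pair hij, map_mul, h4.1, h4.1]
    simp only [mul_add, mul_ite, mul_zero]
    rw [Finset.sum_add_distrib, Finset.sum_ite_eq', Finset.sum_ite_eq', if_pos hi, if_pos hj]
    ring
  · have hW : ∀ l, D.ph {q} (D.W l) = D.a l q := fun l => h3.2.2.1 q hqV l
    have hΘ : D.ph {q} (lin (D.a i)) = 0 :=
      (h1 {q} hq).2.2 _ (lin_mem_J (Finset.mem_range.mp hi))
    have e : ∀ l ∈ range 5, D.a l r * D.ph {q} ((if l = i then - D.W j else 0) +
        (if l = j then - D.W i + lin (D.a i) else 0)) =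
        (if l = i then - (D.a l r * D.a j q) else 0) +
        (if l = j then - (D.a l r * D.a i q) else 0) := by
      intro l _
      rw [map_add, apply_ite (D.ph {q}), apply_ite (D.ph {q}), map_zero, map_neg, map_add,
        map_neg, hW, hW, hΘ]
      split_ifs <;> ring
    rw [Finset.sum_congr rfl e, Finset.sum_add_distrib, Finset.sum_ite_eq', Finset.sum_ite_eq',
      if_pos hi, if_pos hj, p2_pair D q r hij]
    ring

end ITA2

open ITA2 in
theorem pr_TA2 {V : Type} [Fintype V] [DecidableEq V] {R : Type} [CommRing R] [IsDomain R]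
    (D : Dat V R) (hC : Ctx D) (h1 : StPh D) (h2 : StPhA D) (h3 : StPhW D) (h4 : StWa D)
    (h5 : StSumW D) (h6 : StBeta D) : StTA2 D := by
  intro g1 g2 g3 h12 h13 h23 hG b hb q hq r
  obtain ⟨β, g, v, hrel, hβ⟩ := h6 _ hG
  have key : ∀ I ∈ (range 5).powersetCard 2, ∃ c : ℕ → MvPolynomial V R,
      rename D.α (∏ i ∈ I, D.W i) - ∏ i ∈ I, D.W i = ∑ l ∈ range 5, lin (D.a l) * c l ∧
      ∑ l ∈ range 5, D.a l r * D.ph {q} (c l) = - p2 D q r I :=
    fun I hI => pair_exp D h1 h3 h4 hq r hI
  choose! c hc1 hc2 using key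
  obtain ⟨k, hk⟩ := (mem_J_iff 5 _).mp hrel
  have hαα : ∀ f : MvPolynomial V R, rename D.α (rename D.α f) = f := by
    intro f
    rw [rename_rename]
    have : (D.α ∘ D.α : V → V) = id := funext hC.cs.invol
    rw [this, rename_id_apply]
  have hΘJ : ∀ l < 5, lin (D.a l) ∈ D.J := fun l hl => lin_mem_J hl
  have hsrJ : ∀ f ∈ srIdeal R D.Δ, f ∈ D.J := fun f hf => sr_le_J 5 hf
  set XG := D.XH {g1, g2, g3} with hXG
  set S : MvPolynomial V R := ∑ I ∈ (range 5).powersetCard 2, C (β I) * ∏ i ∈ I, D.W i with hS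
  -- the anti-invariant part of `S`
  have hαS : rename D.α S - S =
      ∑ l ∈ range 5, lin (D.a l) * ∑ I ∈ (range 5).powersetCard 2, C (β I) * c I l := by
    have e1 : rename D.α S - S = ∑ I ∈ (range 5).powersetCard 2,
        C (β I) * ∑ l ∈ range 5, lin (D.a l) * c I l := by
      rw [hS, map_sum, ← Finset.sum_sub_distrib]
      apply Finset.sum_congr rfl
      intro I hI
      rw [map_mul, rename_C, ← hc1 I hI]
      ring
    rw [e1]
    simp only [Finset.mul_sum]
    rw [Finset.sum_comm]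
    apply Finset.sum_congr rfl
    intro l _
    apply Finset.sum_congr rfl
    intro I _
    ring
  have hαk : rename D.α (∑ l ∈ range 5, lin (D.a l) * k l) =
      - ∑ l ∈ range 5, lin (D.a l) * rename D.α (k l) := by
    rw [map_sum, ← Finset.sum_neg_distrib]
    apply Finset.sum_congr rfl
    intro l _
    rw [map_mul, rename_lin_neg hC.cs.invol hC.anti]
    ring
  have k1 := rename_sr hC.cs hk
  rw [map_sub, map_sub, map_sub, map_sub, map_add, hαα, map_smul, hαk] at k1
  -- the difference of the two relations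
  have k2 : - ∑ l ∈ range 5, lin (D.a l) * b l +
      ∑ l ∈ range 5, lin (D.a l) * ∑ I ∈ (range 5).powersetCard 2, C (β I) * c I l +
      (2 : R) • (rename D.α v - v) - ∑ l ∈ range 5, lin (D.a l) * (rename D.α (k l) + k l) ∈
      srIdeal R D.Δ := by
    have e : - ∑ l ∈ range 5, lin (D.a l) * b l +
        ∑ l ∈ range 5, lin (D.a l) * ∑ I ∈ (range 5).powersetCard 2, C (β I) * c I l +
        (2 : R) • (rename D.α v - v) - ∑ l ∈ range 5, lin (D.a l) * (rename D.α (k l) + k l) =
        (rename D.α XG - XG - ∑ l ∈ range 5, lin (D.a l) * b l) -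
        (rename D.α XG - rename D.α S - (rename D.α g + g) - (2 : R) • rename D.α v -
          - ∑ l ∈ range 5, lin (D.a l) * rename D.α (k l)) +
        (XG - S - (g + rename D.α g) - (2 : R) • v - ∑ l ∈ range 5, lin (D.a l) * k l) := by
      rw [← hαS]
      simp only [mul_add, Finset.sum_add_distrib, smul_sub]
      ring
    rw [e]
    exact Ideal.add_mem _ (Ideal.sub_mem _ hb k1) hk
  have hsumJ : ∀ f : ℕ → MvPolynomial V R, ∑ l ∈ range 5, lin (D.a l) * f l ∈ D.J := fun f =>
    Ideal.sum_mem _ (fun l hl => Ideal.mul_mem_right _ _ (hΘJ l (Finset.mem_range.mp hl)))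
  have k3 : rename D.α v - v ∈ D.J := by
    apply hC.tors
    have k4 := hsrJ _ k2
    have e : (2 : R) • (rename D.α v - v) =
        (- ∑ l ∈ range 5, lin (D.a l) * b l +
      ∑ l ∈ range 5, lin (D.a l) * ∑ I ∈ (range 5).powersetCard 2, C (β I) * c I l +
      (2 : R) • (rename D.α v - v) - ∑ l ∈ range 5, lin (D.a l) * (rename D.α (k l) + k l)) +
      (∑ l ∈ range 5, lin (D.a l) * b l -
      ∑ l ∈ range 5, lin (D.a l) * ∑ I ∈ (range 5).powersetCard 2, C (β I) * c I l +
      ∑ l ∈ range 5, lin (D.a l) * (rename D.α (k l) + k l)) := by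
      ring
    rw [e]
    exact Ideal.add_mem _ k4 (Ideal.add_mem _ (Ideal.sub_mem _ (hsumJ _) (hsumJ _)) (hsumJ _))
  obtain ⟨e, he⟩ := (mem_J_iff 5 _).mp k3
  have k5 : ∑ l ∈ range 5, lin (D.a l) * (- b l +
      ∑ I ∈ (range 5).powersetCard 2, C (β I) * c I l + (2 : R) • e l -
      (rename D.α (k l) + k l)) ∈ srIdeal R D.Δ := by
    have e1 : ∑ l ∈ range 5, lin (D.a l) * (- b l +
        ∑ I ∈ (range 5).powersetCard 2, C (β I) * c I l + (2 : R) • e l -
        (rename D.α (k l) + k l)) =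
        (- ∑ l ∈ range 5, lin (D.a l) * b l +
        ∑ l ∈ range 5, lin (D.a l) * ∑ I ∈ (range 5).powersetCard 2, C (β I) * c I l +
        (2 : R) • (rename D.α v - v) - ∑ l ∈ range 5, lin (D.a l) * (rename D.α (k l) + k l)) -
        (2 : R) • (rename D.α v - v - ∑ l ∈ range 5, lin (D.a l) * e l) := by
      have e2 : ∑ l ∈ range 5, lin (D.a l) * (- b l +
          ∑ I ∈ (range 5).powersetCard 2, C (β I) * c I l + (2 : R) • e l -
          (rename D.α (k l) + k l)) =
          - ∑ l ∈ range 5, lin (D.a l) * b l +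
          ∑ l ∈ range 5, lin (D.a l) * ∑ I ∈ (range 5).powersetCard 2, C (β I) * c I l +
          (2 : R) • ∑ l ∈ range 5, lin (D.a l) * e l -
          ∑ l ∈ range 5, lin (D.a l) * (rename D.α (k l) + k l) := by
        rw [Finset.smul_sum, ← Finset.sum_neg_distrib, ← Finset.sum_add_distrib,
          ← Finset.sum_add_distrib, ← Finset.sum_sub_distrib]
        apply Finset.sum_congr rfl
        intro l _
        rw [← mul_smul_comm]
        ring
      rw [e2]
      simp only [smul_eq_C_mul]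
      ring
    rw [e1]
    refine Ideal.sub_mem _ k2 ?_
    rw [smul_eq_C_mul]
    exact Ideal.mul_mem_left _ _ he
  -- the functional at `q`
  have k6 : ∀ l ∈ range 5, D.ph {q} (b l) =
      ∑ I ∈ (range 5).powersetCard 2, β I * D.ph {q} (c I l) +
        2 * (D.ph {q} (e l) - D.ph {q} (k l)) := by
    intro l hl
    have k7 := (h1 {q} hq).2.2 _ (hC.syz _ k5 l (Finset.mem_range.mp hl))
    have k8 : D.ph {q} (∑ I ∈ (range 5).powersetCard 2, C (β I) * c I l) =
        ∑ I ∈ (range 5).powersetCard 2, β I * D.ph {q} (c I l) := by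
      rw [map_sum]
      apply Finset.sum_congr rfl
      intro I _
      rw [← smul_eq_C_mul, map_smul, smul_eq_mul]
    rw [map_sub, map_add, map_add, map_neg, k8, map_smul, map_add, (h2 {q} hq).1,
      smul_eq_mul] at k7
    linear_combination -k7
  have k9 : ∑ m ∈ range 5, D.a m r * D.ph {q} (b m) =
      - ∑ I ∈ (range 5).powersetCard 2, β I * p2 D q r I +
        2 * ∑ m ∈ range 5, D.a m r * (D.ph {q} (e m) - D.ph {q} (k m)) := by
    have e1 : ∑ m ∈ range 5, D.a m r * D.ph {q} (b m) =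
        ∑ I ∈ (range 5).powersetCard 2, β I * ∑ m ∈ range 5, D.a m r * D.ph {q} (c I m) +
        2 * ∑ m ∈ range 5, D.a m r * (D.ph {q} (e m) - D.ph {q} (k m)) := by
      have e2 : ∑ I ∈ (range 5).powersetCard 2, β I * ∑ m ∈ range 5, D.a m r * D.ph {q} (c I m) =
          ∑ m ∈ range 5, ∑ I ∈ (range 5).powersetCard 2, β I * (D.a m r * D.ph {q} (c I m)) := by
        simp only [Finset.mul_sum]
        exact Finset.sum_comm
      rw [e2, Finset.mul_sum, ← Finset.sum_add_distrib]
      apply Finset.sum_congr rfl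
      intro m hm
      rw [k6 m hm, mul_add, Finset.mul_sum]
      congr 1
      · apply Finset.sum_congr rfl
        intro I _
        ring
      · ring
    rw [e1, ← Finset.sum_neg_distrib]
    congr 1
    apply Finset.sum_congr rfl
    intro I hI
    rw [hc2 I hI]
    ring
  -- the congruence
  have hVP : ({g1, g2, g3} : Finset V) ⊆ D.VP := by
    have h := (Finset.mem_filter.mp hG).2
    exact h.1
  have hsum := h5 g1 (hVP (by simp)) g2 (hVP (by simp)) g3 (hVP (by simp)) h12 h13 h23 q r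
  have hdiff : (2 : R) ∣ ∑ I ∈ (range 5).powersetCard 2,
      (D.om * β I - D.ph {g1, g2, g3} (∏ i ∈ range 5 \ I, D.W i)) * p2 D q r I :=
    Finset.dvd_sum (fun I hI => Dvd.dvd.mul_right (hβ I hI) _)
  have e3 : D.om * ∑ m ∈ range 5, D.a m r * D.ph {q} (b m) - D.dt ![g1, g2, g3, q, r] =
      (∑ I ∈ (range 5).powersetCard 2,
        D.ph {g1, g2, g3} (∏ i ∈ range 5 \ I, D.W i) * p2 D q r I - D.dt ![g1, g2, g3, q, r]) +
      ∑ I ∈ (range 5).powersetCard 2,
        (D.om * β I - D.ph {g1, g2, g3} (∏ i ∈ range 5 \ I, D.W i)) * p2 D q r I +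
      2 * (D.om * (∑ m ∈ range 5, D.a m r * (D.ph {q} (e m) - D.ph {q} (k m)) -
        ∑ I ∈ (range 5).powersetCard 2, β I * p2 D q r I)) := by
    have e4 : ∑ I ∈ (range 5).powersetCard 2,
        (D.om * β I - D.ph {g1, g2, g3} (∏ i ∈ range 5 \ I, D.W i)) * p2 D q r I =
        D.om * ∑ I ∈ (range 5).powersetCard 2, β I * p2 D q r I -
        ∑ I ∈ (range 5).powersetCard 2,
          D.ph {g1, g2, g3} (∏ i ∈ range 5 \ I, D.W i) * p2 D q r I := by
      rw [Finset.mul_sum, ← Finset.sum_sub_distrib]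
      apply Finset.sum_congr rfl
      intro I _
      ring
    rw [k9, e4]
    ring
  rw [e3]
  exact dvd_add (dvd_add hsum hdiff) (dvd_mul_right _ _)

end CSLef.D5
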