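import Mathlib
import Pool.Agent.Work.MP_38c61c_al.D5.Stmts2

/-!
Block D5, item VP5: the chosen half has at least five elements.
Author: helper5.
-/

namespace CSLef.D5

open MvPolynomial Finset

theorem pr_VP5 {V : Type} [Fintype V] [DecidableEq V] {R : Type} [CommRing R] [IsDomain R]
    (D : Dat V R) (hC : Ctx D) : StVP5 D := by
  unfold StVP5
  rw [← hC.sgc]
  apply Finset.card_le_card_of_injOn (fun v => if v ∈ D.VP then v else D.α v)
  · intro v _
    by_cases h : v ∈ D.VP
    · simp [h]
    · have h1 : D.α v ∈ D.VP := by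
        by_contra h2
        exact h ((hC.vp v).2 h2)
      simp [h, h1]
  · intro v hv u hu huv
    have hv' : v ∈ D.σ := hv
    have hu' : u ∈ D.σ := hu
    have np := hC.cs.no_pair D.σ hC.sg
    dsimp only at huv
    split_ifs at huv with h1 h2 h2
    · exact huv
    · exact absurd (huv ▸ hv') (np u hu')
    · exact absurd (huv.symm ▸ hu' : D.α v ∈ D.σ) (np v hv')
    · exact D.α.injective huv

end CSLef.D5
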