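import Mathlib
import Pool.Agent.Work.MP_38c61c_al.D5.Stmts2

/-!
Block D5, item Ve: the weighted vertex sums at the pairs `{s, q i}`.
Author: helper83.
-/

namespace CSLef.D5

open MvPolynomial Finset

namespace IVe

variable {V : Type} [Fintype V] [DecidableEq V] {R : Type} [CommRing R] [IsDomain R]

theorem set3 (r s p : V) : insert r ({s, p} : Finset V) = {s, p, r} := by
  ext v
  simp only [mem_insert, mem_singleton]
  tauto

theorem key (D : Dat V R) (x : Finset V → R) (s : V) (q : Fin 4 → V) (hG : Gd D x)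
    (hQ : HQ D x s q) (r q' : V) (hr : r ≠ s) (hrq : r ≠ q') (hx : x (insert r {s, q'}) ≠ 0) :
    ∃ j l, j ≠ l ∧ q' = q j ∧ r = q l := by
  have hcard : (insert r ({s, q'} : Finset V)).card = 3 := by
    have h1 := (hG.supp _ hx).1
    unfold Dat.FS at h1
    rw [mem_filter, mem_powersetCard] at h1
    exact h1.1.2
  have hq's : q' ≠ s := by
    rintro rfl
    have h2 : (insert r ({q', q'} : Finset V)).card ≤ 2 := by
      rw [insert_eq_of_mem (mem_singleton_self q')]
      exact card_le_two
    omega
  obtain ⟨j, l, hjl, he⟩ := hQ.link _ hx (by simp)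
  have h3 : q' ∈ ({s, q j, q l} : Finset V) := by rw [← he]; simp
  have h4 : r ∈ ({s, q j, q l} : Finset V) := by rw [← he]; simp
  simp only [mem_insert, mem_singleton] at h3 h4
  rcases h3 with h3 | h3 | h3
  · exact absurd h3 hq's
  · rcases h4 with h4 | h4 | h4
    · exact absurd h4 hr
    · exact absurd (h4.trans h3.symm) hrq
    · exact ⟨j, l, hjl, h3, h4⟩
  · rcases h4 with h4 | h4 | h4
    · exact absurd h4 hr
    · exact ⟨l, j, hjl.symm, h3, h4⟩
    · exact absurd (h4.trans h3.symm) hrq

end IVe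

open IVe in
theorem pr_Ve {V : Type} [Fintype V] [DecidableEq V] {R : Type} [CommRing R] [IsDomain R]
    (D : Dat V R) (h1 : StPhX D) : StVe D := by
  intro x s q hG hQ
  have hsum : ∀ i, ∑ r ∈ D.VP \ {s, q i}, D.wt r * x (insert r {s, q i}) = S4 D x s q i := by
    intro i
    have e1 : S4 D x s q i = ∑ r ∈ (Finset.univ.erase i).image q,
        D.wt r * x (insert r {s, q i}) := by
      rw [sum_image (fun a _ b _ h => hQ.q_inj h)]
      unfold S4 xq
      exact sum_congr rfl fun l _ => by rw [set3 (q l) s (q i)]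
    rw [e1]
    symm
    apply sum_subset
    · intro r hr
      rw [mem_image] at hr
      obtain ⟨l, hl, rfl⟩ := hr
      rw [mem_erase] at hl
      rw [mem_sdiff]
      refine ⟨hQ.q_mem l, ?_⟩
      simp only [mem_insert, mem_singleton, not_or]
      exact ⟨hQ.q_ne l, fun h => hl.1 (hQ.q_inj h)⟩
    · intro r hr hr2
      rw [mem_sdiff] at hr
      simp only [mem_insert, mem_singleton, not_or] at hr
      by_contra hne
      have hx : x (insert r {s, q i}) ≠ 0 := fun h => hne (by rw [h, mul_zero])
      obtain ⟨j, l, hjl, hj, hl⟩ := key D x s q hG hQ r (q i) hr.2.1 hr.2.2 hx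
      apply hr2
      rw [mem_image]
      refine ⟨l, ?_, hl.symm⟩
      rw [mem_erase]
      refine ⟨?_, mem_univ _⟩
      rintro rfl
      exact hjl (hQ.q_inj hj).symm
  refine ⟨hsum, fun i => ?_, fun i hi => ?_, fun q' _ hq' => ?_⟩
  · rw [← hsum i]
    apply hG.rm
    · intro v hv
      simp only [mem_insert, mem_singleton] at hv
      rcases hv with rfl | rfl
      · exact hQ.s_mem
      · exact hQ.q_mem i
    · exact card_pair (hQ.q_ne i).symm
  · unfold S4 at hi
    obtain ⟨l, hl, hne⟩ := exists_ne_zero_of_sum_ne_zero hi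
    have hx : x {s, q i, q l} ≠ 0 := fun h => hne (by unfold xq; rw [h, mul_zero])
    have h2 := (hG.supp _ hx).1
    unfold Dat.FS at h2
    rw [mem_filter] at h2
    have hf1 : D.Full {s, q i} := h1.2 _ h2.2 _ (by
      intro v hv
      simp only [mem_insert, mem_singleton] at hv ⊢
      tauto)
    have hf2 : D.Full {q i} := h1.2 _ h2.2 _ (by
      intro v hv
      simp only [mem_insert, mem_singleton] at hv ⊢
      tauto)
    refine ⟨?_, hf2⟩
    unfold Dat.FS
    rw [mem_filter, mem_powersetCard]
    exact ⟨⟨hf1.1, card_pair (hQ.q_ne i).symm⟩, hf1⟩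
  · apply sum_eq_zero
    intro r hr
    rw [mem_sdiff] at hr
    simp only [mem_insert, mem_singleton, not_or] at hr
    by_contra hne
    have hx : x (insert r {s, q'}) ≠ 0 := fun h => hne (by rw [h, mul_zero])
    obtain ⟨j, l, hjl, hj, hl⟩ := key D x s q hG hQ r q' hr.2.1 hr.2.2 hx
    exact hq' j hj

end CSLef.D5
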