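import Mathlib
import Pool.Agent.Work.MP_38c61c_al.D5.Stmts

/-!
Block D5, item WK: multiplication of `K` by `wo` and `w`.
-/

namespace CSLef.D5

open MvPolynomial Finset

variable {V : Type} [Fintype V] [DecidableEq V] {R : Type} [CommRing R] [IsDomain R]

namespace IWK

/-- `2 w = wo + ∑ μ_l Θ_l` -/
theorem two_w (D : Dat V R) (hC : Ctx D) :
    (2 : R) • D.w = D.wo + ∑ l ∈ range 5, C (D.μ l) * lin (D.a l) := by
  have h1 : ∀ l, lin (D.a l) = ∑ v ∈ D.VP, C (D.a l v) * (X v - X (D.α v)) := fun l =>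
    lin_eq_VP hC.cs.invol hC.vp (hC.anti l)
  have h2 : ∑ l ∈ range 5, C (D.μ l) * lin (D.a l) =
      ∑ v ∈ D.VP, ∑ l ∈ range 5, C (D.μ l) * (C (D.a l v) * (X v - X (D.α v))) := by
    rw [Finset.sum_comm]
    refine Finset.sum_congr rfl fun l _ => ?_
    rw [h1 l, Finset.mul_sum]
  have h3 : ∑ l ∈ range 5, C (D.μ l) * (∑ v ∈ D.VP, C (D.a l v) * (X v : MvPolynomial V R)) =
      ∑ v ∈ D.VP, ∑ l ∈ range 5, C (D.μ l) * (C (D.a l v) * X v) := by
    rw [Finset.sum_comm]
    refine Finset.sum_congr rfl fun l _ => ?_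
    rw [Finset.mul_sum]
  rw [h2]
  unfold Dat.w Dat.wo welA
  rw [h3, ← Finset.sum_add_distrib, ← Finset.sum_add_distrib, smul_eq_C_mul, Finset.mul_sum]
  refine Finset.sum_congr rfl fun v _ => ?_
  unfold Dat.wt yy
  rw [map_add, map_mul, map_sum, add_mul, Finset.sum_mul, add_assoc, ← Finset.sum_add_distrib,
    mul_add, Finset.mul_sum, add_comm]
  have h4 : (C (2 : R) : MvPolynomial V R) = 2 := map_ofNat C 2
  rw [h4]
  congr 1
  · ring
  · refine Finset.sum_congr rfl fun l _ => ?_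
    rw [map_mul]
    ring

end IWK

theorem pr_WK (D : Dat V R) (hC : Ctx D) (h1 : StXK D) : StWK D := by
  intro x hx
  have hw := IWK.two_w D hC
  have hex : ∑ r ∈ D.VP, C (D.wt r) * ∑ H ∈ (D.FS 2).filter (fun H => r ∉ H),
      C (x (insert r H)) * D.XH H =
      ∑ H ∈ D.FS 2, C (∑ r ∈ D.VP \ H, D.wt r * x (insert r H)) * D.XH H := by
    have e1 : ∀ r ∈ D.VP, C (D.wt r) * ∑ H ∈ (D.FS 2).filter (fun H => r ∉ H),
        C (x (insert r H)) * D.XH H =
        ∑ H ∈ D.FS 2, if r ∉ H then C (D.wt r * x (insert r H)) * D.XH H else 0 := by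
      intro r _
      rw [← Finset.sum_filter, Finset.mul_sum]
      refine Finset.sum_congr rfl fun H _ => ?_
      rw [map_mul]
      ring
    rw [Finset.sum_congr rfl e1, Finset.sum_comm]
    refine Finset.sum_congr rfl fun H _ => ?_
    rw [← Finset.sum_filter, Finset.filter_notMem_eq_sdiff, map_sum, Finset.sum_mul]
  have hA : D.wo * D.KK x - (2 : R) • ∑ H ∈ D.FS 2,
      C (∑ r ∈ D.VP \ H, D.wt r * x (insert r H)) * D.XH H ∈ D.J := by
    have e2 : D.wo * D.KK x - (2 : R) • ∑ H ∈ D.FS 2,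
        C (∑ r ∈ D.VP \ H, D.wt r * x (insert r H)) * D.XH H =
        ∑ r ∈ D.VP, C (D.wt r) *
          ((X r * D.KK x - ∑ H ∈ (D.FS 2).filter (fun H => r ∉ H), C (x (insert r H)) * D.XH H) +
          (X (D.α r) * D.KK x -
            ∑ H ∈ (D.FS 2).filter (fun H => r ∉ H), C (x (insert r H)) * D.XH H)) := by
      rw [← hex, smul_eq_C_mul, Finset.mul_sum]
      unfold Dat.wo
      rw [Finset.sum_mul, ← Finset.sum_sub_distrib]
      refine Finset.sum_congr rfl fun r _ => ?_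
      have h4 : (C (2 : R) : MvPolynomial V R) = 2 := map_ofNat C 2
      rw [h4]
      unfold yy
      ring
    rw [e2]
    refine Ideal.sum_mem _ fun r hr => ?_
    exact Ideal.mul_mem_left _ _ (Ideal.add_mem _ (h1 x hx r hr).1 (h1 x hx r hr).2)
  refine ⟨hA, ?_, hw⟩
  apply hC.tors
  have e3 : (2 : R) • (D.w * D.KK x - ∑ H ∈ D.FS 2,
      C (∑ r ∈ D.VP \ H, D.wt r * x (insert r H)) * D.XH H) =
      (D.wo * D.KK x - (2 : R) • ∑ H ∈ D.FS 2,
        C (∑ r ∈ D.VP \ H, D.wt r * x (insert r H)) * D.XH H) +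
      ∑ l ∈ range 5, (C (D.μ l) * D.KK x) * lin (D.a l) := by
    have key : ∀ a b K S T : MvPolynomial V R, (2 : R) • a = b + T →
        (2 : R) • (a * K - S) = (b * K - (2 : R) • S) + T * K := by
      intro a b K S T h
      rw [smul_eq_C_mul] at h
      rw [smul_eq_C_mul, smul_eq_C_mul]
      linear_combination K * h
    refine (key _ _ _ _ _ hw).trans ?_
    congr 1
    rw [Finset.sum_mul]
    refine Finset.sum_congr rfl fun l _ => ?_
    ring
  rw [e3]
  refine Ideal.add_mem _ hA (Ideal.sum_mem _ fun l hl => ?_)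
  exact Ideal.mul_mem_left _ _ (lin_mem_J (Finset.mem_range.mp hl))

end CSLef.D5
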