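import Mathlib
import Pool.Agent.Work.MP_38c61c_al.D5.Stmts2

/-!
Block D5, item WW: products of the `W_i` with a repeated factor are even.
-/

namespace CSLef.D5

open MvPolynomial Finset

namespace IWW

/-- the sum of a symmetric function with zero diagonal is even -/
theorem even_sum {V R : Type} [DecidableEq V] [CommRing R] (t : V → V → R)
    (hs : ∀ p q, t p q = t q p) (hd : ∀ p, t p p = 0) (s : Finset V) :
    (2 : R) ∣ ∑ p ∈ s, ∑ q ∈ s, t p q := by
  induction s using Finset.induction_on with
  | empty => simp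
  | insert a s ha ih =>
    have h1 : ∑ p ∈ insert a s, ∑ q ∈ insert a s, t p q =
        2 * (∑ q ∈ s, t a q) + ∑ p ∈ s, ∑ q ∈ s, t p q := by
      rw [Finset.sum_insert ha]
      have h2 : ∀ p, ∑ q ∈ insert a s, t p q = t p a + ∑ q ∈ s, t p q := fun p =>
        Finset.sum_insert ha
      simp only [h2]
      rw [Finset.sum_add_distrib, hd a]
      have h3 : ∑ p ∈ s, t p a = ∑ q ∈ s, t a q :=
        Finset.sum_congr rfl fun p _ => hs p a
      rw [h3]
      ring
    rw [h1]
    exact dvd_add (dvd_mul_right _ _) ih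

end IWW

theorem pr_WW {V : Type} [Fintype V] [DecidableEq V] {R : Type} [CommRing R] [IsDomain R]
    (D : Dat V R) (hC : Ctx D) (h1 : StWa D) : StWW D := by
  classical
  intro I hI K hK hIK
  obtain ⟨i, hi⟩ := hIK
  obtain ⟨hiI, hiK⟩ := Finset.mem_inter.1 hi
  have hi5 : i < 5 := Finset.mem_range.1 (hI hiI)
  set M : MvPolynomial V R := (∏ j ∈ I.erase i, D.W j) * ∏ j ∈ K.erase i, D.W j with hM
  -- the rest is invariant
  have hMJ : rename D.α M - M ∈ D.J := by
    have a1 := h1.2.2 (I.erase i) ((Finset.erase_subset _ _).trans hI)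
    have a2 := h1.2.2 (K.erase i) ((Finset.erase_subset _ _).trans hK)
    have e : rename D.α M - M =
        rename D.α (∏ j ∈ I.erase i, D.W j) *
          (rename D.α (∏ j ∈ K.erase i, D.W j) - ∏ j ∈ K.erase i, D.W j) +
        (rename D.α (∏ j ∈ I.erase i, D.W j) - ∏ j ∈ I.erase i, D.W j) *
          ∏ j ∈ K.erase i, D.W j := by
      rw [hM, map_mul]
      ring
    rw [e]
    exact Ideal.add_mem _ (Ideal.mul_mem_left _ _ a2) (Ideal.mul_mem_right _ _ a1)
  have hprod : (∏ j ∈ I, D.W j) * ∏ j ∈ K, D.W j =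
      D.W i * rename D.α (D.W i) * M + lin (D.a i) * (D.W i * M) := by
    rw [← Finset.mul_prod_erase I _ hiI, ← Finset.mul_prod_erase K _ hiK, h1.1 i, hM]
    ring
  rw [hprod, map_add,
    hC.dgJ _ (Ideal.mul_mem_right _ _ (lin_mem_J hi5)), add_zero]
  -- expand the product
  have hW : D.W i * rename D.α (D.W i) * M = ∑ p ∈ D.VP, ∑ q ∈ D.VP,
      (D.a i p * D.a i q) • (X p * X (D.α q) * M) := by
    have e1 : rename D.α (D.W i) = ∑ q ∈ D.VP, C (D.a i q) * X (D.α q) := by
      unfold Dat.W
      rw [map_sum]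
      refine Finset.sum_congr rfl fun q _ => ?_
      rw [map_mul, rename_C, rename_X]
    rw [e1]
    unfold Dat.W
    rw [Finset.sum_mul_sum, Finset.sum_mul]
    refine Finset.sum_congr rfl fun p _ => ?_
    rw [Finset.sum_mul]
    refine Finset.sum_congr rfl fun q _ => ?_
    rw [← C_mul', map_mul]
    ring
  rw [hW, map_sum]
  simp only [map_sum, map_smul, smul_eq_mul]
  apply IWW.even_sum (fun p q => D.a i p * D.a i q * D.dg (X p * X (D.α q) * M))
  · intro p q
    have e : D.dg (X p * X (D.α q) * M) = D.dg (X q * X (D.α p) * M) := by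
      have e3 : rename D.α (X p * X (D.α q) * M) = X (D.α p) * X q * rename D.α M := by
        rw [map_mul, map_mul, rename_X, rename_X, hC.cs.invol]
      rw [← hC.dga (X p * X (D.α q) * M), e3]
      have e2 : X (D.α p) * X q * rename D.α M =
          X q * X (D.α p) * M + X (D.α p) * X q * (rename D.α M - M) := by
        ring
      rw [e2, map_add, hC.dgJ _ (Ideal.mul_mem_left _ _ hMJ), add_zero]
    rw [e]
    ring
  · intro p
    have hne : D.α p ≠ p := by
      intro h
      have h2 := hC.vp p
      rw [h] at h2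
      by_cases h3 : p ∈ D.VP
      · exact h2.1 h3 h3
      · exact h3 (h2.2 h3)
    have hmem : X p * X (D.α p) ∈ srIdeal R D.Δ := by
      have e : X p * X (D.α p) = xm R ({p, D.α p} : Finset V) := by
        unfold xm
        rw [Finset.prod_pair hne.symm]
      rw [e]
      apply xm_mem_sr
      intro h
      exact hC.cs.no_pair _ h p (Finset.mem_insert_self _ _)
        (Finset.mem_insert_of_mem (Finset.mem_singleton_self _))
    rw [hC.dgJ _ (Ideal.mul_mem_right _ _ (sr_le_J 5 hmem)), mul_zero]

end CSLef.D5
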