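import Mathlib
import Pool.Agent.Work.MP_38c61c_al.D5.Stmts

/-!
Block D5, item XK (helper64).
-/

namespace CSLef.D5

open MvPolynomial Finset

namespace IXK

variable {V : Type} [Fintype V] [DecidableEq V] {R : Type} [CommRing R]

lemma mem_FS {D : Dat V R} {k : ℕ} {H : Finset V} : H ∈ D.FS k ↔ D.Full H ∧ H.card = k := by
  unfold Dat.FS
  rw [Finset.mem_filter, Finset.mem_powersetCard]
  constructor
  · rintro ⟨⟨_, h2⟩, h3⟩
    exact ⟨h3, h2⟩
  · rintro ⟨h1, h2⟩
    exact ⟨⟨h1.1, h2⟩, h1⟩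

end IXK

theorem pr_XK {V : Type} [Fintype V] [DecidableEq V] {R : Type} [CommRing R] [IsDomain R]
    (D : Dat V R) (h0 : StPhX D) (h1 : StP1 D) : StXK D := by
  intro x hx r hr
  have hne : ∀ G ∈ D.FS 3, D.Full G ∧ G.Nonempty := by
    intro G hG
    have hG' := IXK.mem_FS.1 hG
    exact ⟨hG'.1, Finset.card_pos.1 (by rw [hG'.2]; norm_num)⟩
  -- the bijection
  have hbij : ∑ H ∈ (D.FS 2).filter (fun H => r ∉ H), C (x (insert r H)) * D.XH H =
      ∑ G ∈ (D.FS 3).filter (fun G => r ∈ G), C (x G) * D.XH (G.erase r) := by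
    symm
    refine Finset.sum_bij_ne_zero (fun G _ _ => G.erase r) ?_ ?_ ?_ ?_
    · intro G hG _
      rw [Finset.mem_filter] at hG ⊢
      have hG' := IXK.mem_FS.1 hG.1
      refine ⟨IXK.mem_FS.2 ⟨h0.2 G hG'.1 _ (Finset.erase_subset _ _), ?_⟩,
        Finset.notMem_erase _ _⟩
      rw [Finset.card_erase_of_mem hG.2, hG'.2]
    · intro G hG _ G' hG' _ he
      rw [Finset.mem_filter] at hG hG'
      rw [← Finset.insert_erase hG.2, ← Finset.insert_erase hG'.2, he]
    · intro H hH hne0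
      rw [Finset.mem_filter] at hH
      have hxne : x (insert r H) ≠ 0 := by
        intro h
        rw [h, C_0, zero_mul] at hne0
        exact hne0 rfl
      have hI := hx _ hxne
      refine ⟨insert r H, Finset.mem_filter.2 ⟨hI, Finset.mem_insert_self _ _⟩, ?_,
        Finset.erase_insert hH.2⟩
      rw [Finset.erase_insert hH.2]
      exact hne0
    · intro G hG _
      rw [Finset.mem_filter] at hG
      rw [Finset.insert_erase hG.2]
  have hmain : X r * D.KK x -
      ∑ H ∈ (D.FS 2).filter (fun H => r ∉ H), C (x (insert r H)) * D.XH H ∈ D.J := by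
    rw [hbij]
    unfold Dat.KK
    rw [Finset.mul_sum, Finset.sum_filter, ← Finset.sum_sub_distrib]
    refine D.J.sum_mem fun G hG => ?_
    obtain ⟨hF, hN⟩ := hne G hG
    by_cases hrG : r ∈ G
    · rw [if_pos hrG]
      have e : X r * (C (x G) * D.XH G) - C (x G) * D.XH (G.erase r) =
          C (x G) * (X r * D.XH G - D.XH (G.erase r)) := by ring
      rw [e]
      exact D.J.mul_mem_left _ ((h1 G hF hN).2.2.1 r hrG)
    · rw [if_neg hrG, sub_zero]
      have e : X r * (C (x G) * D.XH G) = C (x G) * (X r * D.XH G) := by ring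
      rw [e]
      exact D.J.mul_mem_left _ ((h1 G hF hN).2.1 r hr hrG).1
  refine ⟨hmain, ?_⟩
  have hz : D.z r * D.KK x ∈ D.J := by
    unfold Dat.KK
    rw [Finset.mul_sum]
    refine D.J.sum_mem fun G hG => ?_
    obtain ⟨hF, hN⟩ := hne G hG
    have e : D.z r * (C (x G) * D.XH G) = C (x G) * (D.z r * D.XH G) := by ring
    rw [e]
    exact D.J.mul_mem_left _ ((h1 G hF hN).1 r)
  have h2 := D.J.sub_mem hmain hz
  have e : X (D.α r) * D.KK x -
      ∑ H ∈ (D.FS 2).filter (fun H => r ∉ H), C (x (insert r H)) * D.XH H =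
      (X r * D.KK x - ∑ H ∈ (D.FS 2).filter (fun H => r ∉ H), C (x (insert r H)) * D.XH H) -
        D.z r * D.KK x := by
    unfold Dat.z
    ring
  rw [e]
  exact h2

end CSLef.D5
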