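import Mathlib
import Pool.Agent.Work.MP_38c61c_al.D5.StmtsX

/-!
Block D5, item XT: the functionals in degree 6 over the generic ring.
-/

namespace CSLef.D5

open MvPolynomial Finset

namespace IXT

variable {V : Type} [Fintype V] [DecidableEq V]

theorem homComp_rename {R : Type} [CommRing R] {α : Equiv.Perm V} (hinv : ∀ v, α (α v) = v)
    (n : ℕ) (g : MvPolynomial V R) :
    homogeneousComponent n (rename α g) = rename α (homogeneousComponent n g) := by
  ext m
  rw [coeff_homogeneousComponent, coeff_rename_inv hinv,
    coeff_rename_inv hinv, coeff_homogeneousComponent]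
  have : (m.mapDomain α).degree = m.degree := Finsupp.degree_mapDomain _ _
  rw [this]

/-- a functional which vanishes in the degrees other than `n` sees the component of degree `n` -/
theorem eq_homComp {R : Type} [CommRing R] {n : ℕ} {e : MvPolynomial V R →ₗ[R] R}
    (h : ∀ n', n' ≠ n → ∀ f : MvPolynomial V R, f.IsHomogeneous n' → e f = 0)
    (f : MvPolynomial V R) : e (homogeneousComponent n f) = e f := by
  conv_rhs => rw [← sum_homogeneousComponent f]
  rw [map_sum]
  by_cases hn : n < f.totalDegree + 1
  · rw [Finset.sum_eq_single n]
    · intro b _ hb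
      exact h b hb _ (homogeneousComponent_isHomogeneous b f)
    · intro hb
      exact absurd (Finset.mem_range.mpr hn) hb
  · rw [homogeneousComponent_eq_zero n f (by omega), map_zero]
    symm
    apply Finset.sum_eq_zero
    intro b hb
    have hb' := Finset.mem_range.mp hb
    exact h b (by omega) _ (homogeneousComponent_isHomogeneous b f)

/-- expression of the component of degree 6 -/
def Exp6 {R : Type} [CommRing R] (Δ : Finset (Finset V)) (a : ℕ → V → R)
    (f : MvPolynomial V R) (g : ℕ → MvPolynomial V R) : Prop :=
  homogeneousComponent 6 f - ∑ l ∈ range 5, lin (a l) * g l ∈ srIdeal R Δ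

end IXT

open IXT

/-- item XT -/
theorem pr_XT {V : Type} [Fintype V] [DecidableEq V] (Δ : Finset (Finset V)) (α : Equiv.Perm V)
    (VP : Finset V) (hG : HG Δ α VP) : StXT Δ α VP := by
  intro σ hσ hσ5 dg hdg hdga
  have H : LocHyp (red 5 V) Δ 5 (ga α VP) := locHyp hG.hs hG.cs hG.vp
  have hdown := hG.hs.down
  have ha : ∀ l v, ga α VP l (α v) = - ga α VP l v := by
    intro l v
    unfold ga
    rw [aP_inv hG.cs.invol hG.vp, map_neg]
  have hex : ∀ f : MvPolynomial V (RR 5 V), ∃ g : ℕ → MvPolynomial V (RR 5 V),
      Exp6 Δ (ga α VP) f g := by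
    intro f
    have h1 : homogeneousComponent 6 f ∈ Jid Δ (ga α VP) 5 :=
      large_R (red 5 V) H (by norm_num) (homogeneousComponent_isHomogeneous 6 f)
    exact (mem_J_iff 5 _).mp h1
  choose G hGx using hex
  -- independence of the choice
  have huniq : ∀ (f : MvPolynomial V (RR 5 V)) (g : ℕ → MvPolynomial V (RR 5 V)),
      Exp6 Δ (ga α VP) f g → ∀ m < 5, dg (G f m) = dg (g m) := by
    intro f g hg m hm
    have h1 := Ideal.sub_mem _ hg (hGx f)
    have h2 : ∑ l ∈ range 5, lin (ga α VP l) * (G f l - g l) ∈ srIdeal (RR 5 V) Δ := by
      have e : ∑ l ∈ range 5, lin (ga α VP l) * (G f l - g l) =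
          (homogeneousComponent 6 f - ∑ l ∈ range 5, lin (ga α VP l) * g l) -
          (homogeneousComponent 6 f - ∑ l ∈ range 5, lin (ga α VP l) * G f l) := by
        simp only [mul_sub, Finset.sum_sub_distrib]
        ring
      rw [e]
      exact h1
    have h3 := syz_J H 5 le_rfl _ h2 m hm
    have h4 := hdg.J _ h3
    rw [map_sub] at h4
    exact sub_eq_zero.mp h4
  have hval : ∀ (m : ℕ), m < 5 → ∀ (f : MvPolynomial V (RR 5 V)) (g : ℕ → MvPolynomial V (RR 5 V)),
      Exp6 Δ (ga α VP) f g → dg (G f m) = dg (g m) := fun m hm f g hg => huniq f g hg m hm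
  let T : ℕ → MvPolynomial V (RR 5 V) →ₗ[RR 5 V] RR 5 V := fun m =>
    if hm : m < 5 then
      { toFun := fun f => dg (G f m)
        map_add' := by
          intro f f'
          rw [hval m hm (f + f') (fun l => G f l + G f' l) (by
            have h1 := Ideal.add_mem _ (hGx f) (hGx f')
            unfold Exp6
            have e : homogeneousComponent 6 (f + f') -
                ∑ l ∈ range 5, lin (ga α VP l) * (G f l + G f' l) =
                (homogeneousComponent 6 f - ∑ l ∈ range 5, lin (ga α VP l) * G f l) +
                (homogeneousComponent 6 f' - ∑ l ∈ range 5, lin (ga α VP l) * G f' l) := by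
              simp only [map_add, mul_add, Finset.sum_add_distrib]
              ring
            rw [e]
            exact h1), map_add]
        map_smul' := by
          intro r f
          rw [hval m hm (r • f) (fun l => r • G f l) (by
            have h1 := Ideal.mul_mem_left _ (C r) (hGx f)
            unfold Exp6
            have e : homogeneousComponent 6 (r • f) -
                ∑ l ∈ range 5, lin (ga α VP l) * (r • G f l) =
                C r * (homogeneousComponent 6 f - ∑ l ∈ range 5, lin (ga α VP l) * G f l) := by
              rw [map_smul, mul_sub, Finset.mul_sum, smul_eq_C_mul]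
              congr 1
              apply Finset.sum_congr rfl
              intro l _
              rw [smul_eq_C_mul]
              ring
            rw [e]
            exact h1), map_smul]
          rfl }
    else 0
  have hT : ∀ m < 5, ∀ f, T m f = dg (G f m) := by
    intro m hm f
    simp only [T, dif_pos hm]
    rfl
  have hT0 : ∀ m, ¬ m < 5 → T m = 0 := by
    intro m hm
    simp only [T, dif_neg hm]
  refine ⟨T, ?_, ?_, ?_, ?_⟩
  · intro m f hf
    by_cases hm : m < 5
    · rw [hT m hm, hval m hm f (fun _ => 0) ?_, map_zero]
      unfold Exp6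
      simp only [mul_zero, Finset.sum_const_zero, sub_zero]
      exact homComp_sr hdown 6 hf
    · rw [hT0 m hm]
      rfl
  · intro m hm l hl f
    rw [hT m hm, hval m hm _ (fun l' => if l' = l then homogeneousComponent 5 f else 0) ?_]
    · by_cases hlm : l = m
      · subst hlm
        rw [if_pos rfl, if_pos rfl]
        exact eq_homComp hdg.h f
      · rw [if_neg hlm, if_neg (fun h => hlm h.symm), map_zero]
    · unfold Exp6
      have h1 : homogeneousComponent 6 (lin (ga α VP l) * f) =
          lin (ga α VP l) * homogeneousComponent 5 f := homComp_lin_mul 5 _ f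
      have h2 : ∑ l' ∈ range 5, lin (ga α VP l') *
          (if l' = l then homogeneousComponent 5 f else 0) =
          lin (ga α VP l) * homogeneousComponent 5 f := by
        rw [Finset.sum_eq_single l]
        · rw [if_pos rfl]
        · intro b _ hb
          rw [if_neg hb, mul_zero]
        · intro hb
          exact absurd (Finset.mem_range.mpr hl) hb
      rw [h1, h2, sub_self]
      exact Ideal.zero_mem _
  · intro m n hn f hf
    by_cases hm : m < 5
    · rw [hT m hm, hval m hm f (fun _ => 0) ?_, map_zero]
      unfold Exp6
      simp only [mul_zero, Finset.sum_const_zero, sub_zero]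
      rw [homogeneousComponent_of_mem ((mem_homogeneousSubmodule n f).mpr hf), if_neg hn.symm]
      exact Ideal.zero_mem _
    · rw [hT0 m hm]
      rfl
  · intro m hm f
    rw [hT m hm, hT m hm, hval m hm _ (fun l => - rename α (G f l)) ?_, map_neg, hdga]
    unfold Exp6
    rw [homComp_rename hG.cs.invol]
    have h1 := rename_sr hG.cs (hGx f)
    rw [map_sub, map_sum] at h1
    have e : ∑ l ∈ range 5, lin (ga α VP l) * (- rename α (G f l)) =
        ∑ l ∈ range 5, rename α (lin (ga α VP l) * G f l) := by
      apply Finset.sum_congr rfl
      intro l _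
      rw [map_mul, rename_lin_neg hG.cs.invol ha]
      ring
    rw [e]
    exact h1

end CSLef.D5
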