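import Mathlib
import Pool.Agent.Work.MP_38c61c_al.D5.StmtsX

/-!
Block D5, item Xcube: `x^2 + x y + y^2` has only the trivial zero in the residue field.
-/

namespace CSLef.D5

open MvPolynomial Finset

namespace IXcube

theorem coeff_zero {K : Type} [Field K] [Algebra (ZMod 2) K] (t : K) (ht : t ^ 2 + t + 1 = 0)
    (a b : ZMod 2) (h : algebraMap (ZMod 2) K a = t * algebraMap (ZMod 2) K b) :
    a = 0 ∧ b = 0 := by
  have hb : ∀ b : ZMod 2, b = 0 ∨ b = 1 := by decide
  rcases hb b with hb | hb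
  · subst hb
    rw [map_zero, mul_zero] at h
    exact ⟨(algebraMap (ZMod 2) K).injective (by rw [h, map_zero]), rfl⟩
  · exfalso
    subst hb
    rw [map_one, mul_one] at h
    rw [← h, ← map_pow, ← map_add, ← map_one (algebraMap (ZMod 2) K), ← map_add] at ht
    have h1 : a ^ 2 + a + 1 = 0 :=
      (algebraMap (ZMod 2) K).injective (by rw [ht, map_zero])
    revert h1
    clear h ht
    revert a
    decide

theorem quad_zero {σ : Type} (p q : MvPolynomial σ (ZMod 2)) (h : p ^ 2 + p * q + q ^ 2 = 0) :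
    p = 0 ∧ q = 0 := by
  obtain ⟨ω, hω⟩ := IsAlgClosed.exists_root
    (Polynomial.X ^ 2 + Polynomial.X + 1 : Polynomial (AlgebraicClosure (ZMod 2)))
    (by
      have : (Polynomial.X ^ 2 + Polynomial.X + 1 :
          Polynomial (AlgebraicClosure (ZMod 2))).degree = 2 := by compute_degree!
      rw [this]
      decide)
  have hω' : ω ^ 2 + ω + 1 = 0 := by
    simpa [Polynomial.IsRoot] using hω
  have hC : (C ω : MvPolynomial σ (AlgebraicClosure (ZMod 2))) ^ 2 + C ω + 1 = 0 := by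
    rw [← map_pow, ← map_add, ← map_one (C : _ →+* MvPolynomial σ (AlgebraicClosure (ZMod 2))),
      ← map_add, hω', map_zero]
  have h1 : (map (algebraMap (ZMod 2) (AlgebraicClosure (ZMod 2))) p) ^ 2 +
      map (algebraMap (ZMod 2) (AlgebraicClosure (ZMod 2))) p *
        map (algebraMap (ZMod 2) (AlgebraicClosure (ZMod 2))) q +
      (map (algebraMap (ZMod 2) (AlgebraicClosure (ZMod 2))) q) ^ 2 = 0 := by
    rw [← map_pow, ← map_mul, ← map_pow, ← map_add, ← map_add, h, map_zero]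
  have key : (map (algebraMap (ZMod 2) (AlgebraicClosure (ZMod 2))) p -
      C ω * map (algebraMap (ZMod 2) (AlgebraicClosure (ZMod 2))) q) *
      (map (algebraMap (ZMod 2) (AlgebraicClosure (ZMod 2))) p +
        (C ω + 1) * map (algebraMap (ZMod 2) (AlgebraicClosure (ZMod 2))) q) = 0 := by
    linear_combination h1 - hC * (map (algebraMap (ZMod 2) (AlgebraicClosure (ZMod 2))) q) ^ 2
  have hfin : ∀ t : AlgebraicClosure (ZMod 2), t ^ 2 + t + 1 = 0 →
      map (algebraMap (ZMod 2) (AlgebraicClosure (ZMod 2))) p =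
        C t * map (algebraMap (ZMod 2) (AlgebraicClosure (ZMod 2))) q → p = 0 ∧ q = 0 := by
    intro t ht hpq
    have h2 : ∀ m, coeff m p = 0 ∧ coeff m q = 0 := by
      intro m
      refine coeff_zero t ht _ _ ?_
      have h3 := congrArg (coeff m) hpq
      rw [coeff_C_mul, coeff_map, coeff_map] at h3
      exact h3
    constructor
    · ext m
      rw [(h2 m).1, MvPolynomial.coeff_zero]
    · ext m
      rw [(h2 m).2, MvPolynomial.coeff_zero]
  rcases mul_eq_zero.1 key with h2 | h2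
  · exact hfin ω hω' (sub_eq_zero.1 h2)
  · refine hfin (-(ω + 1)) (by linear_combination hω') ?_
    rw [map_neg, map_add, map_one]
    linear_combination h2

theorem two_dvd_iff {V : Type} (P : PR 5 V) :
    (2 : PR 5 V) ∣ P ↔ map (Int.castRingHom (ZMod 2)) P = 0 := by
  rw [← C_dvd_iff_zmod 2 P]
  have h2 : (C ((2 : ℕ) : ℤ) : PR 5 V) = 2 := by
    rw [Nat.cast_ofNat, map_ofNat]
  rw [h2]

theorem dvd_PR {V : Type} (P Q : PR 5 V) (h : (2 : PR 5 V) ∣ P ^ 2 + P * Q + Q ^ 2) :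
    (2 : PR 5 V) ∣ P ∧ (2 : PR 5 V) ∣ Q := by
  rw [two_dvd_iff, map_add, map_add, map_pow, map_mul, map_pow] at h
  rw [two_dvd_iff, two_dvd_iff]
  exact quad_zero _ _ h

theorem dvd_RR {V : Type} (P : PR 5 V) :
    (2 : RR 5 V) ∣ algebraMap (PR 5 V) (RR 5 V) P ↔ (2 : PR 5 V) ∣ P := by
  rw [← Ideal.mem_span_singleton, ← Ideal.mem_span_singleton, ← max_eq]
  exact IsLocalization.AtPrime.to_map_mem_maximal_iff (RR 5 V) (Ideal.span {(2 : PR 5 V)}) P

/-- common denominators -/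
theorem com {V : Type} (x y : RR 5 V) : ∃ P Q s : PR 5 V,
    IsUnit (algebraMap (PR 5 V) (RR 5 V) s) ∧
    x * algebraMap (PR 5 V) (RR 5 V) s = algebraMap (PR 5 V) (RR 5 V) P ∧
    y * algebraMap (PR 5 V) (RR 5 V) s = algebraMap (PR 5 V) (RR 5 V) Q := by
  obtain ⟨⟨P, s⟩, hs⟩ := IsLocalization.surj (Ideal.span {(2 : PR 5 V)}).primeCompl x
  obtain ⟨⟨Q, t⟩, ht⟩ := IsLocalization.surj (Ideal.span {(2 : PR 5 V)}).primeCompl y
  refine ⟨P * t, Q * s, s * t, ?_, ?_, ?_⟩
  · rw [map_mul]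
    exact (IsLocalization.map_units (RR 5 V) s).mul (IsLocalization.map_units (RR 5 V) t)
  · rw [map_mul, map_mul, ← hs]
    ring
  · rw [map_mul, map_mul, ← ht]
    ring

end IXcube

theorem pr_Xcube {V : Type} [Fintype V] [DecidableEq V] : StXcube V := by
  intro x y h
  obtain ⟨P, Q, s, hs, hP, hQ⟩ := IXcube.com x y
  have h1 : (2 : RR 5 V) ∣ algebraMap (PR 5 V) (RR 5 V) (P ^ 2 + P * Q + Q ^ 2) := by
    rw [map_add, map_add, map_pow, map_mul, map_pow, ← hP, ← hQ]
    have h2 : (x * algebraMap (PR 5 V) (RR 5 V) s) ^ 2 +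
        x * algebraMap (PR 5 V) (RR 5 V) s * (y * algebraMap (PR 5 V) (RR 5 V) s) +
        (y * algebraMap (PR 5 V) (RR 5 V) s) ^ 2 =
        (x ^ 2 + x * y + y ^ 2) * algebraMap (PR 5 V) (RR 5 V) s ^ 2 := by ring
    rw [h2]
    exact Dvd.dvd.mul_right h _
  rw [IXcube.dvd_RR] at h1
  obtain ⟨h2, h3⟩ := IXcube.dvd_PR P Q h1
  rw [← IXcube.dvd_RR, ← hP] at h2
  rw [← IXcube.dvd_RR, ← hQ] at h3
  exact ⟨hs.dvd_mul_right.1 h2, hs.dvd_mul_right.1 h3⟩

end CSLef.D5
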