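import Mathlib
import Pool.Agent.Work.MP_38c61c_al.D5.StmtsX

/-!
Block D5, item Xdg (helper37): the degree functional over the generic ring.
-/

namespace CSLef.D5

open MvPolynomial Finset

namespace IXdg

variable {V : Type} [Fintype V] [DecidableEq V] {Δ : Finset (Finset V)} {α : Equiv.Perm V}
  {VP : Finset V}

theorem hyp (hG : HG Δ α VP) : LocHyp (red 5 V) Δ 5 (ga α VP) := locHyp hG.hs hG.cs hG.vp

theorem map_xm (σ : Finset V) : MvPolynomial.map (red 5 V) (xm (RR 5 V) σ) = xm (FF 5 V) σ := by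
  simp [xm, map_prod]

theorem xm_not_mem (hG : HG Δ α VP) {σ : Finset V} (hσ : σ ∈ Δ) (hσd : σ.card = 5) :
    xm (FF 5 V) σ ∉ Jid Δ (fun l v => red 5 V (ga α VP l v)) 5 := by
  have S := setupF hG.hs hG.cs hG.vp
  intro hmem
  have hxσ : (xm (FF 5 V) σ).IsHomogeneous 5 := hσd ▸ xm_hom σ
  exact piF_facet_ne S.cols S.cs hσ hσd (piF_J S (by norm_num) hmem hxσ)

/-- uniqueness -/
theorem uniq (hG : HG Δ α VP) {σ : Finset V} (hσ : σ ∈ Δ) (hσd : σ.card = 5) {r : RR 5 V}
    (hr : r • xm (RR 5 V) σ ∈ Jid Δ (ga α VP) 5) : r = 0 := by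
  by_contra h0
  have h1 := tors (red 5 V) (hyp hG) h0 hr
  have h2 := map_J (red 5 V) hG.hs.down h1
  rw [map_xm] at h2
  exact xm_not_mem hG hσ hσd h2

theorem top (hG : HG Δ α VP) {σ : Finset V} (hσ : σ ∈ Δ) (hσd : σ.card = 5)
    (f : MvPolynomial V (RR 5 V)) :
    ∃ r : RR 5 V, homogeneousComponent 5 f - r • xm (RR 5 V) σ ∈ Jid Δ (ga α VP) 5 :=
  top_gen (red 5 V) (hyp hG) hσd (xm_not_mem hG hσ hσd) (homogeneousComponent_isHomogeneous 5 f)

end IXdg

open IXdg in
/-- Item Xdg. -/
theorem pr_Xdg {V : Type} [Fintype V] [DecidableEq V] (Δ : Finset (Finset V)) (α : Equiv.Perm V)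
    (VP : Finset V) (hG : HG Δ α VP) : StXdg Δ α VP := by
  intro σ hσ hσd
  choose r hr using top hG hσ hσd
  have hun : ∀ (f : MvPolynomial V (RR 5 V)) (s : RR 5 V),
      homogeneousComponent 5 f - s • xm (RR 5 V) σ ∈ Jid Δ (ga α VP) 5 → r f = s := by
    intro f s hs
    have h1 := Ideal.sub_mem _ hs (hr f)
    have h2 : homogeneousComponent 5 f - s • xm (RR 5 V) σ -
        (homogeneousComponent 5 f - r f • xm (RR 5 V) σ) = (r f - s) • xm (RR 5 V) σ := by
      rw [sub_smul]
      ring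
    rw [h2] at h1
    exact sub_eq_zero.1 (uniq hG hσ hσd h1)
  let dg : MvPolynomial V (RR 5 V) →ₗ[RR 5 V] RR 5 V :=
    { toFun := r
      map_add' := by
        intro f g
        apply hun
        have h1 := Ideal.add_mem _ (hr f) (hr g)
        have h2 : homogeneousComponent 5 (f + g) - (r f + r g) • xm (RR 5 V) σ =
            homogeneousComponent 5 f - r f • xm (RR 5 V) σ +
              (homogeneousComponent 5 g - r g • xm (RR 5 V) σ) := by
          rw [map_add, add_smul]
          ring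
        rw [h2]
        exact h1
      map_smul' := by
        intro c f
        apply hun
        have h1 := Ideal.mul_mem_left _ (C c) (hr f)
        have h2 : homogeneousComponent 5 (c • f) - (c * r f) • xm (RR 5 V) σ =
            C c * (homogeneousComponent 5 f - r f • xm (RR 5 V) σ) := by
          rw [map_smul, mul_sub, ← smul_eq_C_mul, ← smul_eq_C_mul, mul_smul]
        simp only [RingHom.id_apply, smul_eq_mul]
        rw [h2]
        exact h1 }
  have hdg : ∀ f, dg f = r f := fun f => rfl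
  have hxσ : (xm (RR 5 V) σ).IsHomogeneous 5 := hσd ▸ xm_hom σ
  refine ⟨dg, ⟨?_, ?_, ?_, ?_⟩⟩
  · intro f hf
    rw [hdg]
    apply hun
    rw [zero_smul, sub_zero]
    exact homComp_mem_J hG.hs.down 5 hf
  · intro n hn f hf
    rw [hdg]
    apply hun
    rw [zero_smul, sub_zero, homogeneousComponent_of_mem ((mem_homogeneousSubmodule n f).2 hf),
      if_neg hn.symm]
    exact Ideal.zero_mem _
  · intro f hf
    have h1 := hr f
    rw [homComp_self hf] at h1
    rw [hdg, ← smul_eq_C_mul]
    exact h1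
  · rw [hdg]
    apply hun
    rw [one_smul, homComp_self hxσ, sub_self]
    exact Ideal.zero_mem _

end CSLef.D5
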