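import Mathlib
import Pool.Agent.Work.MP_38c61c_al.D5.StmtsX

/-!
Block D5, item Xdga (helper82).
-/

set_option autoImplicit false

namespace CSLef.D5

open MvPolynomial Finset

namespace IXdga

variable {V : Type} [Fintype V] [DecidableEq V]

theorem ga_inv {Δ : Finset (Finset V)} {α : Equiv.Perm V} {VP : Finset V} (hG : HG Δ α VP)
    (l : ℕ) (v : V) : ga α VP l (α v) = - ga α VP l v := by
  unfold ga
  rw [aP_inv hG.cs.invol hG.vp, map_neg]

theorem comp_rename {R : Type*} [CommRing R] {α : Equiv.Perm V} (hinv : ∀ v, α (α v) = v)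
    (n : ℕ) (g : MvPolynomial V R) :
    homogeneousComponent n (rename α g) = rename α (homogeneousComponent n g) := by
  ext m
  rw [coeff_homogeneousComponent, coeff_rename_inv hinv, coeff_rename_inv hinv,
    coeff_homogeneousComponent]
  have : (m.mapDomain α).degree = m.degree := Finsupp.degree_mapDomain _ _
  rw [this]

end IXdga

open IXdga

/-- item Xdga -/
theorem pr_Xdga {V : Type} [Fintype V] [DecidableEq V] (Δ : Finset (Finset V))
    (α : Equiv.Perm V) (VP : Finset V) (hG : HG Δ α VP) : StXdga Δ α VP := by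
  intro σ hσ hc dg hdg
  have hinv : ∀ v, α (α v) = v := hG.cs.invol
  have H := locHyp hG.hs hG.cs hG.vp
  have ha : ∀ l v, ga α VP l (α v) = - ga α VP l v := ga_inv hG
  have hxh : (xm (RR 5 V) σ).IsHomogeneous 5 := hc ▸ xm_hom σ
  have hxh' : (rename α (xm (RR 5 V) σ)).IsHomogeneous 5 := hxh.rename_isHomogeneous
  obtain ⟨κ, hκdef⟩ : ∃ κ, κ = dg (rename α (xm (RR 5 V) σ)) := ⟨_, rfl⟩
  have hκ : ∀ g : MvPolynomial V (RR 5 V), g.IsHomogeneous 5 →
      dg (rename α g) = κ * dg g := by
    intro g hg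
    have h1 := rename_J hG.cs ha (hdg.t g hg)
    have h2 := hdg.J _ h1
    rw [map_sub, map_mul, rename_C, map_sub, ← MvPolynomial.smul_eq_C_mul, map_smul,
      smul_eq_mul, ← hκdef] at h2
    rw [sub_eq_zero] at h2
    rw [h2, mul_comm]
  have hκ2 : κ * κ = 1 := by
    have h := hκ (rename α (xm (RR 5 V) σ)) hxh'
    rw [rename_rename_inv hinv, hdg.s, ← hκdef] at h
    exact h.symm
  have hκ1 : κ = 1 := by
    rcases mul_self_eq_one_iff.mp hκ2 with h | h
    · exact h
    · exfalso
      have h1 : xm (RR 5 V) σ + rename α (xm (RR 5 V) σ) ∈ Jid Δ (ga α VP) 5 := by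
        have h2 := hdg.t _ (hxh.add hxh')
        rw [map_add, hdg.s, ← hκdef, h, add_neg_cancel, C_0, zero_mul, sub_zero] at h2
        exact h2
      obtain ⟨g, hg⟩ := star H hG.cs ha 5 le_rfl _ h1
      have hg2 := homComp_mem_J H.hs.down 5 hg
      rw [map_sub, map_sub, homComp_self hxh, comp_rename hinv] at hg2
      have hg'h : (homogeneousComponent 5 g).IsHomogeneous 5 :=
        homogeneousComponent_isHomogeneous _ _
      have h3 := hdg.J _ hg2
      rw [map_sub, map_sub, hdg.s, hκ _ hg'h, h] at h3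
      have h4 : (2 : RR 5 V) * dg (homogeneousComponent 5 g) = 1 := by linear_combination -h3
      have h5 := congrArg (red 5 V) h4
      rw [map_mul, red_two, zero_mul, map_one] at h5
      exact zero_ne_one h5
  intro f
  conv_lhs => rw [← sum_homogeneousComponent f]
  conv_rhs => rw [← sum_homogeneousComponent f]
  rw [map_sum, map_sum, map_sum]
  refine Finset.sum_congr rfl fun n _ => ?_
  have hn := homogeneousComponent_isHomogeneous n f
  by_cases h5 : n = 5
  · subst h5
    rw [hκ _ hn, hκ1, one_mul]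
  · rw [hdg.h n h5 _ hn.rename_isHomogeneous, hdg.h n h5 _ hn]

end CSLef.D5
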