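import Mathlib
import Pool.Agent.Work.MP_38c61c_al.D5.StmtsX

/-!
Block D5, item Xind: five distinct columns are independent modulo 2.
-/

namespace CSLef.D5

open MvPolynomial Finset

namespace IXind

theorem dvd_eval {V : Type} [Fintype V] [DecidableEq V] (P : PR 5 V)
    (h : (2 : RR 5 V) ∣ algebraMap (PR 5 V) (RR 5 V) P) (φ : Om 5 V → ℤ) :
    (2 : ℤ) ∣ MvPolynomial.eval φ P := by
  have h1 : algebraMap (PR 5 V) (RR 5 V) P ∈ IsLocalRing.maximalIdeal (RR 5 V) := by
    rw [max_eq, Ideal.mem_span_singleton]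
    exact h
  rw [IsLocalization.AtPrime.to_map_mem_maximal_iff (RR 5 V) (Ideal.span {(2 : PR 5 V)}),
    Ideal.mem_span_singleton] at h1
  obtain ⟨Q, rfl⟩ := h1
  refine ⟨MvPolynomial.eval φ Q, ?_⟩
  rw [map_mul, map_ofNat]

theorem eval_aP {V : Type} [Fintype V] [DecidableEq V] (α : Equiv.Perm V) (VP : Finset V)
    (φ : Om 5 V → ℤ) (l : Fin 5) (v : V) (hv : v ∈ VP) :
    MvPolynomial.eval φ (aP 5 α VP (l : ℕ) v) = φ (Sum.inl (l, Sum.inl v)) := by
  unfold aP pP
  rw [dif_pos l.2]
  simp only [hv, if_true, MvPolynomial.eval_X]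

end IXind

open IXind in
theorem pr_Xind {V : Type} [Fintype V] [DecidableEq V] (α : Equiv.Perm V) (VP : Finset V) :
    StXind α VP := by
  constructor
  · intro c' hc hVP hdvd
    let φ : Om 5 V → ℤ := fun s => match s with
      | Sum.inl (l, Sum.inl v) => if v = c' l then 1 else 0
      | _ => 0
    have h1 : Matrix.det (fun i l : Fin 5 => ga α VP l (c' i)) =
        algebraMap (PR 5 V) (RR 5 V) (Matrix.det (fun i l : Fin 5 => aP 5 α VP l (c' i))) := by
      rw [RingHom.map_det]
      rfl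
    rw [h1] at hdvd
    have h2 := dvd_eval _ hdvd φ
    rw [RingHom.map_det] at h2
    have h3 : (MvPolynomial.eval φ).mapMatrix (fun i l : Fin 5 => aP 5 α VP (l : ℕ) (c' i)) =
        (1 : Matrix (Fin 5) (Fin 5) ℤ) := by
      ext i l
      show MvPolynomial.eval φ (aP 5 α VP (l : ℕ) (c' i)) = _
      rw [eval_aP α VP φ l (c' i) (hVP i), Matrix.one_apply]
      show (if c' i = c' l then (1 : ℤ) else 0) = _
      simp only [hc.eq_iff]
    rw [h3, Matrix.det_one] at h2
    omega
  · intro v hv hdvd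
    let φ : Om 5 V → ℤ := fun s => match s with
      | Sum.inl (l, Sum.inl u) => if l = 0 ∧ u = v then 1 else 0
      | Sum.inr (Sum.inl l) => if l = 0 then 1 else 0
      | _ => 0
    have h1 : ∑ l ∈ range 5, gm V l * ga α VP l v =
        algebraMap (PR 5 V) (RR 5 V) (∑ l ∈ range 5, muP l * aP 5 α VP l v) := by
      rw [map_sum]
      refine Finset.sum_congr rfl fun l _ => ?_
      rw [map_mul]
      rfl
    rw [h1] at hdvd
    have h2 := dvd_eval _ hdvd φ
    have h3 : MvPolynomial.eval φ (∑ l ∈ range 5, muP l * aP 5 α VP l v) = 1 := by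
      rw [map_sum, ← Fin.sum_univ_eq_sum_range
        (fun l => MvPolynomial.eval φ (muP l * aP 5 α VP l v)) 5]
      have h4 : ∀ l : Fin 5, MvPolynomial.eval φ (muP (l : ℕ) * aP 5 α VP (l : ℕ) v) =
          if l = 0 then 1 else 0 := by
        intro l
        rw [map_mul, eval_aP α VP φ l v hv]
        unfold muP
        rw [dif_pos l.2, MvPolynomial.eval_X]
        show (if l = 0 then (1 : ℤ) else 0) * (if l = 0 ∧ v = v then (1 : ℤ) else 0) = _
        by_cases hl : l = 0
        · simp [hl]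
        · simp [hl]
      simp only [h4]
      simp
    rw [h3] at h2
    omega

end CSLef.D5
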