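import Mathlib
import Pool.Agent.Work.MP_38c61c_al.D5.StmtsX

/-!
Block D5, item Xrelb: the relations modulo 2.
-/

namespace CSLef.D5

open MvPolynomial Finset

namespace IXrelb

variable {V : Type} [Fintype V] [DecidableEq V]
variable {R F : Type*} [CommRing R] [IsDomain R] [IsLocalRing R] [IsNoetherianRing R]
  [Field F] [CharP F 2] {π : R →+* F}
variable {Δ : Finset (Finset V)} {a : ℕ → V → R} {d : ℕ} {α : Equiv.Perm V}
variable {VP : Finset V} {p : ℕ → V ⊕ Bool → F} {D : ℕ → V ⊕ Bool → Derivation ℤ F F}
  {μ : ℕ → F} {c : V → F} {Dm : ℕ → Derivation ℤ F F} {Dc : V → Derivation ℤ F F}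

/-- the relations modulo 2, over the local ring -/
theorem relR (H : LocHyp π Δ d a) (S : Setup Δ d α VP p D μ c Dm Dc)
    (hp : ∀ l v, p l (Sum.inl v) = π (a l v)) {μR : ℕ → R} {cR : V → R}
    (hμ : ∀ l, μ l = π (μR l)) (hc : ∀ v, c v = π (cR v))
    (ha : ∀ l v, a l (α v) = - a l v) (δ : V → Derivation ℤ R R)
    (δa : ∀ v l u, δ v (a l u) = 0) (δμ : ∀ v l, δ v (μR l) = 0)
    (δc : ∀ v ∈ VP, ∀ v', δ v (cR v') = if v = v' then 1 else 0)
    (δ2 : ℕ → V → Derivation ℤ R R)
    (δ2a : ∀ l < d, ∀ v ∈ VP, ∀ l' < d, ∀ u, δ2 l v (a l' u) =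
      if l = l' then (if u = v then 1 else if u = α v then -1 else 0) else 0)
    (δ2μ : ∀ l v l', δ2 l v (μR l') = 0) (δ2c : ∀ l v v', δ2 l v (cR v') = 0)
    (hd : 1 ≤ d) {i : ℕ} (hik : i + i + 1 = d) {ε : R} (hε : ε * ε = 1)
    {y : MvPolynomial V R} (hy1 : y.IsHomogeneous i)
    (hwy : welA d α VP a μR cR * y ∈ Jid Δ a d)
    (hy3 : rename α y - ε • y ∈ Jid Δ a d) (u v : V) (gs : List V)
    (hgs : gs.length + 2 + i = d) :
    piF Δ d p D (X u * X v * (gs.map (yy F α)).prod * MvPolynomial.map π y) = 0 := by
  set w := welA d α VP a μR cR with hwdef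
  set J := Jid Δ a d with hJ
  have hy2 : w ^ (0 + 1) * y ∈ J := by rw [zero_add, pow_one]; exact hwy
  have hmapw : MvPolynomial.map π w = wel d α VP p μ c := by
    rw [hwdef]
    unfold welA wel
    rw [map_add, map_sum, map_sum]
    congr 1
    · apply Finset.sum_congr rfl
      intro l _
      rw [map_mul, map_C, hμ, map_sum]
      congr 1
      apply Finset.sum_congr rfl
      intro v _
      rw [map_mul, map_C, map_X, hp]
    · apply Finset.sum_congr rfl
      intro v _
      rw [map_mul, map_C, hc]
      unfold yy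
      rw [map_add, map_X, map_X]
  -- the derivative of the Lefschetz element
  have hdw : ∀ u ∈ VP, dmap (δ u) w = yy R α u := by
    intro u hu
    rw [hwdef]
    unfold welA
    rw [dmap_add, dmap_sum, dmap_sum]
    have h3 : ∀ l ∈ range d, dmap (δ u) (C (μR l) *
        (∑ v ∈ VP, C (a l v) * X v : MvPolynomial V R)) = 0 := by
      intro l _
      rw [dmap_mul, dmap_C, δμ, dmap_sum, map_zero, zero_mul, zero_add]
      rw [Finset.sum_eq_zero, mul_zero]
      intro v _
      rw [dmap_mul, dmap_C, δa, dmap_X, map_zero, zero_mul, mul_zero, add_zero]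
    rw [Finset.sum_eq_zero h3, zero_add]
    have h4 : ∀ v ∈ VP, dmap (δ u) (C (cR v) * yy R α v : MvPolynomial V R) =
        if u = v then yy R α v else 0 := by
      intro v _
      have h5 : dmap (δ u) (yy R α v) = 0 := by
        unfold yy
        rw [dmap_add, dmap_X, dmap_X, add_zero]
      rw [dmap_mul, dmap_C, δc u hu, h5, mul_zero, add_zero]
      split_ifs <;> simp
    rw [Finset.sum_congr rfl h4, Finset.sum_ite_eq VP u, if_pos hu]
  have hder : ∀ u, w ^ 0 * yy R α u * y ^ 2 ∈ J := by
    have key : ∀ u ∈ VP, w ^ 0 * yy R α u * y ^ 2 ∈ J := by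
      intro u hu
      have h1 := dmap_J H.hs.down (δ u) (δa u) hwy
      rw [dmap_mul, hdw u hu] at h1
      have h2 := Ideal.mul_mem_left _ y h1
      have h4 := Ideal.sub_mem _ h2 (Ideal.mul_mem_right (dmap (δ u) y) _ hwy)
      convert h4 using 1
      ring
    intro u
    by_cases hu : u ∈ VP
    · exact key u hu
    · have h1 : α u ∈ VP := by
        by_contra h'
        exact hu ((S.vp u).mpr h')
      have h2 := key _ h1
      have h3 : yy R α (α u) = yy R α u := by
        unfold yy; rw [S.cs.invol]; ring
      rwa [h3] at h2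
  have hysq : rename α (y ^ 2) - y ^ 2 ∈ J := by
    have h1 : rename α (y ^ 2) - y ^ 2 =
        (rename α y - ε • y) * (rename α y + ε • y) := by
      rw [map_pow, smul_eq_C_mul]
      have h2 : (C ε * y) * (C ε * y) = y ^ 2 := by
        have : (C ε * y) * (C ε * y) = C (ε * ε) * y ^ 2 := by rw [map_mul]; ring
        rw [this, hε, map_one, one_mul]
      linear_combination h2
    rw [h1]
    exact Ideal.mul_mem_right _ _ hy3
  have hw1 : ∀ v, piF Δ d p D (MvPolynomial.map π (w ^ 0 * X v * y ^ 2)) = 0 := by
    intro v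
    apply piF_zero_of_add_rename H S hp ha hd
    · have h1 := (isHomogeneous_X R v).mul (hy1.pow 2)
      rw [pow_zero, one_mul]
      convert h1 using 1
      omega
    · have h1 : w ^ 0 * X v * y ^ 2 + rename α (w ^ 0 * X v * y ^ 2) =
          w ^ 0 * yy R α v * y ^ 2 + X (α v) * (rename α (y ^ 2) - y ^ 2) := by
        rw [pow_zero, one_mul, one_mul, map_mul, rename_X]
        unfold yy
        ring
      rw [h1]
      exact Ideal.add_mem _ (hder v) (Ideal.mul_mem_left _ _ hysq)
  have hmapf : ∀ n v, MvPolynomial.map π (w ^ n * X v * y ^ 2) =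
      (wel d α VP p μ c) ^ n * X v * (MvPolynomial.map π y) ^ 2 := by
    intro n v
    rw [map_mul, map_mul, map_pow, map_pow, map_X, hmapw]
  have hw2 : ∀ v, piF Δ d p D (MvPolynomial.map π (w ^ (0 + 1) * X v * y ^ 2)) = 0 := by
    have h := exact2 H S hp ha δ2 δ2a δ2μ δ2c hd (k := 0) (by omega) hε hy1 hy2 hy3 hder hw1
    exact h
  have hX1 : ∀ v, piF Δ d p D (X v * (MvPolynomial.map π y) ^ 2) = 0 := by
    intro v
    have h := hw1 v
    rw [hmapf, pow_zero, one_mul] at h
    exact h
  have hwX : ∀ v, piF Δ d p D (wel d α VP p μ c * (X v * (MvPolynomial.map π y) ^ 2)) = 0 := by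
    intro v
    have h := hw2 v
    rw [hmapf, zero_add, pow_one, mul_assoc] at h
    exact h
  apply rel_b1 S (e := i) hik hX1 _ u v gs hgs
  intro v
  exact derive_m S ((Con.X v).mul (Con.sq _)) (hwX v) (by omega)

end IXrelb

open IXrelb in
/-- Item Xrelb. -/
theorem pr_Xrelb {V : Type} [Fintype V] [DecidableEq V] (Δ : Finset (Finset V))
    (α : Equiv.Perm V) (VP : Finset V) (hG : HG Δ α VP) (h1 : StXpi Δ α VP) :
    StXrelb Δ α VP := by
  intro σ hσ hσd dg hdg ε y hε hy hwy hy3 u v q
  have hα := hG.cs
  have hvp := hG.vp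
  have hom : (X u * X v * yy (RR 5 V) α q * y).IsHomogeneous 5 := by
    have hyy : (yy (RR 5 V) α q).IsHomogeneous 1 :=
      (isHomogeneous_X _ _).add (isHomogeneous_X _ _)
    exact (((isHomogeneous_X (RR 5 V) u).mul (isHomogeneous_X (RR 5 V) v)).mul hyy).mul hy
  rw [← (h1 σ hσ hσd dg hdg).2.2 _ hom]
  have key := relR (locHyp hG.hs hα hvp) (setupF hG.hs hα hvp)
    (μR := fun l => algebraMap _ _ (muP l))
    (cR := fun v => algebraMap _ _ (cP v)) (fun l v => rfl) (fun l => rfl) (fun v => rfl)
    (by
      intro l v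
      rw [aP_inv hα.invol hvp, map_neg])
    (fun v => LD (DcP v))
    (by
      intro v l u
      rw [liftD_algebraMap]
      have : DcP v (pP α VP l (Sum.inl u) : PR 5 V) = 0 := by
        by_cases hl' : l < 5
        · rw [pP_eq α VP l hl']
          unfold DcP
          rw [Derivation.leibniz, Derivation.map_intCast, smul_zero, add_zero, pderiv_X,
              Pi.single_eq_of_ne (by simp), smul_zero]
        · unfold pP
          rw [dif_neg hl', map_zero]
      unfold aP
      rw [this, map_zero])
    (by
      intro v l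
      rw [liftD_algebraMap]
      have : DcP v (muP l : PR 5 V) = 0 := by
        unfold DcP muP
        split_ifs
        · rw [pderiv_X, Pi.single_eq_of_ne (by simp)]
        · simp
      rw [this, map_zero])
    (by
      intro v _ v'
      rw [liftD_algebraMap]
      have : DcP v (cP v' : PR 5 V) = if v = v' then 1 else 0 := by
        unfold DcP cP
        rw [pderiv_X]
        by_cases h : v = v'
        · subst h; simp
        · rw [if_neg h, Pi.single_eq_of_ne]
          intro heq
          apply h
          simp only [Sum.inr.injEq] at heq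
          exact heq.symm
      rw [this]
      split_ifs <;> simp)
    (fun l v => LD (DP α VP l (Sum.inl v)))
    (by
      intro l hl v hv l' hl' u
      rw [liftD_algebraMap]
      unfold aP
      rw [DP_pP hα.invol hvp]
      unfold relW sgn
      by_cases hll : l = l'
      · by_cases huv : u = v
        · subst huv
          rw [if_pos ⟨hll, hl, Or.inl rfl⟩, if_pos hll, if_pos rfl]
          simp [hv]
        · by_cases huv' : u = α v
          · subst huv'
            rw [if_pos ⟨hll, hl, Or.inr rfl⟩, if_pos hll, if_neg huv, if_pos rfl]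
            simp [(hvp v).mp hv]
          · rw [if_neg, if_pos hll, if_neg huv, if_neg huv', map_zero]
            rintro ⟨_, _, h | h⟩
            · exact huv h.symm
            · exact huv' h
      · rw [if_neg (fun h => hll h.1), if_neg hll, map_zero])
    (by
      intro l v l'
      rw [liftD_algebraMap]
      have : DP α VP l (Sum.inl v) (muP l' : PR 5 V) = 0 := by
        unfold DP muP
        split_ifs
        · rw [pderiv_X, Pi.single_eq_of_ne (by simp)]
        · simp
        · simp
        · simp
      rw [this, map_zero])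
    (by
      intro l v v'
      rw [liftD_algebraMap]
      have : DP α VP l (Sum.inl v) (cP v' : PR 5 V) = 0 := by
        unfold DP cP
        split_ifs
        · rw [pderiv_X, Pi.single_eq_of_ne (by simp)]
        · simp
      rw [this, map_zero])
    (by norm_num) (i := 2) (by norm_num) hε hy hwy hy3 u v [q] (by simp)
  have h2 : MvPolynomial.map (red 5 V) (X u * X v * yy (RR 5 V) α q * y) =
      X u * X v * (([q] : List V).map (yy (FF 5 V) α)).prod *
        MvPolynomial.map (red 5 V) y := by
    unfold yy
    simp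
  rw [h2]
  exact key

end CSLef.D5
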