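import Mathlib
import Pool.Agent.Work.MP_38c61c_al.D5.StmtsX

/-!
Block D5, item Xtate: the Tate property over the generic ring.
-/

namespace CSLef.D5

open MvPolynomial Finset

namespace IXtate

variable {V : Type} [Fintype V] [DecidableEq V]

omit [Fintype V] [DecidableEq V] in
/-- the product of the half linear forms is homogeneous -/
theorem hom_W {A : Type*} [CommRing A] (VP : Finset V) (a : ℕ → V → A) (I : Finset ℕ) (b : A) :
    (C b * ∏ i ∈ I, (∑ v ∈ VP, C (a i v) * X v) : MvPolynomial V A).IsHomogeneous I.card := by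
  have h1 : (∏ i ∈ I, (∑ v ∈ VP, C (a i v) * X v) : MvPolynomial V A).IsHomogeneous
      (∑ _i ∈ I, 1) := by
    apply IsHomogeneous.prod
    intro i _
    apply IsHomogeneous.sum
    intro v _
    have := (isHomogeneous_C V (a i v)).mul (isHomogeneous_X A v)
    rwa [zero_add] at this
  rw [Finset.sum_const, smul_eq_mul, mul_one] at h1
  have h2 := (isHomogeneous_C V b).mul h1
  rwa [zero_add] at h2

omit [Fintype V] [DecidableEq V] in
/-- homogeneous component of the sum of the products -/
theorem hc_W {A : Type*} [CommRing A] (VP : Finset V) (a : ℕ → V → A) (n d : ℕ)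
    (β : Finset ℕ → A) :
    homogeneousComponent n (∑ I ∈ (range d).powerset,
      C (β I) * ∏ i ∈ I, (∑ v ∈ VP, C (a i v) * X v) : MvPolynomial V A) =
      ∑ I ∈ (range d).powersetCard n, C (β I) * ∏ i ∈ I, (∑ v ∈ VP, C (a i v) * X v) := by
  rw [map_sum, Finset.powersetCard_eq_filter, Finset.sum_filter]
  apply Finset.sum_congr rfl
  intro I _
  rw [homogeneousComponent_of_mem ((mem_homogeneousSubmodule _ _).mpr (hom_W VP a I (β I)))]
  by_cases h : I.card = n
  · rw [if_pos h, if_pos h.symm]
  · rw [if_neg h, if_neg (fun h' => h h'.symm)]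

omit [Fintype V] [DecidableEq V] in
/-- reduction of the sum of the products -/
theorem map_W {A B : Type*} [CommRing A] [CommRing B] (ψ : A →+* B) (VP : Finset V)
    (a : ℕ → V → A) (S : Finset (Finset ℕ)) (β : Finset ℕ → A) :
    MvPolynomial.map ψ (∑ I ∈ S, C (β I) * ∏ i ∈ I, (∑ v ∈ VP, C (a i v) * X v)) =
      ∑ I ∈ S, C (ψ (β I)) * ∏ i ∈ I, (∑ v ∈ VP, C (ψ (a i v)) * X v) := by
  simp only [map_sum, map_mul, map_prod, map_C, map_X]

omit [Fintype V] [DecidableEq V] in
/-- homogeneous lifts -/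
theorem hom_lift {A B : Type*} [CommRing A] [CommRing B] (ψ : A →+* B)
    (hψ : Function.Surjective ψ) {n : ℕ} {g : MvPolynomial V B} (hg : g.IsHomogeneous n) :
    ∃ G : MvPolynomial V A, G.IsHomogeneous n ∧ MvPolynomial.map ψ G = g := by
  classical
  obtain ⟨G, hG⟩ := MvPolynomial.map_surjective (σ := V) ψ hψ g
  refine ⟨homogeneousComponent n G, homogeneousComponent_isHomogeneous _ _, ?_⟩
  rw [← homogeneousComponent_eq_self hg, ← hG]
  ext m
  simp only [coeff_homogeneousComponent, coeff_map]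
  split_ifs <;> simp

end IXtate

theorem pr_Xtate {V : Type} [Fintype V] [DecidableEq V] (Δ : Finset (Finset V))
    (α : Equiv.Perm V) (VP : Finset V) (hG : HG Δ α VP) (h1 : StTateF) : StXtate Δ α VP := by
  intro n f hf hfα
  have H : LocHyp (red 5 V) Δ 5 (ga α VP) := locHyp hG.hs hG.cs hG.vp
  have hanti : ∀ l v, (fun l v => red 5 V (ga α VP l v)) l (α v) =
      - (fun l v => red 5 V (ga α VP l v)) l v := by
    intro l v
    change red 5 V (ga α VP l (α v)) = - red 5 V (ga α VP l v)
    unfold ga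
    rw [aP_inv hG.cs.invol hG.vp, map_neg, map_neg]
  have h2 := map_J (red 5 V) H.hs.down hfα
  rw [map_sub, map_rename] at h2
  have h3 : MvPolynomial.map (red 5 V) f + rename α (MvPolynomial.map (red 5 V) f) ∈
      Jid Δ (fun l v => red 5 V (ga α VP l v)) 5 := by
    have h4 : MvPolynomial.map (red 5 V) f + rename α (MvPolynomial.map (red 5 V) f) =
        (rename α (MvPolynomial.map (red 5 V) f) - MvPolynomial.map (red 5 V) f) +
          2 * MvPolynomial.map (red 5 V) f := by ring
    have h5 : (2 : MvPolynomial V (FF 5 V)) = 0 := CharTwo.two_eq_zero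
    rw [h4, h5, zero_mul, add_zero]
    exact h2
  obtain ⟨β, g, hg⟩ := h1 Δ α VP (fun l v => red 5 V (ga α VP l v)) 5 hG.hs hG.cs hG.vp hanti
    H.ind 5 le_rfl _ h3
  have h6 := homComp_mem_J H.hs.down n hg
  rw [map_sub, map_sub, IXtate.hc_W, homComp_self (hf.map (red 5 V)), map_add,
    ← rename_homogeneousComponent] at h6
  obtain ⟨G, hG1, hG2⟩ := IXtate.hom_lift (red 5 V) (red_surj 5 V)
    (homogeneousComponent_isHomogeneous n g)
  choose β' hβ' using fun I => red_surj 5 V (β I)
  set D : MvPolynomial V (RR 5 V) := f - ∑ I ∈ (range 5).powersetCard n,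
    C (β' I) * ∏ i ∈ I, (∑ v ∈ VP, C (ga α VP i v) * X v) - (G + rename α G) with hD
  have hDh : D.IsHomogeneous n := by
    rw [hD]
    apply IsHomogeneous.sub
    · apply hf.sub
      apply IsHomogeneous.sum
      intro I hI
      have := IXtate.hom_W VP (ga α VP) I (β' I)
      rwa [(Finset.mem_powersetCard.mp hI).2] at this
    · exact hG1.add hG1.rename_isHomogeneous
  have hDJ : MvPolynomial.map (red 5 V) D ∈ Jid Δ (fun l v => red 5 V (ga α VP l v)) 5 := by
    rw [hD, map_sub, map_sub, IXtate.map_W, map_add, map_rename, hG2]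
    simp only [hβ']
    exact h6
  obtain ⟨e, he, _, v, hv, hev⟩ := lift_J_hom (red 5 V) H.hs.down H.surj H.ker hDh hDJ
  refine ⟨β', G, v, hG1, hv, ?_⟩
  rw [← hD, hev, add_sub_cancel_right]
  exact he

end CSLef.D5
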