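import Mathlib
import Pool.Agent.Work.MP_38c61c_al.D5.I_Beta
import Pool.Agent.Work.MP_38c61c_al.D5.I_C4
import Pool.Agent.Work.MP_38c61c_al.D5.I_CL
import Pool.Agent.Work.MP_38c61c_al.D5.I_Clo
import Pool.Agent.Work.MP_38c61c_al.D5.I_Core
import Pool.Agent.Work.MP_38c61c_al.D5.I_Cr
import Pool.Agent.Work.MP_38c61c_al.D5.I_Dag1
import Pool.Agent.Work.MP_38c61c_al.D5.I_Dag2
import Pool.Agent.Work.MP_38c61c_al.D5.I_Der
import Pool.Agent.Work.MP_38c61c_al.D5.I_DisT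
import Pool.Agent.Work.MP_38c61c_al.D5.I_E4
import Pool.Agent.Work.MP_38c61c_al.D5.I_Es
import Pool.Agent.Work.MP_38c61c_al.D5.I_Eul
import Pool.Agent.Work.MP_38c61c_al.D5.I_Ev
import Pool.Agent.Work.MP_38c61c_al.D5.I_Ex1
import Pool.Agent.Work.MP_38c61c_al.D5.I_Ex2
import Pool.Agent.Work.MP_38c61c_al.D5.I_F3
import Pool.Agent.Work.MP_38c61c_al.D5.I_Fin
import Pool.Agent.Work.MP_38c61c_al.D5.I_Four
import Pool.Agent.Work.MP_38c61c_al.D5.I_Gen
import Pool.Agent.Work.MP_38c61c_al.D5.I_HCex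
import Pool.Agent.Work.MP_38c61c_al.D5.I_HCmap
import Pool.Agent.Work.MP_38c61c_al.D5.I_Inj
import Pool.Agent.Work.MP_38c61c_al.D5.I_Int
import Pool.Agent.Work.MP_38c61c_al.D5.I_K4
import Pool.Agent.Work.MP_38c61c_al.D5.I_L4
import Pool.Agent.Work.MP_38c61c_al.D5.I_L5
import Pool.Agent.Work.MP_38c61c_al.D5.I_Lap
import Pool.Agent.Work.MP_38c61c_al.D5.I_Leq
import Pool.Agent.Work.MP_38c61c_al.D5.I_MI0
import Pool.Agent.Work.MP_38c61c_al.D5.I_MI2
import Pool.Agent.Work.MP_38c61c_al.D5.I_MI3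
import Pool.Agent.Work.MP_38c61c_al.D5.I_MI4
import Pool.Agent.Work.MP_38c61c_al.D5.I_MI5
import Pool.Agent.Work.MP_38c61c_al.D5.I_Non
import Pool.Agent.Work.MP_38c61c_al.D5.I_NonT
import Pool.Agent.Work.MP_38c61c_al.D5.I_Om
import Pool.Agent.Work.MP_38c61c_al.D5.I_P1
import Pool.Agent.Work.MP_38c61c_al.D5.I_Pe
import Pool.Agent.Work.MP_38c61c_al.D5.I_Ph
import Pool.Agent.Work.MP_38c61c_al.D5.I_PhA
import Pool.Agent.Work.MP_38c61c_al.D5.I_PhW
import Pool.Agent.Work.MP_38c61c_al.D5.I_PhX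
import Pool.Agent.Work.MP_38c61c_al.D5.I_Ps
import Pool.Agent.Work.MP_38c61c_al.D5.I_Red
import Pool.Agent.Work.MP_38c61c_al.D5.I_Rm
import Pool.Agent.Work.MP_38c61c_al.D5.I_Star
import Pool.Agent.Work.MP_38c61c_al.D5.I_SumW
import Pool.Agent.Work.MP_38c61c_al.D5.I_Sym
import Pool.Agent.Work.MP_38c61c_al.D5.I_T4
import Pool.Agent.Work.MP_38c61c_al.D5.I_TA1
import Pool.Agent.Work.MP_38c61c_al.D5.I_TA2
import Pool.Agent.Work.MP_38c61c_al.D5.I_TateF
import Pool.Agent.Work.MP_38c61c_al.D5.I_Trans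
import Pool.Agent.Work.MP_38c61c_al.D5.I_Tx
import Pool.Agent.Work.MP_38c61c_al.D5.I_VP5
import Pool.Agent.Work.MP_38c61c_al.D5.I_Ve
import Pool.Agent.Work.MP_38c61c_al.D5.I_WK
import Pool.Agent.Work.MP_38c61c_al.D5.I_WW
import Pool.Agent.Work.MP_38c61c_al.D5.I_Wa
import Pool.Agent.Work.MP_38c61c_al.D5.I_XK
import Pool.Agent.Work.MP_38c61c_al.D5.I_XT
import Pool.Agent.Work.MP_38c61c_al.D5.I_Xall
import Pool.Agent.Work.MP_38c61c_al.D5.I_Xcube
import Pool.Agent.Work.MP_38c61c_al.D5.I_Xder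
import Pool.Agent.Work.MP_38c61c_al.D5.I_Xdg
import Pool.Agent.Work.MP_38c61c_al.D5.I_Xdga
import Pool.Agent.Work.MP_38c61c_al.D5.I_Xdual
import Pool.Agent.Work.MP_38c61c_al.D5.I_XdualF
import Pool.Agent.Work.MP_38c61c_al.D5.I_Xind
import Pool.Agent.Work.MP_38c61c_al.D5.I_Xnd
import Pool.Agent.Work.MP_38c61c_al.D5.I_Xpi
import Pool.Agent.Work.MP_38c61c_al.D5.I_Xrelb
import Pool.Agent.Work.MP_38c61c_al.D5.I_Xtate

/-!
Block D5: assembly. Centrally symmetric homology 4-spheres have the weak Lefschetz property.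
-/

namespace CSLef.D5

open MvPolynomial Finset

universe u

theorem core_of_ctx {V : Type} [Fintype V] [DecidableEq V] {R : Type} [CommRing R] [IsDomain R]
    (D : Dat V R) (hC : Ctx D) : StCore D := by
  have phx := pr_PhX D hC
  have ph := pr_Ph D hC phx
  have pha := pr_PhA D hC
  have ps := pr_Ps D hC
  have ev := pr_Ev D hC
  have p1 := pr_P1 D hC phx ph pha
  have tx := pr_Tx D hC
  have f3 := pr_F3 D hC ps p1 tx
  have eul := pr_Eul D hC ev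
  have non := pr_Non D hC ev f3 eul
  have der := pr_Der D hC
  have nonT := pr_NonT D hC pha non der
  have disT := pr_DisT D hC f3
  have ex1 := pr_Ex1 D hC
  have ex2 := pr_Ex2 D hC tx ex1
  have red := pr_Red D hC pha
  have four := pr_Four D hC ex1 ex2
  have xk := pr_XK D phx p1
  have wk := pr_WK D hC xk
  have rm := pr_Rm D hC phx pha wk
  have mi0 := pr_MI0 D hC p1 xk wk
  have mi2 := pr_MI2 D hC phx tx mi0
  have mi3 := pr_MI3 D hC tx mi0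
  have mi4 := pr_MI4 D hC phx pha p1 tx
  have mi5 := pr_MI5 D hC nonT disT
  have star := pr_Star D hC p1 mi0 mi2 mi3 mi4 mi5
  have wa := pr_Wa D hC
  have sym := pr_Sym D hC
  have ww := pr_WW D hC wa
  have phw := pr_PhW D phx
  have sumw := pr_SumW D phw pr_Lap
  have beta := pr_Beta D hC p1 wa sym ww
  have ta1 := pr_TA1 D hC ph pha phw sumw beta
  have ta2 := pr_TA2 D hC ph pha phw wa sumw beta
  have int := pr_Int D hC p1 phx ta1
  have clo := pr_Clo D hC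
  have pe := pr_Pe D
  have ve := pr_Ve D phx
  have es := pr_Es D hC p1 phx non
  have e4 := pr_E4 D hC es
  have t4 := pr_T4 D hC p1 phx tx f3 nonT
  have dag1 := pr_Dag1 D hC p1 star ta2 ve e4 t4
  have dag2 := pr_Dag2 D hC pe ve e4 dag1
  have leq := pr_Leq D hC p1 phx ta1 int clo pe es
  have c4 := pr_C4 D hC e4 dag2 leq
  have l4 := pr_L4 D hC ve c4 pr_K4
  have l5 := pr_L5 D hC phx ta1 es pr_Cr
  have vp5 := pr_VP5 D hC
  have fin := pr_Fin D int clo l4 l5 vp5 pr_CL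
  exact pr_Core D hC red four rm fin

/-- injectivity over the generic ring in degree 2 -/
theorem inj5 {V : Type} [Fintype V] [DecidableEq V] (Δ : Finset (Finset V)) (α : Equiv.Perm V)
    (VP : Finset V) (hG : HG Δ α VP) (x : MvPolynomial V (RR 5 V)) (hx : x.IsHomogeneous 2)
    (hw : welA 5 α VP (ga α VP) (gm V) gc * x ∈ Jid Δ (ga α VP) 5) :
    x ∈ Jid Δ (ga α VP) 5 := by
  have xpi := pr_Xpi Δ α VP hG
  obtain ⟨D, h1, h2, h3, h4, h5, h6, hC⟩ := pr_Xall Δ α VP hG (pr_Xdg Δ α VP hG)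
    (pr_Xdga Δ α VP hG) (pr_XT Δ α VP hG) (pr_Xnd Δ α VP hG xpi) (pr_Xrelb Δ α VP hG xpi)
    (pr_Xind α VP) (pr_Xder Δ α VP hG) pr_Xcube (pr_Xdual Δ α VP hG xpi pr_XdualF)
    (pr_Xtate Δ α VP hG pr_TateF)
  have hJ : D.J = Jid Δ (ga α VP) 5 := by
    unfold Dat.J
    rw [h1, h4]
  have hW : D.w = welA 5 α VP (ga α VP) (gm V) gc := by
    unfold Dat.w
    rw [h2, h3, h4, h5, h6]
  rw [← hJ]
  apply pr_Inj D hC (core_of_ctx D hC) (max_eq 5 V) x hx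
  rw [hW, hJ]
  exact hw

/-- generic weak Lefschetz property of centrally symmetric homology 4-spheres -/
theorem main5 {V : Type} [Fintype V] [DecidableEq V] (Δ : Finset (Finset V)) (α : Equiv.Perm V)
    (VP : Finset V) (hG : HG Δ α VP) {k : Type u} [Field k] [CharZero k] :
    ∃ Φ : MvPolynomial (Fin 5 × V) k,
    (∃ A : Fin 5 → V → k, (∀ l v, A l (α v) = - A l v) ∧ eval (fun q => A q.1 q.2) Φ ≠ 0) ∧
    ∀ A : Fin 5 → V → k, (∀ l v, A l (α v) = - A l v) → eval (fun q => A q.1 q.2) Φ ≠ 0 →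
      (∀ i, (∀ x ∈ gr (Jid Δ (rowN A) 5) i,
          Ideal.Quotient.mk _ (wsum V k) * x = 0 → x = 0) ∨
        (∀ y ∈ gr (Jid Δ (rowN A) 5) (i + 1), ∃ x ∈ gr (Jid Δ (rowN A) 5) i,
          Ideal.Quotient.mk _ (wsum V k) * x = y)) ∧
      (∀ n, 5 < n → ∀ f : MvPolynomial V k, f.IsHomogeneous n → f ∈ Jid Δ (rowN A) 5) := by
  obtain ⟨g, hg, H⟩ := pr_Gen.{u} Δ α VP hG pr_HCmap pr_HCex (inj5 Δ α VP hG)
  exact pr_Trans.{u} Δ α VP hG g hg (fun ψ hψ => H ψ hψ)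

end CSLef.D5
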